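import Mathlib.RingTheory.Flat.TorsionFree
import Mathlib.Combinatorics.SimpleGraph.Basic
import Pool.Agent.MP_815c6c_an.S.EJac

-- ======== part 0: formerly Pool.Agent.MP_815c6c_an.H.Defs
section MrgPart0

/-! Scalar p-harmonic functions for large `p`: definitions of the core, `P = p - 2`.
Note: `/team-store/PLAP_T5_core1.md`. -/

set_option autoImplicit false

noncomputable section

namespace Pool.Agent.MP_815c6c_an.H

open Set Metric MeasureTheory Filter Topology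
open scoped ENNReal RealInnerProductSpace
open N (X)
open S (ei vo)

/-- states: point, value, gradient -/
abbrev St (d : ℕ) : Type := X d × ℝ × X d
/-- Hessians -/
abbrev En (d : ℕ) : Type := X d →L[ℝ] X d
/-- first order jets -/
abbrev Vc (d : ℕ) : Type := EuclideanSpace ℝ (Option (Fin d))

variable {d : ℕ}

/-- the unit vector -/
def nu (ξ : X d) : X d := ‖ξ‖⁻¹ • ξ
/-- the directions of the diffusion -/
def dir (P : ℝ) (ξ : X d) : Option (Fin d) → X d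
  | none => nu ξ
  | some k => (√P)⁻¹ • ei k
/-- admissible Hessians -/
def Adm (P : ℝ) (ξ : X d) (H : En d) : Prop :=
  (∀ v w, ⟪H v, w⟫ = ⟪v, H w⟫) ∧ ∑ k, ⟪H (dir P ξ k), dir P ξ k⟫ = 0
/-- tangent vectors -/
def tv (ξ : X d) (H : En d) (v : X d) : St d := (v, ⟪ξ, v⟫, H v)
/-- the drift -/
def dr (ξ : X d) (H : En d) : X d := (2 / ‖ξ‖) • (H (nu ξ) - ⟪H (nu ξ), nu ξ⟫ • nu ξ)
/-- the linearized operator on functions of the state -/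
def Lo (P : ℝ) (f : St d → ℝ) (z : St d) (H : En d) : ℝ :=
  fderiv ℝ f z (dr z.2.2 H, 0, 0) + ∑ k, fderiv ℝ (fderiv ℝ f) z
    (tv z.2.2 H (dir P z.2.2 k)) (tv z.2.2 H (dir P z.2.2 k))
/-- the size of the Hessian, and the square root of the cost -/
def sg (P : ℝ) (ξ : X d) (H : En d) : ℝ := ∑ k, ‖H (dir P ξ k)‖ ^ 2
def ga (P : ℝ) (ξ : X d) (H : En d) : ℝ := √(P * sg P ξ H) / ‖ξ‖

/-- the jet of `f` at the state `z` -/
structure J (P : ℝ) (z : St d) (H : En d) (f : St d → ℝ) (v : Vc d) (L : ℝ) : Prop where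
  c2 : ContDiffAt ℝ 2 f z
  gr : ∀ k, fderiv ℝ f z (tv z.2.2 H (dir P z.2.2 k)) = v k
  lo : Lo P f z H = L

/-- the jets of linear functions of the point and of the gradient -/
def vx (P : ℝ) (ξ a : X d) : Vc d := WithLp.toLp 2 fun k => ⟪a, dir P ξ k⟫
def vh (P : ℝ) (ξ : X d) (H : En d) (a : X d) : Vc d :=
  WithLp.toLp 2 fun k => ⟪a, H (dir P ξ k)⟫

/-- bounds for the gradient and for its oscillation over a closed ball -/
def Bd (T : Set (St d)) (x : X d) (r M : ℝ) : Prop := ∀ z ∈ T, ‖z.1 - x‖ ≤ r → ‖z.2.2‖ ≤ M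
def Di (T : Set (St d)) (x : X d) (r o : ℝ) : Prop :=
  ∀ z ∈ T, ∀ z' ∈ T, ‖z.1 - x‖ ≤ r → ‖z'.1 - x‖ ≤ r → ‖z.2.2 - z'.2.2‖ ≤ o

/-- what the core uses: the set `T` of states of a solution `u` on `U` -/
structure VS (P : ℝ) (U : Set (X d)) (u : X d → ℝ) (T : Set (St d)) : Prop where
  op : IsOpen U
  cont : ContinuousOn u U
  gr : ∀ z ∈ T, z.1 ∈ U ∧ z.2.1 = u z.1
  cpt : ∀ K ⊆ U, IsCompact K → IsCompact {z | z ∈ T ∧ z.1 ∈ K}
  ne : ∀ x ∈ U, ∃ ξ, (x, u x, ξ) ∈ T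
  mx : ∀ z ∈ T, z.2.2 ≠ 0 → ∀ f : St d → ℝ, ContDiffAt ℝ 2 f z → IsLocalMaxOn f T z →
    ∀ c : ℝ, 0 < c → ∃ H, Adm P z.2.2 H ∧ Lo P f z H < c * (1 + sg P z.2.2 H)
  lip : ∀ (x a : X d) (r o : ℝ), closedBall x r ⊆ U →
    (∀ z ∈ T, ‖z.1 - x‖ ≤ r → ‖z.2.2 - a‖ ≤ o) → ∀ y ∈ closedBall x r, ∀ y' ∈ closedBall x r,
    |u y - u y' - ⟪a, y - y'⟫| ≤ o * ‖y - y'‖
  ivt : ∀ (x : X d) (r a : ℝ), closedBall x r ⊆ U → 0 < a →
    (∃ z ∈ T, ‖z.1 - x‖ < r ∧ ‖z.2.2‖ ≤ a) → (∃ z ∈ T, ‖z.1 - x‖ < r ∧ a ≤ ‖z.2.2‖) →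
    ∃ z ∈ T, ‖z.1 - x‖ ≤ r ∧ ‖z.2.2‖ = a

/-- `Ψ` is a subsolution at `z` -/
def Sub (P : ℝ) (T : Set (St d)) (z : St d) (Ψ : St d → ℝ) : Prop :=
  ∃ (f : St d → ℝ) (c : ℝ), 0 < c ∧ (∀ᶠ y in 𝓝[T] z, f y ≤ Ψ y) ∧ f z = Ψ z ∧
    ∀ H, Adm P z.2.2 H → ∃ v L, J P z H f v L ∧ c * sg P z.2.2 H ≤ L

/-- affine changes of the state -/
def af (x : X d) (t r m : ℝ) (z : St d) : St d := (x + r • z.1, t + r * m * z.2.1, m • z.2.2)

/-- the intercept map and the functions of the window -/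
def yh (P : ℝ) (z : St d) : X d := √P • (z.1 - (z.2.1 / ‖z.2.2‖ ^ 2) • z.2.2)
def fR (P m : ℝ) (z : St d) : ℝ := √(‖yh P z‖ ^ 2 + z.2.1 ^ 2 + m ^ 2)
def Th (T Y : ℝ) : ℝ := Real.log (64 * T ^ 2 + Y ^ 2) / 2 - 4095 / 4096 * Real.log T
def Fc (A B s₀ s₂ t₁ n R Y : ℝ) : ℝ :=
  Th (n + t₁ * R) Y - A * Real.log (n + s₀ * R) - B * Real.log (n + s₂ * R)
def chi (P A B s₀ s₂ t₁ m : ℝ) (e : X d) (z : St d) : ℝ :=
  Fc A B s₀ s₂ t₁ |z.2.1| (fR P m z) ⟪e, yh P z⟫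

/-- the constraints on the parameters -/
structure Par (d : ℕ) (P A B s₀ s₂ t₁ : ℝ) : Prop where
  a2 : 2 ≤ A
  b0 : 0 ≤ B
  b1 : B ≤ 1 / 8
  s0 : 0 < s₀
  s2 : 0 < s₂
  t0 : 0 < t₁
  p0 : 0 ≤ P
  as : A * s₀ ≤ 1
  sd0 : s₀ * (512 * (4 * d + 112)) ≤ 1
  sd2 : s₂ * (512 * (4 * d + 112)) ≤ 1
  td : (200 + 4 * d) * t₁ ≤ 1 / 4096
  ta : 12 * A * t₁ ≤ s₀ / 4096
  bt : 8 * s₂ ^ 2 ≤ B * t₁ ^ 2
  bs : B * s₀ ≤ A * s₂
  sp : 16 ≤ s₂ * √P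
  pk : (3 + A) * 2 ^ 16 ≤ P
  pd : (8 * d + 112 : ℝ) ^ 2 ≤ P
  sz : 2 * Real.log (2 / t₁) + A * Real.log (2 / s₀) + 7 * A + 8 ≤ Real.log P / 8

/-- the flat region -/
def Rg (S τ : ℝ) (e : X d) (z : St d) : Prop :=
  1 / 8 ≤ ‖z.2.2‖ ∧ ‖z.2.2‖ ≤ 2 ∧ |z.2.1 - S * ⟪e, z.1⟫| ≤ τ * ‖z.1‖

/-- `χ` is a subsolution at `z` up to the cost -/
def Sc (P : ℝ) (z : St d) (χ : St d → ℝ) : Prop :=
  ∃ (f : St d → ℝ) (E : ℝ), 0 ≤ E ∧ (∀ᶠ y in 𝓝 z, f y ≤ χ y) ∧ f z = χ z ∧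
    ∀ H, Adm P z.2.2 H → ∃ v L, J P z H f v L ∧ E - 2 ^ 26 * ga P z.2.2 H ^ 2 ≤ L ∧
      ‖v‖ ^ 2 ≤ P * (E + ga P z.2.2 H ^ 2)

/-- the barrier of a window -/
structure Win (P A τ ρ S : ℝ) (e : X d) (χ : St d → ℝ) : Prop where
  w1 : ContinuousOn χ {z | z.2.2 ≠ 0}
  w2 : ∀ z, Rg S τ e z → ‖z.1‖ = P * ρ → χ z ≤ 0
  w3 : ∀ z, Rg S τ e z → ‖z.1‖ ≤ 2 * ρ → A / 4 * Real.log P ≤ χ z
  w4 : ∀ z, Rg S τ e z → χ z ≤ A * Real.log P
  w5 : ∀ z, Rg S τ e z → ⟪e, z.2.2⟫ ≤ S / 2 → Sc P z χ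

/-- the potential, the gain of a window, convex functions -/
def U0 (d : ℕ) (P : ℝ) (ξ : X d) : ℝ :=
  2 ^ 31 * (P * Real.log ‖ξ‖) - (4 * ‖ξ‖) ^ (-(P / (2 * d)))
def ze (S : ℝ) (e ξ : X d) : ℝ := max (S / 2 - ⟪e, ξ⟫) 0 ^ 2
def Cvx (Z : X d → ℝ) : Prop := Continuous Z ∧ ∀ a, ∃ v, ∀ ξ, Z a + ⟪v, ξ - a⟫ ≤ Z ξ

/-- slow growth excludes small gradients -/
def NS (d : ℕ) (κ P : ℝ) : Prop := ∀ (U : Set (X d)) (u : X d → ℝ) (T : Set (St d)) (x : X d)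
  (r R M : ℝ), VS P U u T → closedBall x R ⊆ U → 0 < r → r ≤ (1 / 2) ^ (κ * P) * R → 0 < M →
  (∃ z ∈ T, ‖z.1 - x‖ ≤ r ∧ M ≤ ‖z.2.2‖) → Bd T x R (2 * M) →
  ∀ z ∈ T, ‖z.1 - x‖ ≤ r → M / 4 ≤ ‖z.2.2‖

/-- the essential range of the state -/
def ER (U : Set (X d)) (u : X d → ℝ) (G : X d → X d) : Set (St d) :=
  {z | z.1 ∈ U ∧ z.2.1 = u z.1 ∧
    ∀ ε : ℝ, 0 < ε → vo U {x | ‖x - z.1‖ < ε ∧ ‖G x - z.2.2‖ < ε} ≠ 0}

end Pool.Agent.MP_815c6c_an.H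

end
end MrgPart0

-- ======== part 1: formerly Pool.Agent.MP_815c6c_an.H.Spec
section MrgPart1

/-! Scalar p-harmonic functions for large `p`: the statements of the core rows.
Note: `/team-store/PLAP_T5_core1.md`. -/

set_option autoImplicit false

noncomputable section

namespace Pool.Agent.MP_815c6c_an.H

open Set Metric MeasureTheory Filter Topology
open scoped ENNReal RealInnerProductSpace
open N (X)
open S (ei vo Wk Sb Vp)

/-! A. kits -/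

/-- the calculus of jets -/
structure Jet {d : ℕ} (P : ℝ) (z : St d) (H : En d) : Prop where
  ex : ∀ f, ContDiffAt ℝ 2 f z → ∃ v, J P z H f v (Lo P f z H)
  congr : ∀ {f g v L}, J P z H f v L → g =ᶠ[𝓝 z] f → J P z H g v L
  const : ∀ c : ℝ, J P z H (fun _ => c) 0 0
  add : ∀ {f g v w L M}, J P z H f v L → J P z H g w M →
    J P z H (fun y => f y + g y) (v + w) (L + M)
  sub : ∀ {f g v w L M}, J P z H f v L → J P z H g w M →
    J P z H (fun y => f y - g y) (v - w) (L - M)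
  addc : ∀ {f v L} (c : ℝ), J P z H f v L → J P z H (fun y => f y + c) v L
  cmul : ∀ {f v L} (c : ℝ), J P z H f v L → J P z H (fun y => c * f y) (c • v) (c * L)
  mul : ∀ {f g v w L M}, J P z H f v L → J P z H g w M →
    J P z H (fun y => f y * g y) (f z • w + g z • v) (f z * M + g z * L + 2 * ⟪v, w⟫)
  sum : ∀ {ι : Type} (s : Finset ι) {f : ι → St d → ℝ} {v : ι → Vc d} {L : ι → ℝ},
    (∀ i ∈ s, J P z H (f i) (v i) (L i)) →
    J P z H (fun y => ∑ i ∈ s, f i y) (∑ i ∈ s, v i) (∑ i ∈ s, L i)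
  comp : ∀ {f v L} (φ : ℝ → ℝ), J P z H f v L → ContDiffAt ℝ 2 φ (f z) →
    J P z H (fun y => φ (f y)) (deriv φ (f z) • v)
      (deriv φ (f z) * L + deriv (deriv φ) (f z) * ‖v‖ ^ 2)
  sq : ∀ {f v L}, J P z H f v L →
    J P z H (fun y => f y ^ 2) ((2 * f z) • v) (2 * f z * L + 2 * ‖v‖ ^ 2)
  log : ∀ {f v L}, J P z H f v L → 0 < f z →
    J P z H (fun y => Real.log (f y)) ((f z)⁻¹ • v) (L / f z - ‖v‖ ^ 2 / f z ^ 2)
  sqrt : ∀ {f v L}, J P z H f v L → 0 < f z →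
    J P z H (fun y => √(f y)) ((2 * √(f z))⁻¹ • v)
      (L / (2 * √(f z)) - ‖v‖ ^ 2 / (4 * √(f z) ^ 3))
  inv : ∀ {f v L}, J P z H f v L → f z ≠ 0 →
    J P z H (fun y => (f y)⁻¹) (-(f z ^ 2)⁻¹ • v) (-L / f z ^ 2 + 2 * ‖v‖ ^ 2 / f z ^ 3)
  rpow : ∀ {f v L} (a : ℝ), J P z H f v L → 0 < f z →
    J P z H (fun y => f y ^ a) ((a * f z ^ (a - 1)) • v)
      (a * f z ^ (a - 1) * L + a * (a - 1) * f z ^ (a - 2) * ‖v‖ ^ 2)
  exp : ∀ {f v L}, J P z H f v L →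
    J P z H (fun y => Real.exp (f y)) (Real.exp (f z) • v) (Real.exp (f z) * (L + ‖v‖ ^ 2))
  jx : ∀ a : X d, J P z H (fun y => ⟪a, y.1⟫) (vx P z.2.2 a) ⟪a, dr z.2.2 H⟫
  jt : J P z H (fun y => y.2.1) (vx P z.2.2 z.2.2) 0
  jw : ∀ a : X d, J P z H (fun y => ⟪a, y.2.2⟫) (vh P z.2.2 H a) 0
def JetS : Prop := ∀ (d : ℕ) (P : ℝ) (z : St d) (H : En d), Jet P z H

/-- elementary jets -/
structure Bas {d : ℕ} (P : ℝ) (z : St d) (H : En d) : Prop where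
  sg0 : 0 ≤ sg P z.2.2 H
  ga0 : 0 ≤ ga P z.2.2 H
  ga2 : ga P z.2.2 H ^ 2 * ‖z.2.2‖ ^ 2 = P * sg P z.2.2 H
  sge : sg P z.2.2 H = ‖H (nu z.2.2)‖ ^ 2 + P⁻¹ * ∑ k, ‖H (ei k)‖ ^ 2
  nu1 : ‖nu z.2.2‖ = 1
  ix : ∀ a b : X d, ⟪vx P z.2.2 a, vx P z.2.2 b⟫ =
    ⟪a, nu z.2.2⟫ * ⟪b, nu z.2.2⟫ + P⁻¹ * ⟪a, b⟫
  nx : ∀ a : X d, P⁻¹ * ‖a‖ ^ 2 ≤ ‖vx P z.2.2 a‖ ^ 2 ∧ ‖vx P z.2.2 a‖ ^ 2 ≤ 2 * ‖a‖ ^ 2
  nt : ‖z.2.2‖ ^ 2 ≤ ‖vx P z.2.2 z.2.2‖ ^ 2
  nh : ∀ a : X d, ‖vh P z.2.2 H a‖ ^ 2 ≤ ‖a‖ ^ 2 * sg P z.2.2 H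
  nd : ‖dr z.2.2 H‖ ^ 2 * ‖z.2.2‖ ^ 2 ≤ 4 * sg P z.2.2 H
  xx : ∀ a : X d, J P z H (fun y => ‖y.1 - a‖ ^ 2) (vx P z.2.2 ((2 : ℝ) • (z.1 - a)))
    (2 * ⟪z.1 - a, dr z.2.2 H⟫ + 2 * (1 + d / P))
  ww : ∀ a : X d, J P z H (fun y => ‖y.2.2 - a‖ ^ 2) (vh P z.2.2 H ((2 : ℝ) • (z.2.2 - a)))
    (2 * sg P z.2.2 H)
  pl : Adm P z.2.2 H → ∀ a : X d,
    J P z H (fun y => y.2.1 - ⟪y.2.2, y.1 - a⟫) (-vh P z.2.2 H (z.1 - a)) 0
  lg : Adm P z.2.2 H → 4 * d ≤ P → ∃ v L, J P z H (fun y => P * Real.log ‖y.2.2‖) v L ∧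
    ga P z.2.2 H ^ 2 / 2 ≤ L ∧ ‖v‖ ^ 2 ≤ d * ga P z.2.2 H ^ 2
def BasS : Prop := ∀ (d : ℕ) (P : ℝ) (z : St d) (H : En d), 1 ≤ P → z.2.2 ≠ 0 → Bas P z H

/-- the maximum principle on compact sets of states -/
def MpS : Prop := ∀ (d : ℕ) (P : ℝ) (U : Set (X d)) (u : X d → ℝ) (T K B : Set (St d))
  (Ψ : St d → ℝ), 1 ≤ P → VS P U u T → IsCompact K → K ⊆ T → ContinuousOn Ψ K →
  (∀ z ∈ K, z ∉ B → z.2.2 ≠ 0 ∧ K ∈ 𝓝[T] z ∧ Sub P T z Ψ) →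
  ∀ z₀ ∈ K, ∀ δ : ℝ, 0 < δ → ∃ z ∈ K, z ∈ B ∧ Ψ z₀ - δ ≤ Ψ z

/-- invariance -/
def InvS : Prop := ∀ (d : ℕ) (P : ℝ) (U : Set (X d)) (u : X d → ℝ) (T : Set (St d)) (x : X d)
  (t r m : ℝ), r ≠ 0 → 0 < m → VS P U u T →
  VS P {y | x + r • y ∈ U} (fun y => (u (x + r • y) - t) / (r * m)) (af x t r m ⁻¹' T)

/-- the largest gradient over a closed ball -/
def TopS : Prop := ∀ (d : ℕ) (P : ℝ) (U : Set (X d)) (u : X d → ℝ) (T : Set (St d)) (x : X d)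
  (r : ℝ), VS P U u T → closedBall x r ⊆ U → 0 ≤ r →
  ∃ z ∈ T, ‖z.1 - x‖ ≤ r ∧ Bd T x r ‖z.2.2‖

/-- the bundle of the kits -/
structure Kit : Prop where
  jet : JetS
  bas : BasS
  mp : MpS
  inv : InvS
  top : TopS

/-! B. the window -/

/-- the jets of the intercept map -/
def IcS : Prop := ∀ (d : ℕ) (P : ℝ) (z : St d) (H : En d), 1 ≤ P → z.2.2 ≠ 0 → Adm P z.2.2 H →
  (∀ e : X d, ∃ π ρ L, J P z H (fun y => ⟪e, yh P y⟫) (π + ρ) L ∧ ⟪π, vx P z.2.2 z.2.2⟫ = 0 ∧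
    ‖π‖ ^ 2 = ‖e‖ ^ 2 - (⟪e, z.2.2⟫ / ‖z.2.2‖) ^ 2 ∧
    ‖ρ‖ ≤ ‖e‖ * (|z.2.1| * ga P z.2.2 H / ‖z.2.2‖) ∧
    √P * |L| ≤ ‖e‖ * (8 * d * ga P z.2.2 H + 14 * |z.2.1| * ga P z.2.2 H ^ 2 / ‖z.2.2‖)) ∧
  ∃ v L, J P z H (fun y => ‖yh P y‖ ^ 2) v L ∧
    ‖v‖ ≤ 2 * ‖yh P z‖ * (1 + |z.2.1| * ga P z.2.2 H / ‖z.2.2‖) ∧
    |L| ≤ 2 * ‖yh P z‖ *
      (8 * d * ga P z.2.2 H + 14 * |z.2.1| * ga P z.2.2 H ^ 2 / ‖z.2.2‖) / √P +
      4 * (d + (z.2.1 * ga P z.2.2 H / ‖z.2.2‖) ^ 2)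

/-- the main term -/
def ThS : Prop := ∀ (d : ℕ) (P : ℝ) (z : St d) (H : En d) (f g : St d → ℝ) (n δ π ρ : Vc d)
  (L M : ℝ), J P z H f (n + δ) L → J P z H g (π + ρ) M → 0 < f z → 1 / 64 ≤ ‖n‖ ^ 2 →
  ‖n‖ ^ 2 ≤ 8 → ⟪π, n⟫ = 0 → ‖π‖ ≤ 1 → ∃ v N, J P z H (fun y => Th (f y) (g y)) v N ∧
    (‖π‖ ^ 2 / 64 - 8 / 4096 - 14 * (‖δ‖ + ‖ρ‖) - 2 * (‖δ‖ + ‖ρ‖) ^ 2) / f z ^ 2 -
      (|L| + |M|) / f z ≤ N ∧ ‖v‖ ≤ (4 + (‖δ‖ + ‖ρ‖)) / f z

/-- the radius and the logarithmic terms -/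
def RjS : Prop := ∀ (d : ℕ) (P m s : ℝ) (z : St d) (H : En d), (8 * d + 112 : ℝ) ^ 2 ≤ P → 0 < m →
  1 / 8 ≤ ‖z.2.2‖ → ‖z.2.2‖ ≤ 2 → Adm P z.2.2 H → s = 1 ∨ s = -1 → s * z.2.1 = |z.2.1| →
  (∃ v L, J P z H (fR P m) v L ∧ ‖v‖ ≤ 4 + 8 * |z.2.1| * ga P z.2.2 H ∧
    |L| ≤ ga P z.2.2 H + |z.2.1| * ga P z.2.2 H ^ 2 +
      (2 * d + 40 + 256 * (z.2.1 * ga P z.2.2 H) ^ 2) / fR P m z) ∧
  ∀ σ : ℝ, 0 < σ → σ * (512 * (4 * d + 112)) ≤ 1 →
    ∃ v L, J P z H (fun y => Real.log (s * y.2.1 + σ * fR P m y)) v L ∧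
      L ≤ 1024 * σ * ga P z.2.2 H ^ 2 - 1 / (256 * (|z.2.1| + σ * fR P m z) ^ 2) ∧
      ‖v‖ ≤ 7 / (|z.2.1| + σ * fR P m z) + 8 * σ * ga P z.2.2 H

/-- the kink -/
def KinS : Prop := ∀ (d : ℕ) (P A B s₀ s₂ t₁ n R Y : ℝ), Par d P A B s₀ s₂ t₁ → 0 < R → 0 ≤ n →
  2 * n ≤ t₁ * R → 2 * n ≤ s₀ * R → 2 * n ≤ s₂ * R → |Y| ≤ t₁ * R / 32 →
  Fc A B s₀ s₂ t₁ (-n) R Y ≤ Fc A B s₀ s₂ t₁ n R Y

/-- the geometry of the flat region -/
def ThaS : Prop := ∀ (d : ℕ) (P m S τ : ℝ) (e : X d) (z : St d), 1 ≤ P → 0 < m → 1 ≤ S → S ≤ 2 →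
  ‖e‖ = 1 → 0 ≤ τ → τ ≤ 1 / 144 → Rg S τ e z →
  (z.2.1 = 0 → |⟪e, yh P z⟫| ≤ τ * fR P m z) ∧
  (16 * fR P m z ≤ √P * |z.2.1| → ⟪e, z.2.2⟫ ≤ S / 2 → (⟪e, z.2.2⟫ / ‖z.2.2‖) ^ 2 ≤ 3 / 4)

/-- the differential inequality -/
def WfS : Prop := ∀ (d : ℕ) (P A B s₀ s₂ t₁ m S : ℝ) (e : X d) (z : St d),
  Par d P A B s₀ s₂ t₁ → 0 < m → 1 ≤ S → S ≤ 2 → ‖e‖ = 1 → Rg S (t₁ / 64) e z →
  ⟪e, z.2.2⟫ ≤ S / 2 → Sc P z (chi P A B s₀ s₂ t₁ m e)

/-- the sizes -/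
def SzS : Prop := ∀ (d : ℕ) (P A B s₀ s₂ t₁ ρ S : ℝ) (e : X d), Par d P A B s₀ s₂ t₁ → 0 < ρ →
  1 ≤ S → S ≤ 2 → ‖e‖ = 1 →
  ContinuousOn (chi P A B s₀ s₂ t₁ (√P * ρ) e) {z | z.2.2 ≠ 0} ∧
  ∃ c : ℝ, ∀ z, Rg S (t₁ / 64) e z →
    (‖z.1‖ = P * ρ → chi P A B s₀ s₂ t₁ (√P * ρ) e z + c ≤ 0) ∧
    (‖z.1‖ ≤ 2 * ρ → A / 4 * Real.log P ≤ chi P A B s₀ s₂ t₁ (√P * ρ) e z + c) ∧
    chi P A B s₀ s₂ t₁ (√P * ρ) e z + c ≤ A * Real.log P

def WinS : Prop := ∀ (d : ℕ) (A : ℝ), 2 ≤ A → ∃ τ : ℝ, 0 < τ ∧ ∀ᶠ P : ℝ in atTop,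
  ∀ (ρ S : ℝ) (e : X d), 0 < ρ → 1 ≤ S → S ≤ 2 → ‖e‖ = 1 → ∃ χ, Win P A τ ρ S e χ

/-! C. flatness and the induction -/

def TigS : Prop := ∀ (d : ℕ) (β : ℝ), 0 < β → ∃ η : ℝ, 0 < η ∧ ∀ᶠ P : ℝ in atTop,
  ∀ (U : Set (X d)) (u : X d → ℝ) (T : Set (St d)) (e : X d), VS P U u T → closedBall 0 1 ⊆ U →
    ((0 : X d), (0 : ℝ), e) ∈ T → ‖e‖ = 1 → Bd T 0 1 (1 + η) →
    ∃ x : X d, ‖x‖ ≤ 1 ∧ ‖x - e‖ ≤ β ∧ 1 - β ≤ u x

def FlaS : Prop := ∀ (d : ℕ) (τ : ℝ), 0 < τ → ∃ ϑ η : ℝ, 0 < ϑ ∧ 0 < η ∧ ∀ᶠ P : ℝ in atTop,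
  ∀ (U : Set (X d)) (u : X d → ℝ) (T : Set (St d)) (s : ℝ) (e : X d), VS P U u T →
    closedBall 0 s ⊆ U → ((0 : X d), (0 : ℝ), e) ∈ T → ‖e‖ = 1 → Bd T 0 s (1 + η) →
    ∀ x : X d, ‖x‖ ≤ ϑ * s → |u x - ⟪e, x⟫| ≤ τ * ‖x‖

/-- the gain in one window -/
def StepS : Prop := ∀ (d : ℕ) (P A τ ρ S m b : ℝ) (e : X d) (χ : St d → ℝ) (U : Set (X d))
  (u : X d → ℝ) (T : Set (St d)) (Z : X d → ℝ), 1 ≤ d → 4 * d ≤ P → 0 ≤ A → 0 < ρ → 1 ≤ S →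
  S ≤ 2 → ‖e‖ = 1 → Win P A τ ρ S e χ → VS P U u T → closedBall 0 (P * ρ) ⊆ U →
  (∀ z ∈ T, ‖z.1‖ ≤ P * ρ → ‖z.2.2‖ ≤ 2 ∧ |z.2.1 - S * ⟪e, z.1⟫| ≤ τ * ‖z.1‖) → Cvx Z → 0 ≤ m →
  (∀ z ∈ T, ‖z.1‖ ≤ P * ρ → 1 / 8 ≤ ‖z.2.2‖ → U0 d P z.2.2 + Z z.2.2 ≤ m) →
  (∀ ξ, ‖ξ‖ ≤ 2 → Z ξ ≤ b) → b + 9 * (A * Real.log P) ≤ 2 ^ (P / (2 * d)) →
  ∀ z ∈ T, ‖z.1‖ ≤ 2 * ρ → 1 / 8 ≤ ‖z.2.2‖ →
    U0 d P z.2.2 + Z z.2.2 + A / 4 * Real.log P * ze S e z.2.2 ≤ m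

/-- good windows -/
def GwS : Prop := ∀ (d : ℕ) (A : ℝ), 1 ≤ d → 2 ≤ A → ∃ η : ℝ, 0 < η ∧ ∀ᶠ P : ℝ in atTop,
  ∀ (ρ m b : ℝ) (U : Set (X d)) (u : X d → ℝ) (T : Set (St d)) (Z : X d → ℝ) (z₁ : St d),
    0 < ρ → VS P U u T → closedBall 0 (P ^ 2 * ρ) ⊆ U → z₁ ∈ T → ‖z₁.1‖ ≤ ρ → 1 ≤ ‖z₁.2.2‖ →
    Bd T 0 (P ^ 2 * ρ) 2 → Bd T 0 (P ^ 2 * ρ) ((1 + η) * ‖z₁.2.2‖) → Cvx Z → 0 ≤ m →
    (∀ z ∈ T, ‖z.1‖ ≤ P ^ 2 * ρ → 1 / 8 ≤ ‖z.2.2‖ → U0 d P z.2.2 + Z z.2.2 ≤ m) →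
    (∀ ξ, ‖ξ‖ ≤ 2 → Z ξ ≤ b) → b + 9 * (A * Real.log P) ≤ 2 ^ (P / (2 * d)) →
    ∀ z ∈ T, ‖z.1‖ ≤ ρ → 1 / 8 ≤ ‖z.2.2‖ →
      U0 d P z.2.2 + Z z.2.2 + A / 4 * Real.log P * ze ‖z₁.2.2‖ (nu z₁.2.2) z.2.2 ≤ m

/-- the induction over the windows -/
def IndS : Prop := ∀ (d : ℕ) (κ : ℝ), 1 ≤ d → 0 < κ → ∀ᶠ P : ℝ in atTop,
  ∀ (U : Set (X d)) (u : X d → ℝ) (T : Set (St d)) (r R : ℝ), VS P U u T → closedBall 0 R ⊆ U →
    0 < r → r ≤ 2 * (1 / 2) ^ (κ * P) * R → (∃ z ∈ T, ‖z.1‖ ≤ r ∧ 1 ≤ ‖z.2.2‖) → Bd T 0 R 2 →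
    ∀ z ∈ T, ‖z.1‖ ≤ r → ‖z.2.2‖ ≠ 1 / 4

def NsS : Prop := ∀ (d : ℕ) (κ : ℝ), 0 < κ → ∀ᶠ P : ℝ in atTop, NS d κ P

/-! D. the nondegenerate regime -/

/-- the barrier -/
def BarS : Prop := ∀ (d : ℕ) (P N : ℝ), 1 ≤ P → 0 < N → ∃ c : ℝ, 0 < c ∧ ∀ (U : Set (X d))
  (u : X d → ℝ) (T : Set (St d)) (x a : X d) (s o : ℝ) (z₁ : St d), VS P U u T → 0 < s → 0 < o →
  closedBall x (8 * s) ⊆ U →
  (∀ z ∈ T, ‖z.1 - x‖ ≤ 8 * s → o ≤ N * ‖z.2.2‖ ∧ ‖z.2.2 - a‖ ≤ o) → z₁ ∈ T →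
  2 * s ≤ ‖z₁.1 - x‖ → ‖z₁.1 - x‖ ≤ 6 * s → (1 - c) * o ≤ ‖z₁.2.2 - a‖ →
  ∃ y, ‖y - x‖ = s / 2 ∧ |u y - u z₁.1 - ⟪z₁.2.2, y - z₁.1⟫| ≤ o * s / 4

/-- the decay of the oscillation -/
def OscS : Prop := ∀ (d : ℕ) (P N : ℝ), 1 ≤ P → 0 < N → ∃ l : ℝ, 0 < l ∧ l < 1 ∧
  ∀ (U : Set (X d)) (u : X d → ℝ) (T : Set (St d)) (x : X d) (s o : ℝ), VS P U u T →
    closedBall x (16 * s) ⊆ U → 0 < s → Di T x (16 * s) o →
    (∀ z ∈ T, ‖z.1 - x‖ ≤ 16 * s → o ≤ N * ‖z.2.2‖) → Di T x s (l * o)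

/-! E. from weak solutions to the set of states -/

/-- the derivative of `V` -/
def NatS : Prop := ∀ (d : ℕ) (p r R : ℝ) (x : X d) (u : X d → ℝ) (G : X d → X d), 2 < p → r < R →
  Wk p (ball x R) u G → ∃ D, Sb 2 (ball x r) (fun y => Vp p (G y)) D

/-- the gradient is locally bounded -/
def LipS : Prop := ∀ d : ℕ, ∀ᶠ p : ℝ in atTop, S.LipS d p

/-- strict subsolutions are stable -/
def PerS : Prop := ∀ (d : ℕ) (P c : ℝ) (f : St d → ℝ) (z : St d), 0 < P → 0 < c → z.2.2 ≠ 0 →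
  ContDiffAt ℝ 2 f z → (∀ H, Adm P z.2.2 H → c * (1 + sg P z.2.2 H) ≤ Lo P f z H) →
  ∀ᶠ y in 𝓝 z, ∀ H, Adm P y.2.2 H → c / 2 * (1 + sg P y.2.2 H) ≤ Lo P f y H

/-- the essential range -/
def EssS : Prop := ∀ (d : ℕ) (U : Set (X d)) (u : X d → ℝ) (G : X d → X d), IsOpen U →
  ContinuousOn u U → (∀ᵐ y ∂vo U, (y, u y, G y) ∈ ER U u G) ∧
  (∀ U' ⊆ U, IsOpen U' → ∀ z : St d, z ∈ ER U' u G ↔ z ∈ ER U u G ∧ z.1 ∈ U') ∧
  (∀ z ∈ ER U u G, ∀ N ∈ 𝓝 z, vo U {y | (y, u y, G y) ∈ N} ≠ 0) ∧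
  ((∀ x ∈ U, ∃ r M : ℝ, 0 < r ∧ ∀ᵐ y ∂vo (ball x r), ‖G y‖ ≤ M) →
    (∀ K ⊆ U, IsCompact K → IsCompact {z | z ∈ ER U u G ∧ z.1 ∈ K}) ∧
    ∀ x ∈ U, ∃ ξ, (x, u x, ξ) ∈ ER U u G)

/-- the maximum principle at a point -/
def MxS : Prop := ∀ (d : ℕ) (p R : ℝ) (x : X d) (u : X d → ℝ) (G : X d → X d) (D : X d → En d),
  3 ≤ p → Wk p (ball x R) u G → ContinuousOn u (ball x R) →
  Sb 2 (ball x R) (fun y => Vp p (G y)) D → ∀ z ∈ ER (ball x R) u G, z.2.2 ≠ 0 →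
  ∀ f : St d → ℝ, ContDiffAt ℝ 2 f z → IsLocalMaxOn f (ER (ball x R) u G) z →
  ∀ c : ℝ, 0 < c → ∃ H, Adm (p - 2) z.2.2 H ∧ Lo (p - 2) f z H < c * (1 + sg (p - 2) z.2.2 H)

def VsS : Prop := ∀ (d : ℕ) (p R : ℝ) (x : X d) (u : X d → ℝ) (G : X d → X d), 3 ≤ p →
  S.LipS d p → Wk p (ball x R) u G → ContinuousOn u (ball x R) →
  VS (p - 2) (ball x R) u (ER (ball x R) u G)

/-- the result of the core -/
def CoreS : Prop := ∀ (d : ℕ) (κ : ℝ), 0 < κ → ∀ᶠ p : ℝ in atTop,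
  S.LipS d p ∧ S.OnS d p ∧ ∀ q : ℝ, κ * (p - 2) + 1 < q / 2 → S.NowS d p q

theorem core_of (sob : S.SobS) (ws : S.WsS) (dq : S.DqS) (wk : S.WkS) (mor : S.MorS) (ll : S.LlS)
    (gap : S.GapS) (jet : JetS) (bas : JetS → BasS) (mp : JetS → BasS → MpS) (top : TopS)
    (inv : InvS) (ic : Kit → IcS) (th : Kit → ThS) (rj : Kit → IcS → RjS) (kin : KinS)
    (tha : ThaS) (wf : Kit → IcS → ThS → RjS → KinS → ThaS → WfS) (sz : SzS)
    (win : Kit → WfS → SzS → WinS) (tig : Kit → IcS → TigS) (fla : Kit → TigS → FlaS)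
    (step : Kit → StepS) (gw : Kit → WinS → FlaS → StepS → GwS) (ind : Kit → GwS → IndS)
    (ns : Kit → IndS → NsS) (bar : Kit → BarS) (osc : BarS → OscS)
    (nat : S.SobS → S.WsS → S.DqS → S.WkS → NatS) (per : PerS) (lip : LipS) (ess : EssS)
    (mx : Kit → PerS → EssS → MxS)
    (vs : S.SobS → S.WsS → S.LlS → S.GapS → NatS → EssS → MxS → VsS)
    (glue : S.WsS → S.MorS → LipS → EssS → VsS → NsS → OscS → CoreS) : CoreS :=
  have k : Kit := ⟨jet, bas jet, mp jet (bas jet), inv, top⟩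
  have i := ic k
  glue ws mor lip ess (vs sob ws ll gap (nat sob ws dq wk) ess (mx k per ess))
    (ns k (ind k (gw k (win k (wf k i (th k) (rj k i) kin tha) sz) (fla k (tig k i)) (step k))))
    (osc (bar k))

end Pool.Agent.MP_815c6c_an.H

end
end MrgPart1

-- ======== part 2: formerly Pool.Agent.MP_815c6c_an.H.Ess
section MrgPart2

/-! The essential range of the state. -/

set_option autoImplicit false

noncomputable section

namespace Pool.Agent.MP_815c6c_an.H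

open Set Metric MeasureTheory Filter Topology
open scoped ENNReal RealInnerProductSpace
open N (X)
open S (vo)

namespace Ess

variable {d : ℕ} (μ : Measure (X d)) (G : X d → X d)

/-- the essential range of the graph -/
def E : Set (X d × X d) := {w | ∀ ε : ℝ, 0 < ε → μ {x | ‖x - w.1‖ < ε ∧ ‖G x - w.2‖ < ε} ≠ 0}

lemma pre (w : X d × X d) (ε : ℝ) :
    {x | ‖x - w.1‖ < ε ∧ ‖G x - w.2‖ < ε} = (fun x => (x, G x)) ⁻¹' ball w ε := by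
  ext x
  rw [mem_preimage, mem_ball, Prod.dist_eq, max_lt_iff, dist_eq_norm, dist_eq_norm]
  rfl

lemma mem_iff (w : X d × X d) : w ∈ E μ G ↔ ∀ N ∈ 𝓝 w, μ ((fun x => (x, G x)) ⁻¹' N) ≠ 0 := by
  refine ⟨fun h N hN k => ?_, fun h ε hε => ?_⟩
  · obtain ⟨ε, hε, hs⟩ := Metric.mem_nhds_iff.1 hN
    refine h ε hε ?_
    rw [pre]
    exact measure_mono_null (preimage_mono hs) k
  · rw [pre]
    exact h _ (ball_mem_nhds w hε)

lemma closed : IsClosed (E μ G) := by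
  refine isClosed_of_closure_subset fun w hw => (mem_iff μ G w).2 fun N hN => ?_
  obtain ⟨w', h1, h2⟩ := mem_closure_iff_nhds.1 hw _ (eventually_mem_nhds_iff.2 hN)
  exact (mem_iff μ G w').1 h2 N h1

lemma ae_mem : ∀ᵐ y ∂μ, (y, G y) ∈ E μ G := by
  have h : OuterMeasure.map (fun x => (x, G x)) μ.toOuterMeasure (E μ G)ᶜ = 0 := by
    refine measure_null_of_locally_null _ fun w hw => ?_
    have k := mt (mem_iff μ G w).2 hw
    push Not at k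
    obtain ⟨N, h1, h2⟩ := k
    exact ⟨N, mem_nhdsWithin_of_mem_nhds h1, h2⟩
  exact h

variable {G} {U : Set (X d)}

lemma bdd {x : X d} {r M : ℝ} (h : ∀ᵐ y ∂vo (ball x r), ‖G y‖ ≤ M) {w : X d × X d}
    (hw : w ∈ E (vo U) G) (h1 : w.1 ∈ ball x r) : ‖w.2‖ ≤ M := by
  by_contra k
  refine (mem_iff _ G w).1 hw (ball x r ×ˢ {ξ | M < ‖ξ‖}) (prod_mem_nhds
    (isOpen_ball.mem_nhds h1) ((isOpen_lt continuous_const continuous_norm).mem_nhds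
      (not_le.1 k))) (nonpos_iff_eq_zero.1 ((Measure.restrict_apply_le _ _).trans_eq ?_))
  rw [ae_restrict_iff' measurableSet_ball, ae_iff] at h
  refine measure_mono_null (fun y hy => ?_) h
  exact fun m => not_le.2 hy.2 (m hy.1)

lemma cpt (h : ∀ x ∈ U, ∃ r M : ℝ, 0 < r ∧ ∀ᵐ y ∂vo (ball x r), ‖G y‖ ≤ M) {K : Set (X d)}
    (hK : K ⊆ U) (hc : IsCompact K) : IsCompact {w | w ∈ E (vo U) G ∧ w.1 ∈ K} := by
  obtain ⟨M, hM⟩ : ∃ M : ℝ, ∀ w ∈ E (vo U) G, w.1 ∈ K → ‖w.2‖ ≤ M := by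
    refine hc.induction_on (p := fun s => ∃ M : ℝ, ∀ w ∈ E (vo U) G, w.1 ∈ s → ‖w.2‖ ≤ M)
      ⟨0, fun _ _ k => absurd k (notMem_empty _)⟩
      (fun _ _ k ⟨M, m⟩ => ⟨M, fun w h1 h2 => m w h1 (k h2)⟩)
      (fun _ _ ⟨M, m⟩ ⟨M', m'⟩ => ⟨max M M', fun w h1 h2 => h2.elim
        (fun k => (m w h1 k).trans (le_max_left _ _))
        fun k => (m' w h1 k).trans (le_max_right _ _)⟩) fun x hx => ?_
    obtain ⟨r, M, h1, h2⟩ := h x (hK hx)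
    exact ⟨ball x r, mem_nhdsWithin_of_mem_nhds (ball_mem_nhds x h1), M,
      fun w k1 k2 => bdd h2 k1 k2⟩
  exact (hc.prod (isCompact_closedBall (0 : X d) M)).of_isClosed_subset
    ((closed _ G).inter (hc.isClosed.preimage continuous_fst))
    fun w hw => ⟨hw.2, mem_closedBall_zero_iff.2 (hM w hw.1 hw.2)⟩

end Ess

open Ess

theorem ess : EssS := by
  intro d U u G hU hu
  refine ⟨?_, fun U' h1 h2 z => ⟨fun h => ⟨⟨h1 h.1, h.2.1, fun ε hε k => h.2.2 ε hε ?_⟩, h.1⟩,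
    fun h => ⟨h.2, h.1.2.1, fun ε hε k => ?_⟩⟩, fun z hz N hN => ?_, fun h => ⟨fun K h1 h2 => ?_,
    fun x hx => ?_⟩⟩
  · filter_upwards [ae_restrict_mem hU.measurableSet, ae_mem (vo U) G] with y h1 h2
    exact ⟨h1, rfl, h2⟩
  · exact nonpos_iff_eq_zero.1 ((Measure.restrict_mono h1 le_rfl _).trans_eq k)
  · refine (mem_iff (vo U) G (z.1, z.2.2)).1 h.1.2.2 (ball (z.1, z.2.2) ε ∩ U' ×ˢ univ)
      (inter_mem (ball_mem_nhds _ hε) (prod_mem_nhds (h2.mem_nhds h.2) univ_mem))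
      (nonpos_iff_eq_zero.1 ((Measure.restrict_apply_le _ _).trans_eq ?_))
    rw [Measure.restrict_apply_eq_zero' h2.measurableSet, pre G (z.1, z.2.2)] at k
    refine measure_mono_null (fun y hy => ?_) k
    exact ⟨hy.1, hy.2.1⟩
  · have c : ContinuousAt (fun w : X d × X d => ((w.1, u w.1, w.2) : St d)) (z.1, z.2.2) :=
      continuousAt_fst.prodMk ((ContinuousAt.comp (f := Prod.fst) (x := (z.1, z.2.2))
        (hu.continuousAt (hU.mem_nhds hz.1)) continuousAt_fst).prodMk continuousAt_snd)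
    refine (mem_iff (vo U) G (z.1, z.2.2)).1 hz.2.2 _ (c.preimage_mem_nhds ?_)
    rwa [← hz.2.1]
  · have e : {z | z ∈ ER U u G ∧ z.1 ∈ K} = (fun w : X d × X d => ((w.1, u w.1, w.2) : St d)) ''
        {w | w ∈ E (vo U) G ∧ w.1 ∈ K} := by
      ext z
      refine ⟨fun hz => ⟨(z.1, z.2.2), ⟨hz.1.2.2, hz.2⟩, ?_⟩, ?_⟩
      · exact Prod.ext rfl (Prod.ext hz.1.2.1.symm rfl)
      · rintro ⟨w, hw, rfl⟩
        exact ⟨⟨h1 hw.2, rfl, hw.1⟩, hw.2⟩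
    rw [e]
    exact (cpt h h1 h2).image_of_continuousOn (continuousOn_fst.prodMk
      ((hu.comp continuousOn_fst fun w hw => h1 hw.2).prodMk continuousOn_snd))
  · obtain ⟨r, hr, hs⟩ := nhds_basis_closedBall.mem_iff.1 (hU.mem_nhds hx)
    have c := ((cpt h hs (isCompact_closedBall x r)).image continuous_fst).isClosed
    obtain ⟨w, hw, rfl⟩ : x ∈ Prod.fst '' {w | w ∈ E (vo U) G ∧ w.1 ∈ closedBall x r} := by
      refine c.closure_subset (mem_closure_iff_nhds.2 fun N hN => ?_)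
      have k := (ae_restrict_iff' hU.measurableSet).1 (ae_mem (vo U) G)
      obtain ⟨y, k1, k2⟩ := Measure.exists_mem_of_measure_ne_zero_of_ae
        (Measure.measure_pos_of_mem_nhds volume (inter_mem hN (closedBall_mem_nhds x hr))).ne'
        (ae_restrict_of_ae k)
      exact ⟨y, k1.1, (y, G y), ⟨k2 (hs k1.2), k1.2⟩, rfl⟩
    exact ⟨w.2, hx, rfl, hw.1⟩

end Pool.Agent.MP_815c6c_an.H

end
end MrgPart2

-- ======== part 3: formerly Pool.Agent.MP_815c6c_an.H.Fla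
section MrgPart3

/-! Scalar p-harmonic functions for large `p`: slow growth of the gradient gives flatness. -/

set_option autoImplicit false

noncomputable section

namespace Pool.Agent.MP_815c6c_an.H

open Set Metric MeasureTheory Filter Topology
open scoped ENNReal RealInnerProductSpace
open N (X)

theorem fla_geo {d : ℕ} (e x : X d) (σ s ϑ : ℝ) (he : ‖e‖ = 1) (hσ : σ = 1 ∨ σ = -1)
    (hs : 0 < s) (h0 : 0 < ϑ) (h1 : ϑ ≤ 1 / 2) (hx : ‖x‖ = ϑ * s) :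
    ‖(σ * s) • e - x‖ ≤ s - σ * ⟪e, x⟫ + ϑ * ‖x‖ ∧ |σ * ⟪e, x⟫| ≤ ‖x‖ := by
  have hw : |⟪e, x⟫| ≤ ‖x‖ := by simpa [he] using abs_real_inner_le_norm e x
  have hσ2 : σ * σ = 1 := by rcases hσ with h | h <;> simp [h]
  have hw2 : |σ * ⟪e, x⟫| ≤ ‖x‖ := by rcases hσ with h | h <;> simpa [h] using hw
  refine ⟨?_, hw2⟩
  have hn : ‖(σ * s) • e - x‖ ^ 2 = s ^ 2 - 2 * s * (σ * ⟪e, x⟫) + ‖x‖ ^ 2 := by
    rw [norm_sub_sq_real, norm_smul, he, real_inner_smul_left, mul_one, Real.norm_eq_abs, sq_abs,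
      mul_pow, sq σ, hσ2]
    ring
  obtain ⟨w1, w2⟩ := abs_le.1 hw2
  generalize σ * ⟪e, x⟫ = w at *
  have hxs : ‖x‖ ≤ s / 2 := by rw [hx]; linarith [mul_le_mul_of_nonneg_right h1 hs.le]
  have hx0 := norm_nonneg x
  refine abs_le_of_sq_le_sq' ?_ (by linarith [mul_nonneg h0.le hx0]) |>.2
  rw [hn]
  have k1 : ‖x‖ / 2 ≤ ϑ * (s - w) := by
    have : ϑ * (s / 2) ≤ ϑ * (s - w) := mul_le_mul_of_nonneg_left (by linarith) h0.le
    linarith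
  have k2 : ‖x‖ * (‖x‖ / 2) ≤ ‖x‖ * (ϑ * (s - w)) := mul_le_mul_of_nonneg_left k1 hx0
  linarith [sq_nonneg w, sq_nonneg (ϑ * ‖x‖)]

theorem fla : Kit → TigS → FlaS := by
  intro k tig d τ hτ
  set ϑ : ℝ := min (τ / 4) (1 / 2) with hϑ
  have h0 : 0 < ϑ := lt_min (by positivity) (by norm_num)
  have h1 : ϑ ≤ 1 / 2 := min_le_right _ _
  have h2 : ϑ ≤ τ / 4 := min_le_left _ _
  set β : ℝ := τ * ϑ / 16 with hβ
  have hβ0 : 0 < β := by positivity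
  obtain ⟨η₀, hη₀, ht⟩ := tig d β hβ0
  set η : ℝ := min η₀ (min β 1) with hη
  have e0 : 0 < η := lt_min hη₀ (lt_min hβ0 one_pos)
  have e1 : η ≤ η₀ := min_le_left _ _
  have e2 : η ≤ β := (min_le_right _ _).trans (min_le_left _ _)
  have e3 : η ≤ 1 := (min_le_right _ _).trans (min_le_right _ _)
  refine ⟨ϑ, η, h0, e0, ht.mono fun P hP U u T s e hV hU hT he hB x hx => ?_⟩
  have hu0 : u 0 = 0 := (hV.gr _ hT).2.symm
  rcases eq_or_ne x 0 with rfl | hx0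
  · simp [hu0]
  have hn : 0 < ‖x‖ := norm_pos_iff.2 hx0
  set s₁ : ℝ := ‖x‖ / ϑ with hs₁
  have p1 : 0 < s₁ := by positivity
  have p2 : ‖x‖ = ϑ * s₁ := by rw [hs₁]; field_simp
  have p3 : s₁ ≤ s := by rw [hs₁, div_le_iff₀ h0]; linarith
  have key : ∀ σ : ℝ, σ = 1 ∨ σ = -1 → σ * ⟪e, x⟫ - σ * u x ≤ τ * ‖x‖ := by
    intro σ hσ
    have hσ2 : σ * σ = 1 := by rcases hσ with h | h <;> simp [h]
    have hσ1 : |σ| = 1 := by rcases hσ with h | h <;> simp [h]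
    have hr : σ * s₁ ≠ 0 := by
      rcases hσ with h | h <;> simp [h, p1.ne']
    have hsm : ∀ y : X d, ‖(σ * s₁) • y‖ = s₁ * ‖y‖ := fun y => by
      rw [norm_smul, Real.norm_eq_abs, abs_mul, hσ1, one_mul, abs_of_pos p1]
    have hin : ∀ y : X d, ‖y‖ ≤ 1 → ‖(σ * s₁) • y‖ ≤ s := fun y hy => by
      rw [hsm]; exact (mul_le_of_le_one_right p1.le hy).trans p3
    obtain ⟨y, y1, y2, y3⟩ := hP _ _ _ e (k.inv d P U u T 0 0 (σ * s₁) 1 hr one_pos hV)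
      (fun y hy => hU (by simpa using hin y (by simpa using hy)))
      (by simpa [af] using hT) he
      (fun z hz hz1 => by
        have := hB _ hz (by simpa [af] using hin z.1 (by simpa using hz1))
        simp only [af, one_smul] at this
        linarith)
    simp only [zero_add, sub_zero, mul_one] at y3
    have y4 : (1 - β) * s₁ ≤ σ * u ((σ * s₁) • y) := by
      have : σ * u ((σ * s₁) • y) = u ((σ * s₁) • y) / (σ * s₁) * s₁ := by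
        rcases hσ with h | h <;> rw [h] <;> field_simp
      rw [this]
      exact mul_le_mul_of_nonneg_right y3 p1.le
    have hl := hV.lip 0 0 s (1 + η) hU (fun z hz hz1 => by simpa using hB z hz hz1)
      ((σ * s₁) • y) (by simpa using hin y y1) x
      (by
        simp only [mem_closedBall, dist_zero_right]
        rw [p2]
        exact (mul_le_of_le_one_left p1.le (by linarith)).trans p3)
    rw [inner_zero_left, sub_zero] at hl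
    obtain ⟨g1, g2⟩ := fla_geo e x σ s₁ ϑ he hσ p1 h0 h1 p2
    have g3 : ‖(σ * s₁) • y - x‖ ≤ s₁ * β + (s₁ - σ * ⟪e, x⟫ + ϑ * ‖x‖) := by
      have : (σ * s₁) • y - x = (σ * s₁) • (y - e) + ((σ * s₁) • e - x) := by
        rw [smul_sub]; abel
      rw [this]
      refine (norm_add_le _ _).trans (add_le_add ?_ g1)
      rw [hsm]
      exact mul_le_mul_of_nonneg_left y2 p1.le
    have g4 : σ * u ((σ * s₁) • y) - σ * u x ≤
        (1 + η) * (s₁ * β + (s₁ - σ * ⟪e, x⟫ + ϑ * ‖x‖)) := by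
      rw [← mul_sub]
      refine (le_abs_self _).trans ?_
      rw [abs_mul, hσ1, one_mul]
      exact hl.trans (mul_le_mul_of_nonneg_left g3 (by linarith))
    obtain ⟨w1, w2⟩ := abs_le.1 g2
    generalize σ * ⟪e, x⟫ = w at *
    have q0 : ‖x‖ ≤ s₁ / 2 := by
      rw [p2]; linarith [mul_le_mul_of_nonneg_right h1 p1.le]
    have q1 : s₁ * β = τ * ‖x‖ / 16 := by rw [hβ, p2]; ring
    have q2 : η * (s₁ * β) ≤ s₁ * β := mul_le_of_le_one_left (mul_pos p1 hβ0).le e3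
    have q3 : η * (s₁ - w) ≤ β * (2 * s₁) :=
      mul_le_mul e2 (by linarith) (by linarith) hβ0.le
    have q4 : η * (ϑ * ‖x‖) ≤ ϑ * ‖x‖ := mul_le_of_le_one_left (mul_pos h0 hn).le e3
    have q5 : ϑ * ‖x‖ ≤ τ / 4 * ‖x‖ := mul_le_mul_of_nonneg_right h2 hn.le
    have q6 := mul_pos hτ hn
    linarith
  have a := key 1 (Or.inl rfl)
  have b := key (-1) (Or.inr rfl)
  rw [abs_le]
  constructor <;> linarith

end Pool.Agent.MP_815c6c_an.H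

end
end MrgPart3

-- ======== part 4: formerly Pool.Agent.MP_815c6c_an.H.Glue
section MrgPart4

/-! From the set of states back to weak solutions. -/

set_option autoImplicit false

noncomputable section

namespace Pool.Agent.MP_815c6c_an.H

open Set Metric MeasureTheory Filter Topology
open scoped ENNReal RealInnerProductSpace
open N (X)
open S (ei vo Wk Sb Vp)

variable {d : ℕ}

theorem glue_cl {U : Set (X d)} {u : X d → ℝ} {G : X d → X d} {C : Set (X d)} (hC : IsClosed C)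
    (h : ∀ᵐ y ∂vo U, G y ∈ C) : ∀ z ∈ ER U u G, z.2.2 ∈ C := fun z hz => by
  by_contra q
  obtain ⟨ε, e0, he⟩ := Metric.isOpen_iff.1 hC.isOpen_compl _ q
  exact hz.2.2 ε e0 (measure_mono_null (t := {y | G y ∉ C})
    (fun x hx => he (show G x ∈ ball z.2.2 ε from mem_ball_iff_norm.2 hx.2)) (ae_iff.1 h))

theorem glue_vs (ws : S.WsS) (mor : S.MorS) (ess : EssS) (vs : VsS) {p R : ℝ} {u : X d → ℝ}
    {G : X d → X d} (h3 : 3 ≤ p) (hd : d < p) (hl : S.LipS d p) (hR : 0 < R)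
    (h : Wk p (ball 0 R) u G) : ∃ u', VS (p - 2) (ball 0 R) u' (ER (ball 0 R) u' G) ∧
      ∀ᵐ y ∂vo (ball 0 R), (y, u' y, G y) ∈ ER (ball 0 R) u' G := by
  obtain ⟨C, -, hC⟩ := mor d p (by linarith) hd
  obtain ⟨u', c, e, -⟩ := hC 0 R u _ hR h.sb
  exact ⟨u', vs d p R 0 u' G h3 hl ((ws d p _ (ball 0 R) u G (by linarith) isOpen_ball isOpen_ball
    isBounded_ball h).2 u' G e EventuallyEq.rfl) c, (ess d _ u' G isOpen_ball c).1⟩

theorem glue : S.WsS → S.MorS → LipS → EssS → VsS → NsS → OscS → CoreS := by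
  intro ws mor lip ess vs ns osc d κ hκ
  have t : Tendsto (fun p : ℝ => p - 2) atTop atTop :=
    tendsto_atTop_add_const_right _ (-2) tendsto_id
  filter_upwards [lip d, t.eventually (ns d κ hκ), eventually_ge_atTop 3,
    eventually_gt_atTop (d : ℝ)] with p hl hn h3 hd
  refine ⟨hl, fun m hm => ?_, fun q hq => ?_⟩
  · obtain ⟨l, l0, l1, hl'⟩ := osc d (p - 2) (2 / m) (by linarith) (by positivity)
    refine ⟨1 / 32, l, by norm_num, by norm_num, l0, l1, fun u G B hB h hb hD => ?_⟩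
    obtain ⟨u', V, a⟩ := glue_vs ws mor ess vs h3 hd hl one_pos h
    have b1 := glue_cl (u := u') (C := {ξ | m ≤ ‖ξ‖ ∧ ‖ξ‖ ≤ 1})
      ((isClosed_le continuous_const continuous_norm).inter
        (isClosed_le continuous_norm continuous_const)) hb
    have b2 := glue_cl (u := u') (C := ⋂ z ∈ ER (ball 0 1) u' G, closedBall z.2.2 B)
      (isClosed_biInter fun _ _ => isClosed_closedBall) (hD.mono fun y hy => mem_iInter₂.2
        fun z hz => mem_closedBall_comm.1 (glue_cl (u := u') (C := closedBall (G y) B)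
          isClosed_closedBall (hy.mono fun _ e => mem_closedBall_iff_norm'.2 e) z hz))
    have k := hl' _ u' _ 0 (1 / 32) (min B 2) V (closedBall_subset_ball (by norm_num))
      (by norm_num) (fun z hz z' hz' _ _ => le_min
        (mem_closedBall_iff_norm.1 (mem_iInter₂.1 (b2 z hz) z' hz'))
        ((norm_sub_le _ _).trans (by linarith [(b1 z hz).2, (b1 z' hz').2])))
      fun z hz _ => (min_le_right _ _).trans (by
        rw [div_mul_eq_mul_div, le_div_iff₀ hm]; linarith [(b1 z hz).1])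
    have a' : ∀ᵐ y ∂vo (ball (0 : X d) (1 / 32)), (y, u' y, G y) ∈ ER (ball 0 1) u' G ∧
        ‖y - 0‖ ≤ 1 / 32 :=
      (ae_restrict_of_ae_restrict_of_subset (ball_subset_ball (by norm_num)) a).and
        ((ae_restrict_mem measurableSet_ball).mono fun y hy => (mem_ball_iff_norm.1 hy).le)
    exact a'.mono fun y hy => a'.mono fun y' hy' => (k _ hy.1 _ hy'.1 hy.2 hy'.2).trans
      (mul_le_mul_of_nonneg_left (min_le_left _ _) l0.le)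
  · have R1 : (1 : ℝ) ≤ 2 ^ (κ * (p - 2)) :=
      Real.one_le_rpow one_le_two (mul_nonneg hκ.le (by linarith))
    refine ⟨2 * 2 ^ (κ * (p - 2)), 1 / 4, by linarith, ?_, by norm_num, fun u G h hb hn1 => ?_⟩
    · rw [mul_comm, ← Real.rpow_add_one two_ne_zero]
      exact Real.rpow_lt_rpow_of_exponent_lt one_lt_two hq
    obtain ⟨u', V, a⟩ := glue_vs ws mor ess vs h3 hd hl (by linarith) h
    have a' : ∀ᵐ y ∂vo (ball (0 : X d) 1),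
        (y, u' y, G y) ∈ ER (ball 0 (2 * 2 ^ (κ * (p - 2)))) u' G ∧ ‖y - 0‖ ≤ 1 :=
      (ae_restrict_of_ae_restrict_of_subset (ball_subset_ball (by linarith)) a).and
        ((ae_restrict_mem measurableSet_ball).mono fun y hy => (mem_ball_iff_norm.1 hy).le)
    have b1 := glue_cl (u := u') (C := {ξ | ‖ξ‖ ≤ 2})
      (isClosed_le continuous_norm continuous_const) hb
    have k := hn _ u' _ 0 1 (2 ^ (κ * (p - 2))) 1 V (closedBall_subset_ball (by linarith)) one_pos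
      (by rw [← Real.mul_rpow (by norm_num) two_pos.le]; simp) one_pos ?_
      fun z hz _ => by simpa using b1 z hz
    · refine a'.mono fun y hy => ?_
      have := k (y, u' y, G y) hy.1 hy.2
      exact this
    · by_contra q'
      exact hn1 (a'.mono fun y hy => le_of_not_ge fun e => q' ⟨_, hy.1, hy.2, e⟩)

end Pool.Agent.MP_815c6c_an.H

end
end MrgPart4

-- ======== part 5: formerly Pool.Agent.MP_815c6c_an.H.Gw
section MrgPart5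

/-! Scalar p-harmonic functions for large `p`: good windows. -/

set_option autoImplicit false

noncomputable section

namespace Pool.Agent.MP_815c6c_an.H

open Set Metric Filter Topology
open scoped RealInnerProductSpace
open N (X)

theorem gw_tri {d : ℕ} {x y : X d} {ρ s R : ℝ} (hx : ‖x‖ ≤ ρ) (hy : ‖y‖ ≤ s) (h : ρ + s ≤ R) :
    ‖x + (1 : ℝ) • y‖ ≤ R := by
  rw [one_smul]
  linarith [norm_add_le x y]

theorem gw_ball {d : ℕ} {x : X d} {ρ s R : ℝ} {U : Set (X d)} (hx : ‖x‖ ≤ ρ) (h : ρ + s ≤ R)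
    (hU : closedBall 0 R ⊆ U) : closedBall (0 : X d) s ⊆ {y | x + (1 : ℝ) • y ∈ U} :=
  fun _ hy => hU (mem_closedBall_zero_iff.2 (gw_tri hx (mem_closedBall_zero_iff.1 hy) h))

theorem gw_nu {d : ℕ} {ξ : X d} (h : 0 < ‖ξ‖) : ‖nu ξ‖ = 1 := by
  rw [nu, norm_smul, norm_inv, norm_norm, inv_mul_cancel₀ h.ne']

theorem gw_af1 {d : ℕ} (x ξ : X d) (t : ℝ) (h : 0 < ‖ξ‖) :
    af x t 1 ‖ξ‖ ((0 : X d), (0 : ℝ), nu ξ) = (x, t, ξ) := by
  simp only [af, nu, smul_zero, add_zero, mul_zero, smul_smul, mul_inv_cancel₀ h.ne', one_smul]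

theorem gw_af2 {d : ℕ} (x : X d) (t : ℝ) (z : St d) :
    af x t 1 1 (z.1 - x, z.2.1 - t, z.2.2) = z := by
  simp only [af, one_smul, mul_one, one_mul, add_sub_cancel]

theorem gw_bd {d : ℕ} {T : Set (St d)} {x : X d} {t ρ s R S M : ℝ} (hx : ‖x‖ ≤ ρ) (h : ρ + s ≤ R)
    (S0 : 0 < S) (B : Bd T 0 R (M * S)) : Bd (af x t 1 S ⁻¹' T) 0 s M := by
  intro y hy hs
  rw [sub_zero] at hs
  have := B _ hy (by
    rw [sub_zero]
    exact gw_tri hx hs h)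
  change ‖S • y.2.2‖ ≤ _ at this
  rw [norm_smul, Real.norm_of_nonneg S0.le, mul_comm] at this
  exact le_of_mul_le_mul_right this S0

theorem gw_flat {a b c S τ n : ℝ} (S0 : 0 < S) (S2 : S ≤ 2) (h : |a / (1 * S) - c| ≤ τ / 2 * n)
    (e : b = a) : |b - S * c| ≤ τ * n := by
  have e2 : b - S * c = S * (a / (1 * S) - c) := by
    rw [e]
    field_simp
  rw [e2, abs_mul, abs_of_pos S0]
  have := mul_le_mul S2 h (abs_nonneg _) zero_le_two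
  linarith

theorem gw : Kit → WinS → FlaS → StepS → GwS := by
  intro k win fla step d A hd hA
  obtain ⟨τ, τ0, hw⟩ := win d A hA
  obtain ⟨ϑ, η, ϑ0, η0, hf⟩ := fla d (τ / 2) (half_pos τ0)
  refine ⟨η, η0, ?_⟩
  filter_upwards [hw, hf, eventually_ge_atTop (4 * (d : ℝ)), eventually_ge_atTop (2 : ℝ),
    eventually_ge_atTop (1 + ϑ⁻¹)] with P hw hf p4 p2 pϑ
  intro ρ m b U u T Z z₁ ρ0 V hU z1T z1ρ S1 B2 Bη cZ m0 hm hb hbA z zT zρ z8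
  have P0 : 0 < P := two_pos.trans_le p2
  have Pρ : 0 < P * ρ := mul_pos P0 ρ0
  have r0 : ρ ≤ P * ρ := le_mul_of_one_le_left ρ0.le (one_le_two.trans p2)
  have r1 : ρ + P * ρ ≤ P ^ 2 * ρ := by
    have := mul_le_mul_of_nonneg_left p2 Pρ.le
    have e : P * ρ * P = P ^ 2 * ρ := by ring
    linarith
  have r2 : ρ + P * ρ * ϑ⁻¹ ≤ P ^ 2 * ρ := by
    have := mul_le_mul_of_nonneg_left pϑ Pρ.le
    have e : P * ρ * P = P ^ 2 * ρ := by ring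
    rw [mul_add, mul_one] at this
    linarith
  have S0 : 0 < ‖z₁.2.2‖ := one_pos.trans_le S1
  have S2 : ‖z₁.2.2‖ ≤ 2 := B2 _ z1T (by
    rw [sub_zero]
    linarith)
  have e1 := gw_nu S0
  have V1 := k.inv d P U u T z₁.1 z₁.2.1 1 ‖z₁.2.2‖ one_ne_zero S0 V
  have V2 := k.inv d P U u T z₁.1 z₁.2.1 1 1 one_ne_zero one_pos V
  have m1 : ((0 : X d), (0 : ℝ), nu z₁.2.2) ∈ af z₁.1 z₁.2.1 1 ‖z₁.2.2‖ ⁻¹' T := by
    rw [mem_preimage, gw_af1 _ _ _ S0]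
    exact z1T
  have flat := hf _ _ _ (P * ρ * ϑ⁻¹) (nu z₁.2.2) V1 (gw_ball z1ρ r2 hU) m1 e1
    (gw_bd z1ρ r2 S0 Bη)
  obtain ⟨χ, hχ⟩ := hw ρ ‖z₁.2.2‖ (nu z₁.2.2) ρ0 S1 S2 e1
  have B3 : Bd (af z₁.1 z₁.2.1 1 1 ⁻¹' T) 0 (P * ρ) 2 :=
    gw_bd z1ρ r1 one_pos (by rwa [mul_one])
  have h1 : ∀ y ∈ af z₁.1 z₁.2.1 1 1 ⁻¹' T, ‖y.1‖ ≤ P * ρ →
      ‖y.2.2‖ ≤ 2 ∧ |y.2.1 - ‖z₁.2.2‖ * ⟪nu z₁.2.2, y.1⟫| ≤ τ * ‖y.1‖ := by
    intro y hy hs
    refine ⟨B3 y hy (by rwa [sub_zero]), gw_flat S0 S2 (flat y.1 ?_) ?_⟩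
    · rw [mul_comm, inv_mul_cancel_right₀ ϑ0.ne']
      exact hs
    · rw [(V2.gr y hy).2, mul_one, div_one]
  have h2 : ∀ y ∈ af z₁.1 z₁.2.1 1 1 ⁻¹' T, ‖y.1‖ ≤ P * ρ → 1 / 8 ≤ ‖y.2.2‖ →
      U0 d P y.2.2 + Z y.2.2 ≤ m := by
    intro y hy hs h8
    have e : (af z₁.1 z₁.2.1 1 1 y).2.2 = y.2.2 := one_smul _ _
    have := hm _ hy (gw_tri z1ρ hs r1)
    rw [e] at this
    exact this h8
  have m2 : (z.1 - z₁.1, z.2.1 - z₁.2.1, z.2.2) ∈ af z₁.1 z₁.2.1 1 1 ⁻¹' T := by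
    rw [mem_preimage, gw_af2]
    exact zT
  have n2 : ‖z.1 - z₁.1‖ ≤ 2 * ρ := by linarith [norm_sub_le z.1 z₁.1]
  exact step d P A τ ρ ‖z₁.2.2‖ m b (nu z₁.2.2) χ _ _ _ Z hd p4 (zero_le_two.trans hA) ρ0 S1 S2
    e1 hχ V2 (gw_ball z1ρ r1 hU) h1 cZ m0 h2 hb hbA
    (z.1 - z₁.1, z.2.1 - z₁.2.1, z.2.2) m2 n2 z8

end Pool.Agent.MP_815c6c_an.H

end
end MrgPart5

-- ======== part 6: formerly Pool.Agent.MP_815c6c_an.H.Ic
section MrgPart6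

/-! The jets of the intercept map. -/

set_option autoImplicit false

noncomputable section

namespace Pool.Agent.MP_815c6c_an.H

open Filter Topology
open scoped RealInnerProductSpace
open N (X)
open S (ei)

variable {d : ℕ} {P : ℝ} {z : St d} {H : En d}

theorem icSum (a b : X d) : ∑ j, ⟪ei j, a⟫ * ⟪ei j, b⟫ = ⟪a, b⟫ := by
  simp [EuclideanSpace.inner_single_left, PiLp.inner_apply, mul_comm]

/-- the derivative of `ξ ↦ ⟪e, ξ⟫ / |ξ|²` -/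
def icOm (ξ e : X d) : X d := (‖ξ‖ ^ 2)⁻¹ • e - (2 * ⟪e, ξ⟫ / (‖ξ‖ ^ 2) ^ 2) • ξ

theorem icOm_symm (ξ e w : X d) : ⟪icOm ξ e, w⟫ = ⟪e, icOm ξ w⟫ := by
  simp only [icOm, inner_sub_left, inner_sub_right, real_inner_smul_left, real_inner_smul_right,
    real_inner_comm ξ w]
  ring

theorem icOm_norm {ξ : X d} (h : ξ ≠ 0) (e : X d) :
    ‖icOm ξ e‖ ^ 2 = ‖e‖ ^ 2 / (‖ξ‖ ^ 2) ^ 2 := by
  have g : ‖ξ‖ ≠ 0 := norm_ne_zero_iff.2 h
  rw [icOm, norm_sub_sq_real, norm_smul, norm_smul, mul_pow, mul_pow, Real.norm_eq_abs,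
    Real.norm_eq_abs, sq_abs, sq_abs, real_inner_smul_left, real_inner_smul_right]
  field_simp
  ring

theorem icNu {ξ : X d} (h : ξ ≠ 0) : ξ = ‖ξ‖ • nu ξ := by
  rw [nu, smul_smul, mul_inv_cancel₀ (norm_ne_zero_iff.2 h), one_smul]

theorem icSq (hP : 1 ≤ P) : (√P)⁻¹ * (√P)⁻¹ = P⁻¹ := by
  rw [← mul_inv, Real.mul_self_sqrt (by linarith)]

theorem icCross (hP : 1 ≤ P) {ξ : X d} (h : ξ ≠ 0) (hs : ∀ v w, ⟪H v, w⟫ = ⟪v, H w⟫) (a : X d) :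
    ⟪vx P ξ ξ, vh P ξ H a⟫ = (1 + P⁻¹) * (‖ξ‖ * ⟪a, H (nu ξ)⟫) := by
  have g : ‖ξ‖ ≠ 0 := norm_ne_zero_iff.2 h
  have e1 : ⟪ξ, nu ξ⟫ = ‖ξ‖ := by
    rw [nu, real_inner_smul_right, real_inner_self_eq_norm_sq]; field_simp
  have e2 : ⟪ξ, H a⟫ = ‖ξ‖ * ⟪a, H (nu ξ)⟫ := by
    rw [← hs, real_inner_comm, ← real_inner_smul_right, ← map_smul, ← icNu h]
  have e3 : ∀ j, ⟪a, H ((√P)⁻¹ • ei j)⟫ * ⟪ξ, (√P)⁻¹ • ei j⟫ =
      P⁻¹ * (⟪ei j, ξ⟫ * ⟪ei j, H a⟫) := fun j => by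
    rw [map_smul, real_inner_smul_right, real_inner_smul_right, ← hs, ← icSq hP,
      real_inner_comm (ei j) ξ, real_inner_comm (ei j) (H a)]
    ring
  rw [PiLp.inner_apply, Fintype.sum_option]
  simp only [vx, vh, dir, RCLike.inner_apply, conj_trivial, e1, e3]
  rw [← Finset.mul_sum, icSum, e2]
  ring

theorem icTr (b : Bas P z H) (hP : 1 ≤ P) (hA : Adm P z.2.2 H) :
    ‖H (nu z.2.2)‖ ≤ ga P z.2.2 H * ‖z.2.2‖ ∧
      P * |⟪H (nu z.2.2), nu z.2.2⟫| ≤ d * (ga P z.2.2 H * ‖z.2.2‖) := by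
  have p0 : 0 < P := by linarith
  have n0 : 0 ≤ ga P z.2.2 H * ‖z.2.2‖ := mul_nonneg b.ga0 (norm_nonneg _)
  have s0 : 0 ≤ ∑ k, ‖H (ei k)‖ ^ 2 := Finset.sum_nonneg fun _ _ => sq_nonneg _
  have e : (ga P z.2.2 H * ‖z.2.2‖) ^ 2 = P * ‖H (nu z.2.2)‖ ^ 2 + ∑ k, ‖H (ei k)‖ ^ 2 := by
    rw [mul_pow, b.ga2, b.sge]; field_simp
  refine ⟨abs_le_of_sq_le_sq' (by nlinarith [sq_nonneg ‖H (nu z.2.2)‖]) n0 |>.2, ?_⟩
  have e1 : ∀ j, |⟪H (ei j), ei j⟫| ≤ ga P z.2.2 H * ‖z.2.2‖ := fun j => by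
    have h1 := abs_real_inner_le_norm (H (ei j)) (ei j)
    have h2 : ‖H (ei j)‖ ^ 2 ≤ ∑ k, ‖H (ei k)‖ ^ 2 :=
      Finset.single_le_sum (f := fun k => ‖H (ei k)‖ ^ 2) (fun _ _ => sq_nonneg _)
        (Finset.mem_univ j)
    have h3 : ‖(ei j : X d)‖ = 1 := by simp
    rw [h3, mul_one] at h1
    exact h1.trans (abs_le_of_sq_le_sq' (by nlinarith [sq_nonneg ‖H (nu z.2.2)‖]) n0).2
  have e2 := hA.2
  rw [Fintype.sum_option] at e2
  have e3 : ∀ j, ⟪H ((√P)⁻¹ • ei j), (√P)⁻¹ • ei j⟫ = P⁻¹ * ⟪H (ei j), ei j⟫ := fun j => by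
    rw [map_smul, real_inner_smul_right, real_inner_smul_left, ← icSq hP]; ring
  simp only [dir, e3] at e2
  rw [← Finset.mul_sum] at e2
  have e4 : P * ⟪H (nu z.2.2), nu z.2.2⟫ = -∑ j, ⟪H (ei j), ei j⟫ := by
    rw [eq_neg_of_add_eq_zero_left e2]; field_simp
  calc P * |⟪H (nu z.2.2), nu z.2.2⟫| = |∑ j, ⟪H (ei j), ei j⟫| := by
        rw [← abs_neg (∑ _, _), ← e4, abs_mul, abs_of_pos p0]
    _ ≤ ∑ j, |⟪H (ei j), ei j⟫| := Finset.abs_sum_le_sum_abs _ _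
    _ ≤ ∑ _j : Fin d, ga P z.2.2 H * ‖z.2.2‖ := Finset.sum_le_sum fun j _ => e1 j
    _ = _ := by simp

theorem icReal {g s E W B c : ℝ} (hg : 0 < g) (hs : 0 ≤ s) (hW : |W| ≤ E * g) (hB0 : 0 ≤ B)
    (hB : B ≤ 4 * g ^ 2 * s) (hc : |c| ≤ 2 * E * g * s) :
    |W * (-(2 * s) / (g ^ 2) ^ 2 + 2 * B / (g ^ 2) ^ 3) + (g ^ 2)⁻¹ * 0 +
      2 * (-((g ^ 2) ^ 2)⁻¹ * c)| ≤ 14 * E * s / g ^ 3 := by
  have e : W * (-(2 * s) / (g ^ 2) ^ 2 + 2 * B / (g ^ 2) ^ 3) + (g ^ 2)⁻¹ * 0 +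
      2 * (-((g ^ 2) ^ 2)⁻¹ * c) = (W * (2 * B - 2 * g ^ 2 * s) - 2 * g ^ 2 * c) / g ^ 6 := by
    field_simp; ring
  have h1 : |2 * B - 2 * g ^ 2 * s| ≤ 10 * g ^ 2 * s :=
    abs_le.2 ⟨by nlinarith [mul_nonneg (sq_nonneg g) hs], by nlinarith [mul_nonneg (sq_nonneg g) hs]⟩
  have h2 : |W * (2 * B - 2 * g ^ 2 * s)| ≤ E * g * (10 * g ^ 2 * s) := by
    rw [abs_mul]; exact mul_le_mul hW h1 (abs_nonneg _) ((abs_nonneg _).trans hW)
  have h3 : |2 * g ^ 2 * c| ≤ 2 * g ^ 2 * (2 * E * g * s) := by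
    rw [abs_mul, abs_of_nonneg (by positivity)]; gcongr
  rw [e, abs_div, abs_of_pos (pow_pos hg 6), div_le_div_iff₀ (pow_pos hg 6) (pow_pos hg 3)]
  have h4 := (abs_sub _ _).trans (add_le_add h2 h3)
  calc _ ≤ (E * g * (10 * g ^ 2 * s) + 2 * g ^ 2 * (2 * E * g * s)) * g ^ 3 := by gcongr
    _ = _ := by ring

theorem icW (j : Jet P z H) (b : Bas P z H) (hξ : z.2.2 ≠ 0) (e : X d) :
    ∃ L, J P z H (fun y => ⟪e, y.2.2⟫ * (‖y.2.2‖ ^ 2)⁻¹) (vh P z.2.2 H (icOm z.2.2 e)) L ∧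
      |L| ≤ 14 * ‖e‖ * sg P z.2.2 H / ‖z.2.2‖ ^ 3 := by
  have g : 0 < ‖z.2.2‖ := norm_pos_iff.2 hξ
  have w := b.ww 0
  simp only [sub_zero] at w
  have m := j.mul (j.jw e) (j.inv w (pow_pos g 2).ne')
  have n2 : ‖vh P z.2.2 H ((2 : ℝ) • z.2.2)‖ ^ 2 ≤ 4 * ‖z.2.2‖ ^ 2 * sg P z.2.2 H := by
    have := b.nh ((2 : ℝ) • z.2.2)
    rw [norm_smul, Real.norm_two] at this
    linarith
  refine ⟨_, (congrArg (fun v => J P z H _ v _) ?_).mp m, ?_⟩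
  · ext k
    simp only [vh, icOm, PiLp.add_apply, PiLp.smul_apply, smul_eq_mul, inner_sub_left,
      real_inner_smul_left]
    ring
  · rw [real_inner_smul_right]
    refine icReal g b.sg0 (abs_real_inner_le_norm _ _) (sq_nonneg _) n2
      ((abs_real_inner_le_norm _ _).trans (abs_le_of_sq_le_sq' ?_ ?_).2)
    · rw [mul_pow]
      refine (mul_le_mul (b.nh e) n2 (sq_nonneg _) (mul_nonneg (sq_nonneg _) b.sg0)).trans_eq ?_
      ring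
    · have := b.sg0; positivity

theorem icCore (j : Jet P z H) (b : Bas P z H) (hP : 1 ≤ P) (hξ : z.2.2 ≠ 0)
    (hA : Adm P z.2.2 H) (e : X d) : ∃ L, J P z H (fun y => ⟪e, yh P y⟫)
      (√P • vx P z.2.2 (e - (⟪e, z.2.2⟫ * (‖z.2.2‖ ^ 2)⁻¹) • z.2.2) +
        (-(√P * z.2.1)) • vh P z.2.2 H (icOm z.2.2 e)) L ∧
      √P * |L| ≤ ‖e‖ * (8 * d * ga P z.2.2 H + 14 * |z.2.1| * ga P z.2.2 H ^ 2 / ‖z.2.2‖) := by
  have g : 0 < ‖z.2.2‖ := norm_pos_iff.2 hξ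
  have p0 : 0 < P := by linarith
  have d1 : (1 : ℝ) ≤ d := by
    rcases Nat.eq_zero_or_pos d with h | h
    · subst h; exact absurd (Subsingleton.elim _ _) hξ
    · exact_mod_cast h
  obtain ⟨L, w, hL⟩ := icW j b hξ e
  have m := j.congr (g := fun y => ⟪e, yh P y⟫) (j.cmul (√P) (j.sub (j.jx e) (j.mul j.jt w)))
    (Eventually.of_forall fun y => by
      simp only [yh, inner_sub_right, real_inner_smul_right]; ring)
  refine ⟨_, (congrArg (fun v => J P z H _ v _) ?_).mp m, ?_⟩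
  · ext k
    simp only [vx, PiLp.add_apply, PiLp.sub_apply, PiLp.smul_apply, smul_eq_mul, inner_sub_left,
      real_inner_smul_left]
    ring
  · obtain ⟨t1, t2⟩ := icTr b hP hA
    have e1 : ⟪e, z.2.2⟫ = ‖z.2.2‖ * ⟪e, nu z.2.2⟫ := by
      rw [← real_inner_smul_right, ← icNu hξ]
    have e2 : ⟪z.2.2, H (nu z.2.2)⟫ = ‖z.2.2‖ * ⟪H (nu z.2.2), nu z.2.2⟫ := by
      rw [real_inner_comm, ← real_inner_smul_right, ← icNu hξ]
    have a1 : |⟪e, H (nu z.2.2)⟫| ≤ ‖e‖ * (ga P z.2.2 H * ‖z.2.2‖) :=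
      (abs_real_inner_le_norm _ _).trans (by gcongr)
    have a2 : |⟪e, nu z.2.2⟫| ≤ ‖e‖ := by
      simpa only [b.nu1, mul_one] using abs_real_inner_le_norm e (nu z.2.2)
    rw [icCross hP hξ hA.1, abs_mul, abs_of_nonneg (Real.sqrt_nonneg P), ← mul_assoc,
      Real.mul_self_sqrt p0.le, ← abs_of_pos p0, ← abs_mul, abs_of_pos p0]
    simp only [dr, icOm, inner_sub_left, inner_sub_right, real_inner_smul_left,
      real_inner_smul_right, e2]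
    rw [e1]
    have ga2 := b.ga2
    have ga0 := b.ga0
    generalize ⟪e, H (nu z.2.2)⟫ = a at *
    generalize ⟪e, nu z.2.2⟫ = c at *
    generalize ⟪H (nu z.2.2), nu z.2.2⟫ = h at *
    generalize ga P z.2.2 H = γ at *
    generalize ‖z.2.2‖ = r at *
    have e3 : P * (2 / r * (a - h * c) - (z.2.1 * L + r * c * (r ^ 2)⁻¹ * 0 + 2 * ((1 + P⁻¹) *
        (r * ((r ^ 2)⁻¹ * a - 2 * (r * c) / (r ^ 2) ^ 2 * (r * h)))))) =
        (-2 * a + 2 * (P + 2) * (h * c)) / r - z.2.1 * (P * L) := by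
      field_simp; ring
    have b1 : (P + 2) * |h * c| ≤ 3 * (d * (γ * r) * ‖e‖) := by
      rw [abs_mul]
      have : P * |h| * |c| ≤ d * (γ * r) * ‖e‖ :=
        mul_le_mul t2 a2 (abs_nonneg _) (by positivity)
      nlinarith [mul_nonneg (abs_nonneg h) (abs_nonneg c)]
    have b2 : |(-2 * a + 2 * (P + 2) * (h * c)) / r| ≤ ‖e‖ * (8 * d * γ) := by
      rw [abs_div, abs_of_pos g, div_le_iff₀ g]
      refine (abs_add_le _ _).trans ?_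
      rw [abs_mul, abs_mul (2 * (P + 2)), abs_of_pos (by linarith : 0 < 2 * (P + 2))]
      have : ‖e‖ * (γ * r) ≤ d * (‖e‖ * (γ * r)) := le_mul_of_one_le_left (by positivity) d1
      have h2 : |(-2 : ℝ)| = 2 := by norm_num
      rw [h2]
      nlinarith
    have b3 : |z.2.1 * (P * L)| ≤ ‖e‖ * (14 * |z.2.1| * γ ^ 2 / r) := by
      rw [abs_mul, abs_mul, abs_of_pos p0]
      calc |z.2.1| * (P * |L|) ≤ |z.2.1| * (P * (14 * ‖e‖ * sg P z.2.2 H / r ^ 3)) := by gcongr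
        _ = |z.2.1| * (14 * ‖e‖ * (P * sg P z.2.2 H) / r ^ 3) := by ring
        _ = _ := by rw [← ga2]; field_simp
    rw [e3, mul_add ‖e‖]
    exact (abs_sub _ _).trans (add_le_add b2 b3)

theorem icUniq {f : St d → ℝ} {v w : Vc d} {L M : ℝ} (h : J P z H f v L) (k : J P z H f w M) :
    v = w ∧ L = M := ⟨by ext i; rw [← h.gr, ← k.gr], h.lo.symm.trans k.lo⟩

theorem icPi (b : Bas P z H) (hP : 1 ≤ P) (hξ : z.2.2 ≠ 0) (e : X d) :
    ⟪√P • vx P z.2.2 (e - (⟪e, z.2.2⟫ * (‖z.2.2‖ ^ 2)⁻¹) • z.2.2), vx P z.2.2 z.2.2⟫ = 0 ∧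
    ‖√P • vx P z.2.2 (e - (⟪e, z.2.2⟫ * (‖z.2.2‖ ^ 2)⁻¹) • z.2.2)‖ ^ 2 =
      ‖e‖ ^ 2 - (⟪e, z.2.2⟫ / ‖z.2.2‖) ^ 2 := by
  have g : ‖z.2.2‖ ≠ 0 := norm_ne_zero_iff.2 hξ
  have p0 : 0 < P := by linarith
  have e1 : ⟪e - (⟪e, z.2.2⟫ * (‖z.2.2‖ ^ 2)⁻¹) • z.2.2, z.2.2⟫ = 0 := by
    rw [inner_sub_left, real_inner_smul_left, real_inner_self_eq_norm_sq]; field_simp; ring
  have e2 : ⟪e - (⟪e, z.2.2⟫ * (‖z.2.2‖ ^ 2)⁻¹) • z.2.2, nu z.2.2⟫ = 0 := by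
    rw [nu, real_inner_smul_right, e1, mul_zero]
  refine ⟨by rw [real_inner_smul_left, b.ix, e1, e2]; ring, ?_⟩
  rw [norm_smul, mul_pow, Real.norm_of_nonneg (Real.sqrt_nonneg P), Real.sq_sqrt p0.le,
    ← real_inner_self_eq_norm_sq, b.ix, e2]
  nth_rewrite 1 [inner_sub_right]
  rw [real_inner_smul_right, e1, inner_sub_left, real_inner_smul_left, real_inner_self_eq_norm_sq,
    real_inner_comm e z.2.2]
  field_simp
  ring

theorem icRho (b : Bas P z H) (hP : 1 ≤ P) (hξ : z.2.2 ≠ 0) :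
    (∀ e : X d, ‖(-(√P * z.2.1)) • vh P z.2.2 H (icOm z.2.2 e)‖ ≤
      ‖e‖ * (|z.2.1| * ga P z.2.2 H / ‖z.2.2‖)) ∧
    ∑ j, ‖(-(√P * z.2.1)) • vh P z.2.2 H (icOm z.2.2 (ei j))‖ ^ 2 =
      (z.2.1 * ga P z.2.2 H / ‖z.2.2‖) ^ 2 := by
  have g : ‖z.2.2‖ ≠ 0 := norm_ne_zero_iff.2 hξ
  have p0 : 0 < P := by linarith
  have e0 : ∀ v : Vc d, ‖(-(√P * z.2.1)) • v‖ ^ 2 = P * z.2.1 ^ 2 * ‖v‖ ^ 2 := fun v => by
    rw [norm_smul, mul_pow, Real.norm_eq_abs, sq_abs, neg_sq, mul_pow, Real.sq_sqrt p0.le]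
  have e1 : P * z.2.1 ^ 2 * (sg P z.2.2 H / (‖z.2.2‖ ^ 2) ^ 2) =
      (z.2.1 * ga P z.2.2 H / ‖z.2.2‖) ^ 2 := by
    have : sg P z.2.2 H = ga P z.2.2 H ^ 2 * ‖z.2.2‖ ^ 2 / P := by rw [b.ga2]; field_simp
    rw [this]; field_simp
  refine ⟨fun e => (abs_le_of_sq_le_sq' ?_ (by have := b.ga0; positivity)).2, ?_⟩
  · have h := b.nh (icOm z.2.2 e)
    rw [icOm_norm hξ] at h
    rw [e0, mul_pow, div_pow, mul_pow, sq_abs, ← mul_pow, ← div_pow, ← e1]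
    calc _ ≤ P * z.2.1 ^ 2 * (‖e‖ ^ 2 / (‖z.2.2‖ ^ 2) ^ 2 * sg P z.2.2 H) := by gcongr
      _ = _ := by ring
  · simp only [e0]
    rw [← Finset.mul_sum, ← e1]
    congr 1
    simp only [EuclideanSpace.real_norm_sq_eq (vh _ _ _ _)]
    simp only [vh, icOm_symm]
    rw [Finset.sum_comm, sg, Finset.sum_div]
    refine Finset.sum_congr rfl fun k _ => ?_
    rw [← icOm_norm hξ, ← real_inner_self_eq_norm_sq, ← icSum]
    simp only [sq]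

theorem ic (k : Kit) : IcS := by
  intro d P z H hP hξ hA
  have j := k.jet d P z H
  have b := k.bas d P z H hP hξ
  have p0 : 0 < √P := Real.sqrt_pos.2 (by linarith)
  obtain ⟨r1, r2⟩ := icRho b hP hξ
  refine ⟨fun e => ?_, ?_⟩
  · obtain ⟨L, h1, h2⟩ := icCore j b hP hξ hA e
    exact ⟨_, _, L, h1, (icPi b hP hξ e).1, (icPi b hP hξ e).2, r1 e, h2⟩
  choose L hL hb using icCore j b hP hξ hA
  have s1 := j.congr (g := fun y => ‖yh P y‖ ^ 2)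
    (j.sum Finset.univ fun i _ => j.sq (hL (ei i))) (Eventually.of_forall fun y => by
      simp only
      rw [← real_inner_self_eq_norm_sq, ← icSum]
      simp only [sq])
  have s2 := j.congr (g := fun y => ⟪yh P z, yh P y⟫)
    (j.sum Finset.univ fun i _ => j.cmul ⟪ei i, yh P z⟫ (hL (ei i)))
    (Eventually.of_forall fun y => (icSum _ _).symm)
  obtain ⟨u1, u2⟩ := icUniq s2 (hL (yh P z))
  have pn : ∀ e : X d, ‖√P • vx P z.2.2 (e - (⟪e, z.2.2⟫ * (‖z.2.2‖ ^ 2)⁻¹) • z.2.2)‖ ≤ ‖e‖ :=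
    fun e => (abs_le_of_sq_le_sq' ((icPi b hP hξ e).2.trans_le (sub_le_self _ (sq_nonneg _)))
      (norm_nonneg _)).2
  refine ⟨_, _, s1, ?_, ?_⟩
  · simp only [mul_smul (2 : ℝ)]
    rw [← Finset.smul_sum, u1, norm_smul, Real.norm_two, mul_assoc, mul_add, mul_one]
    exact mul_le_mul_of_nonneg_left ((norm_add_le _ _).trans (add_le_add (pn _) (r1 _))) two_pos.le
  · simp only [mul_assoc (2 : ℝ) ⟪_, yh P z⟫]
    rw [Finset.sum_add_distrib, ← Finset.mul_sum, ← Finset.mul_sum, u2]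
    refine (abs_add_le _ _).trans (add_le_add ?_ ?_)
    · rw [abs_mul, abs_two, le_div_iff₀ p0]
      have := hb (yh P z)
      linarith
    · rw [abs_of_nonneg (by positivity), ← r2]
      have : ∀ i : Fin d, ‖√P • vx P z.2.2 (ei i - (⟪ei i, z.2.2⟫ * (‖z.2.2‖ ^ 2)⁻¹) • z.2.2) +
          (-(√P * z.2.1)) • vh P z.2.2 H (icOm z.2.2 (ei i))‖ ^ 2 ≤
          2 * (1 + ‖(-(√P * z.2.1)) • vh P z.2.2 H (icOm z.2.2 (ei i))‖ ^ 2) := fun i => by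
        have h1 := pn (ei i)
        rw [show ‖(ei i : X d)‖ = 1 by simp] at h1
        have h2 := (norm_add_le _ ((-(√P * z.2.1)) • vh P z.2.2 H (icOm z.2.2 (ei i)))).trans
          (add_le_add_left h1 _)
        have h3 := pow_le_pow_left₀ (norm_nonneg _) h2 2
        nlinarith [sq_nonneg (1 - ‖(-(√P * z.2.1)) • vh P z.2.2 H (icOm z.2.2 (ei i))‖)]
      have h := Finset.sum_le_sum fun i (_ : i ∈ Finset.univ) => this i
      rw [← Finset.mul_sum, Finset.sum_add_distrib] at h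
      simp only [Finset.sum_const, Finset.card_univ, Fintype.card_fin, nsmul_eq_mul, mul_one] at h
      linarith

end Pool.Agent.MP_815c6c_an.H

end
end MrgPart6

-- ======== part 7: formerly Pool.Agent.MP_815c6c_an.H.Inv
section MrgPart7

/-! Invariance of the set of states under affine changes. -/

set_option autoImplicit false

namespace Pool.Agent.MP_815c6c_an.H

open Set Metric Filter Topology
open scoped RealInnerProductSpace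
open N (X)

theorem inv_chain {E : Type} [NormedAddCommGroup E] [NormedSpace ℝ E] {g : E → ℝ} (L : E →L[ℝ] E)
    (a z : E) (hg : ContDiffAt ℝ 2 g (a + L z)) :
    (∀ v, fderiv ℝ (fun y => g (a + L y)) z v = fderiv ℝ g (a + L z) (L v)) ∧
    ∀ v w, fderiv ℝ (fderiv ℝ fun y => g (a + L y)) z v w =
      fderiv ℝ (fderiv ℝ g) (a + L z) (L v) (L w) := by
  have hA : ∀ y, HasFDerivAt (fun y => a + L y) L y := fun y => L.hasFDerivAt.const_add a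
  have e : (fderiv ℝ fun y => g (a + L y)) =ᶠ[𝓝 z] fun y => (fderiv ℝ g (a + L y)).comp L :=
    ((hA z).continuousAt.eventually (hg.eventually (by simp))).mono fun y h =>
      ((h.differentiableAt two_ne_zero).hasFDerivAt.comp y (hA y)).fderiv
  have hF : DifferentiableAt ℝ (fderiv ℝ g) (a + L z) :=
    (hg.fderiv_right (m := 1) le_rfl).differentiableAt one_ne_zero
  refine ⟨fun v => by rw [e.eq_of_nhds]; rfl, fun v w => ?_⟩
  have := ((hF.hasFDerivAt.comp z (hA z)).clm_comp (hasFDerivAt_const L z)).fderiv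
  rw [e.fderiv_eq]
  refine (congrArg (fun T => T v w) this).trans ?_
  simp

variable {d : ℕ} {P t r m : ℝ} {x ξ : X d} {H : En d}

theorem inv_nu (hm : 0 < m) : nu (m • ξ) = nu ξ := by
  rw [nu, nu, norm_smul, Real.norm_of_nonneg hm.le, smul_smul, mul_inv, mul_right_comm,
    inv_mul_cancel₀ hm.ne', one_mul]

theorem inv_dir (hm : 0 < m) : dir P (m • ξ) = dir P ξ := by
  funext k
  cases k
  exacts [inv_nu hm, rfl]

theorem inv_lo (hm : 0 < m) {g : St d → ℝ} {z : St d} (hg : ContDiffAt ℝ 2 g (af x t r m z)) :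
    Lo P (fun y => g (af x t r m y)) z ((r / m) • H) = r ^ 2 * Lo P g (af x t r m z) H := by
  let L : St d →L[ℝ] St d := (r • ContinuousLinearMap.id ℝ _).prodMap
    (((r * m) • ContinuousLinearMap.id ℝ _).prodMap (m • ContinuousLinearMap.id ℝ _))
  have e : ∀ y, af x t r m y = (x, t, 0) + L y := fun y => by simp [af, L, Prod.ext_iff]
  have e1 : ∀ v, L (tv z.2.2 ((r / m) • H) v) = r • tv (m • z.2.2) H v := fun v => by
    simp [L, tv, inner_smul_left, smul_smul, mul_assoc, mul_div_cancel₀ _ hm.ne']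
  have e2 : L (dr z.2.2 ((r / m) • H), 0, 0) = r ^ 2 • (dr (m • z.2.2) H, 0, 0) := by
    have : dr z.2.2 ((r / m) • H) = r • dr (m • z.2.2) H := by
      simp only [dr, inv_nu hm, smul_apply, real_inner_smul_left, norm_smul,
        Real.norm_of_nonneg hm.le]
      rw [mul_smul, ← smul_sub, smul_smul, smul_smul]
      congr 1
      ring
    simp [L, this, smul_smul, sq]
  have e3 : (af x t r m z).2.2 = m • z.2.2 := rfl
  rw [e] at hg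
  obtain ⟨a, b⟩ := inv_chain L _ z hg
  simp only [Lo, e3, inv_dir hm]
  simp only [e, a, b, e1, e2, map_smul, smul_apply, smul_eq_mul, mul_add,
    Finset.mul_sum, sq, mul_assoc]

theorem inv_af (hr : r ≠ 0) (hm : 0 < m) (w : St d) :
    af x t r m (af (-(r⁻¹ • x)) (-(t / (r * m))) r⁻¹ m⁻¹ w) = w ∧
      af (-(r⁻¹ • x)) (-(t / (r * m))) r⁻¹ m⁻¹ (af x t r m w) = w := by
  have := hm.ne'
  constructor <;> refine Prod.ext ?_ (Prod.ext ?_ ?_) <;> simp [af, smul_smul, hr, this] <;>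
    field_simp <;> ring

theorem inv_cd (x : X d) (t r m : ℝ) : ContDiff ℝ 2 (af x t r m) := by
  unfold af
  fun_prop

theorem inv_norm (a b : X d) : ‖x + r • a - (x + r • b)‖ = |r| * ‖a - b‖ := by
  rw [add_sub_add_left_eq_sub, ← smul_sub, norm_smul, Real.norm_eq_abs]

theorem inv : InvS := by
  intro d P U u T x t r m hr hm h
  have c : Continuous fun y : X d => x + r • y := by fun_prop
  have r0 : 0 < |r| := abs_pos.2 hr
  have sj : ∀ w : St d, ∃ z, af x t r m z = w := fun w => ⟨_, (inv_af hr hm w).1⟩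
  have bl : ∀ (y : X d) (s : ℝ), closedBall y s ⊆ {y | x + r • y ∈ U} →
      closedBall (x + r • y) (|r| * s) ⊆ U := fun y s k w hw => by
    obtain ⟨z, e⟩ := sj (w, 0, 0)
    obtain rfl : x + r • z.1 = w := congrArg Prod.fst e
    rw [mem_closedBall_iff_norm, inv_norm] at hw
    exact k (mem_closedBall_iff_norm.2 (le_of_mul_le_mul_left hw r0))
  have n1 : ∀ (z : St d) (y : X d), ‖(af x t r m z).1 - (x + r • y)‖ = |r| * ‖z.1 - y‖ :=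
    fun z y => inv_norm _ _
  have n2 : ∀ z : St d, ‖(af x t r m z).2.2‖ = m * ‖z.2.2‖ := fun z =>
    (norm_smul m z.2.2).trans (by rw [Real.norm_of_nonneg hm.le])
  refine ⟨h.op.preimage c, ((h.cont.comp c.continuousOn fun _ k => k).sub
    continuousOn_const).div_const _, fun z hz => ⟨(h.gr _ hz).1, ?_⟩, fun K k1 k2 => ?_,
    fun y hy => ?_, fun z hz z0 f hf mx c c0 => ?_, fun y0 a s o k1 k2 y hy y' hy' => ?_,
    fun y0 s a k1 a0 ⟨z, z1, z2, z3⟩ ⟨z', z1', z2', z3'⟩ => ?_⟩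
  · have : t + r * m * z.2.1 = u (x + r • z.1) := (h.gr _ hz).2
    rw [← this]
    field_simp
    ring
  · refine ((h.cpt _ (image_subset_iff.2 k1) (k2.image c)).image
      (inv_cd (-(r⁻¹ • x)) (-(t / (r * m))) r⁻¹ m⁻¹).continuous).of_isClosed_subset ?_
      fun z hz => ⟨_, ⟨hz.1, z.1, hz.2, rfl⟩, (inv_af hr hm z).2⟩
    have e : {z | z ∈ af x t r m ⁻¹' T ∧ z.1 ∈ K} =
        af x t r m ⁻¹' {z | z ∈ T ∧ z.1 ∈ (fun y => x + r • y) '' K} := by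
      ext z
      exact and_congr_right fun _ => ⟨fun k => ⟨z.1, k, rfl⟩, fun ⟨y, k, e⟩ =>
        smul_right_injective _ hr (add_left_cancel e) ▸ k⟩
    rw [e]
    exact (h.cpt _ (image_subset_iff.2 k1) (k2.image c)).isClosed.preimage
      (inv_cd x t r m).continuous
  · obtain ⟨ξ, k⟩ := h.ne _ hy
    refine ⟨m⁻¹ • ξ, ?_⟩
    rw [mem_preimage, af, smul_inv_smul₀ hm.ne', mul_div_cancel₀ _ (mul_ne_zero hr hm.ne'),
      add_sub_cancel]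
    exact k
  · have cB := inv_cd (-(r⁻¹ • x)) (-(t / (r * m))) r⁻¹ m⁻¹
    have hg : ContDiffAt ℝ 2 (fun w => f (af (-(r⁻¹ • x)) (-(t / (r * m))) r⁻¹ m⁻¹ w))
        (af x t r m z) := ContDiffAt.comp _ (by rwa [(inv_af hr hm z).2]) cB.contDiffAt
    have r2 : 0 < r ^ 2 := by positivity
    obtain ⟨H, a1, a2⟩ := h.mx _ hz (smul_ne_zero hm.ne' z0) _ hg
      (IsLocalMaxOn.comp_continuousOn (t := af x t r m ⁻¹' T) (by rwa [(inv_af hr hm z).2])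
        (fun w hw => by rw [mem_preimage, mem_preimage, (inv_af hr hm w).1]; exact hw)
        cB.continuous.continuousOn hz) (c / (r ^ 2 + m ^ 2)) (by positivity)
    have a3 := inv_lo (P := P) (H := H) hm hg
    simp only [(inv_af hr hm _).2] at a3
    have e3 : (af x t r m z).2.2 = m • z.2.2 := rfl
    simp only [Adm, sg, e3, inv_dir hm] at a1 a2
    refine ⟨(r / m) • H, ⟨fun v w => ?_, ?_⟩, ?_⟩
    · simp only [smul_apply, real_inner_smul_left, real_inner_smul_right, a1.1]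
    · simp only [smul_apply, real_inner_smul_left, ← Finset.mul_sum, a1.2,
        mul_zero]
    · have s0 : 0 ≤ ∑ k, ‖H (dir P z.2.2 k)‖ ^ 2 := by positivity
      simp only [sg, smul_apply, norm_smul, mul_pow, ← Finset.mul_sum,
        Real.norm_eq_abs, sq_abs]
      refine a3.trans_lt ((mul_lt_mul_of_pos_left a2 r2).trans_le ?_)
      generalize ∑ k, ‖H (dir P z.2.2 k)‖ ^ 2 = s at s0
      have b1 : r ^ 2 / (r ^ 2 + m ^ 2) ≤ 1 := div_le_one_of_le₀ (by nlinarith) (by positivity)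
      have b2 : r ^ 2 / (r ^ 2 + m ^ 2) ≤ (r / m) ^ 2 := by
        rw [div_pow]
        exact div_le_div_of_nonneg_left r2.le (by positivity) (by linarith)
      rw [show r ^ 2 * (c / (r ^ 2 + m ^ 2) * (1 + s)) =
        c * (r ^ 2 / (r ^ 2 + m ^ 2) + r ^ 2 / (r ^ 2 + m ^ 2) * s) by ring]
      gcongr
  · have := h.lip (x + r • y0) (m • a) (|r| * s) (m * o) (bl _ _ k1) (fun w hw k => by
      obtain ⟨z, rfl⟩ := sj w
      rw [n1] at k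
      have e : (af x t r m z).2.2 - m • a = m • (z.2.2 - a) := (smul_sub ..).symm
      rw [e, norm_smul, Real.norm_of_nonneg hm.le]
      exact mul_le_mul_of_nonneg_left (k2 z hw (le_of_mul_le_mul_left k r0)) hm.le)
      (x + r • y) (by
        rw [mem_closedBall_iff_norm, inv_norm]
        exact mul_le_mul_of_nonneg_left (mem_closedBall_iff_norm.1 hy) r0.le) (x + r • y') (by
        rw [mem_closedBall_iff_norm, inv_norm]
        exact mul_le_mul_of_nonneg_left (mem_closedBall_iff_norm.1 hy') r0.le)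
    rw [inv_norm, add_sub_add_left_eq_sub, ← smul_sub, real_inner_smul_left,
      real_inner_smul_right] at this
    have e : (u (x + r • y) - t) / (r * m) - (u (x + r • y') - t) / (r * m) - ⟪a, y - y'⟫ =
        (u (x + r • y) - u (x + r • y') - m * (r * ⟪a, y - y'⟫)) / (r * m) := by
      field_simp
      ring
    rw [e, abs_div, abs_mul, abs_of_pos hm, div_le_iff₀ (by positivity)]
    linarith
  · obtain ⟨w, w1, w2, w3⟩ := h.ivt (x + r • y0) (|r| * s) (m * a) (bl _ _ k1) (by positivity)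
      ⟨_, z1, by rw [n1]; gcongr, by rw [n2]; gcongr⟩
      ⟨_, z1', by rw [n1]; gcongr, by rw [n2]; gcongr⟩
    obtain ⟨w, rfl⟩ := sj w
    rw [n1] at w2
    rw [n2] at w3
    exact ⟨w, w1, le_of_mul_le_mul_left w2 r0, mul_left_cancel₀ hm.ne' w3⟩

end Pool.Agent.MP_815c6c_an.H

end MrgPart7

-- ======== part 8: formerly Pool.Agent.MP_815c6c_an.H.Mp
section MrgPart8

/-! Scalar p-harmonic functions for large `p`: the maximum principle on compact sets of states. -/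

set_option autoImplicit false

namespace Pool.Agent.MP_815c6c_an.H

open Set Metric Filter Topology
open N (X)

theorem mp : JetS → BasS → MpS := by
  intro jet bas d P U u T K B Ψ hP vs hK hKT hΨ h z₀ hz₀ δ hδ
  have ct : Continuous fun y : St d => y.2.1 ^ 2 := by fun_prop
  obtain ⟨C, hC⟩ := hK.exists_bound_of_continuousOn ct.continuousOn
  have C0 : 0 ≤ C := (norm_nonneg _).trans (hC z₀ hz₀)
  obtain ⟨e, e0, he⟩ : ∃ e : ℝ, 0 < e ∧ e * C ≤ δ := ⟨δ / (C + 1), by positivity, by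
    rw [div_mul_eq_mul_div, div_le_iff₀ (by positivity)]
    nlinarith⟩
  obtain ⟨z, hz, hm⟩ := hK.exists_isMaxOn (f := fun y => Ψ y + e * y.2.1 ^ 2) ⟨z₀, hz₀⟩
    (hΨ.add (continuous_const.mul ct).continuousOn)
  refine ⟨z, hz, by_contra fun hB => ?_, ?_⟩
  · obtain ⟨hξ, hn, f, c, c0, hf, fz, hH⟩ := h z hz hB
    have g0 : 0 < ‖z.2.2‖ ^ 2 := pow_pos (norm_pos_iff.2 hξ) 2
    obtain ⟨_, _, j0, -⟩ := hH 0 ⟨fun v w => by simp, by simp⟩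
    obtain ⟨H, a, b⟩ := vs.mx z (hKT hz) hξ (fun y => f y + e * y.2.1 ^ 2)
      (j0.c2.add (by fun_prop)) (by
        filter_upwards [hf, hn] with y k1 k2
        have : Ψ y + e * y.2.1 ^ 2 ≤ Ψ z + e * z.2.1 ^ 2 := hm k2
        linarith) (min c (2 * e * ‖z.2.2‖ ^ 2)) (lt_min c0 (by positivity))
    obtain ⟨v, L, j, k⟩ := hH H a
    have J := jet d P z H
    have D := bas d P z H hP hξ
    rw [(J.add j (J.cmul e (J.sq J.jt))).lo] at b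
    have k1 := mul_le_mul_of_nonneg_right (min_le_left c (2 * e * ‖z.2.2‖ ^ 2)) D.sg0
    have k2 := min_le_right c (2 * e * ‖z.2.2‖ ^ 2)
    have k3 := mul_le_mul_of_nonneg_left D.nt e0.le
    linarith
  · have k1 : Ψ z₀ + e * z₀.2.1 ^ 2 ≤ Ψ z + e * z.2.1 ^ 2 := hm hz₀
    have k2 := mul_le_mul_of_nonneg_left ((le_abs_self _).trans (hC z hz)) e0.le
    have k3 : 0 ≤ e * z₀.2.1 ^ 2 := by positivity
    linarith

theorem top : TopS := by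
  intro d P U u T x r vs hs hr
  obtain ⟨ξ, hξ⟩ := vs.ne x (hs (mem_closedBall_self hr))
  obtain ⟨z, hz, hm⟩ := (vs.cpt _ hs (isCompact_closedBall x r)).exists_isMaxOn
    (f := fun y => ‖y.2.2‖) ⟨_, hξ, mem_closedBall_self hr⟩ (by fun_prop)
  exact ⟨z, hz.1, mem_closedBall_iff_norm.1 hz.2,
    fun y k1 k2 => hm ⟨k1, mem_closedBall_iff_norm.2 k2⟩⟩

end Pool.Agent.MP_815c6c_an.H

end MrgPart8

-- ======== part 9: formerly Pool.Agent.MP_815c6c_an.H.Step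
section MrgPart9

/-! The gain in one window. -/

set_option autoImplicit false

noncomputable section

namespace Pool.Agent.MP_815c6c_an.H

open Set Metric MeasureTheory Filter Topology
open scoped ENNReal RealInnerProductSpace
open N (X)

variable {d : ℕ}

theorem step_num {P γ q E x y L0 L1 c i s : ℝ} (hP : 4 ≤ P) (q0 : 0 ≤ q) (q3 : q ≤ 3) (E0 : 0 ≤ E)
    (hx : x ^ 2 ≤ s) (hs : P * s ≤ 4 * γ ^ 2) (hy : y ^ 2 ≤ P * (E + γ ^ 2))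
    (h0 : 2 ^ 30 * γ ^ 2 ≤ L0) (h1 : E - 2 ^ 26 * γ ^ 2 ≤ L1) (c0 : 0 ≤ c) (hi : i ≤ x * y) :
    γ ^ 2 ≤ L0 + (q ^ 2 * L1 + c * (2 * x ^ 2) + 2 * (-(2 * q) * i)) := by
  have a : P * (4 * q * (x * y)) ≤ P * (q ^ 2 * (E + γ ^ 2) / 2 + 32 * γ ^ 2) := by
    have b := mul_le_mul_of_nonneg_left hy (sq_nonneg q)
    have e : P * (P * x ^ 2) ≤ P * (4 * γ ^ 2) :=
      mul_le_mul_of_nonneg_left ((mul_le_mul_of_nonneg_left hx (by linarith)).trans hs)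
        (by linarith)
    nlinarith [sq_nonneg (q * y - 4 * P * x)]
  have a' := le_of_mul_le_mul_left a (by linarith)
  have b := mul_le_mul_of_nonneg_left h1 (sq_nonneg q)
  have e := mul_le_mul_of_nonneg_left hi q0
  have f : q ^ 2 * γ ^ 2 ≤ 9 * γ ^ 2 := mul_le_mul_of_nonneg_right (by nlinarith) (sq_nonneg γ)
  have g : 0 ≤ q ^ 2 * E := by positivity
  have h : 0 ≤ c * (2 * x ^ 2) := by positivity
  nlinarith [sq_nonneg γ]

theorem step_U0 {P : ℝ} {ξ : X d} (h : ξ ≠ 0) : U0 d P ξ = 2 ^ 31 * (P * Real.log ‖ξ‖) -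
    Real.exp (-(2 * (d : ℝ))⁻¹ * (P * Real.log ‖ξ‖) + -(2 * (d : ℝ))⁻¹ * (P * Real.log 4)) := by
  have a := norm_pos_iff.2 h
  rw [U0, Real.rpow_def_of_pos (by positivity), Real.log_mul (by norm_num) a.ne']
  congr 2
  ring

theorem step_jet (k : Kit) {P : ℝ} (hd : 1 ≤ d) (hP : 4 * d ≤ P) {z : St d} (hz : z.2.2 ≠ 0)
    {H : En d} (hH : Adm P z.2.2 H) (c : ℝ) (w : X d) :
    ∃ v L, J P z H (fun y => U0 d P y.2.2 + (⟪w, y.2.2⟫ + c)) v L ∧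
      2 ^ 30 * ga P z.2.2 H ^ 2 ≤ L := by
  have d1 : (1 : ℝ) ≤ d := by exact_mod_cast hd
  have j := k.jet d P z H
  obtain ⟨v, L, a, h1, h2⟩ := (k.bas d P z H (by linarith) hz).lg hH hP
  have b := ((j.add (j.sub (j.cmul (2 ^ 31) a) (j.exp (j.addc (-(2 * (d : ℝ))⁻¹ * (P * Real.log 4))
    (j.cmul (-(2 * (d : ℝ))⁻¹) a)))) (j.addc c (j.jw w))))
  refine ⟨_, _, j.congr b ?_, ?_⟩
  · filter_upwards [(isOpen_ne_fun (f := fun y : St d => y.2.2) (g := fun _ => 0) (by fun_prop)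
      continuous_const).mem_nhds hz] with y hy
    rw [step_U0 hy]
  have e : -(2 * (d : ℝ))⁻¹ * L + ‖(-(2 * (d : ℝ))⁻¹) • v‖ ^ 2 ≤ 0 := by
    rw [norm_smul, mul_pow, Real.norm_eq_abs, sq_abs, neg_sq]
    have p : 0 < (2 * (d : ℝ))⁻¹ := by positivity
    have q : (2 * (d : ℝ))⁻¹ * ‖v‖ ^ 2 ≤ L := by
      rw [inv_mul_le_iff₀ (by positivity)]
      nlinarith
    nlinarith
  have f := mul_nonpos_of_nonneg_of_nonpos (Real.exp_pos (-(2 * (d : ℝ))⁻¹ * (P * Real.log ‖z.2.2‖) +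
    -(2 * (d : ℝ))⁻¹ * (P * Real.log 4))).le e
  linarith

theorem step_abs {e ξ : X d} (he : ‖e‖ = 1) (h : ‖ξ‖ ≤ 2) : -2 ≤ ⟪e, ξ⟫ := by
  have := abs_real_inner_le_norm e ξ
  rw [he, one_mul] at this
  linarith [(abs_le.1 this).1]

theorem step_sub (k : Kit) {P A τ ρ S : ℝ} {e : X d} {χ : St d → ℝ} (T : Set (St d))
    {Z : X d → ℝ} (hd : 1 ≤ d) (hP : 4 * d ≤ P) (S2 : S ≤ 2) (he : ‖e‖ = 1)
    (hW : Win P A τ ρ S e χ) (hZ : Cvx Z) {z : St d} (hz : Rg S τ e z) :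
    Sub P T z fun y => U0 d P y.2.2 + Z y.2.2 + ze S e y.2.2 * max (χ y) 0 := by
  have d1 : (1 : ℝ) ≤ d := by exact_mod_cast hd
  have z0 : z.2.2 ≠ 0 := norm_pos_iff.1 (lt_of_lt_of_le (by norm_num) hz.1)
  obtain ⟨w, hw⟩ := hZ.2 z.2.2
  have lo : ∀ y : St d, ⟪w, y.2.2⟫ + (Z z.2.2 - ⟪w, z.2.2⟫) ≤ Z y.2.2 := fun y => by
    have := hw y.2.2
    rw [inner_sub_right] at this
    linarith
  have sg4 : ∀ H, P * sg P z.2.2 H ≤ 4 * ga P z.2.2 H ^ 2 := fun H => by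
    rw [← (k.bas d P z H (by linarith) z0).ga2, mul_comm]
    exact mul_le_mul_of_nonneg_right (by nlinarith [hz.2.1, norm_nonneg z.2.2]) (sq_nonneg _)
  have sg1 : ∀ H, 1 * sg P z.2.2 H ≤ ga P z.2.2 H ^ 2 := fun H => by
    nlinarith [sg4 H, (k.bas d P z H (by linarith) z0).sg0]
  by_cases h : S / 2 ≤ ⟪e, z.2.2⟫ ∨ χ z ≤ 0
  · refine ⟨fun y => U0 d P y.2.2 + (⟪w, y.2.2⟫ + (Z z.2.2 - ⟪w, z.2.2⟫)), 1, one_pos,
      Eventually.of_forall fun y => ?_, ?_, fun H hH => ?_⟩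
    · have : 0 ≤ ze S e y.2.2 * max (χ y) 0 := mul_nonneg (sq_nonneg _) (le_max_right _ _)
      linarith [lo y]
    · have : ze S e z.2.2 * max (χ z) 0 = 0 := by
        rcases h with h | h
        · rw [ze, max_eq_right (by linarith)]
          simp
        · rw [max_eq_right h, mul_zero]
      simp only [this]
      ring
    · obtain ⟨v, L, a, b⟩ := step_jet k hd hP z0 hH (Z z.2.2 - ⟪w, z.2.2⟫) w
      exact ⟨v, L, a, by nlinarith [sg1 H, sq_nonneg (ga P z.2.2 H)]⟩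
  rw [not_or, not_le, not_le] at h
  obtain ⟨f, E, E0, fl, fe, fj⟩ := hW.w5 z hz h.1.le
  refine ⟨fun y => U0 d P y.2.2 + (⟪w, y.2.2⟫ + (Z z.2.2 - ⟪w, z.2.2⟫)) +
    (S / 2 - ⟪e, y.2.2⟫) ^ 2 * f y, 1, one_pos, mem_nhdsWithin_of_mem_nhds ?_, ?_, fun H hH => ?_⟩
  · filter_upwards [fl, (isOpen_lt (f := fun y : St d => ⟪e, y.2.2⟫) (g := fun _ => S / 2)
      (by fun_prop) continuous_const).mem_nhds h.1] with y a b
    have : (S / 2 - ⟪e, y.2.2⟫) ^ 2 * f y ≤ ze S e y.2.2 * max (χ y) 0 := by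
      rw [ze, max_eq_left (sub_nonneg.2 b.le)]
      exact mul_le_mul_of_nonneg_left (a.trans (le_max_left _ _)) (sq_nonneg _)
    linarith [lo y]
  · simp only [ze, fe, max_eq_left (sub_nonneg.2 h.1.le), max_eq_left h.2.le]
    ring
  obtain ⟨v, L, a, b⟩ := step_jet k hd hP z0 hH (Z z.2.2 - ⟪w, z.2.2⟫) w
  obtain ⟨v1, L1, a1, b1, c1⟩ := fj H hH
  have j := k.jet d P z H
  refine ⟨_, _, j.add a (j.mul (j.sq (j.sub (j.const (S / 2)) (j.jw e))) a1), (sg1 H).trans ?_⟩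
  have x := (k.bas d P z H (by linarith) z0).nh e
  rw [he, one_pow, one_mul] at x
  refine (step_num (q := S / 2 - ⟪e, z.2.2⟫) (c := f z) (by linarith) (sub_nonneg.2 h.1.le)
    (by linarith [step_abs he hz.2.1]) E0 x (sg4 H) c1 b b1 (fe ▸ h.2.le)
    (real_inner_le_norm (vh P z.2.2 H e) v1)).trans_eq ?_
  simp only [zero_sub, norm_neg, sub_self, real_inner_smul_left, inner_neg_left]
  ring

theorem step : Kit → StepS := by
  intro k d P A τ ρ S m b e χ U u T Z hd hP A0 ρ0 S1 S2 he hW hV hU hT hZ m0 hm hb hs z zT z1 z2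
  have d1 : (1 : ℝ) ≤ d := by exact_mod_cast hd
  have lP : 0 ≤ Real.log P := Real.log_nonneg (by linarith)
  set K : Set (St d) := {y | y ∈ T ∧ y.1 ∈ closedBall (0 : X d) (P * ρ)} ∩ {y | 1 / 8 ≤ ‖y.2.2‖}
    with hK
  have mK : ∀ y, y ∈ K ↔ y ∈ T ∧ ‖y.1‖ ≤ P * ρ ∧ 1 / 8 ≤ ‖y.2.2‖ := fun y => by
    simp [hK, and_assoc]
  have rg : ∀ y ∈ K, Rg S τ e y := fun y hy =>
    have a := (mK y).1 hy
    ⟨a.2.2, hT y a.1 a.2.1⟩
  have n0 : ∀ y ∈ K, y.2.2 ≠ 0 := fun y hy =>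
    norm_pos_iff.1 (lt_of_lt_of_le (by norm_num) (rg y hy).1)
  have cK : IsCompact K := (hV.cpt _ hU (isCompact_closedBall _ _)).inter_right
    (isClosed_le continuous_const (by fun_prop))
  have cn : ContinuousOn (fun y : St d => ‖y.2.2‖) K := by fun_prop
  have cΨ : ContinuousOn
      (fun y : St d => U0 d P y.2.2 + Z y.2.2 + ze S e y.2.2 * max (χ y) 0) K := by
    refine ContinuousOn.add (ContinuousOn.add (ContinuousOn.sub ?_ ?_) ?_) (ContinuousOn.mul ?_ ?_)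
    · exact continuousOn_const.mul (continuousOn_const.mul
        (cn.log fun y hy => norm_ne_zero_iff.2 (n0 y hy)))
    · exact (continuousOn_const.mul cn).rpow_const fun y hy =>
        Or.inl (mul_ne_zero (by norm_num) (norm_ne_zero_iff.2 (n0 y hy)))
    · exact (hZ.1.comp (by fun_prop)).continuousOn
    · unfold ze
      fun_prop
    · exact (hW.w1.mono n0).sup continuousOn_const
  have zK : z ∈ K := (mK z).2 ⟨zT, by nlinarith, z2⟩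
  have lo : A / 4 * Real.log P * ze S e z.2.2 ≤ ze S e z.2.2 * max (χ z) 0 := by
    rw [mul_comm]
    exact mul_le_mul_of_nonneg_left ((hW.w3 z (rg z zK) z1).trans (le_max_left _ _)) (sq_nonneg _)
  have nh : ∀ y ∈ K, ¬(‖y.1‖ = P * ρ ∨ ‖y.2.2‖ = 1 / 8) → K ∈ 𝓝[T] y := fun y hy nB => by
    have a := (mK y).1 hy
    rw [not_or] at nB
    filter_upwards [self_mem_nhdsWithin, mem_nhdsWithin_of_mem_nhds
      ((isOpen_lt (f := fun y : St d => ‖y.1‖) (g := fun _ => P * ρ) (by fun_prop)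
        continuous_const).mem_nhds (lt_of_le_of_ne a.2.1 nB.1)), mem_nhdsWithin_of_mem_nhds
      ((isOpen_lt (f := fun _ => (1 / 8 : ℝ)) (g := fun y : St d => ‖y.2.2‖) continuous_const
        (by fun_prop)).mem_nhds (lt_of_le_of_ne a.2.2 (Ne.symm nB.2)))] with x p q r
    exact (mK x).2 ⟨p, le_of_lt q, le_of_lt r⟩
  refine le_of_forall_pos_le_add fun δ δ0 => ?_
  obtain ⟨y, yK, yB, hy⟩ := k.mp d P U u T K {y | ‖y.1‖ = P * ρ ∨ ‖y.2.2‖ = 1 / 8} _ (by linarith)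
    hV cK (fun y hy => ((mK y).1 hy).1) cΨ (fun y hy nB => ⟨n0 y hy, nh y hy nB,
      step_sub k T hd hP S2 he hW hZ (rg y hy)⟩) z zK δ δ0
  · have a := (mK y).1 yK
    suffices U0 d P y.2.2 + Z y.2.2 + ze S e y.2.2 * max (χ y) 0 ≤ m by linarith
    rcases yB with h | h
    · rw [max_eq_right (hW.w2 y (rg y yK) h), mul_zero, add_zero]
      exact hm y a.1 a.2.1 a.2.2
    have u0 : U0 d P y.2.2 ≤ -2 ^ (P / (2 * d)) := by
      have l : Real.log (1 / 8) ≤ 0 := Real.log_nonpos (by norm_num) (by norm_num)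
      rw [U0, h, show (4 : ℝ) * (1 / 8) = 2⁻¹ by norm_num, Real.inv_rpow zero_le_two,
        Real.rpow_neg zero_le_two, inv_inv]
      nlinarith [mul_nonpos_of_nonneg_of_nonpos (show 0 ≤ P by linarith) l]
    have z9 : ze S e y.2.2 ≤ 9 := by
      have p : max (S / 2 - ⟪e, y.2.2⟫) 0 ≤ 3 :=
        max_le (by linarith [step_abs he (rg y yK).2.1]) (by norm_num)
      rw [ze]
      nlinarith [le_max_right (S / 2 - ⟪e, y.2.2⟫) 0]
    have := mul_le_mul z9 (max_le (hW.w4 y (rg y yK)) (mul_nonneg A0 lP)) (le_max_right _ _)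
      (by norm_num)
    linarith [hb _ (rg y yK).2.1]

end Pool.Agent.MP_815c6c_an.H

end
end MrgPart9

-- ======== part 10: formerly Pool.Agent.MP_815c6c_an.H.Vs
section MrgPart10

/-! The essential range of a weak solution has the properties used by the core. -/

set_option autoImplicit false

noncomputable section

namespace Pool.Agent.MP_815c6c_an.H

open Set Metric MeasureTheory Filter Topology
open scoped ENNReal RealInnerProductSpace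
open N (X)
open S (ei vo Wk Sb Vp)

theorem vs_mono (sob : S.SobS) {d : ℕ} {p : ℝ} {U U' : Set (X d)} {u : X d → ℝ} {G : X d → X d}
    (h : Wk p U u G) (s : U' ⊆ U) : Wk p U' u G :=
  ⟨(sob d ℝ).mono _ _ _ _ _ s h.sb, fun φ hφ => h.dv φ ⟨hφ.1, hφ.2.1, hφ.2.2.trans s⟩⟩

theorem vs_bd (ws : S.WsS) {d : ℕ} {p : ℝ} {U : Set (X d)} {u : X d → ℝ} {G : X d → X d}
    (hp : 2 < p) (hU : IsOpen U) (lip : S.LipS d p) (h : Wk p U u G) :
    ∀ x ∈ U, ∃ r M : ℝ, 0 < r ∧ ∀ᵐ y ∂vo (ball x r), ‖G y‖ ≤ M := by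
  intro x hx
  obtain ⟨ε, e0, he⟩ := Metric.isOpen_iff.1 hU x hx
  have r0 : 0 < ε / 2 := by positivity
  have w := (ws d p U (ball 0 2) u G hp hU isOpen_ball isBounded_ball h).1 x (ε / 2) 1 0 r0.ne'
    (fun z hz => he (by
      rw [mem_ball_zero_iff] at hz
      rw [mem_ball_iff_norm, add_sub_cancel_left, norm_smul, Real.norm_of_nonneg r0.le]
      nlinarith))
  obtain ⟨M, hM⟩ := lip _ _ w
  refine ⟨ε / 2 * (1 / 2), M / (ε / 2), by positivity, ?_⟩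
  rw [ae_restrict_iff' measurableSet_ball] at hM ⊢
  have q1 : Measure.QuasiMeasurePreserving (fun y : X d => (ε / 2)⁻¹ • (y - x)) volume volume :=
    (Measure.quasiMeasurePreserving_smul volume (inv_ne_zero r0.ne')).comp
      (measurePreserving_sub_right volume x).quasiMeasurePreserving
  filter_upwards [q1.ae hM] with y hy hb
  have e : x + (ε / 2) • (ε / 2)⁻¹ • (y - x) = y := by
    rw [smul_inv_smul₀ r0.ne', add_sub_cancel]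
  have := hy (by
    rw [mem_ball_iff_norm] at hb
    rw [mem_ball_zero_iff, norm_smul, norm_inv, Real.norm_of_nonneg r0.le, inv_mul_lt_iff₀ r0]
    exact hb)
  rw [e, one_mul, norm_smul, Real.norm_of_nonneg r0.le] at this
  rw [le_div_iff₀ r0, mul_comm]
  exact this

theorem vs_nv {d : ℕ} {p : ℝ} (hp : 2 < p) (w : X d) : ‖Vp p w‖ = ‖w‖ ^ (p / 2) := by
  rw [Vp, Q.pw, norm_smul, Real.norm_of_nonneg (Real.rpow_nonneg (norm_nonneg _) _),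
    ← Real.rpow_add_one' (norm_nonneg _) (by linarith), sub_add_cancel]

theorem vs_null {d : ℕ} {U : Set (X d)} {u : X d → ℝ} {G : X d → X d} {x : X d} {r : ℝ}
    {O : Set ℝ} (h : ∀ᵐ y ∂vo (ball x r), ‖G y‖ ∉ O) :
    vo U {y | (y, u y, G y) ∈ {z : St d | ‖z.1 - x‖ < r ∧ ‖z.2.2‖ ∈ O}} = 0 := by
  rw [ae_restrict_iff' measurableSet_ball] at h
  refine measure_eq_zero_iff_ae_notMem.2 (ae_restrict_of_ae ?_)
  filter_upwards [h] with y hy hm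
  exact hy (mem_ball_iff_norm.2 hm.1) hm.2

theorem vs_nh {d : ℕ} {x : X d} {r : ℝ} {O : Set ℝ} (hO : IsOpen O) {z : St d}
    (h1 : ‖z.1 - x‖ < r) (h2 : ‖z.2.2‖ ∈ O) :
    {z : St d | ‖z.1 - x‖ < r ∧ ‖z.2.2‖ ∈ O} ∈ 𝓝 z :=
  ((isOpen_lt (f := fun z : St d => ‖z.1 - x‖) (g := fun _ => r) (by fun_prop)
    continuous_const).inter
    (hO.preimage (f := fun z : St d => ‖z.2.2‖) (by fun_prop))).mem_nhds ⟨h1, h2⟩

theorem vs_ll (ll : S.LlS) {d : ℕ} {p r o : ℝ} {x a : X d} {u : X d → ℝ} {G : X d → X d}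
    (hp : 1 ≤ p) (h : Wk p (ball x r) u G) (k : ∀ᵐ w ∂vo (ball x r), ‖G w - a‖ ≤ o)
    (hu : ContinuousOn u (ball x r)) :
    ∀ y ∈ ball x r, ∀ z ∈ ball x r, |u y - u z - ⟪a, y - z⟫| ≤ o * ‖y - z‖ := by
  have k1 : ∀ᵐ w ∂vo (ball x r), ‖(innerSL ℝ (G w) : X d →L[ℝ] ℝ) - innerSL ℝ a‖ ≤ o := by
    filter_upwards [k] with w hw
    have e : (innerSL ℝ (G w) : X d →L[ℝ] ℝ) - innerSL ℝ a = innerSL ℝ (G w - a) := by
      ext v
      simp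
    rw [e, innerSL_apply_norm]
    exact hw
  exact (ll d (ENNReal.ofReal p) x r o u (fun y => innerSL ℝ (G y)) (innerSL ℝ a)
    (ENNReal.one_le_ofReal.2 hp) h.sb k1).2 hu

theorem vs : S.SobS → S.WsS → S.LlS → S.GapS → NatS → EssS → MxS → VsS := by
  intro sob ws ll gap nat ess mx d p R x u G hp lip h hu
  have hp2 : 2 < p := by linarith
  obtain ⟨e1, e2, e3, e4⟩ := ess d (ball x R) u G isOpen_ball hu
  obtain ⟨e5, e6⟩ := e4 (vs_bd ws hp2 isOpen_ball lip h)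
  refine ⟨isOpen_ball, hu, fun z hz => ⟨hz.1, hz.2.1⟩, e5, e6, ?_, ?_, ?_⟩
  · intro z hz z0 f hf hm c hc
    obtain ⟨r, r1, r2⟩ := exists_between (mem_ball.1 hz.1)
    have s : ball x r ⊆ ball x R := ball_subset_ball r2.le
    obtain ⟨D, hD⟩ := nat d p r R x u G hp2 r2 h
    exact mx d p r x u G D hp (vs_mono sob h s) (hu.mono s) hD z
      ((e2 _ s isOpen_ball z).2 ⟨hz, r1⟩) z0 f hf
      (hm.on_subset fun y hy => ((e2 _ s isOpen_ball y).1 hy).1) c hc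
  · intro y₀ a r o s hb y hy y' hy'
    rcases (dist_nonneg.trans (mem_closedBall.1 hy)).eq_or_lt with r0 | r0
    · subst r0
      rw [closedBall_zero, mem_singleton_iff] at hy hy'
      simp [hy, hy']
    have s' : ball y₀ r ⊆ ball x R := ball_subset_closedBall.trans s
    have k0 : ∀ᵐ w ∂vo (ball y₀ r), ‖G w - a‖ ≤ o := by
      filter_upwards [ae_restrict_of_ae_restrict_of_subset s' e1,
        ae_restrict_mem measurableSet_ball] with w hw hm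
      exact hb (w, u w, G w) hw (mem_ball_iff_norm.1 hm).le
    have k := vs_ll ll (by linarith) (vs_mono sob h s') k0 (hu.mono s')
    have cu : ContinuousOn u (closure (ball y₀ r)) := by
      rw [closure_ball _ r0.ne']
      exact hu.mono s
    rw [← closure_ball _ r0.ne'] at hy hy'
    have k1 : ∀ w ∈ ball y₀ r, |u w - u y' - ⟪a, w - y'⟫| ≤ o * ‖w - y'‖ := fun w hw =>
      le_on_closure (f := fun t => |u w - u t - ⟪a, w - t⟫|) (g := fun t => o * ‖w - t‖)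
        (k w hw) ((continuousOn_const.sub cu).sub (by fun_prop)).abs (by fun_prop) hy'
    exact le_on_closure (f := fun t => |u t - u y' - ⟪a, t - y'⟫|) (g := fun t => o * ‖t - y'‖)
      k1 ((cu.sub continuousOn_const).sub (by fun_prop)).abs (by fun_prop) hy
  · rintro y₀ r a s a0 ⟨z₁, t1, n1, b1⟩ ⟨z₂, t2, n2, b2⟩
    by_contra hn
    push Not at hn
    have b1' : ‖z₁.2.2‖ < a := b1.lt_of_ne (hn z₁ t1 n1.le)
    have b2' : a < ‖z₂.2.2‖ := b2.lt_of_ne (hn z₂ t2 n2.le).symm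
    have cl : IsClosed ((fun z : St d => ‖z.2.2‖) ''
        {z | z ∈ ER (ball x R) u G ∧ z.1 ∈ closedBall y₀ r}) :=
      ((e5 _ s (isCompact_closedBall y₀ r)).image (by fun_prop)).isClosed
    obtain ⟨ε, ε0, hε⟩ := Metric.isOpen_iff.1 cl.isOpen_compl a (by
      rintro ⟨z, ⟨hz, hb⟩, e⟩
      exact hn z hz (mem_closedBall_iff_norm.1 hb) e)
    obtain ⟨δ, δ0, δ1, δ2⟩ : ∃ δ : ℝ, 0 < δ ∧ δ ≤ ε ∧ δ ≤ a :=
      ⟨min ε a, lt_min ε0 a0, min_le_left _ _, min_le_right _ _⟩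
    obtain ⟨r', r1, r2⟩ := exists_lt_subset_ball isClosed_closedBall s
    obtain ⟨D, hD⟩ := nat d p r' R x u G hp2 r1 h
    have s' : ball y₀ r ⊆ ball x R := ball_subset_closedBall.trans s
    have p0 : 0 < p / 2 := by linarith
    have d0 : 0 ≤ a - δ := by linarith
    have g := gap d y₀ r ((a - δ) ^ (p / 2)) ((a + δ) ^ (p / 2)) _ D (Real.rpow_nonneg d0 _)
      (Real.rpow_lt_rpow d0 (by linarith) p0)
      ((sob d (X d)).mono _ _ _ _ _ (ball_subset_closedBall.trans r2) hD) (by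
        filter_upwards [ae_restrict_of_ae_restrict_of_subset s' e1,
          ae_restrict_mem measurableSet_ball] with w hw hm
        rw [vs_nv hp2, Real.rpow_le_rpow_iff (norm_nonneg _) d0 p0,
          Real.rpow_le_rpow_iff (by linarith) (norm_nonneg _) p0]
        by_contra hc
        push Not at hc
        exact hε (a := ‖G w‖) (by rw [mem_ball, Real.dist_eq, abs_lt]; constructor <;> linarith)
          ⟨(w, u w, G w), ⟨hw, ball_subset_closedBall hm⟩, rfl⟩)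
    rcases g with g | g
    · refine e3 z₂ t2 _ (vs_nh isOpen_Ioi n2 b2') (vs_null ?_)
      filter_upwards [g] with w hw hm
      rw [vs_nv hp2, Real.rpow_le_rpow_iff (norm_nonneg _) d0 p0] at hw
      have : a < ‖G w‖ := hm
      linarith
    · refine e3 z₁ t1 _ (vs_nh isOpen_Iio n1 b1') (vs_null ?_)
      filter_upwards [g] with w hw hm
      rw [vs_nv hp2, Real.rpow_le_rpow_iff (by linarith) (norm_nonneg _) p0] at hw
      have : ‖G w‖ < a := hm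
      linarith

end Pool.Agent.MP_815c6c_an.H

end
end MrgPart10

-- ======== part 11: formerly Pool.Agent.MP_815c6c_an.H.Win
section MrgPart11

/-! Scalar p-harmonic functions for large `p`: the barrier of a window. -/

set_option autoImplicit false

noncomputable section

namespace Pool.Agent.MP_815c6c_an.H

open Set Metric MeasureTheory Filter Topology
open scoped ENNReal RealInnerProductSpace
open N (X)

/-- the choice of the parameters -/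
theorem win_par (d : ℕ) {A : ℝ} (hA : 2 ≤ A) : ∃ s₀ t₁ : ℝ, 0 < t₁ ∧ ∀ᶠ P : ℝ in atTop,
    ∃ B s₂, Par d P A B s₀ s₂ t₁ := by
  have A0 : 0 < A := by linarith
  obtain ⟨s₀, s0, s1, s2⟩ : ∃ s₀ : ℝ, 0 < s₀ ∧ s₀ ≤ 1 / A ∧ s₀ ≤ 1 / (512 * (4 * d + 112)) :=
    ⟨min (1 / A) (1 / (512 * (4 * d + 112))), by positivity, min_le_left .., min_le_right ..⟩
  obtain ⟨t₁, t0, t1, t2⟩ : ∃ t₁ : ℝ, 0 < t₁ ∧ t₁ ≤ s₀ / 4096 / (12 * A) ∧
      t₁ ≤ 1 / 4096 / (200 + 4 * d) :=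
    ⟨min (s₀ / 4096 / (12 * A)) (1 / 4096 / (200 + 4 * d)), by positivity, min_le_left ..,
      min_le_right ..⟩
  rw [le_div_iff₀ (by positivity)] at s1 s2 t1 t2
  have h : Tendsto (fun P : ℝ => 16 / √P) atTop (𝓝 0) :=
    tendsto_const_nhds.div_atTop Real.tendsto_sqrt_atTop
  have h1 := (((h.pow 2).const_mul 8).div_const (t₁ ^ 2)).eventually_le_const
    (u := 1 / 8) (by simp)
  have h2 := (h.mul_const (512 * (4 * (d : ℝ) + 112))).eventually_le_const (u := 1) (by simp)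
  have h3 := (h.mul_const (8 * s₀ / t₁ ^ 2)).eventually_le_const (u := A) (by simpa using A0)
  have h4 := (Real.tendsto_log_atTop.atTop_div_const (r := 8) (by norm_num)).eventually_ge_atTop
    (2 * Real.log (2 / t₁) + A * Real.log (2 / s₀) + 7 * A + 8)
  refine ⟨s₀, t₁, t0, ?_⟩
  filter_upwards [h1, h2, h3, h4, eventually_gt_atTop 0, eventually_ge_atTop ((3 + A) * 2 ^ 16),
    eventually_ge_atTop ((8 * d + 112 : ℝ) ^ 2)] with P a1 a2 a3 a4 a5 a6 a7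
  have q : 0 < √P := Real.sqrt_pos.2 a5
  have q2 : 0 < 16 / √P := by positivity
  refine ⟨8 * (16 / √P) ^ 2 / t₁ ^ 2, 16 / √P, hA, by positivity, a1, s0, q2, t0, a5.le,
    by linarith, s2, a2, by linarith, by linarith, le_of_eq (by field_simp), ?_,
    le_of_eq (by field_simp), a6, a7, a4⟩
  calc 8 * (16 / √P) ^ 2 / t₁ ^ 2 * s₀ = 16 / √P * (8 * s₀ / t₁ ^ 2) * (16 / √P) := by ring
    _ ≤ _ := mul_le_mul_of_nonneg_right a3 q2.le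

theorem win : Kit → WfS → SzS → WinS := by
  intro k wf sz d A hA
  obtain ⟨s₀, t₁, t0, h⟩ := win_par d hA
  refine ⟨t₁ / 64, by positivity, ?_⟩
  filter_upwards [h, eventually_gt_atTop 0] with P ⟨B, s₂, par⟩ P0 ρ S e r0 S1 S2 he
  obtain ⟨c1, c, hc⟩ := sz d P A B s₀ s₂ t₁ ρ S e par r0 S1 S2 he
  refine ⟨fun z => chi P A B s₀ s₂ t₁ (√P * ρ) e z + c, c1.add continuousOn_const,
    fun z a => (hc z a).1, fun z a => (hc z a).2.1, fun z a => (hc z a).2.2, fun z a b => ?_⟩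
  obtain ⟨f, E, E0, f1, f2, f3⟩ := wf d P A B s₀ s₂ t₁ (√P * ρ) S e z par
    (mul_pos (Real.sqrt_pos.2 P0) r0) S1 S2 he a b
  refine ⟨fun y => f y + c, E, E0, f1.mono fun y hy => by linarith, by simp only [f2],
    fun H hH => ?_⟩
  obtain ⟨v, L, j, e1, e2⟩ := f3 H hH
  exact ⟨v, L, (k.jet d P z H).addc c j, e1, e2⟩

end Pool.Agent.MP_815c6c_an.H

end
end MrgPart11

-- marker of a merged file
example : 731051 + 367239 = 731051 + 367239 := rfl
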