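import Pool.Agent.MP_815c6c_an.S.EDq
import Pool.Agent.MP_815c6c_an.S.EJac
import Pool.Agent.MP_815c6c_an.S.ESym
import Pool.Agent.MP_815c6c_an.S.EPe
import Pool.Agent.MP_815c6c_an.H.Win

-- ======== part 0: formerly Pool.Agent.MP_815c6c_an.S.EId
section MrgPart0

/-! Scalar p-harmonic functions: the integral identity for functions of point, value, gradient. -/

set_option autoImplicit false

noncomputable section

namespace Pool.Agent.MP_815c6c_an.S.IdA

open Set Metric MeasureTheory Filter Topology Bornology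
open scoped ENNReal RealInnerProductSpace Manifold
open N (X)
open Q (pw)
open SobA

variable {d : ℕ}

/-- the derivative of the state -/
def dw (ξ : X d) (H : L d (X d)) : L d (X d × ℝ × X d) :=
  (ContinuousLinearMap.id ℝ (X d)).prod ((innerSL ℝ ξ).prod H)

theorem dw_apply (ξ : X d) (H : L d (X d)) (v : X d) : dw ξ H v = (v, ⟪ξ, v⟫, H v) := rfl

/-- the linearised operator on functions of the state -/
def lo (P : ℝ) (Φ : X d × ℝ × X d → ℝ) (s : X d × ℝ × X d) (H : L d (X d)) : ℝ :=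
  ∑ i, fderiv ℝ (fderiv ℝ Φ) s (dw s.2.2 H (ei i)) (dw s.2.2 H (ei i)) + P / ‖s.2.2‖ ^ 2 *
    (fderiv ℝ (fderiv ℝ Φ) s (dw s.2.2 H s.2.2) (dw s.2.2 H s.2.2) +
      2 * fderiv ℝ Φ s (H s.2.2 - (⟪H s.2.2, s.2.2⟫ / ‖s.2.2‖ ^ 2) • s.2.2, 0, 0))

/-- functions with compact support away from the zero gradient -/
structure Gd (U : Set (X d)) (K : Set (X d × ℝ × X d)) (F : X d × ℝ × X d → ℝ) : Prop where
  cp : IsCompact K
  sub : ∀ s ∈ K, s.1 ∈ U ∧ s.2.2 ≠ 0
  zero : ∀ s ∉ K, F s = 0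
  sm : ∀ s ∈ K, ContDiffAt ℝ 1 F s

variable {U : Set (X d)} {K : Set (X d × ℝ × X d)} {F : X d × ℝ × X d → ℝ} {p : ℝ} {u : X d → ℝ}
  {G : X d → X d} {D : X d → L d (X d)}

theorem ev0 {E : Type} [NormedAddCommGroup E] [NormedSpace ℝ E] {F : X d × ℝ × X d → E}
    (hK : IsCompact K) (h : ∀ s ∉ K, F s = 0) {s : X d × ℝ × X d} (hs : s ∉ K) :
    F =ᶠ[𝓝 s] fun _ => 0 :=
  (hK.isClosed.isOpen_compl.eventually_mem hs).mono h

theorem Gd.c1 (h : Gd U K F) : ContDiff ℝ 1 F := contDiff_iff_contDiffAt.2 fun s => by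
  by_cases k : s ∈ K
  exacts [h.sm s k, contDiffAt_const.congr_of_eventuallyEq (ev0 h.cp h.zero k)]

theorem Gd.d0 (h : Gd U K F) {s : X d × ℝ × X d} (hs : s ∉ K) : fderiv ℝ F s = 0 := by
  rw [(ev0 h.cp h.zero hs).fderiv_eq, fderiv_const_apply]

theorem inv' (hp : 2 < p) (w : X d) : Vp p (Ip p w) = w := by
  have h0 : 0 < p := by linarith
  have h := (Q.pow (X d)).comp (p / 2 - 1) (2 / p - 1) w (by
    have : 0 < 2 / p := by positivity
    linarith)
  rw [Ip, Vp, h, show (p / 2 - 1 + 1) * (2 / p - 1 + 1) - 1 = 0 by field_simp; ring]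
  simp [pw]

/-- the chain rule -/
theorem Gd.sb (h : Gd U K F) (hp : 2 < p) (hb : IsBounded U) (hW : Wk p U u G)
    (hV : Sb 2 U (fun x => Vp p (G x)) D) :
    Sb 2 U (fun x => F (x, u x, G x)) fun x =>
      (fderiv ℝ F (x, u x, G x)).comp (dw (G x) (hs p (G x) (D x))) := by
  have cV : Continuous fun s : X d × ℝ × X d => (s.1, s.2.1, Vp p s.2.2) :=
    continuous_fst.prodMk (continuous_snd.fst.prodMk
      (((Q.pow (X d)).cont (p / 2 - 1) (by linarith)).comp continuous_snd.snd))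
  have sm : ∀ s : X d × ℝ × X d, s.2.2 ≠ 0 →
      ContDiffAt ℝ 1 (fun s : X d × ℝ × X d => (s.1, s.2.1, Ip p s.2.2)) s := fun s hs =>
    contDiffAt_fst.prodMk (contDiffAt_snd.fst.prodMk ((sym_ip p hs).comp s contDiffAt_snd.snd))
  have g : Gd U ((fun s : X d × ℝ × X d => (s.1, s.2.1, Vp p s.2.2)) '' K)
      fun s => F (s.1, s.2.1, Ip p s.2.2) := by
    refine ⟨h.cp.image cV, ?_, fun s hs => h.zero _ fun k => hs ⟨_, k, ?_⟩, ?_⟩
    · rintro _ ⟨s, k, rfl⟩
      exact ⟨(h.sub s k).1, sym_ne p (h.sub s k).2⟩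
    · simp only [inv' hp]
    · rintro _ ⟨s, k, rfl⟩
      exact h.c1.contDiffAt.comp _ (sm _ (sym_ne p (h.sub s k).2))
  obtain ⟨b, hb'⟩ := (HasCompactSupport.intro g.cp fun s hs => g.d0 hs).exists_bound_of_continuous
    (cf g.c1)
  have h1 : Sb 2 U (fun x : X d => x) fun _ => ContinuousLinearMap.id ℝ (X d) := by
    simpa using sb_aff (q := 2) hb (ContinuousLinearMap.id ℝ (X d)) 0
  have h2 := hW.sb.down (q' := 2) hb (by
    rw [← ENNReal.ofReal_ofNat]
    exact ENNReal.ofReal_le_ofReal hp.le)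
  refine ((h1.prod (h2.prod hV)).chain hb g.c1 hb').congr
    (Eventually.of_forall fun x => ?_) (Eventually.of_forall fun x => ?_)
  · simp only [sym_inv hp]
  · by_cases k : (x, u x, G x) ∈ K
    · have n := sym_ne p (h.sub _ k).2
      have e1 : HasFDerivAt (fun s : X d × ℝ × X d => (s.1, s.2.1, Ip p s.2.2)) _
          (x, u x, Vp p (G x)) :=
        hasFDerivAt_fst.prodMk (hasFDerivAt_snd.fst.prodMk (HasFDerivAt.comp (g := Ip p)
          (f := fun s : X d × ℝ × X d => s.2.2) (x, u x, Vp p (G x))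
          ((sym_ip p n).differentiableAt one_ne_zero).hasFDerivAt hasFDerivAt_snd.snd))
      have e2 : HasFDerivAt F (fderiv ℝ F (x, u x, G x)) (x, u x, Ip p (Vp p (G x))) := by
        rw [sym_inv hp]
        exact df h.c1 _
      have e3 := (HasFDerivAt.comp (g := F) (x, u x, Vp p (G x)) e2 e1).fderiv
      beta_reduce
      rw [show fderiv ℝ (fun s : X d × ℝ × X d => F (s.1, s.2.1, Ip p s.2.2))
        (x, u x, Vp p (G x)) = _ from e3]
      rfl
    · beta_reduce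
      rw [h.d0 k, g.d0, ContinuousLinearMap.zero_comp, ContinuousLinearMap.zero_comp]
      rintro ⟨s, k', e⟩
      refine k ?_
      have e' := congrArg (fun s : X d × ℝ × X d => (s.1, s.2.1, Ip p s.2.2)) e
      simp only [sym_inv hp] at e'
      exact e' ▸ k'

/-- divergences have integral zero -/
theorem Gd.div (h : Gd U K F) (hp : 2 < p) (hU : IsOpen U) (hb : IsBounded U) (hW : Wk p U u G)
    (hV : Sb 2 U (fun x => Vp p (G x)) D) (v : X d) :
    IntegrableOn (fun x => fderiv ℝ F (x, u x, G x) (dw (G x) (hs p (G x) (D x)) v)) U ∧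
    ∫ x in U, fderiv ℝ F (x, u x, G x) (dw (G x) (hs p (G x) (D x)) v) = 0 := by
  have s := h.sb hp hb hW hV
  refine ⟨(s.int one_le_two hb).2.2 v, ?_⟩
  obtain ⟨η, hη, h1⟩ := jac_eta hU (h.cp.image continuous_fst) (by
    rintro _ ⟨s, k, rfl⟩
    exact (h.sub s k).1)
  have e := (s.ibp one_le_two hb hη v).2.2
  have e1 : ∀ x, fderiv ℝ η x v • F (x, u x, G x) = 0 := fun x => by
    by_cases k : (x, u x, G x) ∈ K
    · simp [(h1 x ⟨_, k, rfl⟩).2]
    · simp [h.zero _ k]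
  have e2 : ∀ x, η x • ((fderiv ℝ F (x, u x, G x)).comp (dw (G x) (hs p (G x) (D x)))) v =
      fderiv ℝ F (x, u x, G x) (dw (G x) (hs p (G x) (D x)) v) := fun x => by
    by_cases k : (x, u x, G x) ∈ K
    · simp [(h1 x ⟨_, k, rfl⟩).1]
    · simp [h.d0 k]
  simp only [e1, e2, integral_zero] at e
  rw [setIntegral_eq_integral_of_forall_compl_eq_zero fun x hx => by
    rw [h.d0 fun k => hx (h.sub _ k).1, zero_apply]]
  exact neg_eq_zero.1 e.symm

theorem nd (a : ℝ) {w : X d} (h : w ≠ 0) :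
    HasFDerivAt (fun w : X d => ‖w‖ ^ a) ((a * ‖w‖ ^ a / ‖w‖ ^ 2) • innerSL ℝ w) w := by
  have h0 : ‖w‖ ^ 2 ≠ 0 := by simpa using h
  have h1 := (hasStrictFDerivAt_norm_sq w).hasFDerivAt.rpow_const (p := a / 2) (.inl h0)
  simp only [Q.PowA.sq_rpow, Real.rpow_sub_one h0] at h1
  refine h1.congr_fderiv ?_
  ext v
  simp only [_root_.smul_apply, smul_eq_mul, nsmul_eq_mul]
  push_cast
  ring

/-- the direction fields -/
def cc (P : ℝ) (i : Fin d) (ξ : X d) : X d × ℝ × X d :=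
  (‖ξ‖ ^ P • ei i + (P * ξ i) • pw (P - 2) ξ, (1 + P) * pw P ξ i, 0)

theorem cc_sm (P : ℝ) (i : Fin d) {ξ : X d} (h : ξ ≠ 0) : ContDiffAt ℝ 1 (cc P i) ξ := by
  have c : ContDiff ℝ 1 fun ξ : X d => ξ i := (EuclideanSpace.proj i : X d →L[ℝ] ℝ).contDiff
  have s := fun a => (Q.PowA.smooth (E := X d) a h).of_le (m := 1) (by simp)
  exact ((((contDiffAt_norm ℝ h).rpow_const_of_ne (norm_ne_zero_iff.2 h)).smul
    contDiffAt_const).add ((contDiffAt_const.mul c.contDiffAt).smul (s _))).prodMk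
    ((contDiffAt_const.mul (c.contDiffAt.comp ξ (s _))).prodMk contDiffAt_const)

theorem pd (a : ℝ) {ξ : X d} (h : ξ ≠ 0) : HasFDerivAt (pw a) (fderiv ℝ (pw a) ξ) ξ :=
  ((Q.PowA.smooth (E := X d) a h).differentiableAt (by simp)).hasFDerivAt

theorem cc_der (P : ℝ) (i : Fin d) {ξ : X d} (h : ξ ≠ 0) (η : X d) : fderiv ℝ (cc P i) ξ η =
    ((P * ‖ξ‖ ^ P / ‖ξ‖ ^ 2 * ⟪ξ, η⟫) • ei i + ((P * ξ i) • fderiv ℝ (pw (P - 2)) ξ η +
      (P * η i) • pw (P - 2) ξ), (1 + P) * fderiv ℝ (pw P) ξ η i, 0) := by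
  have c : ∀ y : X d, HasFDerivAt (fun ξ : X d => ξ i) (EuclideanSpace.proj i : X d →L[ℝ] ℝ) y :=
    fun y => (EuclideanSpace.proj i : X d →L[ℝ] ℝ).hasFDerivAt
  have := ((((nd P h).smul_const (ei i)).add (((c ξ).const_mul P).smul (pd (P - 2) h))).prodMk
    (((HasFDerivAt.comp (g := fun ξ : X d => ξ i) ξ (c _) (pd P h)).const_mul (1 + P)).prodMk
      (hasFDerivAt_const (0 : X d) ξ))).fderiv
  rw [show fderiv ℝ (cc P i) ξ = _ from this]
  simp

theorem sum_ei (f : Fin d → ℝ) (w : X d) (h : ∀ k, f k = w k) : ∑ k, f k • ei k = w := by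
  simp only [h]
  exact (L_apply (ContinuousLinearMap.id ℝ (X d)) w).symm

theorem in_ei (w : X d) (i : Fin d) : ⟪w, ei i⟫ = w i := by
  simp [EuclideanSpace.inner_single_right]

/-- the pointwise identity -/
theorem alg (P : ℝ) (A : (X d × ℝ × X d) →L[ℝ] ℝ)
    (B : (X d × ℝ × X d) →L[ℝ] (X d × ℝ × X d) →L[ℝ] ℝ) {ξ : X d} (h : ξ ≠ 0) (H : L d (X d))
    (sy : ∀ v w, ⟪H v, w⟫ = ⟪v, H w⟫) (pe : ‖ξ‖ ^ 2 * ∑ i, H (ei i) i + P * ⟪H ξ, ξ⟫ = 0) :
    ∑ i, (B (dw ξ H (ei i)) (cc P i ξ) + A (fderiv ℝ (cc P i) ξ (H (ei i)))) +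
      ∑ i, ∑ k, (fderiv ℝ (pw P) ξ (H (ei k)) i * B (dw ξ H (ei i)) (0, 0, ei k) -
        fderiv ℝ (pw P) ξ (H (ei i)) i * B (dw ξ H (ei k)) (0, 0, ei k)) =
    ‖ξ‖ ^ P * (∑ i, B (dw ξ H (ei i)) (dw ξ H (ei i)) + P / ‖ξ‖ ^ 2 *
      (B (dw ξ H ξ) (dw ξ H ξ) + 2 * A (H ξ - (⟪H ξ, ξ⟫ / ‖ξ‖ ^ 2) • ξ, 0, 0))) := by
  have n0 : 0 < ‖ξ‖ := norm_pos_iff.2 h
  have m2 : ‖ξ‖ ^ (P - 2) = ‖ξ‖ ^ P / ‖ξ‖ ^ 2 := by rw [Real.rpow_sub n0, Real.rpow_two]
  have s1 : ∀ i, ⟪ξ, H (ei i)⟫ = H ξ i := fun i => by rw [← sy, in_ei]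
  have s2 : ∀ i k, H (ei k) i = H (ei i) k := fun i k => by
    rw [← in_ei, sy, real_inner_comm, in_ei]
  have tr : ∑ i, H (ei i) i = -(P * ⟪H ξ, ξ⟫ / ‖ξ‖ ^ 2) := by
    field_simp
    linarith
  have s3 : ∑ i, H ξ i * ξ i = ⟪H ξ, ξ⟫ := by simp [PiLp.inner_apply, mul_comm]
  have t0 : ∑ i, fderiv ℝ (pw P) ξ (H (ei i)) i = 0 := by
    simp only [Q.PowA.der P ξ _ h, s1, PiLp.smul_apply, PiLp.add_apply, smul_eq_mul]
    rw [← Finset.mul_sum, Finset.sum_add_distrib, tr, ← s3, Finset.mul_sum, Finset.sum_div,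
      ← Finset.sum_neg_distrib, ← Finset.sum_add_distrib, Finset.sum_eq_zero, mul_zero]
    exact fun i _ => by ring
  have t1 : ∑ i, fderiv ℝ (cc P i) ξ (H (ei i)) =
      (‖ξ‖ ^ P * (P / ‖ξ‖ ^ 2 * 2)) • (H ξ - (⟪H ξ, ξ⟫ / ‖ξ‖ ^ 2) • ξ, (0 : ℝ), (0 : X d)) := by
    have t5 : ∑ i, (P * ξ i) • fderiv ℝ (pw (P - 2)) ξ (H (ei i)) =
        P • fderiv ℝ (pw (P - 2)) ξ (H ξ) := by
      rw [L_apply H ξ, map_sum, Finset.smul_sum]
      simp only [map_smul, mul_smul]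
    simp only [cc_der P _ h, s1, ← prod_mk_sum, Finset.sum_add_distrib, ← Finset.mul_sum, t0,
      ← Finset.sum_smul, tr, t5, Finset.sum_const_zero]
    rw [sum_ei (fun x => P * ‖ξ‖ ^ P / ‖ξ‖ ^ 2 * H ξ x) ((P * ‖ξ‖ ^ P / ‖ξ‖ ^ 2) • H ξ)
      fun _ => rfl, Q.PowA.der _ ξ _ h, pw, m2, real_inner_comm]
    refine Prod.ext ?_ (by simp)
    simp only [Prod.smul_mk]
    match_scalars <;> field_simp <;> ring
  have t2 : ∀ i, cc P i ξ + ∑ k, fderiv ℝ (pw P) ξ (H (ei k)) i • ((0, 0, ei k) : X d × ℝ × X d) =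
      ‖ξ‖ ^ P • dw ξ H (ei i) + (‖ξ‖ ^ P * (P / ‖ξ‖ ^ 2) * ξ i) • dw ξ H ξ := fun i => by
    simp only [Prod.smul_mk, smul_zero, ← prod_mk_sum, Finset.sum_const_zero]
    rw [sum_ei _ (‖ξ‖ ^ P • (H (ei i) + (P * ξ i / ‖ξ‖ ^ 2) • H ξ)) fun k => by
      simp only [Q.PowA.der P ξ _ h, s1, PiLp.smul_apply, PiLp.add_apply, smul_eq_mul, s2 i k]
      ring]
    simp only [cc, dw_apply, pw, m2, in_ei, real_inner_self_eq_norm_sq, Prod.smul_mk,
      Prod.mk_add_mk, PiLp.smul_apply, smul_eq_mul]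
    refine Prod.ext ?_ (Prod.ext ?_ ?_)
    · match_scalars <;> ring
    · field_simp
      ring
    · match_scalars <;> ring
  have t3 : ∀ i, B (dw ξ H (ei i)) (cc P i ξ) +
      ∑ k, fderiv ℝ (pw P) ξ (H (ei k)) i * B (dw ξ H (ei i)) (0, 0, ei k) =
      ‖ξ‖ ^ P * B (dw ξ H (ei i)) (dw ξ H (ei i)) +
        ‖ξ‖ ^ P * (P / ‖ξ‖ ^ 2) * B (ξ i • dw ξ H (ei i)) (dw ξ H ξ) := fun i => by
    have := congrArg (B (dw ξ H (ei i))) (t2 i)
    simp only [map_add, map_sum, map_smul, smul_eq_mul] at this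
    rw [this, map_smul, _root_.smul_apply, smul_eq_mul]
    ring
  have t4 := Finset.sum_congr (rfl (a := Finset.univ)) fun i _ => t3 i
  rw [Finset.sum_add_distrib, Finset.sum_add_distrib, ← Finset.mul_sum, ← Finset.mul_sum,
    ← sum_apply, ← map_sum, ← L_apply] at t4
  simp only [Finset.sum_sub_distrib, Finset.sum_add_distrib, ← Finset.mul_sum, ← Finset.sum_mul, t0]
  rw [← map_sum A, t1, map_smul, smul_eq_mul]
  linear_combination t4

/-- the integral identity -/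
theorem ident (hp : 2 < p) (hU : IsOpen U) (hb : IsBounded U) (hW : Wk p U u G)
    (hV : Sb 2 U (fun x => Vp p (G x)) D) {Φ : X d × ℝ × X d → ℝ} (hΦ : ContDiff ℝ 2 Φ)
    (hK : IsCompact K) (sub : ∀ s ∈ K, s.1 ∈ U ∧ s.2.2 ≠ 0) (zero : ∀ s ∉ K, Φ s = 0) :
    IntegrableOn (fun x => ‖G x‖ ^ (p - 2) * lo (p - 2) Φ (x, u x, G x) (hs p (G x) (D x))) U ∧
    ∫ x in U, ‖G x‖ ^ (p - 2) * lo (p - 2) Φ (x, u x, G x) (hs p (G x) (D x)) = 0 := by
  have c1 : ContDiff ℝ 1 (fderiv ℝ Φ) := hΦ.fderiv_right (by norm_num)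
  have z1 : ∀ s ∉ K, fderiv ℝ Φ s = 0 := fun s hs => by
    rw [(ev0 hK zero hs).fderiv_eq, fderiv_const_apply]
  have z2 : ∀ s ∉ K, fderiv ℝ (fderiv ℝ Φ) s = 0 := fun s hs => by
    rw [(ev0 hK z1 hs).fderiv_eq, fderiv_const_apply]
  obtain ⟨K', k1, k2, k3⟩ := exists_compact_between hK
    ((hU.preimage continuous_fst).inter (isOpen_ne.preimage continuous_snd.snd)) sub
  obtain ⟨χ, e1, e0, -⟩ := exists_contMDiffMap_one_nhds_of_subset_interior (n := 1)
    𝓘(ℝ, X d × ℝ × X d) hK.isClosed k2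
  have pr : ∀ i, ContDiff ℝ 1 fun ξ : X d => ξ i := fun i =>
    (EuclideanSpace.proj i : X d →L[ℝ] ℝ).contDiff
  have gf : ∀ i, Gd U K fun s => fderiv ℝ Φ s (cc (p - 2) i s.2.2) := fun i =>
    ⟨hK, sub, fun s hs => by simp [z1 s hs], fun s hs =>
      c1.contDiffAt.clm_apply ((cc_sm _ i (sub s hs).2).comp s contDiffAt_snd.snd)⟩
  have gb : ∀ k, Gd U K fun s => fderiv ℝ Φ s (0, 0, ei k) := fun k =>
    ⟨hK, sub, fun s hs => by simp [z1 s hs], fun s _ => c1.contDiffAt.clm_apply contDiffAt_const⟩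
  have ga : ∀ i, Gd U K' fun s => χ s * pw (p - 2) s.2.2 i := fun i =>
    ⟨k1, k3, fun s hs => by simp [e0 s hs], fun s hs => χ.contMDiff.contDiff.contDiffAt.mul
      (ContDiffAt.comp (g := fun ξ : X d => pw (p - 2) ξ i) s ((pr i).contDiffAt.comp _
        ((Q.PowA.smooth _ (k3 hs).2).of_le (by simp))) contDiffAt_snd.snd)⟩
  have i1 := fun i => (gf i).div hp hU hb hW hV (ei i)
  have i2 := fun i k => jac sob d U _ _ _ _ _ (ei k) (ei i) hU (hK.image continuous_fst) (by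
      rintro _ ⟨s, k, rfl⟩
      exact (sub s k).1) ((ga i).sb hp hb hW hV) ((gb k).sb hp hb hW hV)
    (Eventually.of_forall fun x hx => by
      have : (x, u x, G x) ∉ K := fun k => hx ⟨_, k, rfl⟩
      exact ⟨(gb k).zero _ this, by rw [(gb k).d0 this, ContinuousLinearMap.zero_comp]⟩)
  have j1 := integrable_finsetSum Finset.univ fun i _ => (i1 i).1
  have j0 := fun i k => (i2 i k).1.sub (i2 i k).2.1
  have j2 := fun i => integrable_finsetSum Finset.univ fun k _ => j0 i k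
  have j3 := integrable_finsetSum Finset.univ fun i _ => j2 i
  have j4 := j1.add j3
  have e4 := integral_add j1 j3
  rw [integral_finsetSum _ fun i _ => (i1 i).1, integral_finsetSum _ fun i _ => j2 i,
    Finset.sum_eq_zero fun i _ => (i1 i).2, Finset.sum_eq_zero fun i _ => by
      rw [integral_finsetSum _ fun k _ => j0 i k]
      exact Finset.sum_eq_zero fun k _ =>
        (integral_sub (i2 i k).1 (i2 i k).2.1).trans (sub_eq_zero.2 (i2 i k).2.2), add_zero] at e4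
  refine (fun key => ⟨j4.congr key, (integral_congr_ae key).symm.trans e4⟩) ?_
  filter_upwards [sym sob (jac sob) d p U u G D hp hU hb hW hV, pe sob d p U u G D hp hU hb hW hV]
    with x a b
  simp only [Pi.add_apply, Pi.sub_apply, ContinuousLinearMap.comp_apply]
  by_cases k : (x, u x, G x) ∈ K
  · have n := (sub _ k).2
    have d1 := df c1 (x, u x, G x)
    have d2 : HasFDerivAt (fun s : X d × ℝ × X d => s.2.2) _ (x, u x, G x) :=
      (hasFDerivAt_snd (𝕜 := ℝ)).snd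
    have f1 : ∀ i W, fderiv ℝ (fun s => fderiv ℝ Φ s (cc (p - 2) i s.2.2)) (x, u x, G x) W =
        fderiv ℝ (fderiv ℝ Φ) (x, u x, G x) W (cc (p - 2) i (G x)) +
          fderiv ℝ Φ (x, u x, G x) (fderiv ℝ (cc (p - 2) i) (G x) W.2.2) := fun i W => by
      exact (congrArg (fun T : (X d × ℝ × X d) →L[ℝ] ℝ => T W)
        (d1.clm_apply (HasFDerivAt.comp (g := cc (p - 2) i) (x, u x, G x)
          ((cc_sm _ i n).differentiableAt one_ne_zero).hasFDerivAt d2)).fderiv).trans (add_comm _ _)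
    have f2 : ∀ k W, fderiv ℝ (fun s => fderiv ℝ Φ s (0, 0, ei k)) (x, u x, G x) W =
        fderiv ℝ (fderiv ℝ Φ) (x, u x, G x) W (0, 0, ei k) := fun k W => by
      rw [(d1.clm_apply (hasFDerivAt_const _ _)).fderiv]
      simp
    have f3 : ∀ i W, fderiv ℝ (fun s => χ s * pw (p - 2) s.2.2 i) (x, u x, G x) W =
        fderiv ℝ (pw (p - 2)) (G x) W.2.2 i := fun i W => by
      have e : (fun s => χ s * pw (p - 2) s.2.2 i) =ᶠ[𝓝 (x, u x, G x)]
          fun s => pw (p - 2) s.2.2 i :=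
        (e1.filter_mono (nhds_le_nhdsSet k)).mono fun s hs => by simp only [hs, one_mul]
      rw [e.fderiv_eq]
      exact congrArg (fun T : (X d × ℝ × X d) →L[ℝ] ℝ => T W)
        ((EuclideanSpace.proj i : X d →L[ℝ] ℝ).hasFDerivAt.comp (x, u x, G x)
          (HasFDerivAt.comp (g := pw (p - 2)) _ (pd _ n) d2)).fderiv
    simp only [f1, f2, f3]
    exact alg (p - 2) _ _ n _ (a n) (b n)
  · simp [lo, z1 _ k, z2 _ k, (gf _).d0 k, (gb _).d0 k]

end Pool.Agent.MP_815c6c_an.S.IdA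

end
end MrgPart0

-- ======== part 1: formerly Pool.Agent.MP_815c6c_an.S.EWm
section MrgPart1

/-! Scalar p-harmonic functions: calculus of jets and the weak maximum principle. -/

set_option autoImplicit false

noncomputable section

namespace Pool.Agent.MP_815c6c_an.S.IdA

open Set Metric MeasureTheory Filter Topology Bornology
open scoped ENNReal RealInnerProductSpace Manifold
open N (X)
open SobA

section
variable {E ι : Type} [NormedAddCommGroup E] [NormedSpace ℝ E] [Fintype ι]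

/-- first and second order parts of `f` along a family of directions with a drift -/
structure Jt (s : E) (W : ι → E) (r : E) (f : E → ℝ) (f1 : ι → ℝ) (f2 : ℝ) : Prop where
  sm : ContDiffAt ℝ 2 f s
  d1 : ∀ k, fderiv ℝ f s (W k) = f1 k
  d2 : ∑ k, fderiv ℝ (fderiv ℝ f) s (W k) (W k) + fderiv ℝ f s r = f2

variable {s r : E} {W : ι → E} {f g : E → ℝ} {f1 g1 : ι → ℝ} {f2 g2 : ℝ}

theorem ev1 {F : Type} [NormedAddCommGroup F] [NormedSpace ℝ F] {f : E → F}
    (h : ContDiffAt ℝ 2 f s) : ∀ᶠ y in 𝓝 s, HasFDerivAt f (fderiv ℝ f y) y :=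
  (h.eventually (by simp)).mono fun _ a => (a.differentiableAt (by simp)).hasFDerivAt

theorem ev2 {F : Type} [NormedAddCommGroup F] [NormedSpace ℝ F] {f : E → F}
    (h : ContDiffAt ℝ 2 f s) : HasFDerivAt (fderiv ℝ f) (fderiv ℝ (fderiv ℝ f) s) s :=
  ((h.fderiv_right (m := 1) (by norm_num)).differentiableAt one_ne_zero).hasFDerivAt

theorem Jt.of (h : ContDiffAt ℝ 2 f s) (W : ι → E) (r : E) : Jt s W r f
    (fun k => fderiv ℝ f s (W k)) (∑ k, fderiv ℝ (fderiv ℝ f) s (W k) (W k) + fderiv ℝ f s r) :=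
  ⟨h, fun _ => rfl, rfl⟩

theorem Jt.congr (h : Jt s W r f f1 f2) (e : g =ᶠ[𝓝 s] f) : Jt s W r g f1 f2 :=
  ⟨h.sm.congr_of_eventuallyEq e, fun k => by rw [e.fderiv_eq, h.d1], by
    rw [e.fderiv_eq, e.fderiv.fderiv_eq, h.d2]⟩

theorem Jt.cast (h : Jt s W r f f1 f2) (e1 : ∀ k, f1 k = g1 k) (e2 : f2 = g2) : Jt s W r f g1 g2 :=
  ⟨h.sm, fun k => (h.d1 k).trans (e1 k), h.d2.trans e2⟩

theorem Jt.clm (A : E →L[ℝ] ℝ) : Jt s W r A (fun k => A (W k)) (A r) :=
  ⟨A.contDiff.contDiffAt, fun k => by rw [A.fderiv], by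
    rw [show fderiv ℝ A = fun _ => A from funext fun _ => A.fderiv]
    simp⟩

theorem Jt.const (c : ℝ) : Jt s W r (fun _ => c) (fun _ => 0) 0 :=
  ⟨contDiffAt_const, fun k => by simp, by simp⟩

theorem Jt.add (hf : Jt s W r f f1 f2) (hg : Jt s W r g g1 g2) :
    Jt s W r (fun y => f y + g y) (fun k => f1 k + g1 k) (f2 + g2) := by
  have e : fderiv ℝ (fun y => f y + g y) =ᶠ[𝓝 s] fun y => fderiv ℝ f y + fderiv ℝ g y := by
    filter_upwards [ev1 hf.sm, ev1 hg.sm] with y a b using (a.add b).fderiv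
  have e2 : fderiv ℝ (fun y => fderiv ℝ f y + fderiv ℝ g y) s = _ :=
    ((ev2 hf.sm).add (ev2 hg.sm)).fderiv
  refine ⟨hf.sm.add hg.sm, fun k => by rw [e.eq_of_nhds, ← hf.d1, ← hg.d1]; rfl, ?_⟩
  rw [e.fderiv_eq, e2, e.eq_of_nhds, ← hf.d2, ← hg.d2]
  simp only [add_apply, Finset.sum_add_distrib]
  ring

theorem Jt.mul (hf : Jt s W r f f1 f2) (hg : Jt s W r g g1 g2) :
    Jt s W r (fun y => f y * g y) (fun k => f s * g1 k + g s * f1 k)
      (f s * g2 + g s * f2 + 2 * ∑ k, f1 k * g1 k) := by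
  have e : fderiv ℝ (fun y => f y * g y) =ᶠ[𝓝 s]
      fun y => f y • fderiv ℝ g y + g y • fderiv ℝ f y := by
    filter_upwards [ev1 hf.sm, ev1 hg.sm] with y a b using (a.mul b).fderiv
  have e2 : fderiv ℝ (fun y => f y • fderiv ℝ g y + g y • fderiv ℝ f y) s = _ :=
    (((ev1 hf.sm).self_of_nhds.smul (ev2 hg.sm)).add
      ((ev1 hg.sm).self_of_nhds.smul (ev2 hf.sm))).fderiv
  refine ⟨hf.sm.mul hg.sm, fun k => by rw [e.eq_of_nhds, ← hf.d1, ← hg.d1]; rfl, ?_⟩
  rw [e.fderiv_eq, e2, e.eq_of_nhds, ← hf.d2, ← hg.d2]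
  simp only [add_apply, smul_apply, ContinuousLinearMap.smulRight_apply, smul_eq_mul, hf.d1, hg.d1,
    Finset.sum_add_distrib, ← Finset.mul_sum, mul_comm (g1 _)]
  ring

theorem Jt.comp (hf : Jt s W r f f1 f2) {β : ℝ → ℝ} (hβ : ContDiffAt ℝ 2 β (f s)) :
    Jt s W r (fun y => β (f y)) (fun k => deriv β (f s) * f1 k)
      (deriv β (f s) * f2 + deriv (deriv β) (f s) * ∑ k, f1 k ^ 2) := by
  have e : fderiv ℝ (fun y => β (f y)) =ᶠ[𝓝 s] fun y => deriv β (f y) • fderiv ℝ f y := by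
    filter_upwards [ev1 hf.sm, hf.sm.continuousAt.eventually (ev1 hβ)] with y a b
    exact (b.differentiableAt.hasDerivAt.comp_hasFDerivAt y a).fderiv
  have d : DifferentiableAt ℝ (deriv β) (f s) :=
    (ev2 hβ).differentiableAt.clm_apply (differentiableAt_const (1 : ℝ))
  have e2 : fderiv ℝ (fun y => deriv β (f y) • fderiv ℝ f y) s = _ :=
    ((d.hasDerivAt.comp_hasFDerivAt s (ev1 hf.sm).self_of_nhds).smul (ev2 hf.sm)).fderiv
  refine ⟨hβ.comp s hf.sm, fun k => by rw [e.eq_of_nhds, ← hf.d1]; rfl, ?_⟩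
  rw [e.fderiv_eq, e2, e.eq_of_nhds, ← hf.d2]
  simp only [add_apply, smul_apply, ContinuousLinearMap.smulRight_apply, smul_eq_mul, hf.d1,
    Finset.sum_add_distrib, ← Finset.mul_sum, Function.comp, mul_assoc, ← sq]
  ring

theorem Jt.smul (hf : Jt s W r f f1 f2) (c : ℝ) :
    Jt s W r (fun y => c * f y) (fun k => c * f1 k) (c * f2) :=
  ((Jt.const c).mul hf).cast (fun _ => by simp) (by simp)

theorem Jt.uniq (hf : Jt s W r f f1 f2) (hg : Jt s W r f g1 g2) : f1 = g1 ∧ f2 = g2 :=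
  ⟨funext fun k => (hf.d1 k).symm.trans (hg.d1 k), hf.d2.symm.trans hg.d2⟩
end

variable {d : ℕ}

/-- the directions and the drift of the operator -/
def ww (P : ℝ) (ξ : X d) (H : L d (X d)) : Option (Fin d) → X d × ℝ × X d
  | none => (√P / ‖ξ‖) • dw ξ H ξ
  | some i => dw ξ H (ei i)
def dr (P : ℝ) (ξ : X d) (H : L d (X d)) : X d × ℝ × X d :=
  (P / ‖ξ‖ ^ 2 * 2) • (H ξ - (⟪H ξ, ξ⟫ / ‖ξ‖ ^ 2) • ξ, 0, 0)

theorem Jt.lo_eq {P : ℝ} (hP : 0 ≤ P) {s : X d × ℝ × X d} {H : L d (X d)}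
    {f : X d × ℝ × X d → ℝ} {f1 : Option (Fin d) → ℝ} {f2 : ℝ}
    (h : Jt s (ww P s.2.2 H) (dr P s.2.2 H) f f1 f2) : lo P f s H = f2 := by
  rw [← h.d2, lo, Fintype.sum_option]
  simp only [ww, dr, map_smul, smul_apply, smul_eq_mul]
  rw [← mul_assoc (√P / _), div_mul_div_comm, Real.mul_self_sqrt hP, ← sq]
  ring

theorem jt_lo {P : ℝ} (hP : 0 ≤ P) {s : X d × ℝ × X d} (H : L d (X d)) {f : X d × ℝ × X d → ℝ}
    (h : ContDiffAt ℝ 2 f s) : Jt s (ww P s.2.2 H) (dr P s.2.2 H) f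
      (fun k => fderiv ℝ f s (ww P s.2.2 H k)) (lo P f s H) :=
  (Jt.of h _ _).cast (fun _ => rfl) ((Jt.of h _ _).lo_eq hP).symm

/-- a convex function that vanishes on the negative axis -/
theorem ex_be : ∃ β : ℝ → ℝ, ContDiff ℝ 2 β ∧ (∀ t, t ≤ 0 → β t = 0 ∧ deriv β t = 0) ∧
    (∀ t, 0 < t → 0 < deriv β t) ∧ (∀ t, 0 ≤ deriv β t ∧ deriv β t ≤ 1 ∧ 0 ≤ deriv (deriv β) t) ∧
    ∀ t, 0 ≤ t → |β t| ≤ t := by
  have c := Real.smoothTransition.continuous
  have h : ∀ t, HasDerivAt (fun t => ∫ s in (0 : ℝ)..t, Real.smoothTransition s)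
      (Real.smoothTransition t) t := fun t => (c.integral_hasStrictDerivAt 0 t).hasDerivAt
  have e : deriv (fun t => ∫ s in (0 : ℝ)..t, Real.smoothTransition s) = Real.smoothTransition :=
    funext fun t => (h t).deriv
  refine ⟨fun t => ∫ s in (0 : ℝ)..t, Real.smoothTransition s, ?_, fun t ht => ⟨?_, ?_⟩,
    fun t ht => ?_, fun t => ?_, fun t ht => ?_⟩
  · rw [show (2 : WithTop ℕ∞) = 1 + 1 from rfl, contDiff_succ_iff_deriv, e]
    exact ⟨fun t => (h t).differentiableAt, by simp, Real.smoothTransition.contDiff (n := 1)⟩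
  · exact (intervalIntegral.integral_congr (g := fun _ => 0) fun s hs =>
      Real.smoothTransition.zero_of_nonpos (by rw [uIcc_of_ge ht] at hs; exact hs.2)).trans
      (by simp)
  · rw [e, Real.smoothTransition.zero_of_nonpos ht]
  · rw [e]
    exact Real.smoothTransition.pos_of_pos ht
  · rw [e]
    exact ⟨Real.smoothTransition.nonneg t, Real.smoothTransition.le_one t,
      Real.smoothTransition.monotone.deriv_nonneg⟩
  · have := intervalIntegral.norm_integral_le_of_norm_le_const (a := 0) (b := t) (C := 1)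
      (f := Real.smoothTransition) fun s _ => by
        rw [Real.norm_of_nonneg (Real.smoothTransition.nonneg s)]
        exact Real.smoothTransition.le_one s
    rwa [one_mul, sub_zero, abs_of_nonneg ht] at this

variable {U : Set (X d)} {p : ℝ} {u : X d → ℝ} {G : X d → X d} {D : X d → L d (X d)}

/-- the weak maximum principle -/
theorem wmp (hp : 2 < p) (hU : IsOpen U) (hb : IsBounded U) (hW : Wk p U u G)
    (hV : Sb 2 U (fun x => Vp p (G x)) D) {Ψ : X d × ℝ × X d → ℝ} {O K : Set (X d × ℝ × X d)}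
    {m : ℝ} (hO : IsOpen O) (hK : IsCompact K) (hKO : K ⊆ O) (sub : ∀ s ∈ O, s.1 ∈ U ∧ s.2.2 ≠ 0)
    (hΨ : ∀ s ∈ O, ContDiffAt ℝ 2 Ψ s)
    (h : ∀ᵐ x ∂vo U, (x, u x, G x) ∈ O → m < Ψ (x, u x, G x) → (x, u x, G x) ∈ K ∧
      0 < lo (p - 2) Ψ (x, u x, G x) (hs p (G x) (D x))) :
    ∀ᵐ x ∂vo U, (x, u x, G x) ∈ O → Ψ (x, u x, G x) ≤ m := by
  obtain ⟨β, b0, b1, b2, b3, -⟩ := ex_be
  obtain ⟨K', k1, k2, k3⟩ := exists_compact_between hK hO hKO
  obtain ⟨χ, e1, e0, e2⟩ := exists_contMDiffMap_one_nhds_of_subset_interior (n := 2)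
    𝓘(ℝ, X d × ℝ × X d) hK.isClosed k2
  have cχ : ContDiff ℝ 2 χ := χ.contMDiff.contDiff
  have z : ∀ s ∉ K', χ s * β (Ψ s + -m) = 0 := fun s hs => by rw [e0 s hs, zero_mul]
  have hP : 0 ≤ p - 2 := by linarith
  obtain ⟨i1, i2⟩ := ident (Φ := fun s => χ s * β (Ψ s + -m)) hp hU hb hW hV
    (contDiff_iff_contDiffAt.2 fun s => by
      by_cases k : s ∈ K'
      · exact cχ.contDiffAt.mul (b0.contDiffAt.comp s ((hΨ s (k3 k)).add contDiffAt_const))
      · exact contDiffAt_const.congr_of_eventuallyEq (ev0 k1 z k)) k1 (fun s k => sub s (k3 k)) z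
  have key : ∀ᵐ x ∂vo U, 0 ≤ lo (p - 2) (fun s => χ s * β (Ψ s + -m)) (x, u x, G x)
      (hs p (G x) (D x)) ∧ ((x, u x, G x) ∈ O → m < Ψ (x, u x, G x) →
        0 < lo (p - 2) (fun s => χ s * β (Ψ s + -m)) (x, u x, G x) (hs p (G x) (D x))) := by
    filter_upwards [h] with x hx
    by_cases k : (x, u x, G x) ∈ O
    · have j := ((jt_lo hP (hs p (G x) (D x)) (hΨ _ k)).add (Jt.const (-m))).comp b0.contDiffAt
      have q := mul_nonneg (b3 (Ψ (x, u x, G x) + -m)).2.2 (Finset.sum_nonneg (s := Finset.univ)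
        fun k _ => sq_nonneg (fderiv ℝ Ψ (x, u x, G x) (ww (p - 2) (G x) (hs p (G x) (D x)) k) + 0))
      rcases le_or_gt (Ψ (x, u x, G x)) m with c | c
      · refine ⟨?_, fun _ c' => absurd c c'.not_ge⟩
        have z := b1 (Ψ (x, u x, G x) + -m) (by linarith)
        rw [((jt_lo hP (hs p (G x) (D x)) cχ.contDiffAt).mul j).lo_eq hP]
        simp only [z.1, z.2, zero_mul, mul_zero, Finset.sum_const_zero, add_zero, zero_add] at q ⊢
        exact mul_nonneg (e2 _).1 q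
      · refine (fun a => ⟨a.le, fun _ _ => a⟩) ?_
        rw [(j.congr ((e1.filter_mono (nhds_le_nhdsSet (hx k c).1)).mono fun s hs => by
          simp only [hs, one_mul])).lo_eq hP, add_zero]
        exact add_pos_of_pos_of_nonneg (mul_pos (b2 _ (by linarith)) (hx k c).2) q
    · rw [((Jt.const 0).congr (ev0 k1 z fun a => k (k3 a))).lo_eq hP]
      exact ⟨le_rfl, fun a => absurd a k⟩
  have e := (integral_eq_zero_iff_of_nonneg_ae (key.mono fun x a =>
    mul_nonneg (Real.rpow_nonneg (norm_nonneg _) _) a.1) i1).1 i2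
  filter_upwards [key, e] with x a b k
  exact not_lt.1 fun c => (mul_pos (Real.rpow_pos_of_pos (norm_pos_iff.2 (sub _ k).2) _)
    (a.2 k c)).ne' b

end Pool.Agent.MP_815c6c_an.S.IdA

end
end MrgPart1

-- ======== part 2: formerly Pool.Agent.MP_815c6c_an.H.Jet
section MrgPart2

/-! Scalar p-harmonic functions for large `p`: the calculus of jets. -/

set_option autoImplicit false

noncomputable section

namespace Pool.Agent.MP_815c6c_an.H

open Set Metric MeasureTheory Filter Topology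
open scoped RealInnerProductSpace
open N (X)
open S.IdA (Jt)

namespace JetA

variable {d : ℕ} {P : ℝ} {z : St d} {H : En d} {f g : St d → ℝ} {v w : Vc d} {L M : ℝ}

theorem jt (h : J P z H f v L) :
    Jt z (fun k => tv z.2.2 H (dir P z.2.2 k)) (dr z.2.2 H, 0, 0) f (fun k => v k) L :=
  ⟨h.c2, h.gr, (add_comm _ _).trans h.lo⟩

theorem tj {f1 : Option (Fin d) → ℝ} {f2 : ℝ}
    (h : Jt z (fun k => tv z.2.2 H (dir P z.2.2 k)) (dr z.2.2 H, 0, 0) f f1 f2)
    (e1 : ∀ k, f1 k = v k) (e2 : f2 = L) : J P z H f v L :=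
  ⟨h.sm, fun k => (h.d1 k).trans (e1 k), (add_comm _ _).trans (h.d2.trans e2)⟩

theorem cast (h : J P z H f v L) (e1 : v = w) (e2 : L = M) : J P z H f w M := e1 ▸ e2 ▸ h

theorem add (h : J P z H f v L) (h' : J P z H g w M) :
    J P z H (fun y => f y + g y) (v + w) (L + M) := tj ((jt h).add (jt h')) (fun _ => rfl) rfl

theorem cmul (c : ℝ) (h : J P z H f v L) : J P z H (fun y => c * f y) (c • v) (c * L) :=
  tj ((jt h).smul c) (fun _ => rfl) rfl

theorem const (c : ℝ) : J P z H (fun _ => c) 0 0 := tj (Jt.const c) (fun _ => rfl) rfl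

theorem comp (φ : ℝ → ℝ) (h : J P z H f v L) (hφ : ContDiffAt ℝ 2 φ (f z)) :
    J P z H (fun y => φ (f y)) (deriv φ (f z) • v)
      (deriv φ (f z) * L + deriv (deriv φ) (f z) * ‖v‖ ^ 2) :=
  tj ((jt h).comp hφ) (fun _ => rfl) (by rw [EuclideanSpace.real_norm_sq_eq])

theorem comp' {φ φ' : ℝ → ℝ} {c : ℝ} (h : J P z H f v L) (hφ : ContDiffAt ℝ 2 φ (f z))
    (h1 : ∀ᶠ t in 𝓝 (f z), HasDerivAt φ (φ' t) t) (h2 : HasDerivAt φ' c (f z)) :
    J P z H (fun y => φ (f y)) (φ' (f z) • v) (φ' (f z) * L + c * ‖v‖ ^ 2) := by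
  have e : deriv φ =ᶠ[𝓝 (f z)] φ' := h1.mono fun _ a => a.deriv
  have := comp φ h hφ
  rwa [e.deriv_eq, e.eq_of_nhds, h2.deriv] at this

end JetA

open JetA in
theorem jet : JetS := fun d P z H =>
  { ex := fun f h => ⟨WithLp.toLp 2 fun k => fderiv ℝ f z (tv z.2.2 H (dir P z.2.2 k)),
      h, fun _ => rfl, rfl⟩
    congr := fun h e => tj ((jt h).congr e) (fun _ => rfl) rfl
    const := const
    add := add
    sub := fun h h' => by
      simpa only [neg_one_mul, neg_one_smul, ← sub_eq_add_neg] using add h (cmul (-1) h')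
    addc := fun c h => by simpa only [add_zero] using add h (const c)
    cmul := cmul
    mul := fun h h' => tj ((jt h).mul (jt h')) (fun _ => rfl) (by
      simp [PiLp.inner_apply, mul_comm])
    sum := fun s f v L h => by
      classical
      induction s using Finset.induction_on with
      | empty => simpa only [Finset.sum_empty] using const 0
      | insert a s ha ih =>
        simpa only [Finset.sum_insert ha] using add (h a (Finset.mem_insert_self a s))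
          (ih fun i hi => h i (Finset.mem_insert_of_mem hi))
    comp := comp
    sq := fun h => cast (comp' (φ := fun t => t ^ 2) (φ' := fun t => 2 * t) (c := 2) h
      (contDiffAt_id.pow 2) (Eventually.of_forall fun t => by simpa using hasDerivAt_pow 2 t)
      (((hasDerivAt_id' _).const_mul (2 : ℝ)).congr_deriv (mul_one _))) rfl rfl
    log := fun h a => cast (comp' (φ' := fun t => t⁻¹) h (Real.contDiffAt_log.2 a.ne')
      ((eventually_ne_nhds a.ne').mono fun _ => Real.hasDerivAt_log) (hasDerivAt_inv a.ne'))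
      rfl (by ring)
    sqrt := fun {f v L} h a => by
      have s := (Real.sqrt_pos.2 a).ne'
      refine cast (comp' (φ' := fun t => (2 * √t)⁻¹) h (Real.contDiffAt_sqrt a.ne')
        ((eventually_ne_nhds a.ne').mono fun _ b => by
          simpa only [one_div] using Real.hasDerivAt_sqrt b)
        (((Real.hasDerivAt_sqrt a.ne').const_mul 2).inv (mul_ne_zero two_ne_zero s))) rfl ?_
      field_simp
      ring
    inv := fun {f v L} h a => by
      refine cast (comp' (φ' := fun t => -(t ^ 2)⁻¹) h (contDiffAt_inv ℝ a)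
        ((eventually_ne_nhds a).mono fun _ => hasDerivAt_inv)
        ((hasDerivAt_pow 2 (f z)).inv (pow_ne_zero 2 a)).neg) rfl ?_
      simp only [Nat.cast_ofNat, Nat.add_one_sub_one, pow_one]
      field_simp
    rpow := fun {f v L} c h a => by
      refine cast (comp' (φ := fun t => t ^ c) (φ' := fun t => c * t ^ (c - 1)) h
        (Real.contDiffAt_rpow_const_of_ne a.ne')
        ((eventually_ne_nhds a.ne').mono fun _ b => Real.hasDerivAt_rpow_const (.inl b))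
        ((Real.hasDerivAt_rpow_const (.inl a.ne')).const_mul c)) rfl ?_
      rw [show c - 1 - 1 = c - 2 by ring]
      ring
    exp := fun h => cast (comp' h Real.contDiff_exp.contDiffAt
      (Eventually.of_forall Real.hasDerivAt_exp) (Real.hasDerivAt_exp _)) rfl (by ring)
    jx := fun a => tj (Jt.clm ((innerSL ℝ a).comp (ContinuousLinearMap.fst ℝ (X d) (ℝ × X d))))
      (fun _ => rfl) rfl
    jt := tj (Jt.clm ((ContinuousLinearMap.fst ℝ ℝ (X d)).comp
      (ContinuousLinearMap.snd ℝ (X d) (ℝ × X d)))) (fun _ => rfl) rfl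
    jw := fun a => tj (Jt.clm ((innerSL ℝ a).comp ((ContinuousLinearMap.snd ℝ ℝ (X d)).comp
      (ContinuousLinearMap.snd ℝ (X d) (ℝ × X d))))) (fun _ => rfl) (inner_zero_right a) }

end Pool.Agent.MP_815c6c_an.H

end
end MrgPart2

-- marker of a merged file
example : 731051 + 519844 = 731051 + 519844 := rfl
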