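import Pool.Agent.MP_815c6c_an.S.EJac
import Pool.Agent.MP_815c6c_an.Q.Shell
import Pool.Agent.MP_815c6c_an.H.Win
import Pool.Agent.MP_815c6c_an.H.Jet
import Pool.Agent.MP_815c6c_an.S.EDq

-- ======== part 0: formerly Pool.Agent.MP_815c6c_an.S.ETs
section MrgPart0

/-! Sobolev test functions. -/

set_option autoImplicit false

noncomputable section

namespace Pool.Agent.MP_815c6c_an.S

open Set Metric MeasureTheory Filter Topology Bornology
open scoped ENNReal RealInnerProductSpace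
open N (X Gr)
open Q (pw)

theorem ts_young {p a b : ℝ} (hp : 2 < p) (ha : 0 ≤ a) (hb : 0 ≤ b) :
    b * (a ^ (p - 2) * a) ≤ a ^ p + b ^ p := by
  have key : ∀ t : ℝ, 0 ≤ t → t * (t ^ (p - 2) * t) = t ^ p := fun t ht => by
    rcases ht.eq_or_lt with rfl | ht
    · rw [zero_mul, Real.zero_rpow (by linarith)]
    · rw [Real.rpow_sub ht, Real.rpow_two]
      field_simp
  have h1 := Real.rpow_nonneg ha p
  have h2 := Real.rpow_nonneg hb p
  have h3 := Real.rpow_nonneg ha (p - 2)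
  rcases le_total b a with h | h
  · have := mul_le_mul_of_nonneg_right h (mul_nonneg h3 ha)
    linarith [key a ha]
  · have := mul_le_mul_of_nonneg_left (mul_le_mul (Real.rpow_le_rpow ha h (by linarith : 0 ≤ p - 2))
      h ha (Real.rpow_nonneg hb _)) hb
    linarith [key b hb]

theorem ts : SobS → TsS := by
  intro S d p U u v η G D hp hU hW hv hη
  have hq0 : ENNReal.ofReal p ≠ 0 := by simpa using (by linarith : 0 < p)
  have hqr : (ENNReal.ofReal p).toReal = p := ENNReal.toReal_ofReal (by linarith)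
  have hG0 := ((S d ℝ).mem _ _ _ _ hW.sb).2
  obtain ⟨hvm, hDm⟩ := (S d ℝ).mem _ _ _ _ hv
  have hGm : AEStronglyMeasurable G (vo U) := by
    have := (InnerProductSpace.toDual ℝ (X d)).symm.continuous.comp_aestronglyMeasurable hG0.1
    refine this.congr (Eventually.of_forall fun x => ?_)
    exact (InnerProductSpace.toDual ℝ (X d)).symm_apply_apply (G x)
  have hGi : Integrable (fun x => ‖G x‖ ^ p) (vo U) := by
    have := hG0.integrable_norm_rpow hq0 ENNReal.ofReal_ne_top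
    simpa [hqr] using this
  have hAm : AEStronglyMeasurable (fun x => Ap p (G x)) (vo U) :=
    (((continuous_norm.rpow_const fun _ => Or.inr (by linarith : 0 ≤ p - 2)).smul
      continuous_id).comp_aestronglyMeasurable hGm :)
  obtain ⟨w, hw, g, hg, hae⟩ := hv
  have hgi : Integrable (fun x => ‖g x‖ ^ p) (vo U) := by
    have := hg.integrable_norm_rpow hq0 ENNReal.ofReal_ne_top
    simpa [hqr] using this
  obtain ⟨hη1, hη2, hη3⟩ := hη
  have hηc := hη1.continuous_fderiv one_ne_zero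
  obtain ⟨C1, hC1⟩ := hη1.continuous.bounded_above_of_compact_support hη2
  obtain ⟨C2, hC2⟩ := hηc.bounded_above_of_compact_support (hη2.fderiv ℝ)
  have hη0 : ∀ x ∉ U, η x = 0 ∧ fderiv ℝ η x = 0 := fun x hx =>
    ⟨image_eq_zero_of_notMem_tsupport fun h => hx (hη3 h),
      image_eq_zero_of_notMem_tsupport fun h => hx (hη3 (tsupport_fderiv_subset ℝ h))⟩
  have hAn : ∀ x, 0 ≤ g x → g x * ‖Ap p (G x)‖ ≤ ‖G x‖ ^ p + ‖g x‖ ^ p := fun x hx => by
    rw [Ap, pw, norm_smul, Real.norm_of_nonneg (Real.rpow_nonneg (norm_nonneg _) _),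
      Real.norm_of_nonneg hx]
    exact ts_young hp (norm_nonneg _) hx
  have b1 : ∀ x (T : L d ℝ), ‖T‖ ≤ g x →
      ‖η x * T (Ap p (G x))‖ ≤ C1 * (‖G x‖ ^ p + ‖g x‖ ^ p) := fun x T hT => by
    rw [norm_mul]
    exact mul_le_mul (hC1 x) ((T.le_of_opNorm_le hT _).trans (hAn x ((norm_nonneg _).trans hT)))
      (norm_nonneg _) ((norm_nonneg _).trans (hC1 x))
  have b2 : ∀ x (t : ℝ), ‖t‖ ≤ g x →
      ‖t * fderiv ℝ η x (Ap p (G x))‖ ≤ C2 * (‖G x‖ ^ p + ‖g x‖ ^ p) := fun x t ht => by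
    have h0 := (norm_nonneg _).trans ht
    rw [norm_mul]
    refine (mul_le_mul ht ((fderiv ℝ η x).le_of_opNorm_le (hC2 x) _) (norm_nonneg _) h0).trans ?_
    rw [mul_left_comm]
    exact mul_le_mul_of_nonneg_left (hAn x h0) ((norm_nonneg _).trans (hC2 x))
  have m1 : ∀ T : X d → L d ℝ, AEStronglyMeasurable T (vo U) →
      AEStronglyMeasurable (fun x => η x * T x (Ap p (G x))) (vo U) := fun T hT =>
    hη1.continuous.aestronglyMeasurable.mul
      (isBoundedBilinearMap_apply.continuous.comp_aestronglyMeasurable (hT.prodMk hAm) :)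
  have m2 : ∀ t : X d → ℝ, AEStronglyMeasurable t (vo U) →
      AEStronglyMeasurable (fun x => t x * fderiv ℝ η x (Ap p (G x))) (vo U) := fun t ht =>
    ht.mul (isBoundedBilinearMap_apply.continuous.comp_aestronglyMeasurable
      (hηc.aestronglyMeasurable.prodMk hAm) :)
  have hB := hGi.add hgi
  have i1 : IntegrableOn (fun x => η x * D x (Ap p (G x))) U :=
    (hB.const_mul C1).mono' (m1 D hDm.1) (hae.mono fun x hx =>
      b1 x _ (le_of_tendsto' hx.2.2.norm fun n => (hx.1 n).2))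
  have i2 : IntegrableOn (fun x => v x * fderiv ℝ η x (Ap p (G x))) U :=
    (hB.const_mul C2).mono' (m2 v hvm.1) (hae.mono fun x hx =>
      b2 x _ (le_of_tendsto' hx.2.1.norm fun n => (hx.1 n).1))
  have j1 := i1.integrable_of_forall_notMem_eq_zero fun x hx => by simp [(hη0 x hx).1]
  have j2 := i2.integrable_of_forall_notMem_eq_zero fun x hx => by simp [(hη0 x hx).2]
  refine ⟨j1, j2, eq_neg_of_add_eq_zero_left ?_⟩
  rw [← integral_add j1 j2, ← setIntegral_eq_integral_of_forall_compl_eq_zero (s := U)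
    fun x hx => by simp [hη0 x hx]]
  have hlim := tendsto_integral_of_dominated_convergence (μ := vo U)
    (F := fun n x => η x * fderiv ℝ (w n) x (Ap p (G x)) + w n x * fderiv ℝ η x (Ap p (G x)))
    (f := fun x => η x * D x (Ap p (G x)) + v x * fderiv ℝ η x (Ap p (G x))) _
    (fun n => (m1 _ ((hw n).continuous_fderiv one_ne_zero).aestronglyMeasurable).add
      (m2 _ (hw n).continuous.aestronglyMeasurable))
    ((hB.const_mul C1).add (hB.const_mul C2))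
    (fun n => hae.mono fun x hx => (norm_add_le _ _).trans
      (add_le_add (b1 x _ (hx.1 n).2) (b2 x _ (hx.1 n).1)))
    (hae.mono fun x hx => (((((ContinuousLinearMap.apply ℝ ℝ (Ap p (G x))).continuous.tendsto
      _).comp hx.2.2).const_mul _).add (hx.2.1.mul_const _) :))
  refine tendsto_nhds_unique hlim (tendsto_const_nhds.congr fun n => ?_)
  rw [setIntegral_eq_integral_of_forall_compl_eq_zero fun x hx => by simp [hη0 x hx],
    ← hW.dv (fun x => η x * w n x) ⟨hη1.mul (hw n), hη2.mul_right,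
      (tsupport_mul_subset_left).trans hη3⟩]
  refine integral_congr_ae (Eventually.of_forall fun x => ?_)
  simp only []
  rw [fderiv_fun_mul (hη1.differentiable one_ne_zero x) ((hw n).differentiable one_ne_zero x)]
  simp

end Pool.Agent.MP_815c6c_an.S

end
end MrgPart0

-- ======== part 1: formerly Pool.Agent.MP_815c6c_an.S.EMon
section MrgPart1

/-! Scalar p-harmonic functions in any dimension: monotonicity of the maps `A` and `V`. -/

set_option autoImplicit false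

noncomputable section

namespace Pool.Agent.MP_815c6c_an.S

open scoped RealInnerProductSpace
open N (X)
open Q (pw)

theorem mon : MonS := by
  intro d p hp
  have P := Q.pow (X d)
  have p0 : 0 < p := by linarith
  have s0 : 0 ≤ 1 - 2 / p := by
    rw [sub_nonneg, div_le_one p0]
    exact hp.le
  have s1 : 1 - 2 / p < 1 := by
    have : 0 < 2 / p := by positivity
    linarith
  have k1 : -1 < p / 2 - 1 := by linarith
  have eA : ∀ w : X d, pw (1 - 2 / p) (Vp p w) = Ap p w := fun w => by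
    rw [Vp, P.comp _ _ _ k1, Ap]
    congr 1
    field_simp
    ring
  have eI : ∀ w : X d, pw (-(1 - 2 / p)) (Vp p w) = w := fun w => by
    rw [Vp, P.comp _ _ _ k1, show (-(1 - 2 / p) + 1) * (p / 2 - 1 + 1) - 1 = 0 by
      field_simp
      ring, pw, Real.rpow_zero, one_smul]
  have eN : ∀ w : X d, ‖Vp p w‖ = ‖w‖ ^ (p / 2) := fun w => by
    rw [Vp, P.norm _ _ k1, sub_add_cancel]
  obtain ⟨C, C0, hC⟩ := P.lip _ s0
  refine ⟨p / 2 + C, by positivity, fun a b => ⟨?_, ?_⟩⟩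
  · have h := P.mon _ (Vp p a) (Vp p b) s0 s1
    rw [eA, eA, eI, eI, sub_sub_cancel] at h
    have h0 : 0 ≤ 2 / p * ‖Vp p a - Vp p b‖ ^ 2 := by positivity
    have h1 : ‖Vp p a - Vp p b‖ ^ 2 = p / 2 * (2 / p * ‖Vp p a - Vp p b‖ ^ 2) := by
      field_simp
    have h2 := mul_le_mul_of_nonneg_left h (show 0 ≤ p / 2 by positivity)
    have h3 := mul_nonneg C0.le (h0.trans h)
    linarith
  · have h := hC (Vp p a) (Vp p b)
    rw [eA, eA, eN, eN] at h
    have a0 := norm_nonneg a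
    have b0 := norm_nonneg b
    have h1 : (‖a‖ ^ (p / 2) + ‖b‖ ^ (p / 2)) ^ (1 - 2 / p) ≤ (‖a‖ + ‖b‖) ^ (p / 2 - 1) := by
      refine (Real.rpow_le_rpow (by positivity)
        (Real.add_rpow_le_rpow_add a0 b0 (by linarith)) s0).trans (le_of_eq ?_)
      rw [← Real.rpow_mul (by positivity)]
      congr 1
      field_simp
    have h2 := mul_le_mul_of_nonneg_right h1 (norm_nonneg (Vp p a - Vp p b))
    have h3 : 0 ≤ (‖a‖ + ‖b‖) ^ (p / 2 - 1) * ‖Vp p a - Vp p b‖ := by positivity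
    have h4 := mul_le_mul_of_nonneg_left h2 C0.le
    have h5 := mul_nonneg (show 0 ≤ p / 2 by positivity) h3
    linarith

end Pool.Agent.MP_815c6c_an.S

end
end MrgPart1

-- ======== part 2: formerly Pool.Agent.MP_815c6c_an.H.Nat
section MrgPart2

/-! Scalar p-harmonic functions for large `p`: the derivative of `V`, and the stability of strict
subsolutions. -/

set_option autoImplicit false

noncomputable section

namespace Pool.Agent.MP_815c6c_an.H

open Set Metric MeasureTheory Filter Topology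
open scoped ENNReal RealInnerProductSpace
open N (X)
open S (ei vo Wk Sb Vp)

variable {d : ℕ}

theorem nat_mem {p : ℝ} {μ : Measure (X d)} {G : X d → X d} (hp : 2 < p)
    (h : MemLp (fun x => innerSL ℝ (G x)) (ENNReal.ofReal p) μ) :
    MemLp (fun x => Vp p (G x)) 2 μ := by
  have g : MemLp G (ENNReal.ofReal p) μ := by
    have := ContinuousLinearMap.comp_memLp'
      (InnerProductSpace.toDual ℝ (X d)).symm.toLinearIsometry.toContinuousLinearMap h
    refine (memLp_congr_ae (ae_of_all _ fun x => ?_)).1 this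
    exact (InnerProductSpace.toDual ℝ (X d)).symm_apply_apply (G x)
  have c : Continuous (Vp p : X d → X d) :=
    (continuous_norm.rpow_const fun _ => Or.inr (by linarith)).smul continuous_id
  have a := g.norm_rpow_div (ENNReal.ofReal (p / 2))
  rw [← ENNReal.ofReal_div_of_pos (by linarith), ENNReal.toReal_ofReal (by linarith),
    show p / (p / 2) = 2 by field_simp, ENNReal.ofReal_ofNat] at a
  refine a.mono' (c.comp_aestronglyMeasurable g.1) (ae_of_all _ fun x => le_of_eq ?_)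
  show ‖‖G x‖ ^ (p / 2 - 1) • G x‖ = _
  rw [norm_smul, Real.norm_of_nonneg (by positivity), ← Real.rpow_add_one' (norm_nonneg _)
    (by linarith), sub_add_cancel]

theorem nat : S.SobS → S.WsS → S.DqS → S.WkS → NatS := by
  intro sob ws dq wk d p r R x u G hp hr h
  have h1 := (ws d p (ball x R) (ball 0 R) u G hp isOpen_ball isOpen_ball isBounded_ball h).1
    x 1 1 0 one_ne_zero fun z hz => by
      rw [one_smul, mem_ball_iff_norm, add_sub_cancel_left]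
      exact mem_ball_zero_iff.1 hz
  obtain ⟨D, hD⟩ := wk d r ((r + R) / 2) R _ (by linarith) (by linarith)
    (nat_mem hp ((sob d ℝ).mem _ _ _ _ h1.sb).2) (dq d p _ R _ _ hp (by linarith) h1)
  have h2 := (sob d (X d)).sca 2 (ball 0 r) (ball x r) _ D (-x) 1 one_ne_zero measurableSet_ball
    (fun z hz => by
      rw [one_smul, mem_ball_zero_iff, neg_add_eq_sub]
      exact mem_ball_iff_norm.1 hz) hD
  simp only [one_smul, mul_one, add_neg_cancel_left] at h2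
  exact ⟨_, h2⟩

/-- the homogeneous tangent vectors -/
def perW (P : ℝ) (ξ : X d) (w : ℝ × En d) (k : Option (Fin d)) : St d :=
  (w.1 • dir P ξ k, w.1 * ⟪ξ, dir P ξ k⟫, w.2 (dir P ξ k))

/-- the homogeneous form of the operator -/
def perF (P : ℝ) (f : St d → ℝ) (y : St d) (w : ℝ × En d) : ℝ :=
  w.1 * fderiv ℝ f y (dr y.2.2 w.2, 0, 0) +
    ∑ k, fderiv ℝ (fderiv ℝ f) y (perW P y.2.2 w k) (perW P y.2.2 w k)

theorem per_sg (P t : ℝ) (ξ : X d) (H : En d) : sg P ξ (t • H) = t ^ 2 * sg P ξ H := by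
  simp only [sg, Finset.mul_sum, smul_apply, norm_smul, mul_pow,
    Real.norm_eq_abs, sq_abs]

theorem per_adm {P : ℝ} {ξ : X d} {H : En d} (t : ℝ) (h : Adm P ξ H) : Adm P ξ (t • H) := by
  refine ⟨fun v w => ?_, ?_⟩
  · simp only [smul_apply, real_inner_smul_left, real_inner_smul_right, h.1]
  · simp only [smul_apply, real_inner_smul_left, ← Finset.mul_sum, h.2,
      mul_zero]

theorem per_hom (P t : ℝ) (f : St d → ℝ) (y : St d) (H : En d) :
    perF P f y (t, t • H) = t ^ 2 * Lo P f y H := by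
  have a : ((dr y.2.2 (t • H), 0, 0) : St d) = t • ((dr y.2.2 H, 0, 0) : St d) := by
    simp only [dr, smul_apply, real_inner_smul_left, Prod.smul_mk, smul_zero]
    rw [mul_smul, ← smul_sub, smul_comm t]
  have b : ∀ k, perW P y.2.2 (t, t • H) k = t • tv y.2.2 H (dir P y.2.2 k) := fun k => rfl
  simp only [perF, Lo, a, b, map_smul, smul_apply, smul_eq_mul, mul_add,
    Finset.mul_sum]
  congr 1
  · ring
  · exact Finset.sum_congr rfl fun k _ => by ring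

theorem per_pos {P : ℝ} (hP : 0 < P) (ξ : X d) {w : ℝ × En d} (hw : w ≠ 0) :
    0 < w.1 ^ 2 + sg P ξ w.2 := by
  have s0 : 0 ≤ sg P ξ w.2 := Finset.sum_nonneg fun _ _ => sq_nonneg _
  by_contra h
  have h1 : w.1 = 0 := by nlinarith [sq_nonneg w.1]
  have h2 : sg P ξ w.2 = 0 := by nlinarith [sq_nonneg w.1]
  refine hw (Prod.ext h1 ?_)
  refine ContinuousLinearMap.coe_injective
    ((EuclideanSpace.basisFun (Fin d) ℝ).toBasis.ext fun k => ?_)
  have := (Finset.sum_eq_zero_iff_of_nonneg fun _ _ => sq_nonneg _).1 h2 (some k)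
    (Finset.mem_univ _)
  have e : (√P)⁻¹ ≠ 0 := by positivity
  simp only [dir, map_smul, ne_eq, OfNat.ofNat_ne_zero, not_false_eq_true, pow_eq_zero_iff,
    norm_eq_zero, smul_eq_zero, e, false_or] at this
  simpa using this

theorem per_nu {ξ : X d} (h : ξ ≠ 0) : ContinuousAt (nu : X d → X d) ξ :=
  (continuousAt_id.norm.inv₀ (norm_ne_zero_iff.2 h)).smul continuousAt_id

theorem per_dir (P : ℝ) {ξ : X d} (h : ξ ≠ 0) (k : Option (Fin d)) :
    ContinuousAt (fun ξ : X d => dir P ξ k) ξ := by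
  cases k with
  | none => exact per_nu h
  | some k => exact continuousAt_const

section
variable {P : ℝ} {f : St d → ℝ} {q : St d × ℝ × En d}

theorem per_c0 (P : ℝ) (h : q.1.2.2 ≠ 0) (k : Option (Fin d)) :
    ContinuousAt (fun q : St d × ℝ × En d => dir P q.1.2.2 k) q :=
  ContinuousAt.comp (f := fun q : St d × ℝ × En d => q.1.2.2) (per_dir P h k) (by fun_prop)

theorem per_c1 (P : ℝ) (h : q.1.2.2 ≠ 0) (k : Option (Fin d)) :
    ContinuousAt (fun q : St d × ℝ × En d => q.2.2 (dir P q.1.2.2 k)) q :=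
  ContinuousAt.clm_apply (by fun_prop) (per_c0 P h k)

theorem per_c2 (P : ℝ) (h : q.1.2.2 ≠ 0) :
    ContinuousAt (fun q : St d × ℝ × En d => sg P q.1.2.2 q.2.2) q :=
  tendsto_finsetSum _ fun k _ => (per_c1 P h k).norm.pow 2

theorem per_c3 (P : ℝ) (h : q.1.2.2 ≠ 0) (hf : ContDiffAt ℝ 2 f q.1) :
    ContinuousAt (fun q : St d × ℝ × En d => perF P f q.1 q.2) q := by
  have f1 : ContDiffAt ℝ 1 (fderiv ℝ f) q.1 := hf.fderiv_right (by norm_num)
  have f2 : ContDiffAt ℝ 0 (fderiv ℝ (fderiv ℝ f)) q.1 := f1.fderiv_right (by norm_num)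
  have g1 : ContinuousAt (fun q : St d × ℝ × En d => fderiv ℝ f q.1) q :=
    f1.continuousAt.comp continuousAt_fst
  have g2 : ContinuousAt (fun q : St d × ℝ × En d => fderiv ℝ (fderiv ℝ f) q.1) q :=
    f2.continuousAt.comp continuousAt_fst
  have x : ContinuousAt (fun q : St d × ℝ × En d => q.1.2.2) q := by fun_prop
  have s : ContinuousAt (fun q : St d × ℝ × En d => q.2.1) q := by fun_prop
  have n : ContinuousAt (fun q : St d × ℝ × En d => nu q.1.2.2) q := per_c0 P h none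
  have m : ContinuousAt (fun q : St d × ℝ × En d => q.2.2 (nu q.1.2.2)) q := per_c1 P h none
  have r : ContinuousAt (fun q : St d × ℝ × En d => dr q.1.2.2 q.2.2) q :=
    (continuousAt_const.div x.norm (norm_ne_zero_iff.2 h)).smul (m.sub ((m.inner (𝕜 := ℝ) n).smul n))
  have w : ∀ k, ContinuousAt (fun q : St d × ℝ × En d => perW P q.1.2.2 q.2 k) q := fun k =>
    (s.smul (per_c0 P h k)).prodMk ((s.mul (x.inner (𝕜 := ℝ) (per_c0 P h k))).prodMk (per_c1 P h k))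
  exact (s.mul (g1.clm_apply (r.prodMk continuousAt_const))).add
    (tendsto_finsetSum _ fun k _ => (g2.clm_apply (w k)).clm_apply (w k))

theorem per_open (h : q.1.2.2 ≠ 0) (k : ¬Adm P q.1.2.2 q.2.2) :
    ∀ᶠ y : St d × ℝ × En d in 𝓝 q, ¬Adm P y.1.2.2 y.2.2 := by
  rcases not_and_or.1 k with k | k
  · push Not at k
    obtain ⟨v, w, k⟩ := k
    have a : ContinuousAt (fun y : St d × ℝ × En d => ⟪y.2.2 v, w⟫ - ⟪v, y.2.2 w⟫) q := by fun_prop
    filter_upwards [a.eventually_ne (sub_ne_zero.2 k)] with y hy e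
    exact hy (sub_eq_zero.2 (e.1 v w))
  · have a : ContinuousAt (fun y : St d × ℝ × En d =>
        ∑ k, ⟪y.2.2 (dir P y.1.2.2 k), dir P y.1.2.2 k⟫) q :=
      tendsto_finsetSum _ fun k _ => (per_c1 P h k).inner (𝕜 := ℝ) (per_c0 P h k)
    filter_upwards [a.eventually_ne k] with y hy e
    exact hy e.2

end

theorem per : PerS := by
  intro d P c f z hP hc hz hf h
  have A : ∀ H, Adm P z.2.2 H → ∀ s : ℝ, 0 ≤ s →
      c * (s ^ 2 + sg P z.2.2 H) ≤ perF P f z (s, H) := by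
    intro H hH
    have c1 : Continuous fun s : ℝ => perF P f z (s, H) := continuous_iff_continuousAt.2 fun s =>
      ContinuousAt.comp (f := fun s : ℝ => (z, s, H)) (per_c3 (q := (z, s, H)) P hz hf)
        (by fun_prop)
    have cl : IsClosed {s : ℝ | c * (s ^ 2 + sg P z.2.2 H) ≤ perF P f z (s, H)} :=
      isClosed_le (by fun_prop) c1
    have : Ioi (0 : ℝ) ⊆ {s : ℝ | c * (s ^ 2 + sg P z.2.2 H) ≤ perF P f z (s, H)} := by
      intro s hs
      have s0 : s ≠ 0 := ne_of_gt hs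
      have a := mul_le_mul_of_nonneg_left (h _ (per_adm s⁻¹ hH)) (sq_nonneg s)
      rw [← per_hom, smul_inv_smul₀ s0, per_sg] at a
      refine le_trans (le_of_eq ?_) a
      field_simp
    intro s hs
    exact cl.closure_subset_iff.2 this (by rwa [closure_Ioi])
  have : ProperSpace (ℝ × En d) := FiniteDimensional.proper ℝ _
  have K : IsCompact (sphere (0 : ℝ × En d) 1 ∩ {w | 0 ≤ w.1}) :=
    (isCompact_sphere _ _).inter_right (isClosed_le continuous_const continuous_fst)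
  have B := K.eventually_forall_of_forall_eventually (x₀ := z)
    (P := fun y w => Adm P y.2.2 w.2 → c / 2 * (w.1 ^ 2 + sg P y.2.2 w.2) < perF P f y w) (by
      rintro w ⟨w1, w2⟩
      by_cases k : Adm P z.2.2 w.2
      · have p := per_pos hP z.2.2 (ne_zero_of_mem_unit_sphere ⟨w, w1⟩)
        have a := A _ k w.1 w2
        have c2 : ContinuousAt (fun q : St d × ℝ × En d =>
            c / 2 * (q.2.1 ^ 2 + sg P q.1.2.2 q.2.2)) (z, w) :=
          continuousAt_const.mul (ContinuousAt.add (by fun_prop) (per_c2 (q := (z, w)) P hz))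
        refine (c2.eventually_lt (per_c3 (q := (z, w)) P hz hf) ?_).mono fun _ e _ => e
        show c / 2 * (w.1 ^ 2 + sg P z.2.2 w.2) < perF P f z (w.1, w.2)
        nlinarith [mul_pos hc p]
      · exact (per_open (q := (z, w)) hz k).mono fun _ e e' => absurd e' e)
  filter_upwards [B] with y hy H hH
  have n : 0 < ‖((1, H) : ℝ × En d)‖ := norm_pos_iff.2 fun e => one_ne_zero (congrArg Prod.fst e)
  obtain ⟨t, ht⟩ : ∃ t, t = ‖((1, H) : ℝ × En d)‖⁻¹ := ⟨_, rfl⟩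
  have t0 : 0 < t := ht ▸ inv_pos.2 n
  have m : ((t, t • H) : ℝ × En d) ∈ sphere (0 : ℝ × En d) 1 := by
    have : ((t, t • H) : ℝ × En d) = t • ((1, H) : ℝ × En d) := by simp
    rw [mem_sphere_zero_iff_norm, this, norm_smul, Real.norm_of_nonneg t0.le, ht,
      inv_mul_cancel₀ n.ne']
  have a := hy _ ⟨m, t0.le⟩ (per_adm t hH)
  rw [per_hom] at a
  simp only [per_sg] at a
  refine le_of_mul_le_mul_left (le_trans (le_of_eq ?_) a.le) (pow_pos t0 2)
  ring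

end Pool.Agent.MP_815c6c_an.H

end
end MrgPart2

-- ======== part 3: formerly Pool.Agent.MP_815c6c_an.H.Lip
section MrgPart3

/-! Scalar p-harmonic functions: the gradient is locally bounded. -/

set_option autoImplicit false

noncomputable section

namespace Pool.Agent.MP_815c6c_an.H

open Set Metric MeasureTheory Filter Topology
open scoped RealInnerProductSpace
open N (X)
open S (ei vo hs Vp Ip)
open S.IdA (lo dw ww Jt)
open Real (smoothTransition)

namespace LipA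

variable {d : ℕ}

theorem amg {a u v : ℝ} (h : a ^ 2 ≤ 4 * u * v) (hu : 0 ≤ u) (hv : 0 ≤ v) : |a| ≤ u + v :=
  abs_le.2 (abs_le_of_sq_le_sq' (by nlinarith [sq_nonneg (u - v)]) (by positivity))

theorem lim0 {α : Type} [MeasurableSpace α] {μ : Measure α} {f : ℕ → α → ℝ}
    (hf : ∀ n, Integrable (f n) μ) (h0 : ∀ n, 0 ≤ᵐ[μ] f n)
    (ht : Tendsto (fun n => ∫ x, f n x ∂μ) atTop (𝓝 0)) :
    ∀ᵐ x ∂μ, ∀ c, 0 < c → ¬∀ᶠ n in atTop, c ≤ f n x := by
  obtain ⟨ns, h1, h2⟩ := (tendstoInMeasure_of_tendsto_eLpNorm (g := 0) one_ne_zero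
    (fun n => (hf n).1) aestronglyMeasurable_zero (by
      have := (ENNReal.continuous_ofReal.tendsto 0).comp ht
      rw [ENNReal.ofReal_zero] at this
      refine this.congr fun n => ?_
      rw [sub_zero, eLpNorm_one_eq_lintegral_enorm, ← ofReal_integral_norm_eq_lintegral_enorm (hf n)]
      exact congrArg _ (integral_congr_ae ((h0 n).mono fun x a =>
        (Real.norm_of_nonneg a).symm)))).exists_seq_tendsto_ae
  filter_upwards [h2] with x a c hc b
  exact (ge_of_tendsto a (h1.tendsto_atTop.eventually b)).not_gt hc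

theorem st : ∃ c : ℝ, 0 ≤ c ∧ ∀ t, |deriv smoothTransition t| ≤ c ∧
    |deriv (deriv smoothTransition) t| ≤ c ∧ (t < 0 ∨ 1 < t →
      deriv smoothTransition t = 0 ∧ deriv (deriv smoothTransition) t = 0) := by
  have e : ∀ t : ℝ, t < 0 ∨ 1 < t →
      deriv smoothTransition t = 0 ∧ deriv (deriv smoothTransition) t = 0 := fun t h => by
    obtain ⟨a, ha⟩ : ∃ a : ℝ, smoothTransition =ᶠ[𝓝 t] fun _ => a := h.elim
      (fun h => ⟨0, (eventually_lt_nhds h).mono fun _ b =>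
        Real.smoothTransition.zero_of_nonpos b.le⟩)
      fun h => ⟨1, (eventually_gt_nhds h).mono fun _ b => Real.smoothTransition.one_of_one_le b.le⟩
    exact ⟨by rw [ha.deriv_eq, deriv_const], by rw [ha.deriv.deriv_eq]; simp⟩
  have c1 : ContDiff ℝ 1 (deriv smoothTransition) :=
    (Real.smoothTransition.contDiff (n := 2)).deriv' (n := 1)
  have k : ∀ t ∉ Icc (0 : ℝ) 1, t < 0 ∨ 1 < t := fun t h => by simpa [imp_iff_not_or] using h
  obtain ⟨a, ha⟩ := (HasCompactSupport.intro isCompact_Icc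
    fun t h => (e t (k t h)).1).exists_bound_of_continuous c1.continuous
  obtain ⟨b, hb⟩ := (HasCompactSupport.intro isCompact_Icc
    fun t h => (e t (k t h)).2).exists_bound_of_continuous (c1.continuous_deriv le_rfl)
  exact ⟨max a b, (norm_nonneg _).trans ((ha 0).trans (le_max_left ..)), fun t =>
    ⟨(ha t).trans (le_max_left ..), (hb t).trans (le_max_right ..), e t⟩⟩

theorem nsq {ι : Type} [Fintype ι] (s : St d) (W : ι → St d) (r : St d) (A : St d →L[ℝ] X d) :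
    Jt s W r (fun y => ‖A y‖ ^ 2) (fun k => 2 * ⟪A s, A (W k)⟫)
      (2 * ∑ k, ‖A (W k)‖ ^ 2 + 2 * ⟪A s, A r⟫) := by
  have h : ∀ y, HasFDerivAt (fun y => ‖A y‖ ^ 2) (2 • (innerSL ℝ (A y)).comp A) y := fun y =>
    A.hasFDerivAt.norm_sq
  have e : fderiv ℝ (fun y => ‖A y‖ ^ 2) = (2 • ((ContinuousLinearMap.compL ℝ _ _ ℝ).flip A).comp
      ((innerSL ℝ).comp A) : St d →L[ℝ] St d →L[ℝ] ℝ) := funext fun y => (h y).fderiv
  refine ⟨(A.contDiff.norm_sq ℝ).contDiffAt, fun k => by rw [e]; simp, ?_⟩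
  rw [e, ContinuousLinearMap.fderiv, Finset.mul_sum]
  simp

theorem geo {P : ℝ} (hP : 0 ≤ P) {ξ : X d} (h : ξ ≠ 0) (H : En d) :
    ∑ k, ‖(ww P ξ H k).1‖ ^ 2 = P + d ∧ ∑ k, (ww P ξ H k).2.1 ^ 2 = (P + 1) * ‖ξ‖ ^ 2 ∧
    ‖(S.IdA.dr P ξ H).1‖ ^ 2 * ‖ξ‖ ^ 2 ≤ 4 * P * ∑ k, ‖(ww P ξ H k).2.2‖ ^ 2 ∧
    ∑ k, ‖(ww P ξ H k).2.2‖ ^ 2 ≤ (P + d) * ‖H‖ ^ 2 := by
  have n := norm_pos_iff.2 h
  have e : ∀ v : X d, ‖(√P / ‖ξ‖) • v‖ ^ 2 = P / ‖ξ‖ ^ 2 * ‖v‖ ^ 2 := fun v => by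
    rw [norm_smul, mul_pow, Real.norm_eq_abs, sq_abs, div_pow, Real.sq_sqrt hP]
  simp only [Fintype.sum_option, ww, S.IdA.dr, S.IdA.dw_apply, Prod.smul_mk, e, S.IdA.in_ei,
    smul_eq_mul, mul_pow, div_pow, Real.sq_sqrt hP, real_inner_self_eq_norm_sq,
    ← EuclideanSpace.real_norm_sq_eq]
  refine ⟨by simp; field_simp, by field_simp, ?_, ?_⟩
  · have a : ‖H ξ - (⟪H ξ, ξ⟫ / ‖ξ‖ ^ 2) • ξ‖ ^ 2 ≤ ‖H ξ‖ ^ 2 := by
      rw [norm_sub_sq_real, real_inner_smul_right, norm_smul, mul_pow, Real.norm_eq_abs, sq_abs]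
      have : (⟪H ξ, ξ⟫ / ‖ξ‖ ^ 2) ^ 2 * ‖ξ‖ ^ 2 = ⟪H ξ, ξ⟫ / ‖ξ‖ ^ 2 * ⟪H ξ, ξ⟫ := by field_simp
      rw [this]
      nlinarith [mul_nonneg (sq_nonneg (⟪H ξ, ξ⟫ / ‖ξ‖ ^ 2)) (sq_nonneg ‖ξ‖)]
    rw [norm_smul, mul_pow, Real.norm_eq_abs, sq_abs]
    calc _ ≤ (P / ‖ξ‖ ^ 2 * 2) ^ 2 * ‖H ξ‖ ^ 2 * ‖ξ‖ ^ 2 := by gcongr
      _ = 4 * P * (P / ‖ξ‖ ^ 2 * ‖H ξ‖ ^ 2 + 0) := by field_simp; ring
      _ ≤ _ := mul_le_mul_of_nonneg_left (add_le_add le_rfl
        (Finset.sum_nonneg fun _ _ => sq_nonneg _)) (by positivity)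
  · have a : ‖H ξ‖ ^ 2 ≤ (‖H‖ * ‖ξ‖) ^ 2 := by gcongr; exact H.le_opNorm ξ
    have b : ∑ i, ‖H (ei i)‖ ^ 2 ≤ ∑ _i : Fin d, ‖H‖ ^ 2 := Finset.sum_le_sum fun i _ => by
      gcongr
      simpa using H.le_opNorm (ei i)
    calc _ ≤ P / ‖ξ‖ ^ 2 * (‖H‖ * ‖ξ‖) ^ 2 + ∑ _i : Fin d, ‖H‖ ^ 2 := by gcongr
      _ = _ := by simp; field_simp

theorem hsb {p : ℝ} (hp : 2 < p) {ξ : X d} (h : ξ ≠ 0) (D : En d) :
    ‖ξ‖ ^ (p - 2) * ‖hs p ξ D‖ ^ 2 ≤ 4 * ‖D‖ ^ 2 := by
  have n := norm_pos_iff.2 h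
  have v := norm_pos_iff.2 (S.sym_ne p h)
  have a0 : 0 < 2 / p := by positivity
  have a1 : 2 / p < 1 := (div_lt_one (by linarith)).2 hp
  have e : ‖fderiv ℝ (Ip p) (Vp p ξ)‖ ≤ ‖Vp p ξ‖ ^ (2 / p - 1) * 2 :=
    ContinuousLinearMap.opNorm_le_bound _ (by positivity) fun Z => by
      rw [show fderiv ℝ (Ip p) (Vp p ξ) Z = _ from Q.PowA.der _ _ Z (S.sym_ne p h), norm_smul,
        Real.norm_of_nonneg (by positivity), mul_assoc]
      gcongr
      refine (norm_add_le _ _).trans ?_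
      rw [norm_smul, norm_div, norm_mul, norm_pow, norm_norm, two_mul]
      gcongr
      rw [div_mul_eq_mul_div, div_le_iff₀ (by positivity)]
      calc _ ≤ 1 * (‖Vp p ξ‖ * ‖Z‖) * ‖Vp p ξ‖ := by
            gcongr
            exacts [abs_le.2 ⟨by linarith, by linarith⟩, norm_inner_le_norm _ _]
        _ = _ := by ring
  have e2 : ‖ξ‖ ^ (p - 2) * (‖Vp p ξ‖ ^ (2 / p - 1)) ^ 2 = 1 := by
    rw [Vp, Q.PowA.norm_pw _ _ (by linarith), ← Real.rpow_mul n.le, ← Real.rpow_natCast,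
      ← Real.rpow_mul n.le, ← Real.rpow_add n]
    refine (congrArg _ ?_).trans (Real.rpow_zero _)
    push_cast
    field_simp
    ring
  calc _ ≤ ‖ξ‖ ^ (p - 2) * (‖Vp p ξ‖ ^ (2 / p - 1) * 2 * ‖D‖) ^ 2 := by
        gcongr
        exact (ContinuousLinearMap.opNorm_comp_le _ _).trans (by gcongr)
    _ = ‖ξ‖ ^ (p - 2) * (‖Vp p ξ‖ ^ (2 / p - 1)) ^ 2 * (4 * ‖D‖ ^ 2) := by ring
    _ = _ := by rw [e2, one_mul]

/-- the cutoff and the test function -/
def ze (s : St d) : ℝ := smoothTransition (-16 / 5 * ‖s.1‖ ^ 2 + 9 / 5)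
def ps (l : ℝ) (s : St d) : ℝ := ze s * (ze s * ‖s.2.2‖ ^ 2) + l * (s.2.1 * s.2.1)

theorem ze_jet {P : ℝ} (hP : 0 ≤ P) : ∃ c : ℝ, 0 ≤ c ∧ ∀ (s : St d) (H : En d), ‖s.1‖ ≤ 1 →
    s.2.2 ≠ 0 → ∃ z1 z2, Jt s (ww P s.2.2 H) (S.IdA.dr P s.2.2 H) ze z1 z2 ∧ ∑ k, z1 k ^ 2 ≤ c ∧
      -(c * (1 + ‖(S.IdA.dr P s.2.2 H).1‖)) ≤ z2 := by
  obtain ⟨c, c0, hc⟩ := st
  refine ⟨64 * (c + 1) ^ 2 * (P + d + 1), by positivity, fun s H h1 h0 => ⟨_, _,
    (((nsq s _ _ (ContinuousLinearMap.fst ℝ (X d) (ℝ × X d))).smul (-16 / 5)).add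
      (Jt.const (9 / 5))).comp (Real.smoothTransition.contDiffAt (n := 2)), ?_⟩⟩
  obtain ⟨g1, -⟩ := geo hP h0 H
  simp only [ContinuousLinearMap.coe_fst', add_zero, g1]
  obtain ⟨a, b, -⟩ := hc (-16 / 5 * ‖s.1‖ ^ 2 + 9 / 5)
  generalize deriv smoothTransition _ = x at a ⊢
  generalize deriv (deriv smoothTransition) _ = y at b ⊢
  have e : ∑ k, (-16 / 5 * (2 * ⟪s.1, (ww P s.2.2 H k).1⟫)) ^ 2 ≤ 41 * (P + d) := by
    rw [← g1, Finset.mul_sum]
    refine Finset.sum_le_sum fun k _ => ?_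
    have := (abs_real_inner_le_norm s.1 (ww P s.2.2 H k).1).trans
      (mul_le_of_le_one_left (norm_nonneg _) h1)
    nlinarith [sq_le_sq' (abs_le.1 this).1 (abs_le.1 this).2, sq_nonneg ‖(ww P s.2.2 H k).1‖]
  have e0 : 0 ≤ ∑ k, (-16 / 5 * (2 * ⟪s.1, (ww P s.2.2 H k).1⟫)) ^ 2 := by positivity
  have r := (abs_real_inner_le_norm s.1 (S.IdA.dr P s.2.2 H).1).trans
    (mul_le_of_le_one_left (norm_nonneg _) h1)
  have r0 := norm_nonneg (S.IdA.dr P s.2.2 H).1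
  have A0 : 0 ≤ P + d := by positivity
  simp only [mul_pow x, ← Finset.mul_sum]
  generalize ∑ k, (-16 / 5 * (2 * ⟪s.1, (ww P s.2.2 H k).1⟫)) ^ 2 = T at e e0 ⊢
  generalize ‖(S.IdA.dr P s.2.2 H).1‖ = ρ at r r0 ⊢
  generalize ⟪s.1, (S.IdA.dr P s.2.2 H).1⟫ = w at r ⊢
  generalize P + d = A at e A0 ⊢
  have x2 : x ^ 2 ≤ (c + 1) ^ 2 := sq_le_sq' (by linarith [(abs_le.1 a).1])
    (by linarith [(abs_le.1 a).2])
  have c2 : c ≤ (c + 1) ^ 2 := by nlinarith
  refine ⟨(mul_le_mul x2 e e0 (sq_nonneg _)).trans (by nlinarith [sq_nonneg (c + 1)]), ?_⟩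
  have f1 : |x * (-16 / 5 * (2 * A + 2 * w))| ≤ (c + 1) ^ 2 * (7 * A + 7 * ρ) := by
    rw [abs_mul]
    exact mul_le_mul (a.trans c2) (abs_le.2 ⟨by linarith [(abs_le.1 r).2],
      by linarith [(abs_le.1 r).1]⟩) (abs_nonneg _) (sq_nonneg _)
  have f2 : |y * T| ≤ (c + 1) ^ 2 * (41 * A) := by
    rw [abs_mul, abs_of_nonneg e0]
    exact mul_le_mul (b.trans c2) e e0 (sq_nonneg _)
  nlinarith [(abs_le.1 f1).1, (abs_le.1 f2).1, sq_nonneg (c + 1),
    mul_nonneg (sq_nonneg (c + 1)) A0, mul_nonneg (sq_nonneg (c + 1)) r0,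
    mul_nonneg (mul_nonneg (sq_nonneg (c + 1)) A0) r0]

theorem cs2 {ι : Type} [Fintype ι] {f g : ι → ℝ} {a b : ℝ} (hf : ∑ k, f k ^ 2 ≤ a)
    (hg : ∑ k, g k ^ 2 ≤ b) : (∑ k, f k * g k) ^ 2 ≤ a * b :=
  (Finset.sum_mul_sq_le_sq_mul_sq _ f g).trans
    (mul_le_mul hf hg (by positivity) (le_trans (by positivity) hf))

theorem ps_jet {P : ℝ} (hP : 0 ≤ P) (B : ℝ) : ∃ l C : ℝ, 0 ≤ l ∧ 0 ≤ C ∧ ∀ (s : St d) (H : En d),
    ‖s.1‖ ≤ 1 → |s.2.1| ≤ B → 1 ≤ ‖s.2.2‖ ^ 2 → ∃ f1 f2,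
      Jt s (ww P s.2.2 H) (S.IdA.dr P s.2.2 H) (ps l) f1 f2 ∧ 1 ≤ f2 ∧
      ∑ k, (2 * ⟪s.2.2, (ww P s.2.2 H k).2.2⟫) ^ 2 ≤
        4 * ‖s.2.2‖ ^ 2 * ∑ k, ‖(ww P s.2.2 H k).2.2‖ ^ 2 ∧
      |∑ k, 2 * ⟪s.2.2, (ww P s.2.2 H k).2.2⟫ * f1 k| ≤
        C * ‖s.2.2‖ ^ 2 * (∑ k, ‖(ww P s.2.2 H k).2.2‖ ^ 2 + ‖s.2.2‖ ^ 2) := by
  obtain ⟨c, c0, hc⟩ := ze_jet (d := d) hP
  obtain ⟨l, hl⟩ : ∃ l, l = 1 + 18 * c + 4 * P * c ^ 2 := ⟨_, rfl⟩
  have l0 : 0 ≤ l := by rw [hl]; positivity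
  refine ⟨l, 6 + 2 * c + 2 * l * |B| * (P + 1), l0, by positivity, fun s H h1 h2 h3 => ?_⟩
  have h0 : s.2.2 ≠ 0 := fun h => by simp [h] at h3; linarith
  obtain ⟨z1, z2, jz, a1, a2⟩ := hc s H h1 h0
  obtain ⟨-, g2, g3, -⟩ := geo hP h0 H
  have jn := nsq s (ww P s.2.2 H) (S.IdA.dr P s.2.2 H)
    ((ContinuousLinearMap.snd ℝ ℝ (X d)).comp (ContinuousLinearMap.snd ℝ (X d) (ℝ × X d)))
  have jt := Jt.clm (s := s) (W := ww P s.2.2 H) (r := S.IdA.dr P s.2.2 H)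
    ((ContinuousLinearMap.fst ℝ ℝ (X d)).comp (ContinuousLinearMap.snd ℝ (X d) (ℝ × X d)))
  refine ⟨_, _, (jz.mul (jz.mul jn)).add ((jt.mul jt).smul l), ?_⟩
  have r1 : (S.IdA.dr P s.2.2 H).2.1 = 0 := smul_zero _
  have r2 : (S.IdA.dr P s.2.2 H).2.2 = 0 := smul_zero _
  simp only [ContinuousLinearMap.comp_apply, ContinuousLinearMap.coe_fst',
    ContinuousLinearMap.coe_snd', r1, r2, inner_zero_right, mul_zero, add_zero, zero_add, ← sq, g2]
  have b1 : ∑ k, (2 * ⟪s.2.2, (ww P s.2.2 H k).2.2⟫) ^ 2 ≤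
      4 * ‖s.2.2‖ ^ 2 * ∑ k, ‖(ww P s.2.2 H k).2.2‖ ^ 2 := by
    rw [Finset.mul_sum]
    refine Finset.sum_le_sum fun k _ => ?_
    have := abs_real_inner_le_norm s.2.2 (ww P s.2.2 H k).2.2
    nlinarith [sq_le_sq' (abs_le.1 this).1 (abs_le.1 this).2]
  have z0 : 0 ≤ ze s := Real.smoothTransition.nonneg _
  have z3 : ze s ≤ 1 := Real.smoothTransition.le_one _
  have S0 : 0 ≤ ∑ k, ‖(ww P s.2.2 H k).2.2‖ ^ 2 := Finset.sum_nonneg fun _ _ => sq_nonneg _
  have r0 := norm_nonneg (S.IdA.dr P s.2.2 H).1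
  have b2 := cs2 a1 b1
  have b3 := cs2 g2.le b1
  have q0 : 0 ≤ ∑ k, z1 k ^ 2 := Finset.sum_nonneg fun _ _ => sq_nonneg _
  have q1 : 0 ≤ ∑ k, (2 * ⟪s.2.2, (ww P s.2.2 H k).2.2⟫) ^ 2 :=
    Finset.sum_nonneg fun _ _ => sq_nonneg _
  have e1 : ∀ (n1 b : Option (Fin d) → ℝ) (ζ n t : ℝ),
      ∑ k, z1 k * (ζ * n1 k + n * z1 k) = ζ * ∑ k, z1 k * n1 k + n * ∑ k, z1 k ^ 2 ∧
      ∑ k, n1 k * (ζ * (ζ * n1 k + n * z1 k) + ζ * n * z1 k + l * (t * b k + t * b k)) =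
        ζ ^ 2 * ∑ k, n1 k ^ 2 + 2 * ζ * n * ∑ k, z1 k * n1 k + 2 * l * t * ∑ k, b k * n1 k :=
    fun n1 b ζ n t => by
      simp only [Finset.mul_sum, ← Finset.sum_add_distrib]
      exact ⟨Finset.sum_congr rfl fun _ _ => by ring, Finset.sum_congr rfl fun _ _ => by ring⟩
  rw [(e1 _ (fun _ => 0) _ _ 0).1, (e1 _ _ _ _ _).2]
  generalize ∑ k, ‖(ww P s.2.2 H k).2.2‖ ^ 2 = T at *
  generalize ∑ k, (2 * ⟪s.2.2, (ww P s.2.2 H k).2.2⟫) ^ 2 = N at *
  generalize ∑ k, z1 k * (2 * ⟪s.2.2, (ww P s.2.2 H k).2.2⟫) = y at *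
  generalize ∑ k, (ww P s.2.2 H k).2.1 * (2 * ⟪s.2.2, (ww P s.2.2 H k).2.2⟫) = w at *
  generalize ‖(S.IdA.dr P s.2.2 H).1‖ = ρ at *
  generalize ‖s.2.2‖ ^ 2 = n at *
  generalize ze s = ζ at *
  have n0 : 0 ≤ n := by linarith
  have u1 := amg (a := 4 * ζ * y) (u := ζ ^ 2 * T) (v := 16 * c * n)
    (by nlinarith [mul_le_mul_of_nonneg_left b2 (sq_nonneg ζ)]) (by positivity) (by positivity)
  have u2 := amg (a := 2 * ζ * n * c * ρ) (u := ζ ^ 2 * T) (v := 4 * P * c ^ 2 * n)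
    (by nlinarith [mul_le_mul_of_nonneg_left g3 (show 0 ≤ ζ ^ 2 * n * c ^ 2 by positivity)])
    (by positivity) (by positivity)
  have u3 := amg (a := y) (u := T) (v := c * n) (by linarith) S0 (by positivity)
  have u4 := amg (a := w) (u := n * T) (v := n * (P + 1)) (by linarith) (by positivity)
    (by positivity)
  refine ⟨?_, b1, ?_⟩
  · have v1 := mul_le_mul_of_nonneg_left a2 (mul_nonneg z0 n0)
    have v2 := mul_le_mul_of_nonneg_right z3 (mul_nonneg n0 c0)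
    have v3 := mul_nonneg l0 (mul_nonneg hP n0)
    have v4 := mul_nonneg l0 n0
    have v5 := mul_nonneg n0 q0
    have v6 : l * n = n + 18 * (c * n) + 4 * P * c ^ 2 * n := by rw [hl]; ring
    nlinarith [(abs_le.1 u1).1, (abs_le.1 u2).2]
  · have v1 : |ζ ^ 2 * N| ≤ 1 * (4 * n * T) := by
      rw [abs_of_nonneg (by positivity)]
      exact mul_le_mul (pow_le_one₀ z0 z3) b1 q1 zero_le_one
    have v2 : |2 * ζ * n * y| ≤ 2 * 1 * n * (T + c * n) := by
      rw [abs_mul, abs_of_nonneg (by positivity)]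
      gcongr
    have v3 : |2 * l * s.2.1 * w| ≤ 2 * l * |B| * ((P + 1) * n * (T + n)) := by
      rw [abs_mul, abs_mul, abs_of_nonneg (a := 2 * l) (by positivity)]
      refine mul_le_mul (mul_le_mul_of_nonneg_left (h2.trans (le_abs_self B)) (by positivity))
        (u4.trans ?_) (abs_nonneg _) (by positivity)
      nlinarith [mul_nonneg hP (mul_nonneg n0 S0), mul_nonneg (mul_nonneg n0 (sub_nonneg.2 h3))
        (show 0 ≤ P + 1 by linarith)]
    refine (abs_add_le _ _).trans ((add_le_add ((abs_add_le _ _).trans (add_le_add v1 v2))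
      v3).trans ?_)
    nlinarith [mul_nonneg n0 n0, mul_nonneg c0 (mul_nonneg n0 S0)]

/-- the compact set that carries the test function -/
def ks (b K : ℝ) : Set (St d) :=
  closedBall 0 (3 / 4) ×ˢ Icc (-b) b ×ˢ (closedBall 0 (2 * K) ∩ {ξ | 1 ≤ ‖ξ‖})

theorem err {K n T N Y b b' x y c C : ℝ} (hK : 1 ≤ K) (h2 : n ≤ 2 * K) (hT : 0 ≤ T)
    (N0 : 0 ≤ N) (hN : N ≤ 4 * n * T) (hY : |Y| ≤ C * n * (T + n)) (hb : |b| ≤ n) (n0 : 0 ≤ n)
    (hb' : |b'| ≤ 1) (hx : |x| ≤ c) (hy : |y| ≤ c) (hC : 0 ≤ C) :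
    |b * (x * (-K⁻¹ * (2 * T)) + y * (K⁻¹ ^ 2 * N)) + 2 * (x * b' * -K⁻¹ * Y)| ≤
      (20 * c + 4 * c * C) * (T + n) := by
  have c0 := (abs_nonneg _).trans hx
  have k0 : 0 < K⁻¹ := by positivity
  have k1 : n * K⁻¹ ≤ 2 := by rw [← div_eq_mul_inv, div_le_iff₀ (by linarith)]; exact h2
  have k2 : 0 ≤ n * K⁻¹ := by positivity
  calc _ ≤ |b| * (|x| * (K⁻¹ * (2 * T)) + |y| * (K⁻¹ ^ 2 * N)) + 2 * (|x| * |b'| * K⁻¹ * |Y|) := by
        refine (abs_add_le _ _).trans (add_le_add ?_ (le_of_eq ?_))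
        · rw [abs_mul]
          refine mul_le_mul_of_nonneg_left ((abs_add_le _ _).trans (le_of_eq ?_)) (abs_nonneg _)
          simp only [abs_mul, abs_neg, abs_pow, abs_of_pos k0, abs_of_nonneg hT, abs_of_nonneg N0,
            abs_two]
        · simp only [abs_mul, abs_neg, abs_of_pos k0, abs_two]
    _ ≤ n * (c * (K⁻¹ * (2 * T)) + c * (K⁻¹ ^ 2 * (4 * n * T))) +
        2 * (c * 1 * K⁻¹ * (C * n * (T + n))) := by gcongr
    _ = c * T * (2 * (n * K⁻¹) + 4 * (n * K⁻¹) ^ 2) + 2 * c * C * (T + n) * (n * K⁻¹) := by ring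
    _ ≤ c * T * (2 * 2 + 4 * 2 ^ 2) + 2 * c * C * (T + n) * 2 := by gcongr
    _ ≤ _ := by nlinarith [mul_nonneg c0 n0]

theorem pt {P : ℝ} (hP : 0 ≤ P) (B : ℝ) : ∃ (C b m : ℝ) (Φ : ℝ → St d → ℝ) (c : St d → ℝ),
    0 ≤ C ∧ 1 ≤ m ∧ (∀ s, ‖s.1‖ ≤ 1 / 2 → m < ‖s.2.2‖ → 0 < c s) ∧ ∀ K, 1 ≤ K →
      ContDiff ℝ 2 (Φ K) ∧ (∀ s ∉ ks b K, Φ K s = 0) ∧ ∀ (s : St d) (H : En d), ‖s.1‖ ≤ 1 →
        |s.2.1| ≤ B → 1 ≤ ‖s.2.2‖ ^ 2 →
        -(C * min 1 (‖s.2.2‖ ^ 2 * K⁻¹) * ((P + d) * ‖H‖ ^ 2 + ‖s.2.2‖ ^ 2)) ≤ lo P (Φ K) s H ∧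
        (‖s.2.2‖ ^ 2 < K → c s ≤ lo P (Φ K) s H) := by
  obtain ⟨β, b0, b1, b2, b3, b4⟩ := S.IdA.ex_be
  obtain ⟨c, c0, hc⟩ := st
  obtain ⟨l, C, l0, C0, hl⟩ := ps_jet (d := d) hP B
  obtain ⟨b, hb⟩ : ∃ b, b = B ^ 2 + 2 := ⟨_, rfl⟩
  have b2' : 2 ≤ b := by nlinarith [sq_nonneg B]
  have z0 : ∀ s : St d, 0 ≤ ze s := fun s => Real.smoothTransition.nonneg _
  have z1 : ∀ s : St d, ze s ≤ 1 := fun s => Real.smoothTransition.le_one _
  have up : ∀ s : St d, s.2.1 * s.2.1 ≤ b → ps l s + -(l * b + 1) ≤ ze s * ‖s.2.2‖ ^ 2 - 1 :=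
    fun s h => by
      have := mul_le_mul_of_nonneg_right (z1 s) (mul_nonneg (z0 s) (sq_nonneg ‖s.2.2‖))
      have := mul_le_mul_of_nonneg_left h l0
      rw [ps]
      linarith
  have cs : ContDiff ℝ 2 smoothTransition := Real.smoothTransition.contDiff (n := 2)
  have cn : ContDiff ℝ 2 fun s : St d => ‖s.2.2‖ ^ 2 := contDiff_snd.snd.norm_sq ℝ
  have ct : ContDiff ℝ 2 fun s : St d => s.2.1 * s.2.1 := contDiff_snd.fst.mul contDiff_snd.fst
  have cz : ContDiff ℝ 2 (ze : St d → ℝ) :=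
    cs.comp ((contDiff_const.mul (contDiff_fst.norm_sq ℝ)).add contDiff_const)
  refine ⟨20 * c + 4 * c * C, b, l * b + 1, fun K s => smoothTransition (b - s.2.1 * s.2.1) *
    (smoothTransition (-K⁻¹ * ‖s.2.2‖ ^ 2 + 2) * β (ps l s + -(l * b + 1))),
    fun s => deriv β (ps l s + -(l * b + 1)), by positivity, by nlinarith, fun s h1 h2 => b2 _ ?_,
    fun K hK => ⟨(cs.comp (contDiff_const.sub ct)).mul ((cs.comp ((contDiff_const.mul cn).add
      contDiff_const)).mul (b0.comp (((cz.mul (cz.mul cn)).add (contDiff_const.mul ct)).add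
        contDiff_const))), fun s hs => ?_, fun s H h1 h2 h3 => ?_⟩⟩
  · have : ze s = 1 := Real.smoothTransition.one_of_one_le (by nlinarith [norm_nonneg s.1])
    rw [ps, this]
    nlinarith [mul_nonneg l0 (mul_self_nonneg s.2.1), mul_nonneg l0 (zero_le_two.trans b2')]
  · by_contra h
    have a1 := lt_of_not_ge fun k => left_ne_zero_of_mul h (Real.smoothTransition.zero_of_nonpos k)
    have a2 := lt_of_not_ge fun k => left_ne_zero_of_mul (right_ne_zero_of_mul h)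
      (Real.smoothTransition.zero_of_nonpos k)
    have a3 := (lt_of_not_ge fun k => right_ne_zero_of_mul (right_ne_zero_of_mul h)
      (b1 _ k).1).trans_le (up s (by linarith))
    have a4 : 1 < ‖s.2.2‖ ^ 2 := by nlinarith [z1 s, sq_nonneg ‖s.2.2‖]
    have a5 : 1 ≤ ‖s.2.2‖ := by nlinarith [norm_nonneg s.2.2]
    have a6 : 0 < -16 / 5 * ‖s.1‖ ^ 2 + 9 / 5 := lt_of_not_ge fun k => by
      rw [show ze s = 0 from Real.smoothTransition.zero_of_nonpos k] at a3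
      linarith
    have a7 : ‖s.2.2‖ ^ 2 ≤ 2 * K := by
      rw [← div_le_iff₀ (by linarith), div_eq_mul_inv]
      linarith
    exact hs ⟨mem_closedBall_zero_iff.2 (by nlinarith [norm_nonneg s.1]),
      ⟨by nlinarith, by nlinarith⟩, mem_closedBall_zero_iff.2 (by nlinarith), a5⟩
  · have h0 : s.2.2 ≠ 0 := fun h => by simp [h] at h3; linarith
    obtain ⟨f1, f2, j, g1, g2, g3⟩ := hl s H h1 h2 h3
    obtain ⟨-, -, -, g4⟩ := geo hP h0 H
    have t2 : s.2.1 * s.2.1 ≤ B ^ 2 := by nlinarith [sq_le_sq' (abs_le.1 h2).1 (abs_le.1 h2).2]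
    have jn := nsq s (ww P s.2.2 H) (S.IdA.dr P s.2.2 H)
      ((ContinuousLinearMap.snd ℝ ℝ (X d)).comp (ContinuousLinearMap.snd ℝ (X d) (ℝ × X d)))
    have ev : ∀ᶠ y : St d in 𝓝 s, 1 < b - y.2.1 * y.2.1 :=
      continuousAt_const.eventually_lt (contDiff_const.sub ct).continuous.continuousAt
        (by show 1 < b - s.2.1 * s.2.1; linarith)
    rw [((((((jn.smul (-K⁻¹)).add (Jt.const 2)).comp cs.contDiffAt).mul
      ((j.add (Jt.const (-(l * b + 1)))).comp b0.contDiffAt))).congr (ev.mono fun y hy => by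
        simp only [Real.smoothTransition.one_of_one_le hy.le, one_mul]; rfl)).lo_eq hP]
    have r2 : (S.IdA.dr P s.2.2 H).2.2 = 0 := smul_zero _
    simp only [ContinuousLinearMap.comp_apply, ContinuousLinearMap.coe_snd', r2, inner_zero_right,
      mul_zero, add_zero]
    have e1 : ∀ (n1 : Option (Fin d) → ℝ) (x b' : ℝ), ∑ k, (-K⁻¹ * n1 k) ^ 2 = K⁻¹ ^ 2 * ∑ k, n1 k ^ 2
        ∧ ∑ k, x * (-K⁻¹ * n1 k) * (b' * f1 k) = x * b' * -K⁻¹ * ∑ k, n1 k * f1 k := fun n1 x b' => by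
      simp only [Finset.mul_sum]
      exact ⟨Finset.sum_congr rfl fun _ _ => by ring, Finset.sum_congr rfl fun _ _ => by ring⟩
    rw [(e1 _ 0 0).1, (e1 _ _ _).2, add_assoc]
    have u := up s (by linarith)
    obtain ⟨β1, β2, β3⟩ := b3 (ps l s + -(l * b + 1))
    have q := mul_nonneg β3 (Finset.sum_nonneg (s := Finset.univ) fun k _ => sq_nonneg (f1 k))
    have q1 := mul_le_mul_of_nonneg_left g1 β1
    have k0 : 0 < K⁻¹ := by positivity
    have S0 : 0 ≤ ∑ k, ‖(ww P s.2.2 H k).2.2‖ ^ 2 := Finset.sum_nonneg fun _ _ => sq_nonneg _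
    obtain ⟨x1, x2, x3⟩ := hc (-K⁻¹ * ‖s.2.2‖ ^ 2 + 2)
    have w0 := mul_nonneg (Real.smoothTransition.nonneg (-K⁻¹ * ‖s.2.2‖ ^ 2 + 2))
      (add_nonneg (mul_nonneg β1 (zero_le_one.trans g1)) q)
    have lt : ‖s.2.2‖ ^ 2 < K → 1 < -K⁻¹ * ‖s.2.2‖ ^ 2 + 2 := fun h => by
      have := (div_lt_one (by linarith)).2 h
      rw [div_eq_mul_inv] at this
      linarith
    refine ⟨?_, fun h => ?_⟩
    · by_cases h : -K⁻¹ * ‖s.2.2‖ ^ 2 + 2 < 0 ∨ 1 < -K⁻¹ * ‖s.2.2‖ ^ 2 + 2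
      · simp only [(x3 h).1, (x3 h).2, zero_mul, mul_zero, add_zero]
        exact le_trans (neg_nonpos.2 (by positivity)) w0
      · push Not at h
        have hb' : |β (ps l s + -(l * b + 1))| ≤ ‖s.2.2‖ ^ 2 := by
          rcases le_total (ps l s + -(l * b + 1)) 0 with k | k
          · rw [(b1 _ k).1, abs_zero]
            positivity
          · nlinarith [b4 _ k, z1 s]
        have a7 : ‖s.2.2‖ ^ 2 ≤ 2 * K := by
          rw [← div_le_iff₀ (by linarith), div_eq_mul_inv]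
          linarith [h.1]
        have := (abs_le.1 (err hK a7 S0 (Finset.sum_nonneg fun _ _ => sq_nonneg _) g2 g3 hb'
          (sq_nonneg _) (abs_le.2 ⟨by linarith, β2⟩) x1 x2 C0)).1
        rw [min_eq_left (by linarith [h.2]), mul_one]
        refine le_trans (neg_le_neg ?_) (this.trans (le_add_of_nonneg_left w0))
        gcongr
    · simp only [(x3 (.inr (lt h))).1, (x3 (.inr (lt h))).2, zero_mul, mul_zero, add_zero,
        Real.smoothTransition.one_of_one_le (lt h).le, one_mul]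
      linarith

end LipA

open LipA in
theorem lip : LipS := fun d => by
  filter_upwards [eventually_gt_atTop 2, eventually_gt_atTop (d : ℝ)] with p hp hd u G h2
  have ws := S.ws S.sob
  obtain ⟨D, hV⟩ := nat S.sob ws (S.dq S.sob ws (S.ts S.sob) S.tr S.mon) S.wk d p 1 2 0 u G hp
    one_lt_two h2
  have h : S.Wk p (ball 0 1) u G := by
    simpa only [one_smul, one_mul, add_zero, zero_add, mul_one] using
      (ws d p _ (ball 0 1) u G hp isOpen_ball isOpen_ball isBounded_ball h2).1 0 1 1 0 one_ne_zero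
        fun z hz => by rw [one_smul, zero_add]; exact ball_subset_ball one_le_two hz
  obtain ⟨C', -, hm⟩ := S.mor d p (by linarith) hd
  obtain ⟨u', -, e', hu⟩ := hm 0 1 u _ one_pos h.sb
  obtain ⟨B, hB⟩ : ∃ B, ∀ᵐ x ∂vo (ball 0 1), |u x| ≤ B := ⟨_, by
    filter_upwards [e', ae_restrict_mem measurableSet_ball] with x a b
    rw [← a, ← sub_add_cancel (u' x) (u' 0)]
    exact (abs_add_le _ _).trans (add_le_add (hu x b 0 (mem_ball_self one_pos)) le_rfl)⟩
  have hP : 0 ≤ p - 2 := by linarith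
  obtain ⟨C, b, m, Φ, c, C0, m1, c0, hΦ⟩ := pt (d := d) hP B
  have k1 : ∀ k : ℕ, (1 : ℝ) ≤ k + 1 := fun k => le_add_of_nonneg_left k.cast_nonneg
  have cp : ∀ K, IsCompact (ks b K : Set (St d)) := fun K => (isCompact_closedBall ..).prod
    (isCompact_Icc.prod ((isCompact_closedBall ..).inter_right
      (isClosed_le continuous_const continuous_norm)))
  have id := fun k => S.IdA.ident hp isOpen_ball isBounded_ball h hV (hΦ _ (k1 k)).1 (cp _)
    (fun s hs => ⟨closedBall_subset_ball (by norm_num) hs.1,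
      norm_pos_iff.1 (one_pos.trans_le hs.2.2.2)⟩) (hΦ _ (k1 k)).2.1
  obtain ⟨mV, mD⟩ := (S.sob d (X d)).mem _ _ _ _ hV
  have mG := (S.dq_mem ((S.sob d ℝ).mem _ _ _ _ h.sb).2).1
  obtain ⟨w, hw⟩ : ∃ w : X d → ℝ, w = fun x =>
    C * ((p - 2 + d) * (4 * ‖D x‖ ^ 2) + ‖Vp p (G x)‖ ^ 2) := ⟨_, rfl⟩
  have w0 : ∀ x, 0 ≤ w x := fun x => by rw [hw]; positivity
  have wi : Integrable w (vo (ball 0 1)) := hw ▸
    ((((memLp_two_iff_integrable_sq_norm mD.1).1 mD).const_mul 4).const_mul _ |>.add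
      ((memLp_two_iff_integrable_sq_norm mV.1).1 mV)).const_mul C
  have a0 : ∀ (k : ℕ) x, 0 ≤ min 1 (‖G x‖ ^ 2 * (k + 1 : ℝ)⁻¹) := fun k x => by positivity
  have am : ∀ k : ℕ, AEStronglyMeasurable (fun x => min 1 (‖G x‖ ^ 2 * (k + 1 : ℝ)⁻¹) * w x)
      (vo (ball 0 1)) := fun k => (Continuous.comp_aestronglyMeasurable
        (g := fun ξ : X d => min 1 (‖ξ‖ ^ 2 * (k + 1 : ℝ)⁻¹)) (by fun_prop) mG).mul wi.1
  have ab : ∀ k : ℕ, ∀ᵐ x ∂vo (ball 0 1), ‖min 1 (‖G x‖ ^ 2 * (k + 1 : ℝ)⁻¹) * w x‖ ≤ w x :=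
    fun k => ae_of_all _ fun x => by
      rw [Real.norm_of_nonneg (mul_nonneg (a0 k x) (w0 x))]
      exact mul_le_of_le_one_left (w0 x) (min_le_left ..)
  have t := tendsto_integral_of_dominated_convergence (f := fun _ => 0) w am wi ab
    (ae_of_all _ fun x => by
      have := ((tendsto_one_div_add_atTop_nhds_zero_nat (𝕜 := ℝ)).const_mul (‖G x‖ ^ 2)
        |> (tendsto_const_nhds (x := (1 : ℝ))).min).mul_const (w x)
      simpa only [one_div, mul_zero, min_eq_right zero_le_one, zero_mul] using this)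
  have L := lim0 (fun k => (id k).1.add (wi.mono' (am k) (ab k))) (fun k => by
    filter_upwards [hB, ae_restrict_mem measurableSet_ball] with x a b'
    simp only [Pi.add_apply, Pi.zero_apply]
    by_cases n : 1 ≤ ‖G x‖ ^ 2
    · have h0 : G x ≠ 0 := fun e => by simp [e] at n; linarith
      have g := norm_pos_iff.2 h0
      have := mul_le_mul_of_nonneg_left ((hΦ _ (k1 k)).2.2 (x, u x, G x) (hs p (G x) (D x))
        (mem_ball_zero_iff.1 b').le a n).1 (Real.rpow_nonneg g.le (p - 2))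
      have e : ‖Vp p (G x)‖ ^ 2 = ‖G x‖ ^ (p - 2) * ‖G x‖ ^ 2 := by
        rw [Vp, Q.PowA.norm_pw _ _ (by linarith), ← Real.rpow_natCast, ← Real.rpow_natCast,
          ← Real.rpow_mul g.le, ← Real.rpow_add g]
        refine congrArg _ ?_
        push_cast
        ring
      have f := mul_le_mul_of_nonneg_left (hsb hp h0 (D x))
        (show 0 ≤ min 1 (‖G x‖ ^ 2 * (k + 1 : ℝ)⁻¹) * C * (p - 2 + d) by positivity)
      simp only [hw, e]
      nlinarith
    · have z : lo (p - 2) (Φ (k + 1)) (x, u x, G x) (hs p (G x) (D x)) = 0 :=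
        Jt.lo_eq hP ((Jt.const 0).congr (S.IdA.ev0 (cp _) (hΦ _ (k1 k)).2.1 fun a =>
          n (one_le_pow₀ (show 1 ≤ ‖G x‖ from a.2.2.2))))
      rw [z, mul_zero, zero_add]
      exact mul_nonneg (a0 k x) (w0 x)) (by
    rw [integral_zero] at t
    refine t.congr fun k => ?_
    rw [← zero_add (∫ _ in _, _), ← (id k).2]
    exact (integral_add (id k).1 (wi.mono' (am k) (ab k))).symm)
  have sub : ball (0 : X d) (1 / 2) ⊆ ball 0 1 := ball_subset_ball (by norm_num)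
  refine ⟨m, ?_⟩
  filter_upwards [ae_restrict_of_ae_restrict_of_subset sub L,
    ae_restrict_of_ae_restrict_of_subset sub hB, ae_restrict_mem measurableSet_ball] with x a a' b'
  refine not_lt.1 fun g => a _ (mul_pos (Real.rpow_pos_of_pos (by linarith : 0 < ‖G x‖) (p - 2))
    (c0 (x, u x, G x) (mem_ball_zero_iff.1 b').le g)) ?_
  filter_upwards [tendsto_natCast_atTop_atTop.eventually_gt_atTop (‖G x‖ ^ 2)] with k hk
  exact le_add_of_le_of_nonneg (mul_le_mul_of_nonneg_left (((hΦ _ (k1 k)).2.2 (x, u x, G x) _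
    (mem_ball_zero_iff.1 (sub b')).le a' (one_le_pow₀ (by linarith))).2 (hk.trans (lt_add_one _)))
    (by positivity)) (mul_nonneg (a0 k x) (w0 x))

end Pool.Agent.MP_815c6c_an.H

end
end MrgPart3

-- marker of a merged file
example : 731051 + 858059 = 731051 + 858059 := rfl
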