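import Mathlib.Algebra.Order.Chebyshev
import Pool.Agent.MP_815c6c_an.H.Win
import Pool.Agent.MP_815c6c_an.H.Jet

-- ======== part 0: formerly Pool.Agent.MP_815c6c_an.H.Bas
section MrgPart0

/-! Elementary jets. -/

set_option autoImplicit false

noncomputable section

namespace Pool.Agent.MP_815c6c_an.H

open Set Metric MeasureTheory Filter Topology
open scoped ENNReal RealInnerProductSpace
open N (X)
open S (ei vo Wk Sb Vp)

variable {d : ℕ}

lemma bas_ei (i : Fin d) (x : X d) : ⟪ei i, x⟫ = x i := by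
  simp [EuclideanSpace.inner_single_left]

lemma bas_ie (i : Fin d) (x : X d) : ⟪x, ei i⟫ = x i := by
  rw [real_inner_comm, bas_ei]

lemma bas_inner (x y : X d) : ⟪x, y⟫ = ∑ i, x i * y i := by
  simp [PiLp.inner_apply, mul_comm]

lemma bas_norm (x : X d) : ‖x‖ ^ 2 = ∑ i, x i ^ 2 := by
  rw [← real_inner_self_eq_norm_sq, bas_inner]
  simp [sq]

lemma bas_vinner (x y : Vc d) : ⟪x, y⟫ = ∑ k, x k * y k := by
  simp [PiLp.inner_apply, mul_comm]

lemma bas_vnorm (x : Vc d) : ‖x‖ ^ 2 = ∑ k, x k ^ 2 := by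
  rw [← real_inner_self_eq_norm_sq, bas_vinner]
  simp [sq]

lemma bas_sq {P : ℝ} (h : 1 ≤ P) : (√P)⁻¹ * (√P)⁻¹ = P⁻¹ := by
  rw [← mul_inv, Real.mul_self_sqrt (by linarith)]

lemma bas_nu1 {ξ : X d} (h : ξ ≠ 0) : ‖nu ξ‖ = 1 := by
  rw [nu, norm_smul, norm_inv, norm_norm, inv_mul_cancel₀ (norm_ne_zero_iff.2 h)]

lemma bas_xi {ξ : X d} (h : ξ ≠ 0) : ξ = ‖ξ‖ • nu ξ := by
  rw [nu, smul_smul, mul_inv_cancel₀ (norm_ne_zero_iff.2 h), one_smul]

lemma bas_sge {P : ℝ} (h : 1 ≤ P) (ξ : X d) (H : En d) :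
    sg P ξ H = ‖H (nu ξ)‖ ^ 2 + P⁻¹ * ∑ k, ‖H (ei k)‖ ^ 2 := by
  rw [sg, Fintype.sum_option, Finset.mul_sum]
  congr 1
  refine Finset.sum_congr rfl fun k _ => ?_
  rw [dir, map_smul, norm_smul, mul_pow, Real.norm_eq_abs, sq_abs, sq (√P)⁻¹, bas_sq h]

lemma bas_ix {P : ℝ} (h : 1 ≤ P) (ξ a b : X d) :
    ⟪vx P ξ a, vx P ξ b⟫ = ⟪a, nu ξ⟫ * ⟪b, nu ξ⟫ + P⁻¹ * ⟪a, b⟫ := by
  rw [bas_vinner, Fintype.sum_option, bas_inner a b, Finset.mul_sum]
  congr 1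
  refine Finset.sum_congr rfl fun k _ => ?_
  simp only [vx, dir, real_inner_smul_right, bas_ie]
  rw [← bas_sq h]
  ring

lemma bas_vx (P : ℝ) (ξ c : X d) : ∑ i, c i • vx P ξ (ei i) = vx P ξ c := by
  ext k
  simp only [vx, WithLp.ofLp_sum, Finset.sum_apply, PiLp.smul_apply, smul_eq_mul, bas_ei,
    bas_inner c]

lemma bas_vh (P : ℝ) (ξ : X d) (H : En d) (c : X d) :
    ∑ i, c i • vh P ξ H (ei i) = vh P ξ H c := by
  ext k
  simp only [vh, WithLp.ofLp_sum, Finset.sum_apply, PiLp.smul_apply, smul_eq_mul, bas_ei,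
    bas_inner c]

lemma bas_cast {P : ℝ} {z : St d} {H : En d} {f g : St d → ℝ} {v w : Vc d} {L M : ℝ}
    (h : J P z H f v L) (h1 : ∀ y, g y = f y) (h2 : w = v) (h3 : M = L) : J P z H g w M := by
  obtain rfl : g = f := funext h1
  rw [h2, h3]
  exact h

lemma bas_xx {P : ℝ} {z : St d} {H : En d} (j : Jet P z H) (h : 1 ≤ P) (h0 : z.2.2 ≠ 0) (a : X d) :
    J P z H (fun y => ‖y.1 - a‖ ^ 2) (vx P z.2.2 ((2 : ℝ) • (z.1 - a)))
      (2 * ⟪z.1 - a, dr z.2.2 H⟫ + 2 * (1 + d / P)) := by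
  refine bas_cast (j.sum Finset.univ fun i _ => j.sq (j.addc (-a i) (j.jx (ei i))))
    (fun y => ?_) ?_ ?_
  · simp only [bas_norm, bas_ei, PiLp.sub_apply, ← sub_eq_add_neg]
  · rw [← bas_vx]
    simp only [bas_ei, PiLp.smul_apply, PiLp.sub_apply, smul_eq_mul, ← sub_eq_add_neg]
  · have e1 : ∀ i : Fin d, ‖vx P z.2.2 (ei i)‖ ^ 2 = nu z.2.2 i ^ 2 + P⁻¹ := fun i => by
      rw [← real_inner_self_eq_norm_sq, bas_ix h, bas_ei, bas_ei]
      simp [sq]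
    have e2 := bas_norm (nu z.2.2)
    rw [bas_nu1 h0] at e2
    simp only [e1, bas_ei, Finset.sum_add_distrib, mul_add, ← Finset.mul_sum, ← e2,
      bas_inner (z.1 - a), PiLp.sub_apply, Finset.sum_const, Finset.card_univ, Fintype.card_fin,
      nsmul_eq_mul]
    rw [Finset.mul_sum]
    congr 1
    · exact Finset.sum_congr rfl fun i _ => by ring
    · rw [div_eq_mul_inv]
      ring

lemma bas_ww {P : ℝ} {z : St d} {H : En d} (j : Jet P z H) (a : X d) :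
    J P z H (fun y => ‖y.2.2 - a‖ ^ 2) (vh P z.2.2 H ((2 : ℝ) • (z.2.2 - a)))
      (2 * sg P z.2.2 H) := by
  refine bas_cast (j.sum Finset.univ fun i _ => j.sq (j.addc (-a i) (j.jw (ei i))))
    (fun y => ?_) ?_ ?_
  · simp only [bas_norm, bas_ei, PiLp.sub_apply, ← sub_eq_add_neg]
  · rw [← bas_vh]
    simp only [bas_ei, PiLp.smul_apply, PiLp.sub_apply, smul_eq_mul, ← sub_eq_add_neg]
  · simp only [mul_zero, zero_add, ← Finset.mul_sum, sg, bas_norm, bas_vnorm, vh, bas_ei]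
    rw [Finset.sum_comm]

lemma bas_dr {ξ : X d} (h : ξ ≠ 0) (H : En d) : ⟪ξ, dr ξ H⟫ = 0 := by
  have e : ⟪nu ξ, dr ξ H⟫ = 0 := by
    rw [dr, real_inner_smul_right, inner_sub_right, real_inner_smul_right,
      real_inner_self_eq_norm_sq, bas_nu1 h, real_inner_comm]
    ring
  conv_lhs => enter [2]; rw [bas_xi h]
  rw [real_inner_smul_left, e, mul_zero]

lemma bas_pl {P : ℝ} {z : St d} {H : En d} (j : Jet P z H) (h0 : z.2.2 ≠ 0) (hA : Adm P z.2.2 H)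
    (a : X d) :
    J P z H (fun y => y.2.1 - ⟪y.2.2, y.1 - a⟫) (-vh P z.2.2 H (z.1 - a)) 0 := by
  refine bas_cast (j.sub j.jt (j.sum Finset.univ fun i _ =>
    j.mul (j.jw (ei i)) (j.addc (-a i) (j.jx (ei i))))) (fun y => ?_) ?_ ?_
  · simp only [bas_inner y.2.2, bas_ei, PiLp.sub_apply, ← sub_eq_add_neg]
  · rw [Finset.sum_add_distrib, ← bas_vh]
    simp only [bas_ei, bas_vx, PiLp.sub_apply, ← sub_eq_add_neg]
    abel
  · have e1 := bas_dr h0 H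
    have e2 := hA.2
    rw [bas_inner] at e1
    simp only [bas_inner] at e2
    rw [Finset.sum_comm] at e2
    simp only [mul_zero, add_zero, bas_ei, Finset.sum_add_distrib, ← Finset.mul_sum, e1,
      bas_vinner, vh, vx, e2]
    simp

lemma bas_ga2 {P : ℝ} (h : 1 ≤ P) {ξ : X d} (h0 : ξ ≠ 0) (H : En d) :
    ga P ξ H ^ 2 * ‖ξ‖ ^ 2 = P * sg P ξ H := by
  have : 0 ≤ sg P ξ H := Finset.sum_nonneg fun _ _ => sq_nonneg _
  have h1 := norm_ne_zero_iff.2 h0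
  rw [ga, div_pow, Real.sq_sqrt (by positivity)]
  field_simp

lemma bas_v0 {P : ℝ} (h : 1 ≤ P) {ξ : X d} (h0 : ξ ≠ 0) {H : En d} (hA : Adm P ξ H) :
    P ^ 2 * ‖vh P ξ H (nu ξ)‖ ^ 2 ≤ d * (P * sg P ξ H) := by
  have hP : 0 < P := by linarith
  have hd : (1 : ℝ) ≤ d := by
    rcases Nat.eq_zero_or_pos d with rfl | k
    · exact absurd (Subsingleton.elim _ _) h0
    · exact_mod_cast k
  have e1 : ‖vh P ξ H (nu ξ)‖ ^ 2 = ⟪H (nu ξ), nu ξ⟫ ^ 2 + P⁻¹ * ‖H (nu ξ)‖ ^ 2 := by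
    rw [bas_vnorm, Fintype.sum_option, bas_norm, Finset.mul_sum]
    congr 1
    · simp only [vh, dir]
      rw [real_inner_comm]
    · refine Finset.sum_congr rfl fun k _ => ?_
      simp only [vh, dir, ← hA.1, real_inner_smul_right, bas_ie]
      rw [← bas_sq h]
      ring
  have e2 : ⟪H (nu ξ), nu ξ⟫ + P⁻¹ * ∑ k, ⟪H (ei k), ei k⟫ = 0 := by
    have := hA.2
    rw [Fintype.sum_option] at this
    rw [← this, Finset.mul_sum]
    congr 1
    refine Finset.sum_congr rfl fun k _ => ?_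
    simp only [dir, map_smul, real_inner_smul_right, real_inner_smul_left]
    rw [← bas_sq h]
    ring
  have e3 : (∑ k, ⟪H (ei k), ei k⟫) ^ 2 ≤ d * ∑ k, ‖H (ei k)‖ ^ 2 := by
    refine (sq_sum_le_card_mul_sum_sq (s := Finset.univ)).trans ?_
    rw [Finset.card_univ, Fintype.card_fin]
    refine mul_le_mul_of_nonneg_left (Finset.sum_le_sum fun k _ => ?_) (by linarith)
    rw [bas_ie, bas_norm]
    exact Finset.single_le_sum (f := fun i => H (ei k) i ^ 2) (fun _ _ => sq_nonneg _)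
      (Finset.mem_univ k)
  have e4 : P * ⟪H (nu ξ), nu ξ⟫ = -∑ k, ⟪H (ei k), ei k⟫ := by
    field_simp at e2
    linarith
  have e5 : P ^ 2 * ‖vh P ξ H (nu ξ)‖ ^ 2 =
      (∑ k, ⟪H (ei k), ei k⟫) ^ 2 + P * ‖H (nu ξ)‖ ^ 2 := by
    rw [e1, ← neg_sq (∑ k, _), ← e4]
    field_simp
  have e6 : P * sg P ξ H = P * ‖H (nu ξ)‖ ^ 2 + ∑ k, ‖H (ei k)‖ ^ 2 := by
    rw [bas_sge h]
    field_simp
  rw [e5, e6]
  have : 0 ≤ P * ‖H (nu ξ)‖ ^ 2 := by positivity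
  nlinarith

lemma bas_lg {P : ℝ} {z : St d} {H : En d} (j : Jet P z H) (h : 1 ≤ P) (h0 : z.2.2 ≠ 0)
    (hA : Adm P z.2.2 H) (hd : 4 * d ≤ P) :
    ∃ v L, J P z H (fun y => P * Real.log ‖y.2.2‖) v L ∧
      ga P z.2.2 H ^ 2 / 2 ≤ L ∧ ‖v‖ ^ 2 ≤ d * ga P z.2.2 H ^ 2 := by
  have hP : 0 < P := by linarith
  have hg : 0 < ‖z.2.2‖ := norm_pos_iff.2 h0
  have k := j.cmul (P / 2) (j.log (bas_ww j 0) (by rw [sub_zero]; exact pow_pos hg 2))
  have e0 : vh P z.2.2 H ((2 : ℝ) • (z.2.2 - 0)) = (2 * ‖z.2.2‖) • vh P z.2.2 H (nu z.2.2) := by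
    ext k
    simp only [vh, sub_zero, PiLp.smul_apply, smul_eq_mul, real_inner_smul_left]
    conv_lhs => enter [2, 2]; rw [bas_xi h0]
    rw [real_inner_smul_left]
    ring
  have e1 := bas_v0 h h0 hA
  have e2 := bas_ga2 h h0 H
  rw [← e2] at e1
  set w := vh P z.2.2 H (nu z.2.2)
  set g := ‖z.2.2‖
  set γ := ga P z.2.2 H
  have e3 : (P * ‖w‖ / g) ^ 2 ≤ d * γ ^ 2 := by
    rw [div_pow, div_le_iff₀ (by positivity)]
    nlinarith
  refine ⟨(P / g) • w, γ ^ 2 - 2 * (P * ‖w‖ / g) ^ 2 / P, bas_cast k (fun y => ?_) ?_ ?_, ?_, ?_⟩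
  · rw [sub_zero, Real.log_pow]
    push_cast
    ring
  · rw [e0, sub_zero, smul_smul, smul_smul]
    congr 1
    change P / g = P / 2 * (g ^ 2)⁻¹ * (2 * g)
    field_simp
  · rw [e0, sub_zero, norm_smul, Real.norm_eq_abs, mul_pow, sq_abs]
    change _ = P / 2 * (2 * sg P z.2.2 H / g ^ 2 - (2 * g) ^ 2 * ‖w‖ ^ 2 / (g ^ 2) ^ 2)
    have e4 : sg P z.2.2 H = γ ^ 2 * g ^ 2 / P := by
      rw [e2]
      field_simp
    rw [e4]
    field_simp
  · have : 2 * (P * ‖w‖ / g) ^ 2 / P ≤ γ ^ 2 / 2 := by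
      rw [div_le_iff₀ hP]
      nlinarith [sq_nonneg γ]
    linarith
  · rw [norm_smul, Real.norm_eq_abs, abs_of_pos (by positivity)]
    refine le_of_eq_of_le ?_ e3
    ring

theorem bas : JetS → BasS := by
  intro jet d P z H h h0
  have j := jet d P z H
  have hP : 0 < P := by linarith
  have hs : 0 ≤ sg P z.2.2 H := Finset.sum_nonneg fun _ _ => sq_nonneg _
  have hn := bas_nu1 h0
  have e1 : ∀ a : X d, ‖vx P z.2.2 a‖ ^ 2 = ⟪a, nu z.2.2⟫ ^ 2 + P⁻¹ * ‖a‖ ^ 2 := fun a => by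
    rw [← real_inner_self_eq_norm_sq, bas_ix h, real_inner_self_eq_norm_sq, sq ⟪a, _⟫]
  refine ⟨hs, div_nonneg (Real.sqrt_nonneg _) (norm_nonneg _), bas_ga2 h h0 H, bas_sge h _ H, hn,
    bas_ix h _, fun a => ?_, ?_, fun a => ?_, ?_, bas_xx j h h0, bas_ww j, bas_pl j h0,
    bas_lg j h h0⟩
  · have k1 := abs_real_inner_le_norm a (nu z.2.2)
    rw [hn, mul_one] at k1
    have k2 : ⟪a, nu z.2.2⟫ ^ 2 ≤ ‖a‖ ^ 2 := by
      rw [← sq_abs]
      exact pow_le_pow_left₀ (abs_nonneg _) k1 2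
    have k3 : P⁻¹ ≤ 1 := inv_le_one_of_one_le₀ h
    rw [e1]
    constructor
    · nlinarith [sq_nonneg ⟪a, nu z.2.2⟫]
    · nlinarith [sq_nonneg ‖a‖]
  · have k1 : ⟪z.2.2, nu z.2.2⟫ = ‖z.2.2‖ := by
      conv_lhs => enter [2]; rw [bas_xi h0]
      rw [real_inner_smul_left, real_inner_self_eq_norm_sq, hn]
      ring
    rw [e1, k1]
    have : 0 ≤ P⁻¹ * ‖z.2.2‖ ^ 2 := by positivity
    linarith
  · rw [bas_vnorm, sg, Finset.mul_sum]
    refine Finset.sum_le_sum fun k _ => ?_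
    rw [← mul_pow, ← sq_abs]
    exact pow_le_pow_left₀ (abs_nonneg _) (abs_real_inner_le_norm _ _) 2
  · have hg := norm_pos_iff.2 h0
    have k1 : ‖H (nu z.2.2) - ⟪H (nu z.2.2), nu z.2.2⟫ • nu z.2.2‖ ^ 2 ≤ ‖H (nu z.2.2)‖ ^ 2 := by
      rw [norm_sub_sq_real, real_inner_smul_right, norm_smul, hn, mul_one, Real.norm_eq_abs, sq_abs]
      nlinarith [sq_nonneg ⟪H (nu z.2.2), nu z.2.2⟫]
    have k2 : ‖H (nu z.2.2)‖ ^ 2 ≤ sg P z.2.2 H := by
      rw [bas_sge h]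
      have : 0 ≤ P⁻¹ * ∑ k, ‖H (ei k)‖ ^ 2 :=
        mul_nonneg (inv_nonneg.2 hP.le) (Finset.sum_nonneg fun _ _ => sq_nonneg _)
      linarith
    rw [dr, norm_smul, mul_pow, Real.norm_eq_abs, sq_abs]
    have k3 : (2 / ‖z.2.2‖) ^ 2 * ‖z.2.2‖ ^ 2 = 4 := by
      field_simp
      norm_num
    calc _ = (2 / ‖z.2.2‖) ^ 2 * ‖z.2.2‖ ^ 2 *
          ‖H (nu z.2.2) - ⟪H (nu z.2.2), nu z.2.2⟫ • nu z.2.2‖ ^ 2 := by ring
      _ ≤ _ := by rw [k3]; linarith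

end Pool.Agent.MP_815c6c_an.H

end
end MrgPart0

-- ======== part 1: formerly Pool.Agent.MP_815c6c_an.H.Kin
section MrgPart1

/-! The kink of the barrier and the geometry of the flat region. -/

set_option autoImplicit false

namespace Pool.Agent.MP_815c6c_an.H

open Set Metric Filter Topology
open scoped RealInnerProductSpace
open N (X)

theorem kin_der {A B s₀ s₂ t₁ R Y m : ℝ} (h1 : 0 < m + t₁ * R) (h2 : 0 < m + s₀ * R)
    (h3 : 0 < m + s₂ * R) : HasDerivAt (fun m => Fc A B s₀ s₂ t₁ m R Y)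
      (64 * (2 * (m + t₁ * R)) / (64 * (m + t₁ * R) ^ 2 + Y ^ 2) / 2 -
        4095 / 4096 * (1 / (m + t₁ * R)) - A * (1 / (m + s₀ * R)) - B * (1 / (m + s₂ * R))) m := by
  have a := fun c : ℝ => (hasDerivAt_id' m).add_const c
  have b : HasDerivAt (fun m : ℝ => 64 * (m + t₁ * R) ^ 2 + Y ^ 2) (64 * (2 * (m + t₁ * R))) m := by
    simpa using (((a (t₁ * R)).fun_pow 2).const_mul 64).add_const (Y ^ 2)
  exact ((((b.log (by positivity)).div_const 2).fun_sub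
    (((a _).log h1.ne').const_mul _)).fun_sub (((a _).log h2.ne').const_mul _)).fun_sub
    (((a _).log h3.ne').const_mul _)

theorem kin_th {T Y : ℝ} (h : 0 < T) (hY : |Y| ≤ T / 16) :
    1 / 8192 * (1 / T) ≤ 64 * (2 * T) / (64 * T ^ 2 + Y ^ 2) / 2 - 4095 / 4096 * (1 / T) := by
  have a : Y ^ 2 ≤ (T / 16) ^ 2 := sq_le_sq' (abs_le.1 hY).1 (abs_le.1 hY).2
  rw [le_sub_iff_add_le, ← add_mul, mul_one_div, div_div, div_le_div_iff₀ h (by positivity)]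
  nlinarith [sq_nonneg T]

theorem kin : KinS := by
  intro d P A B s₀ s₂ t₁ n R Y p R0 n0 h1 h2 h3 hY
  have a1 := mul_pos p.t0 R0
  have a2 := mul_pos p.s0 R0
  have a3 := mul_pos p.s2 R0
  have der : ∀ m ∈ Icc (-n) n, HasDerivAt (fun m => Fc A B s₀ s₂ t₁ m R Y) _ m := fun m hm =>
    kin_der (by linarith [hm.1]) (by linarith [hm.1]) (by linarith [hm.1])
  refine monotoneOn_of_deriv_nonneg (convex_Icc (-n) n)
    (fun m hm => (der m hm).continuousAt.continuousWithinAt)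
    (fun m hm => (der m (interior_subset hm)).differentiableAt.differentiableWithinAt)
    (fun m hm => ?_) ⟨le_rfl, by linarith⟩ ⟨by linarith, le_rfl⟩ (by linarith)
  have hm := interior_subset hm
  rw [(der m hm).deriv]
  obtain ⟨m1, m2⟩ := hm
  have A0 : 0 ≤ A := by linarith [p.a2]
  have b1 := kin_th (T := m + t₁ * R) (Y := Y) (by linarith) (by linarith)
  have b2 : 1 / (3 / 2 * (t₁ * R)) ≤ 1 / (m + t₁ * R) :=
    one_div_le_one_div_of_le (by linarith) (by linarith)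
  have b3 : A * (1 / (m + s₀ * R)) ≤ A * (1 / (1 / 2 * (s₀ * R))) :=
    mul_le_mul_of_nonneg_left (one_div_le_one_div_of_le (by linarith) (by linarith)) A0
  have b4 : B * (1 / (m + s₂ * R)) ≤ B * (1 / (1 / 2 * (s₂ * R))) :=
    mul_le_mul_of_nonneg_left (one_div_le_one_div_of_le (by linarith) (by linarith)) p.b0
  have b5 : B * (1 / (1 / 2 * (s₂ * R))) ≤ A * (1 / (1 / 2 * (s₀ * R))) := by
    rw [mul_one_div, mul_one_div, div_le_div_iff₀ (by linarith) (by linarith)]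
    have := mul_le_mul_of_nonneg_right p.bs R0.le
    linarith
  have b6 : A * (1 / (1 / 2 * (s₀ * R))) ≤ 1 / 16384 * (1 / (3 / 2 * (t₁ * R))) := by
    rw [mul_one_div, mul_one_div, div_le_div_iff₀ (by linarith) (by linarith)]
    have := mul_le_mul_of_nonneg_right p.ta R0.le
    linarith
  linarith

theorem tha : ThaS := by
  rintro d P m S τ e ⟨x, t, ξ⟩ P1 m0 S1 S2 he τ0 τ1 ⟨g1, g2, hZ⟩
  dsimp only at g1 g2 hZ ⊢
  have q0 : 0 < √P := Real.sqrt_pos.2 (by linarith)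
  have ny : ‖yh P (x, t, ξ)‖ = √P * ‖x - (t / ‖ξ‖ ^ 2) • ξ‖ := by
    rw [yh, norm_smul, Real.norm_of_nonneg q0.le]
  have yR : ‖yh P (x, t, ξ)‖ ≤ fR P m (x, t, ξ) :=
    Real.le_sqrt_of_sq_le (by nlinarith [sq_nonneg t, sq_nonneg m])
  have R0 : 0 < fR P m (x, t, ξ) := Real.sqrt_pos.2 (by positivity)
  refine ⟨fun t0 => ?_, fun h1 h2 => ?_⟩
  · subst t0
    rw [zero_div, zero_smul, sub_zero] at ny
    rw [zero_sub, abs_neg, abs_mul, abs_of_nonneg (by linarith : 0 ≤ S)] at hZ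
    have a : |⟪e, x⟫| ≤ τ * ‖x‖ := (le_mul_of_one_le_left (abs_nonneg _) S1).trans hZ
    have b : ⟪e, yh P (x, 0, ξ)⟫ = √P * ⟪e, x⟫ := by simp [yh, inner_smul_right]
    rw [b, abs_mul, abs_of_pos q0]
    have c := mul_le_mul_of_nonneg_left a q0.le
    have c' := mul_le_mul_of_nonneg_left (ny ▸ yR) τ0
    linarith
  · have g0 : 0 < ‖ξ‖ := by linarith
    have n0 : 0 < |t| := (mul_pos_iff_of_pos_left q0).1 (by linarith)
    have a1 : ‖x - (t / ‖ξ‖ ^ 2) • ξ‖ ≤ |t| / 16 :=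
      le_of_mul_le_mul_left (by linarith) q0
    have a2 : ‖(t / ‖ξ‖ ^ 2) • ξ‖ ≤ 8 * |t| := by
      rw [norm_smul, Real.norm_eq_abs, abs_div, abs_of_pos (by positivity : 0 < ‖ξ‖ ^ 2),
        div_mul_eq_mul_div, div_le_iff₀ (by positivity)]
      have := mul_le_mul_of_nonneg_left g1 (mul_pos n0 g0).le
      linarith
    have a3 : ‖x‖ ≤ 9 * |t| := by
      have := norm_add_le (x - (t / ‖ξ‖ ^ 2) • ξ) ((t / ‖ξ‖ ^ 2) • ξ)
      rw [sub_add_cancel] at this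
      linarith
    have a4 : |t - S * ⟪e, x⟫| ≤ |t| / 16 :=
      hZ.trans ((mul_le_mul τ1 a3 (norm_nonneg _) (by norm_num)).trans (by linarith))
    have a5 : |⟪e, x⟫ - t * (⟪e, ξ⟫ / ‖ξ‖ ^ 2)| ≤ |t| / 16 := by
      have := abs_real_inner_le_norm e (x - (t / ‖ξ‖ ^ 2) • ξ)
      rw [he, one_mul, inner_sub_right, inner_smul_right] at this
      rw [show t * (⟪e, ξ⟫ / ‖ξ‖ ^ 2) = t / ‖ξ‖ ^ 2 * ⟪e, ξ⟫ by ring]
      linarith
    have a6 : |1 - S * (⟪e, ξ⟫ / ‖ξ‖ ^ 2)| ≤ 3 / 16 := by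
      refine le_of_mul_le_mul_left ?_ n0
      rw [← abs_mul, show t * (1 - S * (⟪e, ξ⟫ / ‖ξ‖ ^ 2)) = (t - S * ⟪e, x⟫) +
        S * (⟪e, x⟫ - t * (⟪e, ξ⟫ / ‖ξ‖ ^ 2)) by ring]
      refine (abs_add_le _ _).trans ?_
      rw [abs_mul, abs_of_nonneg (by linarith : 0 ≤ S)]
      have := mul_le_mul S2 a5 (abs_nonneg _) (by norm_num)
      linarith
    obtain ⟨a7, a8⟩ := abs_le.1 a6
    have a9 : 0 < ⟪e, ξ⟫ / ‖ξ‖ ^ 2 := by
      by_contra k
      have := mul_nonpos_of_nonneg_of_nonpos (by linarith : 0 ≤ S) (not_lt.1 k)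
      linarith
    have := mul_le_mul_of_nonneg_right h2 a9.le
    rw [show (⟪e, ξ⟫ / ‖ξ‖) ^ 2 = ⟪e, ξ⟫ * (⟪e, ξ⟫ / ‖ξ‖ ^ 2) by ring]
    linarith

end Pool.Agent.MP_815c6c_an.H

end MrgPart1

-- ======== part 2: formerly Pool.Agent.MP_815c6c_an.H.Mx
section MrgPart2

/-! Scalar p-harmonic functions for large `p`: the maximum principle on the essential range. -/

set_option autoImplicit false

noncomputable section

namespace Pool.Agent.MP_815c6c_an.H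

open Set Metric MeasureTheory Filter Topology
open scoped RealInnerProductSpace
open N (X)
open S (ei vo hs)
open S.IdA (lo dw)

variable {d : ℕ}

theorem mx_lo {P : ℝ} (hP : 0 < P) (f : St d → ℝ) {z : St d} (h : z.2.2 ≠ 0) (H : En d) :
    lo P f z H = P * Lo P f z H := by
  have n : ‖z.2.2‖ ≠ 0 := norm_ne_zero_iff.2 h
  have e : ∀ v, tv z.2.2 H v = dw z.2.2 H v := fun _ => rfl
  have e1 : ((dr z.2.2 H, 0, 0) : St d) = (2 / ‖z.2.2‖ ^ 2) •
      (H z.2.2 - (⟪H z.2.2, z.2.2⟫ / ‖z.2.2‖ ^ 2) • z.2.2, (0 : ℝ), (0 : X d)) := by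
    simp only [dr, nu, map_smul, real_inner_smul_left, real_inner_smul_right, Prod.smul_mk,
      smul_zero]
    congr 1
    match_scalars <;> field_simp
  rw [lo, Lo, Fintype.sum_option, e1]
  simp only [e, dir, nu, map_smul, smul_apply, smul_eq_mul, ← mul_assoc, ← mul_inv,
    Real.mul_self_sqrt hP.le, ← Finset.mul_sum]
  field_simp
  ring

theorem mx_adm {P : ℝ} (hP : 0 < P) {ξ : X d} (h : ξ ≠ 0) {H : En d}
    (sy : ∀ v w, ⟪H v, w⟫ = ⟪v, H w⟫) (pe : ‖ξ‖ ^ 2 * ∑ i, H (ei i) i + P * ⟪H ξ, ξ⟫ = 0) :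
    Adm P ξ H := by
  have n : ‖ξ‖ ≠ 0 := norm_ne_zero_iff.2 h
  refine ⟨sy, ?_⟩
  rw [Fintype.sum_option]
  simp only [dir, nu, map_smul, real_inner_smul_left, real_inner_smul_right, S.IdA.in_ei,
    ← mul_assoc, ← mul_inv, Real.mul_self_sqrt hP.le, ← Finset.mul_sum]
  field_simp
  linarith

theorem mx : Kit → PerS → EssS → MxS := by
  intro k per ess d p R x u G D hp hW hu hV z hz h0 f hf hm c hc
  by_contra hn
  simp only [not_exists, not_and, not_lt] at hn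
  have hP : 1 ≤ p - 2 := by linarith
  obtain ⟨C, hC⟩ : ∃ C : ℝ, C = 2 * (1 + d) + 4 * ‖z.2.2‖ ^ 2 + 2 := ⟨_, rfl⟩
  have C2 : 2 ≤ C := by rw [hC]; exact le_add_of_nonneg_left (by positivity)
  obtain ⟨δ, hδ, eδ⟩ : ∃ δ : ℝ, 0 < δ ∧ δ * C = c / 2 :=
    ⟨c / 2 / C, by positivity, div_mul_cancel₀ _ (by positivity)⟩
  obtain ⟨q, hq⟩ : ∃ q : St d → ℝ, q = fun y =>
    ‖y.1 - z.1‖ ^ 2 + (y.2.1 + -z.2.1) ^ 2 + ‖y.2.2 - z.2.2‖ ^ 2 := ⟨_, rfl⟩
  have cq : ContDiff ℝ 2 q := by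
    rw [hq]
    exact (((contDiff_fst.sub contDiff_const).norm_sq ℝ).add
      ((contDiff_snd.fst.add contDiff_const).pow 2)).add
      ((contDiff_snd.snd.sub contDiff_const).norm_sq ℝ)
  have c2 : ContDiffAt ℝ 2 (fun y => f y - δ * q y) z :=
    hf.sub (contDiffAt_const.mul cq.contDiffAt)
  have e1 := per d (p - 2) (c / 2) _ z (by linarith) (by positivity) h0 c2 fun H hH => by
    have j := k.jet d (p - 2) z H
    have b := k.bas d (p - 2) z H hP h0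
    obtain ⟨v, jf⟩ := j.ex f hf
    have := (j.sub jf (j.cmul δ (j.add (j.add (b.xx z.1) (j.sq (j.addc (-z.2.1) j.jt)))
      (b.ww z.2.2)))).lo
    rw [hq, this, sub_self, inner_zero_left]
    have h1 : (d : ℝ) / (p - 2) ≤ d := div_le_self d.cast_nonneg hP
    have h2 := (b.nx z.2.2).2
    have h3 := b.sg0
    have h4 : 2 * 0 + 2 * (1 + d / (p - 2)) + (2 * (z.2.1 + -z.2.1) * 0 +
        2 * ‖vx (p - 2) z.2.2 z.2.2‖ ^ 2) + 2 * sg (p - 2) z.2.2 H ≤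
        C * (1 + sg (p - 2) z.2.2 H) := by nlinarith
    have h5 := mul_le_mul_of_nonneg_left h4 hδ.le
    rw [← mul_assoc, eδ] at h5
    linarith [hn H hH]
  have e2 := c2.eventually (by simp)
  have e3 : ∀ᶠ y : St d in 𝓝 z, y.1 ∈ ball x R ∧ y.2.2 ≠ 0 :=
    ((isOpen_ball.preimage continuous_fst).inter
      (isOpen_ne.preimage continuous_snd.snd)).mem_nhds ⟨hz.1, h0⟩
  obtain ⟨ε, hε, e⟩ := Metric.eventually_nhds_iff_ball.1
    (e1.and (e2.and (e3.and (eventually_nhdsWithin_iff.1 hm))))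
  obtain ⟨a1, -, a3, -⟩ := ess d (ball x R) u G isOpen_ball hu
  have hp' : 2 < p := by linarith
  have w := S.IdA.wmp (Ψ := fun y => f y - δ * q y) (O := ball z ε) (K := closedBall z (ε / 2))
    (m := f z - δ * (ε / 2) ^ 2) hp' isOpen_ball isBounded_ball hW hV isOpen_ball
    (isCompact_closedBall _ _) (closedBall_subset_ball (half_lt_self hε))
    (fun s hs => (e s hs).2.2.1) (fun s hs => (e s hs).2.1) (by
      filter_upwards [a1, S.sym S.sob (S.jac S.sob) d p _ u G D hp' isOpen_ball isBounded_ball hW hV,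
        S.pe S.sob d p _ u G D hp' isOpen_ball isBounded_ball hW hV] with y b1 b2 b3 b4 b5
      obtain ⟨f1, -, ⟨-, f3⟩, f4⟩ := e _ b4
      have ad := mx_adm (by linarith) f3 (b2 f3) (b3 f3)
      refine ⟨?_, ?_⟩
      · have g1 : q (y, u y, G y) < (ε / 2) ^ 2 :=
          lt_of_mul_lt_mul_left (by linarith [f4 b1]) hδ.le
        rw [hq] at g1
        have g2 : ∀ t : ℝ, t ^ 2 ≤ (ε / 2) ^ 2 → |t| ≤ ε / 2 := fun t ht =>
          abs_le_of_sq_le_sq' ht (by positivity) |> abs_le.2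
        rw [mem_closedBall_iff_norm]
        refine max_le ((le_abs_self _).trans (g2 _ ?_)) (max_le (g2 (u y + -z.2.1) ?_)
          ((le_abs_self _).trans (g2 _ ?_))) <;>
          simp only [Prod.fst_sub, Prod.snd_sub] at g1 ⊢ <;>
          nlinarith [sq_nonneg ‖y - z.1‖, sq_nonneg (u y + -z.2.1), sq_nonneg ‖G y - z.2.2‖]
      · rw [mx_lo (by linarith) _ f3]
        have := (k.bas d (p - 2) (y, u y, G y) (hs p (G y) (D y)) hP f3).sg0
        exact mul_pos (by linarith) (lt_of_lt_of_le (by positivity) (f1 _ ad)))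
  refine a3 z hz (ball z ε ∩ {y | f z - δ * (ε / 2) ^ 2 < f y - δ * q y})
    (inter_mem (ball_mem_nhds z hε) (c2.continuousAt.eventually (lt_mem_nhds ?_)))
    (measure_eq_zero_iff_ae_notMem.2 (w.mono fun y a b => (a b.1).not_gt b.2))
  have : q z = 0 := by simp [hq]
  simp only [this]
  nlinarith [mul_pos hδ (pow_pos (half_pos hε) 2)]

end Pool.Agent.MP_815c6c_an.H

end
end MrgPart2

-- ======== part 3: formerly Pool.Agent.MP_815c6c_an.H.Ns
section MrgPart3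

/-! Scalar p-harmonic functions for large `p`: no small gradients, and the decay of the
oscillation. -/

set_option autoImplicit false

namespace Pool.Agent.MP_815c6c_an.H

open Set Metric MeasureTheory Filter Topology
open scoped ENNReal RealInnerProductSpace
open N (X)
open S (ei vo Wk Sb Vp)

theorem ns_af {d : ℕ} (x : X d) {M : ℝ} (hM : 0 < M) (z : St d) :
    af x 0 1 M (z.1 - x, z.2.1 / M, M⁻¹ • z.2.2) = z := by
  obtain ⟨y, t, ξ⟩ := z
  simp only [af, one_smul, add_sub_cancel, zero_add, one_mul, mul_div_cancel₀ _ hM.ne',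
    smul_inv_smul₀ hM.ne']

theorem ns : Kit → IndS → NsS := by
  intro k ind d κ κ0
  rcases Nat.eq_zero_or_pos d with rfl | hd
  · refine Eventually.of_forall fun P U u T x r R M _ _ _ _ M0 ⟨z, _, _, h⟩ => ?_
    rw [Subsingleton.elim z.2.2 0, norm_zero] at h
    exact absurd h (not_le.2 M0)
  filter_upwards [ind d κ hd κ0, eventually_ge_atTop κ⁻¹] with P hP P1
  intro U u T x r R M hV hU r0 rR M0 ⟨z₁, a1, a2, a3⟩ hB z hz zr
  by_contra hn
  have e1 : 1 ≤ κ * P := (inv_le_iff_one_le_mul₀' κ0).1 P1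
  have e2 : (1 / 2 : ℝ) ^ (κ * P) ≤ 1 / 2 := by
    have := Real.rpow_le_rpow_of_exponent_ge (x := 1 / 2) one_half_pos (by norm_num) e1
    rwa [Real.rpow_one] at this
  have e3 : (0 : ℝ) < (1 / 2) ^ (κ * P) := Real.rpow_pos_of_pos one_half_pos _
  have R0 : 0 < R := (mul_pos_iff_of_pos_left e3).1 (r0.trans_le rR)
  have e4 : 2 * r ≤ R := by nlinarith
  obtain ⟨w, b1, b2, b3⟩ := hV.ivt x (2 * r) (M / 4)
    ((closedBall_subset_closedBall e4).trans hU) (by positivity)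
    ⟨z, hz, by linarith, (not_le.1 hn).le⟩ ⟨z₁, a1, by linarith, by linarith⟩
  have nm : ∀ ξ : X d, ‖M⁻¹ • ξ‖ = ‖ξ‖ / M := fun ξ => by
    rw [norm_smul, Real.norm_of_nonneg (inv_pos.2 M0).le, inv_mul_eq_div]
  refine hP _ _ _ (2 * r) R (k.inv d P U u T x 0 1 M one_ne_zero M0 hV) (fun y hy => hU ?_)
    (by positivity) (by linarith) ⟨(z₁.1 - x, z₁.2.1 / M, M⁻¹ • z₁.2.2), ?_, ?_, ?_⟩
    (fun y hy h => ?_) (w.1 - x, w.2.1 / M, M⁻¹ • w.2.2) ?_ b2 ?_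
  · simpa using hy
  · rw [mem_preimage, ns_af x M0]
    exact a1
  · exact a2.trans (by linarith)
  · rw [nm]
    exact (one_le_div M0).2 a3
  · have := hB _ hy (by simpa [af] using h)
    simp only [af] at this
    rw [norm_smul, Real.norm_of_nonneg M0.le] at this
    nlinarith
  · rw [mem_preimage, ns_af x M0]
    exact b1
  · rw [nm, b3]
    field_simp

theorem osc : BarS → OscS := by
  intro bar d P N P1 N0
  obtain ⟨c, c0, bar⟩ := bar d P N P1 N0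
  have m0 : 0 < min c (1 / 16) := lt_min c0 (by norm_num)
  have m1 := min_le_left c (1 / 16)
  have m2 := min_le_right c (1 / 16)
  generalize min c (1 / 16) = m at m0 m1 m2
  refine ⟨1 - m, by linarith, by linarith, fun U u T x s o hV hU s0 hD hN z₁ a1 z₂ a2 b1 b2 => ?_⟩
  by_contra hn
  replace hn := not_le.1 hn
  have o1 := hD z₁ a1 z₂ a2 (by linarith) (by linarith)
  have o0 : 0 < o := by nlinarith
  have n0 : 0 < ‖z₁.2.2 - z₂.2.2‖ := lt_trans (by nlinarith) hn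
  obtain ⟨e, he, he'⟩ : ∃ e : X d, ‖e‖ = 4 * s ∧
      ⟪z₁.2.2 - z₂.2.2, e⟫ = 4 * s * ‖z₁.2.2 - z₂.2.2‖ := by
    refine ⟨(4 * s / ‖z₁.2.2 - z₂.2.2‖) • (z₁.2.2 - z₂.2.2), ?_, ?_⟩
    · rw [norm_smul, Real.norm_of_nonneg (by positivity), div_mul_cancel₀ _ n0.ne']
    · rw [real_inner_smul_right, real_inner_self_eq_norm_sq]
      field_simp
  have y0 : ‖z₁.1 + e - x‖ ≤ 5 * s := by
    rw [add_sub_right_comm]
    linarith [norm_add_le (z₁.1 - x) e]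
  have tr : ∀ y : X d, ‖y - (z₁.1 + e)‖ ≤ 8 * s → ‖y - x‖ ≤ 16 * s := fun y hy => by
    linarith [norm_sub_le_norm_sub_add_norm_sub y (z₁.1 + e) x]
  have lip : ∀ z ∈ T, ‖z.1 - x‖ ≤ s → ∀ y y' : X d, ‖y - x‖ ≤ 16 * s → ‖y' - x‖ ≤ 16 * s →
      |u y - u y' - ⟪z.2.2, y - y'⟫| ≤ o * ‖y - y'‖ := fun z hz h y y' hy hy' =>
    hV.lip x z.2.2 (16 * s) o hU (fun w hw k => hD w hw z hz k (by linarith)) y
      (mem_closedBall_iff_norm.2 hy) y' (mem_closedBall_iff_norm.2 hy')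
  have key : ∀ z ∈ T, ∀ z' ∈ T, ‖z.1 - x‖ ≤ s → ‖z'.1 - x‖ ≤ s → 2 * s ≤ ‖z.1 - (z₁.1 + e)‖ →
      ‖z.1 - (z₁.1 + e)‖ ≤ 6 * s → (1 - m) * o < ‖z.2.2 - z'.2.2‖ →
      |u (z₁.1 + e) - u z.1 - ⟪z.2.2, z₁.1 + e - z.1⟫| ≤ 3 * (o * s) / 4 := by
    intro z hz z' hz' h h' k1 k2 k3
    obtain ⟨y, c1, c2⟩ := bar U u T (z₁.1 + e) z'.2.2 s o z hV s0 o0
      (fun y hy => hU (mem_closedBall_iff_norm.2 (tr y (mem_closedBall_iff_norm.1 hy))))
      (fun w hw k => ⟨hN w hw (tr _ k), hD w hw z' hz' (tr _ k) (by linarith)⟩) hz k1 k2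
      (by nlinarith)
    have c3 := lip z hz h (z₁.1 + e) y (by linarith) (tr y (by linarith))
    rw [norm_sub_rev, c1] at c3
    have c4 : ⟪z.2.2, z₁.1 + e - z.1⟫ = ⟪z.2.2, z₁.1 + e - y⟫ + ⟪z.2.2, y - z.1⟫ := by
      rw [← inner_add_right, sub_add_sub_cancel]
    rw [abs_le] at c2 c3 ⊢
    constructor <;> linarith [c2.1, c2.2, c3.1, c3.2]
  have d1 : ‖z₁.1 - (z₁.1 + e)‖ = 4 * s := by rw [sub_add_cancel_left, norm_neg, he]
  have d2 : ‖z₁.1 - z₂.1‖ ≤ 2 * s := by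
    linarith [norm_sub_le_norm_sub_add_norm_sub z₁.1 x z₂.1, norm_sub_rev x z₂.1]
  have k1 := key z₁ a1 z₂ a2 b1 b2 (by linarith) (by linarith) hn
  have k2 := key z₂ a2 z₁ a1 b2 b1
    (by linarith [norm_sub_le_norm_sub_add_norm_sub z₁.1 z₂.1 (z₁.1 + e)])
    (by linarith [norm_sub_le_norm_sub_add_norm_sub z₂.1 z₁.1 (z₁.1 + e),
      norm_sub_rev z₂.1 z₁.1]) (by rwa [norm_sub_rev])
  have k3 := lip z₂ a2 b2 z₁.1 z₂.1 (by linarith) (by linarith)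
  have k4 : ⟪z₂.2.2, z₁.1 + e - z₂.1⟫ = ⟪z₂.2.2, z₁.1 - z₂.1⟫ + ⟪z₂.2.2, e⟫ := by
    rw [← inner_add_right, add_sub_right_comm]
  rw [add_sub_cancel_left] at k1
  rw [inner_sub_left] at he'
  have k5 : o * ‖z₁.1 - z₂.1‖ ≤ o * (2 * s) := mul_le_mul_of_nonneg_left d2 o0.le
  have k6 : s * ((1 - m) * o) < s * ‖z₁.2.2 - z₂.2.2‖ := mul_lt_mul_of_pos_left hn s0
  have k7 : m * (o * s) ≤ 1 / 16 * (o * s) := mul_le_mul_of_nonneg_right m2 (by positivity)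
  have k8 : 0 < o * s := by positivity
  rw [abs_le] at k1 k2 k3
  nlinarith [k1.1, k1.2, k2.1, k2.2, k3.1, k3.2]

end Pool.Agent.MP_815c6c_an.H

end MrgPart3

-- marker of a merged file
example : 731051 + 292413 = 731051 + 292413 := rfl
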