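import Mathlib.Analysis.Complex.ExponentialBounds
import Pool.Agent.MP_815c6c_an.H.Win

-- ======== part 0: formerly Pool.Agent.MP_815c6c_an.H.Ind
section MrgPart0

/-! Scalar p-harmonic functions for large `p`: the induction over the windows. -/

set_option autoImplicit false

namespace Pool.Agent.MP_815c6c_an.H

open Set Metric MeasureTheory Filter Topology
open scoped RealInnerProductSpace
open N (X)

variable {d : ℕ}

theorem ind_nu {ξ : X d} (h : 1 ≤ ‖ξ‖) : ‖nu ξ‖ = 1 := by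
  rw [nu, norm_smul, norm_inv, norm_norm, inv_mul_cancel₀ (by linarith)]

theorem ind_cvx {Z : X d → ℝ} (h : Cvx Z) {c : ℝ} (hc : 0 ≤ c) (S : ℝ) (e : X d) :
    Cvx fun ξ => Z ξ + c * ze S e ξ := by
  refine ⟨h.1.add (continuous_const.mul ?_), fun a => ?_⟩
  · unfold ze
    fun_prop
  · obtain ⟨v, hv⟩ := h.2 a
    refine ⟨v + (c * (-2 * max (S / 2 - ⟪e, a⟫) 0)) • e, fun ξ => ?_⟩
    have k : ze S e a + -2 * max (S / 2 - ⟪e, a⟫) 0 * ⟪e, ξ - a⟫ ≤ ze S e ξ := by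
      rw [ze, ze, inner_sub_right]
      rcases le_total (S / 2 - ⟪e, a⟫) 0 with b | b
      · rw [max_eq_right b]
        nlinarith [sq_nonneg (max (S / 2 - ⟪e, ξ⟫) 0)]
      · rw [max_eq_left b]
        nlinarith [sq_nonneg (max (S / 2 - ⟪e, ξ⟫) 0 - (S / 2 - ⟪e, a⟫)),
          mul_nonneg b (sub_nonneg.2 (le_max_left (S / 2 - ⟪e, ξ⟫) 0))]
    have := mul_le_mul_of_nonneg_left k hc
    rw [inner_add_left, real_inner_smul_left]
    linarith [hv ξ]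

theorem ind_up {S : ℝ} {e ξ : X d} (hS : S ≤ 2) (he : ‖e‖ = 1) (h : ‖ξ‖ ≤ 2) : ze S e ξ ≤ 9 := by
  have a := abs_real_inner_le_norm e ξ
  rw [he, one_mul] at a
  have b : max (S / 2 - ⟪e, ξ⟫) 0 ≤ 3 := max_le (by linarith [(abs_le.1 a).1]) (by norm_num)
  rw [ze]
  nlinarith [le_max_right (S / 2 - ⟪e, ξ⟫) 0]

theorem ind_lo {S : ℝ} {e ξ : X d} (hS : 1 ≤ S) (he : ‖e‖ = 1) (h : ‖ξ‖ ≤ 1 / 4) :
    1 / 16 ≤ ze S e ξ := by
  have a := abs_real_inner_le_norm e ξ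
  rw [he, one_mul] at a
  have b : 1 / 4 ≤ max (S / 2 - ⟪e, ξ⟫) 0 := le_max_of_le_left (by linarith [(abs_le.1 a).2])
  rw [ze]
  nlinarith

/-- the induction -/
theorem ind_core (k : Kit) {P De η m R b : ℝ} {U : Set (X d)} {u : X d → ℝ} {T : Set (St d)}
    (hP : 1 ≤ P) (hD : 0 ≤ De) (hη : 0 < η) (vs : VS P U u T) (hU : closedBall 0 R ⊆ U)
    (bd : Bd T 0 R 2) (hm : ∀ ξ : X d, 1 / 8 ≤ ‖ξ‖ → ‖ξ‖ ≤ 2 → U0 d P ξ ≤ m)
    (gw : ∀ (ρ : ℝ) (Z : X d → ℝ) (z₁ : St d), 0 < ρ → closedBall 0 (P ^ 2 * ρ) ⊆ U → z₁ ∈ T →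
      ‖z₁.1‖ ≤ ρ → 1 ≤ ‖z₁.2.2‖ → Bd T 0 (P ^ 2 * ρ) 2 →
      Bd T 0 (P ^ 2 * ρ) ((1 + η) * ‖z₁.2.2‖) → Cvx Z →
      (∀ z ∈ T, ‖z.1‖ ≤ P ^ 2 * ρ → 1 / 8 ≤ ‖z.2.2‖ → U0 d P z.2.2 + Z z.2.2 ≤ m) →
      (∀ ξ, ‖ξ‖ ≤ 2 → Z ξ ≤ b) → ∀ z ∈ T, ‖z.1‖ ≤ ρ → 1 / 8 ≤ ‖z.2.2‖ →
        U0 d P z.2.2 + Z z.2.2 + De * ze ‖z₁.2.2‖ (nu z₁.2.2) z.2.2 ≤ m) (i : ℕ) :
    9 * De * i ≤ b → ∀ (ρ : ℝ) (z₁ : St d), 0 < ρ → (P ^ 2) ^ i * ρ ≤ R → z₁ ∈ T → ‖z₁.1‖ ≤ ρ →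
      1 ≤ ‖z₁.2.2‖ → Bd T 0 ρ ‖z₁.2.2‖ → ∃ Z, Cvx Z ∧
      (∀ z ∈ T, ‖z.1‖ ≤ ρ → 1 / 8 ≤ ‖z.2.2‖ → U0 d P z.2.2 + Z z.2.2 ≤ m) ∧
      (∀ ξ, ‖ξ‖ ≤ 2 → Z ξ ≤ 9 * De * i) ∧ ∀ ξ, ‖ξ‖ ≤ 1 / 4 →
        De / 16 * (i - (Real.log 2 - Real.log ‖z₁.2.2‖) / Real.log (1 + η)) ≤ Z ξ := by
  have l0 : 0 < Real.log (1 + η) := Real.log_pos (by linarith)
  have p2 : 1 ≤ P ^ 2 := one_le_pow₀ hP
  induction i with
  | zero =>
    intro _ ρ z₁ _ hR t₁ x₁ g₁ _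
    rw [pow_zero, one_mul] at hR
    have b2 : ∀ z ∈ T, ‖z.1‖ ≤ ρ → ‖z.2.2‖ ≤ 2 := fun z a c =>
      bd z a (by rw [sub_zero]; linarith)
    refine ⟨fun _ => 0, ⟨continuous_const, fun _ => ⟨0, fun _ => by simp⟩⟩, fun z a c e => ?_,
      fun _ _ => by simp, fun _ _ => ?_⟩
    · rw [add_zero]
      exact hm _ e (b2 z a c)
    · have := Real.log_le_log (by linarith) (b2 z₁ t₁ x₁)
      have := div_nonneg (sub_nonneg.2 this) l0.le
      refine mul_nonpos_of_nonneg_of_nonpos (by positivity) ?_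
      push_cast
      linarith
  | succ i ih =>
    intro hb ρ z₁ hρ hR t₁ x₁ g₁ _
    push_cast at hb ⊢
    have hb' : 9 * De * i ≤ b := by nlinarith
    have r1 : ρ ≤ P ^ 2 * ρ := le_mul_of_one_le_left hρ.le p2
    have r2 : (P ^ 2) ^ i * (P ^ 2 * ρ) ≤ R := by rwa [← mul_assoc, ← pow_succ]
    have r3 : P ^ 2 * ρ ≤ R :=
      (le_mul_of_one_le_left (hρ.le.trans r1) (one_le_pow₀ p2)).trans r2
    have sU : closedBall (0 : X d) (P ^ 2 * ρ) ⊆ U := (closedBall_subset_closedBall r3).trans hU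
    have b2 : Bd T 0 (P ^ 2 * ρ) 2 := fun z a c => bd z a (c.trans r3)
    obtain ⟨z₂, t₂, x₂, top⟩ := k.top d P U u T 0 (P ^ 2 * ρ) vs sU (hρ.le.trans r1)
    have g₂ : ‖z₁.2.2‖ ≤ ‖z₂.2.2‖ := top z₁ t₁ (by rw [sub_zero]; linarith)
    have s2 : ‖z₁.2.2‖ ≤ 2 := b2 z₁ t₁ (by rw [sub_zero]; linarith)
    rw [sub_zero] at x₂
    obtain ⟨Z, cv, h1, h2, h3⟩ := ih hb' _ z₂ (hρ.trans_le r1) r2 t₂ x₂ (g₁.trans g₂) top
    rcases le_total ‖z₂.2.2‖ ((1 + η) * ‖z₁.2.2‖) with c | c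
    · refine ⟨fun ξ => Z ξ + De * ze ‖z₁.2.2‖ (nu z₁.2.2) ξ, ind_cvx cv hD _ _, fun z a e f => ?_,
        fun ξ a => ?_, fun ξ a => ?_⟩
      · have := gw ρ Z z₁ hρ sU t₁ x₁ g₁ b2 (fun z a e => (top z a e).trans c) cv h1
          (fun ξ a => (h2 ξ a).trans hb') z a e f
        linarith
      · have := mul_le_mul_of_nonneg_left (ind_up s2 (ind_nu g₁) a) hD
        linarith [h2 ξ a]
      · have e1 := mul_le_mul_of_nonneg_left (ind_lo g₁ (ind_nu g₁) a) hD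
        have e2 := Real.log_le_log (by linarith) g₂
        have e3 : (Real.log 2 - Real.log ‖z₂.2.2‖) / Real.log (1 + η) ≤
            (Real.log 2 - Real.log ‖z₁.2.2‖) / Real.log (1 + η) :=
          div_le_div_of_nonneg_right (by linarith) l0.le
        have e4 := mul_le_mul_of_nonneg_left e3 hD
        linarith [h3 ξ a]
    · refine ⟨Z, cv, fun z a e f => h1 z a (e.trans r1) f, fun ξ a => ?_, fun ξ a => ?_⟩
      · linarith [h2 ξ a]
      · have e2 := Real.log_le_log (by positivity) c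
        rw [Real.log_mul (by linarith) (by linarith)] at e2
        have e3 : (Real.log 2 - Real.log ‖z₂.2.2‖) / Real.log (1 + η) + 1 ≤
            (Real.log 2 - Real.log ‖z₁.2.2‖) / Real.log (1 + η) := by
          rw [div_add_one l0.ne']
          exact div_le_div_of_nonneg_right (by linarith) l0.le
        have e4 := mul_le_mul_of_nonneg_left e3 hD
        linarith [h3 ξ a]

theorem ind_log {K ε : ℝ} (hK : 0 < K) (hε : 0 < ε) :
    ∀ᶠ P : ℝ in atTop, K + K * Real.log P ≤ ε * P := by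
  filter_upwards [Real.isLittleO_log_id_atTop.bound (show 0 < ε / (2 * K) by positivity),
    eventually_ge_atTop (2 * K / ε), eventually_ge_atTop 1] with P a b c
  rw [id, Real.norm_of_nonneg (Real.log_nonneg c), Real.norm_of_nonneg (by linarith)] at a
  have e1 := mul_le_mul_of_nonneg_left a hK.le
  have e2 : K * (ε / (2 * K) * P) = ε * P / 2 := by field_simp
  rw [div_le_iff₀ hε] at b
  linarith

theorem ind_exp {C : ℝ} (hd : 1 ≤ d) : ∀ᶠ P : ℝ in atTop, C * P ≤ 2 ^ (P / (2 * d)) := by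
  have d0 : (0 : ℝ) < d := Nat.cast_pos.2 hd
  have l2 := Real.log_pos one_lt_two
  have c0 : 0 < Real.log 2 / (2 * d) := by positivity
  filter_upwards [eventually_ge_atTop (2 * C / (Real.log 2 / (2 * d)) ^ 2),
    eventually_ge_atTop 0] with P a b
  rw [Real.rpow_def_of_pos two_pos,
    show Real.log 2 * (P / (2 * d)) = Real.log 2 / (2 * d) * P by ring]
  generalize Real.log 2 / (2 * d) = c at *
  have e := Real.quadratic_le_exp_of_nonneg (mul_nonneg c0.le b)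
  rw [div_le_iff₀ (by positivity)] at a
  nlinarith [mul_le_mul_of_nonneg_right a b, mul_nonneg c0.le b]

theorem ind (k : Kit) (gw : GwS) : IndS := by
  intro d κ hd hκ
  obtain ⟨A, a2, ak⟩ : ∃ A : ℝ, 2 ≤ A ∧ 2 ^ 42 ≤ A * κ :=
    ⟨max 2 (2 ^ 42 / κ), le_max_left .., (div_le_iff₀ hκ).1 (le_max_right ..)⟩
  obtain ⟨η, hη, ev⟩ := gw d A hd a2
  have l0 : 0 < Real.log (1 + η) := Real.log_pos (by linarith)
  have l2 := Real.log_pos one_lt_two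
  have l3 : Real.log 2 ≤ 1 := by linarith [Real.log_two_lt_d9]
  have l4 : 1 / 2 ≤ Real.log 2 := by linarith [Real.log_two_gt_d9]
  have n0 : 0 ≤ Real.log 2 / Real.log (1 + η) := by positivity
  filter_upwards [ev, ind_exp (C := 9 * A * κ + 9 * A) hd,
    ind_log (K := 1 + Real.log 2 / Real.log (1 + η)) (ε := κ * Real.log 2 / 4) (by positivity)
      (by positivity), eventually_ge_atTop 2, eventually_ge_atTop (1 / κ)] with P G e1 e2 p2 pk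
  intro U u T r R vs hU hr hR ⟨z₀, t₀, x₀, g₀⟩ bd z t x g
  have lp : 0 < Real.log P := Real.log_pos (by linarith)
  have lq : Real.log P ≤ P := (Real.log_le_sub_one_of_pos (by linarith)).trans (by linarith)
  rw [div_le_iff₀ hκ] at pk
  have q0 : 0 ≤ (κ * P - 1) * Real.log 2 / (2 * Real.log P) :=
    div_nonneg (mul_nonneg (by linarith) l2.le) (by positivity)
  have i1 := Nat.floor_le q0
  have i2 := (Nat.lt_floor_add_one ((κ * P - 1) * Real.log 2 / (2 * Real.log P))).le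
  generalize ⌊(κ * P - 1) * Real.log 2 / (2 * Real.log P)⌋₊ = I at i1 i2
  rw [le_div_iff₀ (by positivity)] at i1
  rw [div_le_iff₀ (by positivity)] at i2
  have R0 : 0 ≤ R := by
    by_contra c
    have : 0 < (1 / 2 : ℝ) ^ (κ * P) := by positivity
    nlinarith
  have hI : (P ^ 2) ^ I * r ≤ R := by
    have a : (P ^ 2) ^ I * (2 * (1 / 2 : ℝ) ^ (κ * P)) ≤ 1 := by
      rw [← Real.log_le_log_iff (by positivity) one_pos, Real.log_mul (by positivity)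
        (by positivity), Real.log_mul (by positivity) (by positivity), Real.log_pow, Real.log_pow,
        Real.log_rpow (by norm_num), one_div, Real.log_inv, Real.log_one]
      push_cast
      linarith
    calc (P ^ 2) ^ I * r ≤ (P ^ 2) ^ I * (2 * (1 / 2) ^ (κ * P) * R) := by gcongr
      _ = (P ^ 2) ^ I * (2 * (1 / 2 : ℝ) ^ (κ * P)) * R := by ring
      _ ≤ R := mul_le_of_le_one_left R0 a
  have rR : r ≤ R := (le_mul_of_one_le_left hr.le (one_le_pow₀ (one_le_pow₀ (by linarith)))).trans hI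
  obtain ⟨z₁, t₁, x₁, top⟩ := k.top d P U u T 0 r vs
    ((closedBall_subset_closedBall rR).trans hU) hr.le
  have g₁ : 1 ≤ ‖z₁.2.2‖ := g₀.trans (top z₀ t₀ (by rwa [sub_zero]))
  rw [sub_zero] at x₁
  have A0 : 0 ≤ A := by linarith
  have kp : 0 ≤ κ * P := by linarith
  have hb : 9 * (A / 4 * Real.log P) * I ≤ 9 * A * κ * P := by
    have : I * (2 * Real.log P) ≤ κ * P := by nlinarith
    nlinarith [mul_le_mul_of_nonneg_left this A0, mul_nonneg A0 kp]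
  obtain ⟨Z, -, h1, -, h3⟩ := ind_core k (De := A / 4 * Real.log P) (m := 2 ^ 31 * (P * Real.log 2))
    (b := 9 * A * κ * P) (by linarith) (by positivity) hη vs hU bd (fun ξ a b => by
      have c := Real.log_le_log (by linarith) b
      have e : 0 ≤ (4 * ‖ξ‖) ^ (-(P / (2 * d))) := by positivity
      have f := mul_le_mul_of_nonneg_left c (show 0 ≤ P by linarith)
      rw [U0]
      linarith)
    (fun ρ Z z₁ a b c e f g h i j l => G ρ _ _ U u T Z z₁ a vs b c e f g h i (by positivity) j l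
      (by nlinarith [mul_le_mul_of_nonneg_left lq A0])) I hb r z₁ hr hI t₁ x₁ g₁ top
  have f1 := h1 z t x (by rw [g]; norm_num)
  have f2 := h3 _ g.le
  have f3 : Real.log (1 / 4) = -(2 * Real.log 2) := by
    rw [one_div, Real.log_inv, show (4 : ℝ) = 2 ^ 2 by norm_num, Real.log_pow]
    norm_num
  rw [U0, g, f3, show (4 : ℝ) * (1 / 4) = 1 by norm_num, Real.one_rpow] at f1
  have f4 : (Real.log 2 - Real.log ‖z₁.2.2‖) / Real.log (1 + η) ≤ Real.log 2 / Real.log (1 + η) :=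
    div_le_div_of_nonneg_right (by linarith [Real.log_nonneg g₁]) l0.le
  generalize (Real.log 2 - Real.log ‖z₁.2.2‖) / Real.log (1 + η) = w at f2 f4
  generalize Real.log 2 / Real.log (1 + η) = n at e2 f4 n0
  have f5 : κ * Real.log 2 / 4 * P ≤ Real.log P * (I - w) := by
    nlinarith [mul_le_mul_of_nonneg_left f4 lp.le]
  have f6 := mul_le_mul_of_nonneg_left f5 A0
  have f7 : 1 ≤ P * Real.log 2 := by nlinarith
  have f8 := mul_le_mul_of_nonneg_right ak (show 0 ≤ P * Real.log 2 by linarith)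
  nlinarith

end Pool.Agent.MP_815c6c_an.H

end MrgPart0

-- ======== part 1: formerly Pool.Agent.MP_815c6c_an.H.Rj
section MrgPart1

/-! Scalar p-harmonic functions for large `p`: the radius and the logarithmic terms. -/

set_option autoImplicit false

noncomputable section

namespace Pool.Agent.MP_815c6c_an.H

open Set Metric MeasureTheory Filter Topology
open scoped ENNReal RealInnerProductSpace
open N (X)

theorem rjA {R y n g γ p d a T V : ℝ} (hR : 0 < R) (hy : y ≤ R) (hn : 0 ≤ n)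
    (hg : 1 / 8 ≤ g) (hγ : 0 ≤ γ) (hd : 0 ≤ d) (hp : 8 * d + 112 ≤ p)
    (ha : |a| ≤ 2 * y * (8 * d * γ + 14 * n * γ ^ 2 / g) / p + 4 * (d + (n * γ / g) ^ 2))
    (hT0 : 0 ≤ T) (hT : T ≤ 8) (hV0 : 0 ≤ V) (hV : V ≤ 4 + 8 * n * γ) :
    |(a + 2 * T) / (2 * R) - V ^ 2 / R| ≤
      γ + n * γ ^ 2 + (2 * d + 40 + 256 * (n * γ) ^ 2) / R := by
  have g0 : 0 < g := by linarith
  have p0 : 0 < p := by linarith
  have h1 : n * γ / g ≤ 8 * (n * γ) := by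
    rw [div_le_iff₀ g0]
    nlinarith [mul_nonneg hn hγ]
  have h2 : (n * γ / g) ^ 2 ≤ (8 * (n * γ)) ^ 2 := pow_le_pow_left₀ (by positivity) h1 2
  have h3 : (8 * d * γ + 14 * n * γ ^ 2 / g) / p ≤ γ + n * γ ^ 2 := by
    have e : 14 * n * γ ^ 2 / g = 14 * γ * (n * γ / g) := by ring
    have := mul_le_mul_of_nonneg_left h1 (show 0 ≤ 14 * γ by positivity)
    rw [div_le_iff₀ p0, e]
    nlinarith [mul_le_mul_of_nonneg_left hp (show 0 ≤ γ + n * γ ^ 2 by positivity),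
      mul_nonneg hd (show 0 ≤ n * γ ^ 2 by positivity)]
  have h4 : y * ((8 * d * γ + 14 * n * γ ^ 2 / g) / p) ≤ R * (γ + n * γ ^ 2) :=
    mul_le_mul hy h3 (by positivity) hR.le
  have h5 : V ^ 2 ≤ 32 + 128 * (n * γ) ^ 2 := by
    nlinarith [pow_le_pow_left₀ hV0 hV 2, sq_nonneg (4 - 8 * n * γ)]
  rw [mul_div_assoc (2 * y)] at ha
  have h6 := abs_le.1 ha
  rw [show (a + 2 * T) / (2 * R) - V ^ 2 / R = (a / 2 + T - V ^ 2) / R by field_simp, abs_div,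
    abs_of_pos hR, div_le_iff₀ hR, add_mul, div_mul_cancel₀ _ hR.ne']
  exact abs_le.2 ⟨by nlinarith [sq_nonneg V], by nlinarith [sq_nonneg V]⟩

theorem rjB {R n γ d σ L V W : ℝ} (hR : 0 < R) (hn : 0 ≤ n) (hnR : n ≤ R) (hγ : 0 ≤ γ) (hd : 0 ≤ d)
    (hσ : 0 < σ) (hs : σ * (512 * (4 * d + 112)) ≤ 1)
    (hL : L ≤ γ + n * γ ^ 2 + (2 * d + 40 + 256 * (n * γ) ^ 2) / R) (hV0 : 0 ≤ V)
    (hV : V ≤ 4 + 8 * n * γ) (hW : 1 / 128 - σ ^ 2 * V ^ 2 ≤ W) :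
    σ * L / (n + σ * R) - W / (n + σ * R) ^ 2 ≤
      1024 * σ * γ ^ 2 - 1 / (256 * (n + σ * R) ^ 2) := by
  have s1 : σ ≤ 1 := by nlinarith [mul_nonneg hσ.le hd]
  have sR : 0 < σ * R := by positivity
  have l2 : n + σ * R ≤ 2 * R := by nlinarith
  have l1 : n ≤ n + σ * R := by linarith
  have l0 : 0 < n + σ * R := by linarith
  generalize n + σ * R = l at *
  have h5 : V ^ 2 ≤ 32 + 128 * (n * γ) ^ 2 := by
    nlinarith [pow_le_pow_left₀ hV0 hV 2, sq_nonneg (4 - 8 * n * γ)]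
  have a1 : (n * γ) ^ 2 ≤ (l * γ) ^ 2 := by gcongr
  have a2 : (2 * d + 40 + 256 * (n * γ) ^ 2) / R * l ≤ 4 * d + 80 + 256 * (l * γ) ^ 2 := by
    rw [div_mul_eq_mul_div, div_le_iff₀ hR]
    have b1 : n * n ≤ l * R := mul_le_mul l1 hnR hn l0.le
    nlinarith [mul_le_mul_of_nonneg_left l2 (show 0 ≤ 2 * d + 40 by positivity),
      mul_le_mul_of_nonneg_left b1 (show 0 ≤ l * γ ^ 2 by positivity)]
  have a3 : n * γ ^ 2 * l ≤ (l * γ) ^ 2 := by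
    nlinarith [mul_le_mul_of_nonneg_left l1 (show 0 ≤ l * γ ^ 2 by positivity)]
  have a4 : L * l ≤ l * γ + 257 * (l * γ) ^ 2 + 4 * d + 80 := by
    nlinarith [mul_le_mul_of_nonneg_right hL l0.le]
  have a5 : σ ^ 2 ≤ σ := by nlinarith
  have a6 : σ ^ 2 * V ^ 2 ≤ σ * (32 + 128 * (l * γ) ^ 2) :=
    mul_le_mul a5 (by linarith) (sq_nonneg _) hσ.le
  have a7 : σ * (l * γ) ≤ 1 / 512 + 128 * σ * (l * γ) ^ 2 := by
    nlinarith [sq_nonneg (1 / 16 - 16 * (σ * (l * γ))),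
      mul_le_mul_of_nonneg_right a5 (sq_nonneg (l * γ))]
  rw [show σ * L / l - W / l ^ 2 = (σ * (L * l) - W) / l ^ 2 by field_simp,
    show 1024 * σ * γ ^ 2 - 1 / (256 * l ^ 2) = (1024 * σ * (l * γ) ^ 2 - 1 / 256) / l ^ 2 by
      field_simp]
  refine div_le_div_of_nonneg_right ?_ (sq_nonneg l)
  nlinarith [mul_le_mul_of_nonneg_left a4 hσ.le, mul_nonneg hσ.le (sq_nonneg (l * γ))]

theorem rj : Kit → IcS → RjS := by
  intro k ic d P m s z H hP hm g1 g2 hA hs hst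
  have d0 : (0 : ℝ) ≤ d := d.cast_nonneg
  have P1 : 1 ≤ P := by nlinarith
  have g0 : 0 < ‖z.2.2‖ := by linarith
  have x0 := norm_pos_iff.1 g0
  have j := k.jet d P z H
  have b := k.bas d P z H P1 x0
  obtain ⟨-, vq, Lq, jq, hvq, hLq⟩ := ic d P z H P1 x0 hA
  have hγ := b.ga0
  have q0 : 0 < ‖yh P z‖ ^ 2 + z.2.1 ^ 2 + m ^ 2 := by positivity
  have j1 := j.sqrt (j.addc (m ^ 2) (j.add jq (j.sq j.jt))) q0
  have hR : 0 < fR P m z := Real.sqrt_pos.2 q0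
  have hy : ‖yh P z‖ ≤ fR P m z :=
    Real.le_sqrt_of_sq_le (by nlinarith [sq_nonneg z.2.1, sq_nonneg m])
  have hn : |z.2.1| ≤ fR P m z :=
    Real.le_sqrt_of_sq_le (by rw [sq_abs]; nlinarith [sq_nonneg ‖yh P z‖, sq_nonneg m])
  have n0 := abs_nonneg z.2.1
  have t1 : 1 / 64 ≤ ‖vx P z.2.2 z.2.2‖ ^ 2 := by nlinarith [b.nt]
  have t2 : ‖vx P z.2.2 z.2.2‖ ^ 2 ≤ 8 := by nlinarith [(b.nx z.2.2).2]
  have t3 : ‖vx P z.2.2 z.2.2‖ ≤ 3 := by nlinarith [norm_nonneg (vx P z.2.2 z.2.2)]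
  change J P z H (fR P m) ((2 * fR P m z)⁻¹ • _) (_ / (2 * fR P m z) - _ / (4 * fR P m z ^ 3)) at j1
  generalize vx P z.2.2 z.2.2 = vt, j.jt = jt at *
  generalize ga P z.2.2 H = γ at *
  set R := fR P m z with hRe
  set v0 := vq + (2 * z.2.1) • vt with hv0
  have e1 : ‖(2 * R)⁻¹ • v0‖ = ‖v0‖ / (2 * R) := by
    rw [norm_smul, norm_inv, Real.norm_of_nonneg (by positivity), inv_mul_eq_div]
  have hv : ‖(2 * R)⁻¹ • v0‖ ≤ 4 + 8 * |z.2.1| * γ := by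
    have a1 : |z.2.1| * γ / ‖z.2.2‖ ≤ 8 * (|z.2.1| * γ) := by
      rw [div_le_iff₀ g0]
      nlinarith [mul_nonneg n0 hγ]
    have a2 : ‖yh P z‖ * (1 + |z.2.1| * γ / ‖z.2.2‖) ≤ R * (1 + 8 * (|z.2.1| * γ)) :=
      mul_le_mul hy (by linarith) (by positivity) hR.le
    have a3 : ‖(2 * z.2.1) • vt‖ ≤ 2 * (R * 3) := by
      rw [norm_smul, norm_mul, Real.norm_ofNat, Real.norm_eq_abs, mul_assoc]
      gcongr
    rw [e1, div_le_iff₀ (by positivity)]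
    linarith [norm_add_le vq ((2 * z.2.1) • vt)]
  have e2 : (Lq + (2 * z.2.1 * 0 + 2 * ‖vt‖ ^ 2)) / (2 * R) - ‖v0‖ ^ 2 / (4 * R ^ 3) =
      (Lq + 2 * ‖vt‖ ^ 2) / (2 * R) - ‖(2 * R)⁻¹ • v0‖ ^ 2 / R := by
    rw [e1]
    field_simp
    ring
  rw [e2] at j1
  have e3 : ∀ c, (z.2.1 * c) ^ 2 = (|z.2.1| * c) ^ 2 := fun c => by rw [mul_pow, mul_pow, sq_abs]
  rw [mul_div_assoc z.2.1, e3, ← mul_div_assoc] at hLq
  have hL := rjA hR hy n0 g1 hγ d0 (Real.le_sqrt_of_sq_le hP) hLq (sq_nonneg _) t2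
    (norm_nonneg _) hv
  generalize (2 * R)⁻¹ • v0 = v at *
  generalize (Lq + 2 * ‖vt‖ ^ 2) / (2 * R) - ‖v‖ ^ 2 / R = L at *
  refine ⟨⟨v, L, j1, hv, by rwa [e3]⟩, fun σ hσ hs' => ?_⟩
  have s1 : σ ≤ 1 := by nlinarith [mul_nonneg hσ.le d0]
  have l0 : 0 < |z.2.1| + σ * R := by positivity
  have j2 := j.log (j.add (j.cmul s jt) (j.cmul σ j1)) (by rw [hst]; exact l0)
  have c1 : ‖s • vt‖ = ‖vt‖ := by rcases hs with rfl | rfl <;> simp
  have c2 : ‖σ • v‖ = σ * ‖v‖ := by rw [norm_smul, Real.norm_of_nonneg hσ.le]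
  refine ⟨_, _, j2, ?_, ?_⟩
  · rw [hst, mul_zero, zero_add]
    refine rjB hR n0 hn hγ d0 hσ hs' (le_of_abs_le hL) (norm_nonneg _) hv ?_
    have c3 : ‖vt‖ ≤ ‖s • vt + σ • v‖ + σ * ‖v‖ := by
      rw [← c1, ← c2]
      simpa using norm_sub_le (s • vt + σ • v) (σ • v)
    nlinarith [pow_le_pow_left₀ (norm_nonneg _) c3 2, sq_nonneg (‖s • vt + σ • v‖ - σ * ‖v‖)]
  · rw [hst, norm_smul, norm_inv, Real.norm_of_nonneg l0.le, inv_mul_eq_div, div_le_iff₀ l0,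
      add_mul, div_mul_cancel₀ _ l0.ne']
    have c3 := norm_add_le (s • vt) (σ • v)
    rw [c1, c2] at c3
    nlinarith [mul_le_mul_of_nonneg_left hv hσ.le,
      show 0 ≤ 8 * σ * γ * (σ * R) by positivity]

end Pool.Agent.MP_815c6c_an.H

end
end MrgPart1

-- marker of a merged file
example : 731051 + 591668 = 731051 + 591668 := rfl
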