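import Mathlib.Analysis.Complex.ExponentialBounds
import Pool.Agent.MP_815c6c_an.H.Win

-- ======== part 0: formerly Pool.Agent.MP_815c6c_an.H.Bar
section MrgPart0

/-! The barrier in the nondegenerate regime. -/

set_option autoImplicit false

noncomputable section

namespace Pool.Agent.MP_815c6c_an.H

open Set Metric MeasureTheory Filter Topology
open scoped ENNReal RealInnerProductSpace
open N (X)
open S (ei vo Wk Sb Vp)

/-- the real inequality for the radial term -/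
theorem bar_rad (d P k r I D V : ℝ) (hd : 0 ≤ d) (hP : 1 ≤ P) (hk : 0 < k) (hr : 0 < r)
    (hg : 1 ≤ k * r ^ 2) (hI : I ≤ r * D) (hV : P⁻¹ * (4 * r ^ 2) ≤ V) :
    -((d + 2 * P) * D ^ 2 / 4) ≤
      -(d + 2 * P) / 2 * (k * r ^ 2) ^ (-(d + 2 * P) / 2 - 1) * (k * (2 * I + 2 * (1 + d / P))) +
      -(d + 2 * P) / 2 * (-(d + 2 * P) / 2 - 1) * (k * r ^ 2) ^ (-(d + 2 * P) / 2 - 2) *
        (k ^ 2 * V) := by
  set q := d + 2 * P with hq
  have q0 : 0 < q := by rw [hq]; linarith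
  have g0 : 0 < k * r ^ 2 := by positivity
  have P0 : 0 < P := by linarith
  set φ := (k * r ^ 2) ^ (-q / 2) with hφ
  have φ0 : 0 < φ := Real.rpow_pos_of_pos g0 _
  have φ1 : φ ≤ 1 := Real.rpow_le_one_of_one_le_of_nonpos hg (by linarith)
  have e1 : (k * r ^ 2) ^ (-q / 2 - 1) = φ / (k * r ^ 2) := Real.rpow_sub_one g0.ne' _
  have e2 : (k * r ^ 2) ^ (-q / 2 - 2) = φ / (k * r ^ 2) ^ 2 := by
    rw [Real.rpow_sub g0, Real.rpow_two]
  rw [e1, e2]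
  have h1 : -q / 2 * (φ / (k * r ^ 2)) * (k * (2 * I + 2 * (1 + d / P))) =
      q * φ / r ^ 2 * (-I - 1 - d / P) := by field_simp; ring
  have h2 : -q / 2 * (-q / 2 - 1) * (φ / (k * r ^ 2) ^ 2) * (k ^ 2 * V) =
      q * φ / r ^ 2 * ((q + 2) / (4 * r ^ 2) * V) := by field_simp; ring
  have h3 : (q + 2) / P ≤ (q + 2) / (4 * r ^ 2) * V := by
    have : (q + 2) / P = (q + 2) / (4 * r ^ 2) * (P⁻¹ * (4 * r ^ 2)) := by field_simp
    rw [this]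
    exact mul_le_mul_of_nonneg_left hV (by positivity)
  have h4 : (q + 2) / P = d / P + 2 + 2 / P := by rw [hq]; field_simp
  have h5 : 0 < 2 / P := by positivity
  have h6 : -(r ^ 2 * D ^ 2 / 4) ≤ -I - 1 - d / P + (q + 2) / (4 * r ^ 2) * V := by
    nlinarith [sq_nonneg (1 - r * D / 2)]
  rw [h1, h2, ← mul_add]
  have h7 : q * φ / r ^ 2 * -(r ^ 2 * D ^ 2 / 4) = -(φ * (q * D ^ 2 / 4)) := by field_simp
  have h8 := mul_le_mul_of_nonneg_left h6 (show 0 ≤ q * φ / r ^ 2 by positivity)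
  have h9 : φ * (q * D ^ 2 / 4) ≤ 1 * (q * D ^ 2 / 4) :=
    mul_le_mul_of_nonneg_right φ1 (by positivity)
  linarith

/-- the barrier -/
def barPsi {d : ℕ} (q M s o : ℝ) (x a : X d) (z₁ y : St d) : ℝ :=
  (4 / s ^ 2 * ‖y.1 - x‖ ^ 2) ^ (-q / 2) -
    128 / (o * s) ^ 2 * (y.2.1 - ⟪y.2.2, y.1 - z₁.1⟫ + -z₁.2.1) ^ 2 +
    M / o ^ 2 * (2 * ‖y.2.2 - a‖ ^ 2 - ‖y.2.2 - z₁.2.2‖ ^ 2 + -(2 * ‖z₁.2.2 - a‖ ^ 2))

theorem bar_sub (k : Kit) {d : ℕ} {P N s o : ℝ} (hP : 1 ≤ P) (hs : 0 < s) (ho : 0 < o)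
    (T : Set (St d)) (x a : X d) (z₁ z : St d) (hz : s / 2 ≤ ‖z.1 - x‖)
    (h14 : ‖z.1 - z₁.1‖ ≤ 14 * s) (hN : o ≤ N * ‖z.2.2‖) :
    Sub P T z (barPsi (d + 2 * P) (N ^ 2 * (d + 2 * P) / 2 + 196 * 128 + 1) s o x a z₁) := by
  have hξ : z.2.2 ≠ 0 := by
    intro h
    rw [h, norm_zero, mul_zero] at hN
    linarith
  refine ⟨_, 2 / o ^ 2, by positivity, Eventually.of_forall fun _ => le_rfl, rfl, fun H hH => ?_⟩
  have j := k.jet d P z H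
  have b := k.bas d P z H hP hξ
  have r0 : 0 < ‖z.1 - x‖ := by linarith
  have k0 : 0 < 4 / s ^ 2 := by positivity
  have g1 : 1 ≤ 4 / s ^ 2 * ‖z.1 - x‖ ^ 2 := by
    rw [div_mul_eq_mul_div, le_div_iff₀ (by positivity)]
    nlinarith
  have j1 := j.rpow (-(d + 2 * P) / 2) (j.cmul (4 / s ^ 2) (b.xx x)) (by positivity)
  have j2 := j.cmul (128 / (o * s) ^ 2) (j.sq (j.addc (-z₁.2.1) (b.pl hH z₁.1)))
  have j3 := j.cmul ((N ^ 2 * (d + 2 * P) / 2 + 196 * 128 + 1) / o ^ 2)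
    (j.addc (-(2 * ‖z₁.2.2 - a‖ ^ 2)) (j.sub (j.cmul 2 (b.ww a)) (b.ww z₁.2.2)))
  refine ⟨_, _, j.add (j.sub j1 j2) j3, ?_⟩
  have d0 : (0 : ℝ) ≤ d := Nat.cast_nonneg d
  have hV : P⁻¹ * (4 * ‖z.1 - x‖ ^ 2) ≤ ‖vx P z.2.2 ((2 : ℝ) • (z.1 - x))‖ ^ 2 := by
    have := (b.nx ((2 : ℝ) • (z.1 - x))).1
    rw [norm_smul, Real.norm_ofNat, mul_pow] at this
    convert this using 3
    norm_num
  have h1 := bar_rad d P (4 / s ^ 2) ‖z.1 - x‖ ⟪z.1 - x, dr z.2.2 H⟫ ‖dr z.2.2 H‖ _ d0 hP k0 r0 g1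
    (real_inner_le_norm _ _) hV
  rw [norm_smul, Real.norm_of_nonneg k0.le, mul_pow, norm_neg]
  have s0 := b.sg0
  have h2 : ‖dr z.2.2 H‖ ^ 2 * o ^ 2 ≤ N ^ 2 * (4 * sg P z.2.2 H) := by
    have h : o ^ 2 ≤ (N * ‖z.2.2‖) ^ 2 := pow_le_pow_left₀ ho.le hN 2
    have h' := mul_le_mul_of_nonneg_left h (sq_nonneg ‖dr z.2.2 H‖)
    have h'' := mul_le_mul_of_nonneg_left b.nd (sq_nonneg N)
    nlinarith
  have h3 : (d + 2 * P) * ‖dr z.2.2 H‖ ^ 2 / 4 ≤ (d + 2 * P) * N ^ 2 * sg P z.2.2 H / o ^ 2 := by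
    rw [le_div_iff₀ (by positivity)]
    have := mul_le_mul_of_nonneg_left h2 (show 0 ≤ d + 2 * P by linarith)
    linarith
  have h4 : ‖vh P z.2.2 H (z.1 - z₁.1)‖ ^ 2 ≤ 196 * s ^ 2 * sg P z.2.2 H := by
    refine (b.nh _).trans (mul_le_mul_of_nonneg_right ?_ s0)
    have := pow_le_pow_left₀ (norm_nonneg _) h14 2
    linarith
  have h5 : 128 / (o * s) ^ 2 * (2 * ‖vh P z.2.2 H (z.1 - z₁.1)‖ ^ 2) ≤
      128 * 392 * sg P z.2.2 H / o ^ 2 := by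
    have e : 128 * 392 * sg P z.2.2 H / o ^ 2 =
        128 / (o * s) ^ 2 * (2 * (196 * s ^ 2 * sg P z.2.2 H)) := by field_simp; ring
    rw [e]
    exact mul_le_mul_of_nonneg_left (by linarith) (by positivity)
  have h6 : (N ^ 2 * (d + 2 * P) / 2 + 196 * 128 + 1) / o ^ 2 *
      (2 * (2 * sg P z.2.2 H) - 2 * sg P z.2.2 H) =
      (d + 2 * P) * N ^ 2 * sg P z.2.2 H / o ^ 2 + 128 * 392 * sg P z.2.2 H / o ^ 2 +
        2 / o ^ 2 * sg P z.2.2 H := by field_simp; ring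
  rw [h6, mul_zero, zero_add]
  linarith

theorem bar_cont {d : ℕ} (q M s o : ℝ) (hs : 0 < s) (x a : X d) (z₁ : St d) :
    ContinuousOn (barPsi q M s o x a z₁) {z | s / 2 ≤ ‖z.1 - x‖} := by
  unfold barPsi
  refine ContinuousOn.add (ContinuousOn.sub ?_ (by fun_prop)) (by fun_prop)
  refine ContinuousOn.rpow_const (by fun_prop) fun z hz => Or.inl ?_
  have h : s / 2 ≤ ‖z.1 - x‖ := hz
  have r0 : 0 < ‖z.1 - x‖ := by linarith
  positivity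

/-- the last estimate -/
theorem bar_end (s o M w e r I : ℝ) (hs : 0 < s) (ho : 0 < o) (hM : 196 * 128 ≤ M) (he : 0 ≤ e)
    (hr : r ≤ 7 * s) (hI : |I| ≤ e * r)
    (h : 128 / (o * s) ^ 2 * w ^ 2 + M / o ^ 2 * e ^ 2 ≤ 1) : |w + I| ≤ o * s / 4 := by
  have p1 : 0 ≤ 128 / (o * s) ^ 2 * w ^ 2 := by positivity
  have p2 : 0 ≤ M / o ^ 2 * e ^ 2 := by
    have : 0 ≤ M := by linarith
    positivity
  have h1 : 128 * w ^ 2 ≤ (o * s) ^ 2 := by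
    have : 128 / (o * s) ^ 2 * w ^ 2 ≤ 1 := by linarith
    rwa [div_mul_eq_mul_div, div_le_one (by positivity)] at this
  have h2 : M * e ^ 2 ≤ o ^ 2 := by
    have : M / o ^ 2 * e ^ 2 ≤ 1 := by linarith
    rwa [div_mul_eq_mul_div, div_le_one (by positivity)] at this
  have os : 0 < o * s := by positivity
  have h3 : |w| ≤ o * s / 8 := abs_le_of_sq_le_sq' (by nlinarith) (by positivity) |> abs_le.2
  have h4 : e ≤ o / 56 := by
    have := mul_le_mul_of_nonneg_right hM (sq_nonneg e)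
    exact (abs_le_of_sq_le_sq' (by nlinarith) (by positivity)).2
  have h5 : e * r ≤ o / 56 * (7 * s) :=
    (mul_le_mul_of_nonneg_left hr he).trans (mul_le_mul_of_nonneg_right h4 (by positivity))
  have := abs_add_le w I
  linarith

theorem bar (k : Kit) : BarS := by
  intro d P N hP hN
  have d0 : (0 : ℝ) ≤ d := Nat.cast_nonneg d
  set q : ℝ := d + 2 * P with hq
  have q0 : 0 < q := by rw [hq]; linarith
  set M : ℝ := N ^ 2 * q / 2 + 196 * 128 + 1 with hM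
  have M0 : 196 * 128 ≤ M := by
    have : 0 ≤ N ^ 2 * q / 2 := by positivity
    rw [hM]; linarith
  set α : ℝ := (144 : ℝ) ^ (-q / 2) with hα
  set β : ℝ := (256 : ℝ) ^ (-q / 2) with hβ
  have β0 : 0 < β := Real.rpow_pos_of_pos (by norm_num) _
  have βα : β < α := Real.rpow_lt_rpow_of_neg (by norm_num) (by norm_num) (by linarith)
  have M1 : 0 < M := by linarith
  refine ⟨min 1 ((α - β) / (8 * M)), lt_min one_pos (div_pos (by linarith) (by linarith)), ?_⟩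
  intro U u T x a s o z₁ vs hs ho hU hT h1 r1 r2 hc
  set c := min 1 ((α - β) / (8 * M)) with hcd
  have c1 : c ≤ 1 := min_le_left _ _
  have c2 : 8 * M * c ≤ α - β := by
    have : c ≤ (α - β) / (8 * M) := min_le_right _ _
    rw [le_div_iff₀ (by linarith)] at this
    linarith
  have kU : {y : X d | s / 2 ≤ ‖y - x‖ ∧ ‖y - x‖ ≤ 8 * s} ⊆ closedBall x (8 * s) :=
    fun y hy => mem_closedBall_iff_norm.2 hy.2
  have kc : IsCompact {y : X d | s / 2 ≤ ‖y - x‖ ∧ ‖y - x‖ ≤ 8 * s} :=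
    (isCompact_closedBall x (8 * s)).of_isClosed_subset
      (IsClosed.and (isClosed_le continuous_const (by fun_prop))
        (isClosed_le (by fun_prop) continuous_const)) kU
  obtain ⟨z, ⟨zT, z1, z2⟩, zB, hz⟩ := k.mp d P U u T _
    {z | ‖z.1 - x‖ = s / 2 ∨ ‖z.1 - x‖ = 8 * s} (barPsi q M s o x a z₁) hP vs
    (vs.cpt _ (kU.trans hU) kc) (fun z hz => hz.1)
    ((bar_cont q M s o hs x a z₁).mono fun z hz => hz.2.1)
    (by
      rintro z ⟨zT, z1, z2⟩ zB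
      have n1 : ‖z.1 - x‖ ≠ s / 2 := fun h => zB (Or.inl h)
      have n2 : ‖z.1 - x‖ ≠ 8 * s := fun h => zB (Or.inr h)
      have hN' := (hT z zT z2).1
      refine ⟨fun h => ?_, ?_, bar_sub k hP hs ho T x a z₁ z z1 ?_ hN'⟩
      · rw [h, norm_zero, mul_zero] at hN'
        linarith
      · have cn : ContinuousAt (fun y : St d => ‖y.1 - x‖) z := by fun_prop
        have e1 := cn.eventually (lt_mem_nhds (lt_of_le_of_ne z1 n1.symm))
        have e2 := cn.eventually (gt_mem_nhds (lt_of_le_of_ne z2 n2))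
        filter_upwards [self_mem_nhdsWithin, mem_nhdsWithin_of_mem_nhds e1,
          mem_nhdsWithin_of_mem_nhds e2] with y hy a1 a2
        exact ⟨hy, a1.le, a2.le⟩
      · have := norm_sub_le_norm_sub_add_norm_sub z.1 x z₁.1
        rw [norm_sub_rev x] at this
        linarith)
    z₁ ⟨h1, by linarith, by linarith⟩ ((α - β) / 4) (by linarith)
  have v1 : α ≤ barPsi q M s o x a z₁ z₁ := by
    have r0 : 0 < ‖z₁.1 - x‖ := by linarith
    have g : 4 / s ^ 2 * ‖z₁.1 - x‖ ^ 2 ≤ 144 := by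
      rw [div_mul_eq_mul_div, div_le_iff₀ (by positivity)]
      nlinarith
    have := Real.rpow_le_rpow_of_nonpos (by positivity) g (show -q / 2 ≤ 0 by linarith)
    simpa [barPsi] using this
  have br : M / o ^ 2 * (2 * ‖z.2.2 - a‖ ^ 2 - ‖z.2.2 - z₁.2.2‖ ^ 2 + -(2 * ‖z₁.2.2 - a‖ ^ 2)) ≤
      (α - β) / 2 - M / o ^ 2 * ‖z.2.2 - z₁.2.2‖ ^ 2 := by
    have a1 := pow_le_pow_left₀ (norm_nonneg _) (hT z zT z2).2 2
    have a2 := pow_le_pow_left₀ (mul_nonneg (by linarith) ho.le) hc 2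
    have a3 : 2 * ‖z.2.2 - a‖ ^ 2 - 2 * ‖z₁.2.2 - a‖ ^ 2 ≤ 4 * c * o ^ 2 := by
      nlinarith [sq_nonneg (c * o)]
    have a4 := mul_le_mul_of_nonneg_left a3 (show 0 ≤ M / o ^ 2 by positivity)
    have a5 : M / o ^ 2 * (4 * c * o ^ 2) = 4 * M * c := by field_simp
    linarith
  unfold barPsi at hz
  have p1 : 0 ≤ 128 / (o * s) ^ 2 * (z.2.1 - ⟪z.2.2, z.1 - z₁.1⟫ + -z₁.2.1) ^ 2 := by positivity
  have p2 : 0 ≤ M / o ^ 2 * ‖z.2.2 - z₁.2.2‖ ^ 2 := by positivity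
  unfold barPsi at v1
  rcases zB with zB | zB
  · refine ⟨z.1, zB, ?_⟩
    have g : 4 / s ^ 2 * ‖z.1 - x‖ ^ 2 = 1 := by rw [zB]; field_simp; norm_num
    rw [g, Real.one_rpow] at hz
    have r7 : ‖z.1 - z₁.1‖ ≤ 7 * s := by
      have := norm_sub_le_norm_sub_add_norm_sub z.1 x z₁.1
      rw [norm_sub_rev x] at this
      linarith
    have := bar_end s o M (z.2.1 - ⟪z.2.2, z.1 - z₁.1⟫ + -z₁.2.1) ‖z.2.2 - z₁.2.2‖ ‖z.1 - z₁.1‖
      ⟪z.2.2 - z₁.2.2, z.1 - z₁.1⟫ hs ho M0 (norm_nonneg _) r7 (abs_real_inner_le_norm _ _)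
      (by linarith)
    rw [← (vs.gr z zT).2, ← (vs.gr z₁ h1).2]
    convert this using 2
    rw [inner_sub_left]
    ring
  · have g : 4 / s ^ 2 * ‖z.1 - x‖ ^ 2 = 256 := by rw [zB]; field_simp; norm_num
    rw [g] at hz
    exfalso
    linarith

end Pool.Agent.MP_815c6c_an.H

end
end MrgPart0

-- ======== part 1: formerly Pool.Agent.MP_815c6c_an.H.Sz
section MrgPart1

/-! The sizes of the barrier of a window. -/

set_option autoImplicit false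

noncomputable section

namespace Pool.Agent.MP_815c6c_an.H

open Set Metric MeasureTheory Filter Topology
open scoped ENNReal RealInnerProductSpace
open N (X)

theorem sz_log {s R n : ℝ} (hs : 0 < s) (hs1 : s ≤ 1) (hR : 0 < R) (hn : 0 ≤ n) (hn1 : n ≤ R) :
    Real.log s + Real.log R ≤ Real.log (n + s * R) ∧
      Real.log (n + s * R) ≤ Real.log 2 + Real.log R := by
  rw [← Real.log_mul hs.ne' hR.ne', ← Real.log_mul two_ne_zero hR.ne']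
  have h := mul_pos hs hR
  exact ⟨Real.log_le_log h (by linarith), Real.log_le_log (by linarith) (by nlinarith)⟩

theorem sz_th {t R T Y : ℝ} (ht : 0 < t) (ht1 : t ≤ 1 / 8) (hR : 0 < R) (hT : t * R ≤ T)
    (hY : |Y| ≤ R) : Real.log T ≤ Real.log (64 * T ^ 2 + Y ^ 2) / 2 ∧
      Real.log (64 * T ^ 2 + Y ^ 2) / 2 ≤ Real.log 2 - Real.log t + Real.log T := by
  have h0 : 0 < T := (mul_pos ht hR).trans_le hT
  have h1 : Real.log (T ^ 2) ≤ Real.log (64 * T ^ 2 + Y ^ 2) :=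
    Real.log_le_log (by positivity) (by nlinarith [sq_nonneg T, sq_nonneg Y])
  have h2 : Real.log (64 * T ^ 2 + Y ^ 2) ≤ Real.log ((2 / t * T) ^ 2) := by
    refine Real.log_le_log (by positivity) ?_
    have h3 : Y ^ 2 ≤ R ^ 2 := by rw [← sq_abs Y]; exact pow_le_pow_left₀ (abs_nonneg Y) hY 2
    have h4 : (t * R) ^ 2 ≤ T ^ 2 := pow_le_pow_left₀ (by positivity) hT 2
    have h5 : t ^ 2 ≤ (1 / 8) ^ 2 := pow_le_pow_left₀ ht.le ht1 2
    have h6 : t ^ 2 * Y ^ 2 ≤ t ^ 2 * R ^ 2 := mul_le_mul_of_nonneg_left h3 (sq_nonneg t)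
    have h7 : t ^ 2 * T ^ 2 ≤ (1 / 8) ^ 2 * T ^ 2 := mul_le_mul_of_nonneg_right h5 (sq_nonneg T)
    rw [div_mul_eq_mul_div, div_pow, le_div_iff₀ (by positivity)]
    nlinarith [sq_nonneg T]
  rw [Real.log_pow] at h1 h2
  rw [Real.log_mul (by positivity) h0.ne', Real.log_div two_ne_zero ht.ne'] at h2
  push_cast at h1 h2
  constructor <;> linarith

variable {d : ℕ} {P A B s₀ s₂ t₁ : ℝ}

theorem sz_par (h : Par d P A B s₀ s₂ t₁) : s₀ ≤ 1 ∧ s₂ ≤ 1 ∧ t₁ ≤ 1 / 8 ∧ 1 ≤ P := by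
  have hd : (0 : ℝ) ≤ d := Nat.cast_nonneg d
  have h1 := mul_nonneg h.s0.le hd
  have h2 := mul_nonneg h.s2.le hd
  have h3 := mul_nonneg h.t0.le hd
  exact ⟨by nlinarith [h.sd0, h.s0], by nlinarith [h.sd2, h.s2], by nlinarith [h.td, h.t0],
    by nlinarith [h.pk, h.a2]⟩

theorem sz_Fc (h : Par d P A B s₀ s₂ t₁) {n R Y : ℝ} (hR : 0 < R) (hn : 0 ≤ n) (hn1 : n ≤ R)
    (hY : |Y| ≤ R) :
    Real.log t₁ / 4096 - (A + B) * Real.log 2 - (A + B - 1 / 4096) * Real.log R ≤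
      Fc A B s₀ s₂ t₁ n R Y ∧
    Fc A B s₀ s₂ t₁ n R Y ≤ Real.log 2 / 4096 + (Real.log 2 - Real.log t₁) - A * Real.log s₀ -
      B * Real.log s₂ - (A + B - 1 / 4096) * Real.log R := by
  obtain ⟨p0, p2, p1, -⟩ := sz_par h
  have hA : 0 ≤ A := by linarith [h.a2]
  obtain ⟨a1, a2⟩ := sz_log h.t0 (by linarith) hR hn hn1
  obtain ⟨b1, b2⟩ := sz_log h.s0 p0 hR hn hn1
  obtain ⟨c1, c2⟩ := sz_log h.s2 p2 hR hn hn1
  obtain ⟨e1, e2⟩ := sz_th (T := n + t₁ * R) h.t0 p1 hR (by linarith) hY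
  have b3 := mul_le_mul_of_nonneg_left b1 hA
  have b4 := mul_le_mul_of_nonneg_left b2 hA
  have c3 := mul_le_mul_of_nonneg_left c1 h.b0
  have c4 := mul_le_mul_of_nonneg_left c2 h.b0
  unfold Fc Th
  constructor <;> linarith

theorem sz_R (P m : ℝ) (z : St d) :
    ‖yh P z‖ ≤ fR P m z ∧ |z.2.1| ≤ fR P m z ∧ m ≤ fR P m z := by
  have h1 := sq_nonneg ‖yh P z‖
  have h2 := sq_nonneg z.2.1
  have h3 := sq_nonneg m
  exact ⟨Real.le_sqrt_of_sq_le (by linarith), Real.abs_le_sqrt (by linarith),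
    Real.le_sqrt_of_sq_le (by linarith)⟩

theorem sz_sh (z : St d) (hg : 1 / 8 ≤ ‖z.2.2‖) :
    ‖(z.2.1 / ‖z.2.2‖ ^ 2) • z.2.2‖ ≤ 8 * |z.2.1| := by
  have h0 : 0 < ‖z.2.2‖ := by linarith
  rw [norm_smul, Real.norm_eq_abs, abs_div, abs_of_pos (pow_pos h0 2), div_mul_eq_mul_div,
    div_le_iff₀ (pow_pos h0 2)]
  have h1 := mul_nonneg (abs_nonneg z.2.1) h0.le
  nlinarith

theorem sz_cont (h : Par d P A B s₀ s₂ t₁) {m : ℝ} (hm : 0 < m) (e : X d) :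
    ContinuousOn (chi P A B s₀ s₂ t₁ m e) {z | z.2.2 ≠ 0} := by
  have c1 : ContinuousOn (yh P : St d → X d) {z | z.2.2 ≠ 0} := by
    have a1 : Continuous fun z : St d => z.2.1 := by fun_prop
    have a2 : Continuous fun z : St d => ‖z.2.2‖ ^ 2 := by fun_prop
    have a3 : Continuous fun z : St d => z.2.2 := by fun_prop
    exact ContinuousOn.const_smul (continuousOn_fst.sub (ContinuousOn.smul
      (a1.continuousOn.div a2.continuousOn fun z hz => pow_ne_zero 2 (norm_ne_zero_iff.2 hz))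
      a3.continuousOn)) (√P)
  have c2 : ContinuousOn (fR P m : St d → ℝ) {z | z.2.2 ≠ 0} := by
    unfold fR
    exact (((c1.norm.pow 2).add (by fun_prop)).add continuousOn_const).sqrt
  have c3 : ContinuousOn (fun z : St d => ⟪e, yh P z⟫) {z | z.2.2 ≠ 0} :=
    (innerSL ℝ e).continuous.comp_continuousOn c1
  have c4 : ∀ s : ℝ, ContinuousOn (fun z : St d => |z.2.1| + s * fR P m z) {z | z.2.2 ≠ 0} :=
    fun s => ContinuousOn.add (by fun_prop) (continuousOn_const.mul c2)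
  have c5 : ∀ s : ℝ, 0 < s → ∀ z : St d, 0 < |z.2.1| + s * fR P m z := fun s hs z =>
    add_pos_of_nonneg_of_pos (abs_nonneg _) (mul_pos hs (hm.trans_le (sz_R P m z).2.2))
  have c6 : ∀ s : ℝ, 0 < s → ContinuousOn (fun z : St d => Real.log (|z.2.1| + s * fR P m z))
      {z | z.2.2 ≠ 0} := fun s hs => (c4 s).log fun z _ => (c5 s hs z).ne'
  unfold chi Fc Th
  refine ((ContinuousOn.sub (ContinuousOn.div_const (ContinuousOn.log
    ((continuousOn_const.mul ((c4 t₁).pow 2)).add (c3.pow 2)) fun z _ => ?_) 2)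
    (continuousOn_const.mul (c6 t₁ h.t0))).sub (continuousOn_const.mul (c6 s₀ h.s0))).sub
    (continuousOn_const.mul (c6 s₂ h.s2))
  exact (add_pos_of_pos_of_nonneg (mul_pos (by norm_num) (pow_pos (c5 t₁ h.t0 z) 2))
    (sq_nonneg _)).ne'

theorem sz : SzS := by
  intro d P A B s₀ s₂ t₁ ρ S e h hρ hS1 hS2 he
  obtain ⟨p0, p2, p1, hP⟩ := sz_par h
  have hq : 1 ≤ √P := Real.one_le_sqrt.2 hP
  have hq0 : 0 < √P := by linarith
  have hm : 0 < √P * ρ := mul_pos hq0 hρ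
  have hqq : √P * √P = P := Real.mul_self_sqrt h.p0
  have hL : 0 ≤ Real.log P := Real.log_nonneg hP
  have hLq : Real.log √P = Real.log P / 2 := Real.log_sqrt h.p0
  have ha : 0 ≤ A + B - 1 / 4096 := by linarith [h.a2, h.b0]
  refine ⟨sz_cont h hm e, (A + B - 1 / 4096) * Real.log (P * ρ / 9) -
    (Real.log 2 / 4096 + (Real.log 2 - Real.log t₁) - A * Real.log s₀ - B * Real.log s₂),
    fun z hz => ?_⟩
  obtain ⟨g1, -, g3⟩ := hz
  obtain ⟨r1, r2, r3⟩ := sz_R P (√P * ρ) z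
  have hR : 0 < fR P (√P * ρ) z := hm.trans_le r3
  have hY : |⟪e, yh P z⟫| ≤ fR P (√P * ρ) z := by
    refine (abs_real_inner_le_norm _ _).trans ?_
    rw [he, one_mul]
    exact r1
  obtain ⟨lo, up⟩ := sz_Fc h hR (abs_nonneg z.2.1) r2 hY
  have hs := sz_sh z g1
  have hy : ‖yh P z‖ = √P * ‖z.1 - (z.2.1 / ‖z.2.2‖ ^ 2) • z.2.2‖ := by
    rw [yh, norm_smul, Real.norm_of_nonneg hq0.le]
  have l9 : Real.log (P * ρ / 9) = Real.log P + Real.log ρ - Real.log 9 := by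
    rw [Real.log_div (by positivity) (by norm_num), Real.log_mul (by positivity) hρ.ne']
  have lm : Real.log (√P * ρ) = Real.log P / 2 + Real.log ρ := by
    rw [Real.log_mul hq0.ne' hρ.ne', hLq]
  unfold chi
  refine ⟨fun hx => ?_, fun hx => ?_, ?_⟩
  · have h1 : ‖z.1‖ ≤ ‖z.1 - (z.2.1 / ‖z.2.2‖ ^ 2) • z.2.2‖ + ‖(z.2.1 / ‖z.2.2‖ ^ 2) • z.2.2‖ :=
      norm_le_norm_sub_add _ _
    have h2 := mul_le_mul_of_nonneg_right hq
      (norm_nonneg (z.1 - (z.2.1 / ‖z.2.2‖ ^ 2) • z.2.2))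
    have h3 : Real.log (P * ρ / 9) ≤ Real.log (fR P (√P * ρ) z) :=
      Real.log_le_log (by positivity) (by linarith)
    have h4 := mul_le_mul_of_nonneg_left h3 ha
    linarith
  · have h1 : |S * ⟪e, z.1⟫| ≤ 2 * ‖z.1‖ := by
      rw [abs_mul, abs_of_nonneg (by linarith : 0 ≤ S)]
      refine mul_le_mul hS2 ((abs_real_inner_le_norm _ _).trans ?_) (abs_nonneg _) zero_le_two
      rw [he, one_mul]
    have h2 : |z.2.1| ≤ 6 * ρ := by
      have h3 := abs_sub_abs_le_abs_sub z.2.1 (S * ⟪e, z.1⟫)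
      have h4 : t₁ / 64 * ‖z.1‖ ≤ 1 * ‖z.1‖ :=
        mul_le_mul_of_nonneg_right (by linarith) (norm_nonneg _)
      linarith
    have h3 : ‖yh P z‖ ≤ 50 * (√P * ρ) := by
      have h4 := norm_sub_le z.1 ((z.2.1 / ‖z.2.2‖ ^ 2) • z.2.2)
      have h5 := mul_le_mul_of_nonneg_left
        (show ‖z.1 - (z.2.1 / ‖z.2.2‖ ^ 2) • z.2.2‖ ≤ 50 * ρ by linarith) hq0.le
      linarith
    have h4 : fR P (√P * ρ) z ≤ 51 * (√P * ρ) := by
      refine Real.sqrt_le_iff.2 ⟨by positivity, ?_⟩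
      have h5 := pow_le_pow_left₀ (norm_nonneg _) h3 2
      have h6 : |z.2.1| ≤ 6 * (√P * ρ) := by
        have := mul_le_mul_of_nonneg_right hq hρ.le
        linarith
      have h7 := pow_le_pow_left₀ (abs_nonneg _) h6 2
      rw [sq_abs] at h7
      generalize √P * ρ = w at h5 h7 ⊢
      rw [mul_pow] at h5 h7 ⊢
      linarith [sq_nonneg w]
    have h5 : Real.log (fR P (√P * ρ) z) ≤ Real.log 51 + (Real.log P / 2 + Real.log ρ) := by
      rw [← lm, ← Real.log_mul (by norm_num) hm.ne']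
      exact Real.log_le_log hR h4
    have h6 : Real.log 51 + Real.log 9 ≤ 7 := by
      rw [← Real.log_mul (by norm_num) (by norm_num)]
      have h7 : Real.log (51 * 9) ≤ Real.log (2 ^ 9) :=
        Real.log_le_log (by norm_num) (by norm_num)
      rw [Real.log_pow] at h7
      have := Real.log_two_lt_d9
      push_cast at h7
      linarith
    have h7 := mul_le_mul_of_nonneg_left (show Real.log P / 2 - 7 ≤
      Real.log (P * ρ / 9) - Real.log (fR P (√P * ρ) z) by linarith) ha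
    have h8 : Real.log 2 - Real.log s₂ ≤ Real.log P / 2 := by
      rw [← hLq, ← Real.log_div two_ne_zero h.s2.ne']
      refine Real.log_le_log (div_pos two_pos h.s2) ?_
      rw [div_le_iff₀ h.s2]
      linarith [h.sp]
    have h9 := mul_le_mul_of_nonneg_left h8 h.b0
    have h10 := mul_le_mul_of_nonneg_right h.b1 hL
    have h11 := mul_nonneg h.b0 hL
    have h12 := mul_le_mul_of_nonneg_right h.a2 hL
    have h13 : Real.log t₁ ≤ Real.log 2 := Real.log_le_log h.t0 (by linarith)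
    have h14 := h.sz
    rw [Real.log_div two_ne_zero h.t0.ne', Real.log_div two_ne_zero h.s0.ne'] at h14
    have h15 := h.b1
    linarith
  · have h1 : Real.log P / 2 + Real.log ρ ≤ Real.log (fR P (√P * ρ) z) := by
      rw [← lm]
      exact Real.log_le_log hm r3
    have h2 : 0 ≤ Real.log 9 := Real.log_nonneg (by norm_num)
    have h3 := mul_le_mul_of_nonneg_left (show Real.log (P * ρ / 9) -
      Real.log (fR P (√P * ρ) z) ≤ Real.log P / 2 by linarith) ha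
    have h10 := mul_le_mul_of_nonneg_right h.b1 hL
    have h12 := mul_le_mul_of_nonneg_right h.a2 hL
    linarith

end Pool.Agent.MP_815c6c_an.H

end
end MrgPart1

-- ======== part 2: formerly Pool.Agent.MP_815c6c_an.H.Th
section MrgPart2

/-! Row TH: the jet of the main term `Th`. -/

set_option autoImplicit false

noncomputable section

namespace Pool.Agent.MP_815c6c_an.H

open Set Metric MeasureTheory Filter Topology
open scoped ENNReal RealInnerProductSpace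

theorem th_b1 (s : ℝ) : |64 / (64 + s ^ 2) - 4095 / 4096| ≤ 1 := by
  have hq : (0 : ℝ) < 64 + s ^ 2 := by positivity
  have h0 : 0 ≤ 64 / (64 + s ^ 2) := by positivity
  have h1 : 64 / (64 + s ^ 2) ≤ 1 := by
    rw [div_le_one hq]; nlinarith [sq_nonneg s]
  rw [abs_le]; constructor <;> linarith

theorem th_b2 (s : ℝ) : |s / (64 + s ^ 2)| ≤ 1 / 16 := by
  have hq : (0 : ℝ) < 64 + s ^ 2 := by positivity
  rw [abs_le]; constructor
  · rw [le_div_iff₀ hq]; nlinarith [sq_nonneg (s + 8)]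
  · rw [div_le_iff₀ hq]; nlinarith [sq_nonneg (s - 8)]

theorem th_b3 (s : ℝ) : 0 ≤ (192 * s ^ 2 + s ^ 4) / (64 + s ^ 2) ^ 2 ∧
    (192 * s ^ 2 + s ^ 4) / (64 + s ^ 2) ^ 2 ≤ 9 / 8 := by
  have hq : (0 : ℝ) < (64 + s ^ 2) ^ 2 := by positivity
  refine ⟨by positivity, ?_⟩
  rw [div_le_iff₀ hq]; nlinarith [sq_nonneg (s ^ 2 - 192)]

theorem th_b4 (s : ℝ) : |-256 * s / (64 + s ^ 2) ^ 2| ≤ 1 / 4 := by
  have hq : (0 : ℝ) < (64 + s ^ 2) ^ 2 := by positivity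
  have h4 : 0 ≤ s ^ 4 := by positivity
  rw [abs_le]; constructor
  · rw [le_div_iff₀ hq]; nlinarith [sq_nonneg (s - 8), sq_nonneg s]
  · rw [div_le_iff₀ hq]; nlinarith [sq_nonneg (s + 8), sq_nonneg s]

theorem th_b5 (s : ℝ) : |(64 - s ^ 2) / (64 + s ^ 2) ^ 2| ≤ 1 / 64 := by
  have hq : (0 : ℝ) < (64 + s ^ 2) ^ 2 := by positivity
  have h4 : 0 ≤ s ^ 4 := by positivity
  rw [abs_le]; constructor
  · rw [le_div_iff₀ hq]; nlinarith [sq_nonneg s]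
  · rw [div_le_iff₀ hq]; nlinarith [sq_nonneg s]

theorem th_b6 (s : ℝ) : (192 * s ^ 2 + s ^ 4) / (64 + s ^ 2) ^ 2 / 64 +
    (64 - s ^ 2) / (64 + s ^ 2) ^ 2 = 1 / 64 := by
  have hq : (64 + s ^ 2 : ℝ) ≠ 0 := by positivity
  field_simp
  ring

theorem th_mul {a b A B : ℝ} (ha : |a| ≤ A) (hb : |b| ≤ B) : -(A * B) ≤ a * b := by
  have h : |a * b| ≤ A * B := by
    rw [abs_mul]
    exact mul_le_mul ha hb (abs_nonneg _) ((abs_nonneg _).trans ha)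
  exact (abs_le.1 h).1

theorem th_quad {E : Type} [NormedAddCommGroup E] [InnerProductSpace ℝ E] (n δ π ρ : E)
    (A₁ A₂ A₃ : ℝ) (h0 : 0 ≤ A₁) (h1 : A₁ ≤ 9 / 8) (h2 : |A₂| ≤ 1 / 4) (h3 : |A₃| ≤ 1 / 64)
    (h6 : A₁ / 64 + A₃ = 1 / 64) (hn : 1 / 64 ≤ ‖n‖ ^ 2) (hn' : ‖n‖ ^ 2 ≤ 8)
    (ho : ⟪π, n⟫ = 0) (hπ : ‖π‖ ≤ 1) :
    ‖π‖ ^ 2 / 64 - 8 / 4096 - 14 * (‖δ‖ + ‖ρ‖) - 2 * (‖δ‖ + ‖ρ‖) ^ 2 ≤
      (A₁ - 1 / 4096) * ‖n + δ‖ ^ 2 + A₂ * ⟪n + δ, π + ρ⟫ + A₃ * ‖π + ρ‖ ^ 2 := by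
  have hn3 : ‖n‖ ≤ 3 := by nlinarith [norm_nonneg n]
  have hd := norm_nonneg δ
  have hr := norm_nonneg ρ
  have hp := norm_nonneg π
  have i1 : |⟪n, δ⟫| ≤ 3 * ‖δ‖ :=
    (abs_real_inner_le_norm n δ).trans (mul_le_mul_of_nonneg_right hn3 hd)
  have i2 : |⟪n, ρ⟫| ≤ 3 * ‖ρ‖ :=
    (abs_real_inner_le_norm n ρ).trans (mul_le_mul_of_nonneg_right hn3 hr)
  have i3 : |⟪δ, π⟫| ≤ ‖δ‖ * 1 :=
    (abs_real_inner_le_norm δ π).trans (mul_le_mul_of_nonneg_left hπ hd)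
  have i4 : |⟪δ, ρ⟫| ≤ ‖δ‖ * ‖ρ‖ := abs_real_inner_le_norm δ ρ
  have i5 : |⟪π, ρ⟫| ≤ 1 * ‖ρ‖ :=
    (abs_real_inner_le_norm π ρ).trans (mul_le_mul_of_nonneg_right hπ hr)
  have i0 : ⟪n, π⟫ = 0 := by rw [real_inner_comm]; exact ho
  have ha : |A₁ - 1 / 4096| ≤ 9 / 8 := by rw [abs_le]; constructor <;> linarith
  have e1 := th_mul ha i1
  have e2 := th_mul h2 i2
  have e3 := th_mul h2 i3
  have e4 := th_mul h2 i4
  have e5 := th_mul h3 i5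
  have e6 := th_mul ha (le_of_eq (abs_of_nonneg (sq_nonneg ‖δ‖)))
  have e7 := th_mul h3 (le_of_eq (abs_of_nonneg (sq_nonneg ‖ρ‖)))
  have hp2 : ‖π‖ ^ 2 ≤ 1 := by nlinarith
  have m1 : A₁ * (‖π‖ ^ 2 / 64) ≤ A₁ * ‖n‖ ^ 2 := mul_le_mul_of_nonneg_left (by linarith) h0
  have m2 : A₁ * (‖π‖ ^ 2 / 64) + A₃ * ‖π‖ ^ 2 = ‖π‖ ^ 2 / 64 := by
    have : A₃ = 1 / 64 - A₁ / 64 := by linarith
    rw [this]; ring
  have hdr := mul_nonneg hd hr
  rw [norm_add_sq_real, norm_add_sq_real, inner_add_left, inner_add_right, inner_add_right, i0]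
  nlinarith [sq_nonneg ‖δ‖, sq_nonneg ‖ρ‖]

theorem th_sq {E : Type} [NormedAddCommGroup E] [InnerProductSpace ℝ E] (a b : E) (x y : ℝ) :
    ‖(64 : ℝ) • (x • a) + y • b‖ ^ 2 =
      (64 * x) ^ 2 * ‖a‖ ^ 2 + 2 * (64 * x) * y * ⟪a, b⟫ + y ^ 2 * ‖b‖ ^ 2 := by
  rw [smul_smul, norm_add_sq_real, norm_smul, norm_smul, real_inner_smul_left,
    real_inner_smul_right, mul_pow, mul_pow, Real.norm_eq_abs, Real.norm_eq_abs, sq_abs, sq_abs]
  ring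

theorem th_vec {E : Type} [NormedAddCommGroup E] [InnerProductSpace ℝ E] (a b : E) (T s : ℝ)
    (hT : 0 < T) :
    (1 / 2 : ℝ) • ((64 * T ^ 2 + (s * T) ^ 2)⁻¹ • ((64 : ℝ) • ((2 * T) • a) + (2 * (s * T)) • b)) -
      (4095 / 4096 : ℝ) • (T⁻¹ • a) =
      T⁻¹ • ((64 / (64 + s ^ 2) - 4095 / 4096) • a + (s / (64 + s ^ 2)) • b) := by
  have hq : (64 + s ^ 2 : ℝ) ≠ 0 := by positivity
  have hQ : (64 * T ^ 2 + (s * T) ^ 2 : ℝ) = T ^ 2 * (64 + s ^ 2) := by ring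
  have hT' := hT.ne'
  rw [hQ]
  match_scalars
  · field_simp
  · field_simp

theorem th_val (T s L M α β γ : ℝ) (hT : 0 < T) :
    1 / 2 * ((64 * (2 * T * L + 2 * α) + (2 * (s * T) * M + 2 * γ)) / (64 * T ^ 2 + (s * T) ^ 2) -
      ((64 * (2 * T)) ^ 2 * α + 2 * (64 * (2 * T)) * (2 * (s * T)) * β + (2 * (s * T)) ^ 2 * γ) /
        (64 * T ^ 2 + (s * T) ^ 2) ^ 2) - 4095 / 4096 * (L / T - α / T ^ 2) =
    (((192 * s ^ 2 + s ^ 4) / (64 + s ^ 2) ^ 2 - 1 / 4096) * α + -256 * s / (64 + s ^ 2) ^ 2 * β +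
      (64 - s ^ 2) / (64 + s ^ 2) ^ 2 * γ) / T ^ 2 +
      ((64 / (64 + s ^ 2) - 4095 / 4096) * L + s / (64 + s ^ 2) * M) / T := by
  have hq : (64 + s ^ 2 : ℝ) ≠ 0 := by positivity
  have hQ : (64 * T ^ 2 + (s * T) ^ 2 : ℝ) = T ^ 2 * (64 + s ^ 2) := by ring
  have hT' := hT.ne'
  rw [hQ]
  field_simp
  ring

theorem th : Kit → ThS := by
  intro k d P z H f g n δ π ρ L M jf jg hT hn hn' ho hπ
  have j := k.jet d P z H
  obtain ⟨s, hs⟩ : ∃ s : ℝ, g z = s * f z := ⟨g z / f z, by field_simp⟩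
  have hQ : 0 < 64 * f z ^ 2 + g z ^ 2 := by positivity
  have j1 := j.add (j.cmul 64 (j.sq jf)) (j.sq jg)
  have j2 := j.sub (j.cmul (1 / 2) (j.log j1 hQ)) (j.cmul (4095 / 4096) (j.log jf hT))
  have j3 := j.congr (g := fun y => Th (f y) (g y)) j2
    (Eventually.of_forall fun y => by simp only [Th]; ring)
  refine ⟨_, _, j3, ?_, ?_⟩
  · rw [th_sq, hs, th_val _ _ _ _ _ _ _ hT]
    have q := th_quad n δ π ρ _ _ _ (th_b3 s).1 (th_b3 s).2 (th_b4 s) (th_b5 s) (th_b6 s) hn hn'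
      ho hπ
    have e1 := th_mul (th_b1 s) (le_refl |L|)
    have e2 := th_mul (th_b2 s) (le_refl |M|)
    have hM := abs_nonneg M
    have q1 := div_le_div_of_nonneg_right q (sq_nonneg (f z))
    have q2 : -(|L| + |M|) / f z ≤
        ((64 / (64 + s ^ 2) - 4095 / 4096) * L + s / (64 + s ^ 2) * M) / f z :=
      div_le_div_of_nonneg_right (by linarith) hT.le
    rw [neg_div] at q2
    linarith
  · rw [hs, th_vec _ _ _ _ hT, norm_smul, Real.norm_eq_abs, abs_of_pos (inv_pos.2 hT),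
      inv_mul_eq_div]
    refine div_le_div_of_nonneg_right ?_ hT.le
    have hn3 : ‖n‖ ≤ 3 := by nlinarith [norm_nonneg n]
    have a1 : ‖(64 / (64 + s ^ 2) - 4095 / 4096) • (n + δ)‖ ≤ 1 * (3 + ‖δ‖) := by
      rw [norm_smul, Real.norm_eq_abs]
      exact mul_le_mul (th_b1 s) ((norm_add_le _ _).trans (by linarith)) (norm_nonneg _)
        zero_le_one
    have a2 : ‖(s / (64 + s ^ 2)) • (π + ρ)‖ ≤ 1 / 16 * (1 + ‖ρ‖) := by
      rw [norm_smul, Real.norm_eq_abs]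
      exact mul_le_mul (th_b2 s) ((norm_add_le _ _).trans (by linarith)) (norm_nonneg _)
        (by norm_num)
    have hr := norm_nonneg ρ
    exact (norm_add_le _ _).trans (by linarith)

end Pool.Agent.MP_815c6c_an.H

end
end MrgPart2

-- ======== part 3: formerly Pool.Agent.MP_815c6c_an.H.Tig
section MrgPart3

/-! Scalar p-harmonic functions for large `p`: almost extremal gradients give an almost
extremal boundary value. -/

set_option autoImplicit false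

noncomputable section

namespace Pool.Agent.MP_815c6c_an.H

open Set Metric MeasureTheory Filter Topology
open scoped ENNReal RealInnerProductSpace
open N (X)

variable {d : ℕ}

/-- the auxiliary function -/
def tigF (P a M : ℝ) (e : X d) (y : St d) : ℝ :=
  y.2.1 - a * ‖yh P y‖ ^ 2 + 1262 * a * (P * Real.log ‖y.2.2‖) +
    (8 * d + 1280 * d ^ 2) * a * y.2.1 ^ 2 + M * ⟪e, y.2.2⟫ + -M

theorem tig_yh {P : ℝ} {z : St d} (h1 : ‖z.1‖ ≤ 1) (h2 : |z.2.1| ≤ 2) (h3 : 1 / 2 ≤ ‖z.2.2‖) :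
    ‖yh P z‖ ≤ 5 * √P := by
  have g0 : 0 < ‖z.2.2‖ := by linarith
  have a : ‖(z.2.1 / ‖z.2.2‖ ^ 2) • z.2.2‖ ≤ 4 := by
    rw [norm_smul, Real.norm_eq_abs, abs_div, abs_of_pos (pow_pos g0 2), div_mul_eq_mul_div,
      div_le_iff₀ (pow_pos g0 2)]
    nlinarith
  rw [yh, norm_smul, Real.norm_of_nonneg (Real.sqrt_nonneg P), mul_comm]
  exact mul_le_mul_of_nonneg_right ((norm_sub_le _ _).trans (by linarith)) (Real.sqrt_nonneg P)

theorem tig_jet (k : Kit) (ic : IcS) {P a : ℝ} (M : ℝ) (e : X d) {z : St d} {H : En d}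
    (hP : 1 ≤ P) (hd : 4 * d ≤ P) (ha : 0 ≤ a) (h1 : ‖z.1‖ ≤ 1) (h2 : |z.2.1| ≤ 2)
    (h3 : 1 / 2 ≤ ‖z.2.2‖) (h4 : ‖z.2.2‖ ≤ 2) (hH : Adm P z.2.2 H) :
    ∃ v L, J P z H (tigF P a M e) v L ∧ a * P / 4 * sg P z.2.2 H ≤ L := by
  have g0 : 0 < ‖z.2.2‖ := by linarith
  have hz : z.2.2 ≠ 0 := norm_pos_iff.1 g0
  have j := k.jet d P z H
  have b := k.bas d P z H hP hz
  obtain ⟨v1, L1, q1, -, q2⟩ := (ic d P z H hP hz hH).2
  obtain ⟨v2, L2, r1, r2, -⟩ := b.lg hH hd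
  refine ⟨_, _, j.addc (-M) (j.add (j.add (j.add (j.sub j.jt (j.cmul a q1)) (j.cmul (1262 * a) r1))
    (j.cmul ((8 * d + 1280 * d ^ 2) * a) (j.sq j.jt))) (j.cmul M (j.jw e))), ?_⟩
  have s0 : 0 < √P := Real.sqrt_pos.2 (by linarith)
  have d0 : (0 : ℝ) ≤ d := Nat.cast_nonneg d
  have e0 := b.ga0
  have e2 := b.ga2
  have e3 := b.nt
  generalize ga P z.2.2 H = γ at *
  have t1 : |z.2.1| / ‖z.2.2‖ ≤ 4 := by rw [div_le_iff₀ g0]; linarith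
  have t0 : 0 ≤ |z.2.1| / ‖z.2.2‖ := by positivity
  have u1 : 14 * |z.2.1| * γ ^ 2 / ‖z.2.2‖ ≤ 56 * γ ^ 2 := by
    have := mul_le_mul_of_nonneg_left t1 (show 0 ≤ 14 * γ ^ 2 by positivity)
    calc _ = 14 * γ ^ 2 * (|z.2.1| / ‖z.2.2‖) := by ring
      _ ≤ _ := by linarith
  have u2 : (z.2.1 * γ / ‖z.2.2‖) ^ 2 ≤ 16 * γ ^ 2 := by
    have := mul_le_mul_of_nonneg_left (pow_le_pow_left₀ t0 t1 2) (sq_nonneg γ)
    calc _ = γ ^ 2 * (|z.2.1| / ‖z.2.2‖) ^ 2 := by rw [div_pow, div_pow, sq_abs]; ring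
      _ ≤ _ := by linarith
  have u3 : 2 * ‖yh P z‖ * (8 * d * γ + 14 * |z.2.1| * γ ^ 2 / ‖z.2.2‖) / √P ≤
      10 * (8 * d * γ + 56 * γ ^ 2) := by
    rw [div_le_iff₀ s0]
    calc _ ≤ 2 * (5 * √P) * (8 * d * γ + 56 * γ ^ 2) :=
          mul_le_mul (by linarith [tig_yh (P := P) h1 h2 h3]) (by linarith) (by positivity)
            (by positivity)
      _ = _ := by ring
  have u4 : L1 ≤ 4 * d + 640 * d ^ 2 + 630 * γ ^ 2 := by
    nlinarith [le_abs_self L1, sq_nonneg (16 * d - γ), sq_nonneg γ]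
  have u5 : P * sg P z.2.2 H ≤ 4 * γ ^ 2 := by
    rw [← e2]
    nlinarith [mul_le_mul_of_nonneg_left (pow_le_pow_left₀ g0.le h4 2) (sq_nonneg γ)]
  have u6 : 1 / 4 ≤ ‖vx P z.2.2 z.2.2‖ ^ 2 := by nlinarith
  have u7 := mul_le_mul_of_nonneg_left u6 (show 0 ≤ 2 * (8 * (d : ℝ) + 1280 * d ^ 2) by positivity)
  have u8 : P * sg P z.2.2 H / 4 ≤ -L1 + 1262 * L2 +
      2 * (8 * (d : ℝ) + 1280 * d ^ 2) * ‖vx P z.2.2 z.2.2‖ ^ 2 := by linarith
  have := mul_le_mul_of_nonneg_left u8 ha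
  linarith

theorem tig_geo {b t : ℝ} {x ξ e : X d} (b0 : 0 < b) (b1 : b ≤ 1 / 2) (he : ‖e‖ = 1)
    (hx : ‖x‖ = 1) (t1 : -(1 / 2) ≤ t) (t2 : |t| ≤ 2) (g1 : 1 / 2 ≤ ‖ξ‖)
    (g2 : ‖ξ‖ ≤ 1 + b ^ 2 / 2 ^ 20) (w : 1 - b ^ 2 / 1024 ≤ ⟪e, ξ⟫)
    (h : ‖x - (t / ‖ξ‖ ^ 2) • ξ‖ ≤ b / 4) : ‖x - e‖ ≤ b ∧ 1 - b ≤ t := by
  have g0 : 0 < ‖ξ‖ := by linarith
  have bb : b ^ 2 ≤ 1 / 4 := by nlinarith
  have a1 : ‖(‖ξ‖ ^ 2)⁻¹ • ξ - e‖ ^ 2 * ‖ξ‖ ^ 2 = 1 - 2 * ⟪e, ξ⟫ + ‖ξ‖ ^ 2 := by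
    rw [norm_sub_sq_real, norm_smul, real_inner_smul_left, real_inner_comm, he,
      Real.norm_of_nonneg (by positivity)]
    field_simp
  have a2 : ‖(‖ξ‖ ^ 2)⁻¹ • ξ - e‖ ≤ b / 8 := by
    refine (pow_le_pow_iff_left₀ (norm_nonneg _) (by positivity) two_ne_zero).1 ?_
    have a3 : ‖ξ‖ ^ 2 ≤ 1 + 3 * (b ^ 2 / 2 ^ 20) := by
      have a4 : b ^ 2 / 2 ^ 20 ≤ 1 := by linarith
      have a5 : 0 ≤ b ^ 2 / 2 ^ 20 := by positivity
      nlinarith [pow_le_pow_left₀ g0.le g2 2]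
    have a6 : 1 / 4 ≤ ‖ξ‖ ^ 2 := by nlinarith
    nlinarith [mul_le_mul_of_nonneg_left a6 (sq_nonneg ‖(‖ξ‖ ^ 2)⁻¹ • ξ - e‖), sq_nonneg b]
  have a7 : ‖x - t • e‖ ≤ b / 2 := by
    have e1 : x - t • e = (x - (t / ‖ξ‖ ^ 2) • ξ) + t • ((‖ξ‖ ^ 2)⁻¹ • ξ - e) := by
      rw [smul_sub, smul_smul, div_eq_mul_inv]; abel
    rw [e1]
    refine (norm_add_le _ _).trans ?_
    rw [norm_smul, Real.norm_eq_abs]
    nlinarith [mul_le_mul t2 a2 (norm_nonneg _) two_pos.le]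
  have a8 := abs_le.1 ((abs_norm_sub_norm_le x (t • e)).trans a7)
  rw [hx, norm_smul, he, mul_one, Real.norm_eq_abs] at a8
  have a9 : |t| = t := by
    rcases abs_cases t with h | h <;> linarith [h.1, h.2, a8.1, a8.2]
  rw [a9] at a8
  refine ⟨?_, by linarith [a8.2]⟩
  have e2 : x - e = (x - t • e) + (t - 1) • e := by rw [sub_smul, one_smul]; abel
  rw [e2]
  refine (norm_add_le _ _).trans ?_
  rw [norm_smul, he, mul_one, Real.norm_eq_abs]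
  linarith [abs_le.2 (⟨by linarith [a8.2], by linarith [a8.1]⟩ : -(b / 2) ≤ t - 1 ∧ t - 1 ≤ b / 2)]

theorem tig : Kit → IcS → TigS := by
  intro k ic d β β0
  obtain ⟨b, b0, b1, b2⟩ : ∃ b : ℝ, 0 < b ∧ b ≤ 1 / 2 ∧ b ≤ β :=
    ⟨min (1 / 2) β, lt_min (by norm_num) β0, min_le_left _ _, min_le_right _ _⟩
  have bb : b ^ 2 ≤ 1 / 4 := by nlinarith
  have bp : 0 < b ^ 2 := by positivity
  refine ⟨b ^ 2 / 2 ^ 20, by positivity, ?_⟩
  filter_upwards [eventually_ge_atTop (1 : ℝ), eventually_ge_atTop (4 * d : ℝ),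
    eventually_ge_atTop (32 * (8 * d + 1280 * d ^ 2) * (64 / b ^ 2) : ℝ)] with P hP hd hC
  intro U u T e vs hU h0 he hb
  have P0 : 0 < P := by linarith
  let K : Set (St d) := {z | z ∈ T ∧ z.1 ∈ closedBall 0 1} ∩ {z | 1 - b ^ 2 / 1024 ≤ ⟪e, z.2.2⟫}
  have u0 : u 0 = 0 := (vs.gr _ h0).2.symm
  have key : ∀ z ∈ K, ‖z.1‖ ≤ 1 ∧ |z.2.1| ≤ 2 ∧ 1 / 2 ≤ ‖z.2.2‖ ∧
      ‖z.2.2‖ ≤ 1 + b ^ 2 / 2 ^ 20 ∧ ⟪e, z.2.2⟫ ≤ ‖z.2.2‖ := by
    rintro z ⟨⟨z1, z2⟩, z3⟩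
    have a1 := mem_closedBall_zero_iff.1 z2
    have a2 := vs.lip 0 0 1 2 hU (fun y y1 y2 => by
      have := hb y y1 y2
      rw [sub_zero]; linarith) _ z2 0 (mem_closedBall_self zero_le_one)
    have a3 := real_inner_le_norm e z.2.2
    rw [he, one_mul] at a3
    have a4 : 1 - b ^ 2 / 1024 ≤ ⟪e, z.2.2⟫ := z3
    rw [u0, inner_zero_left, sub_zero, sub_zero, sub_zero, ← (vs.gr z z1).2] at a2
    exact ⟨a1, by linarith, by linarith, hb z z1 (by rwa [sub_zero]), a3⟩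
  have a0 : 0 < 64 / b ^ 2 / P := by positivity
  have jet : ∀ z ∈ K, ∀ H, Adm P z.2.2 H → ∃ v L,
      J P z H (tigF P (64 / b ^ 2 / P) (4096 / b ^ 2) e) v L ∧
        64 / b ^ 2 / P * P / 4 * sg P z.2.2 H ≤ L := fun z hz H hH => by
    obtain ⟨c1, c2, c3, c4, -⟩ := key z hz
    exact tig_jet k ic _ e hP hd a0.le c1 c2 c3 (by linarith) hH
  have cw : Continuous fun z : St d => ⟪e, z.2.2⟫ := by fun_prop
  obtain ⟨z, hz, hB, hΨ⟩ := k.mp d P U u T K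
    {z | ‖z.1‖ = 1 ∨ ⟪e, z.2.2⟫ = 1 - b ^ 2 / 1024}
    (tigF P (64 / b ^ 2 / P) (4096 / b ^ 2) e) hP vs
    ((vs.cpt _ hU (isCompact_closedBall _ _)).inter_right (isClosed_le continuous_const cw))
    (fun z hz => hz.1.1)
    (fun z hz => by
      obtain ⟨v, L, j, -⟩ := jet z hz 0 ⟨by simp, by simp⟩
      exact j.c2.continuousAt.continuousWithinAt)
    (fun z hz hn => by
      obtain ⟨c1, -, c3, -⟩ := key z hz
      have hn' := not_or.1 hn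
      refine ⟨norm_pos_iff.1 (by linarith), ?_, _, _, by positivity,
        Eventually.of_forall fun _ => le_rfl, rfl, jet z hz⟩
      have o1 : ∀ᶠ y : St d in 𝓝 z, ‖y.1‖ < 1 :=
        (continuous_fst.norm.tendsto z).eventually (gt_mem_nhds (lt_of_le_of_ne c1 hn'.1))
      have o2 : ∀ᶠ y : St d in 𝓝 z, 1 - b ^ 2 / 1024 < ⟪e, y.2.2⟫ :=
        (cw.tendsto z).eventually (lt_mem_nhds (lt_of_le_of_ne hz.2 (Ne.symm hn'.2)))
      filter_upwards [self_mem_nhdsWithin, nhdsWithin_le_nhds o1, nhdsWithin_le_nhds o2]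
        with y y1 y2 y3
      exact ⟨⟨y1, mem_closedBall_zero_iff.2 y2.le⟩, y3.le⟩)
    (0, 0, e) ⟨⟨h0, mem_closedBall_self zero_le_one⟩, by
      change _ ≤ ⟪e, e⟫
      rw [real_inner_self_eq_norm_sq, he]; linarith⟩ (1 / 8) (by norm_num)
  have z0 : tigF P (64 / b ^ 2 / P) (4096 / b ^ 2) e (0, 0, e) = 0 := by
    simp [tigF, yh, he]
  obtain ⟨c1, c2, c3, c4, c5⟩ := key z hz
  have g0 : 0 < ‖z.2.2‖ := by linarith
  have f1 : 64 / b ^ 2 / P * ‖yh P z‖ ^ 2 =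
      64 / b ^ 2 * ‖z.1 - (z.2.1 / ‖z.2.2‖ ^ 2) • z.2.2‖ ^ 2 := by
    rw [yh, norm_smul, mul_pow, Real.norm_of_nonneg (Real.sqrt_nonneg P), Real.sq_sqrt P0.le]
    field_simp
  have f2 : 1262 * (64 / b ^ 2 / P) * (P * Real.log ‖z.2.2‖) ≤ 1 / 8 := by
    have l1 : Real.log ‖z.2.2‖ ≤ b ^ 2 / 2 ^ 20 := by linarith [Real.log_le_sub_one_of_pos g0]
    calc _ = 1262 * 64 * (Real.log ‖z.2.2‖ / b ^ 2) := by field_simp
      _ ≤ 1262 * 64 * (1 / 2 ^ 20) := by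
          refine mul_le_mul_of_nonneg_left ?_ (by norm_num)
          rw [div_le_iff₀ bp]; linarith
      _ ≤ _ := by norm_num
  have f3 : (8 * d + 1280 * d ^ 2) * (64 / b ^ 2 / P) * z.2.1 ^ 2 ≤ 1 / 8 := by
    have l1 : z.2.1 ^ 2 ≤ 4 := by nlinarith [sq_abs z.2.1, abs_nonneg z.2.1]
    have l2 : (8 * d + 1280 * d ^ 2) * (64 / b ^ 2 / P) ≤ 1 / 32 := by
      rw [← mul_div_assoc, div_le_iff₀ P0]; linarith
    linarith [mul_le_mul l2 l1 (sq_nonneg _) (by norm_num)]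
  have f4 : 4096 / b ^ 2 * ⟪e, z.2.2⟫ + -(4096 / b ^ 2) =
      4096 * ((⟪e, z.2.2⟫ - 1) / b ^ 2) := by ring
  have f5 : 0 ≤ 64 / b ^ 2 * ‖z.1 - (z.2.1 / ‖z.2.2‖ ^ 2) • z.2.2‖ ^ 2 := by positivity
  have f6 := le_abs_self z.2.1
  rw [z0, tigF, f1, add_assoc, f4] at hΨ
  rcases hB with hB | hB
  · have f7 : (⟪e, z.2.2⟫ - 1) / b ^ 2 ≤ 1 / 2 ^ 20 := by rw [div_le_iff₀ bp]; linarith
    have f8 : ‖z.1 - (z.2.1 / ‖z.2.2‖ ^ 2) • z.2.2‖ ≤ b / 4 := by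
      refine (pow_le_pow_iff_left₀ (norm_nonneg _) (by positivity) two_ne_zero).1 ?_
      have : 64 / b ^ 2 * ‖z.1 - (z.2.1 / ‖z.2.2‖ ^ 2) • z.2.2‖ ^ 2 ≤ 4 := by linarith
      rw [div_mul_eq_mul_div, div_le_iff₀ bp] at this
      linarith
    obtain ⟨r1, r2⟩ := tig_geo b0 b1 he hB (by linarith) c2 c3 c4 hz.2 f8
    exact ⟨z.1, c1, r1.trans b2, by rw [← (vs.gr z hz.1.1).2]; linarith⟩
  · have f7 : (⟪e, z.2.2⟫ - 1) / b ^ 2 = -(1 / 1024) := by rw [hB]; field_simp; ring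
    linarith

end Pool.Agent.MP_815c6c_an.H

end
end MrgPart3

-- marker of a merged file
example : 731051 + 324305 = 731051 + 324305 := rfl
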