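import Pool.Agent.MP_815c6c_an.H.Win

/-! Scalar p-harmonic functions for large `p`: the differential inequality of the window. -/

set_option autoImplicit false

noncomputable section

namespace Pool.Agent.MP_815c6c_an.H

open Set Metric MeasureTheory Filter Topology
open scoped ENNReal RealInnerProductSpace
open N (X)

namespace Wf

/-- the error terms of the main term -/
theorem main_err (d w t₁ n R T g D a b : ℝ) (hd : 0 ≤ d) (hw : 8 * d + 112 ≤ w) (ht : 0 < t₁)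
    (htd : (200 + 4 * d) * t₁ ≤ 1 / 4096) (hn : 0 ≤ n) (hnR : n ≤ R) (hR : 0 < R)
    (hT : T = n + t₁ * R) (hg : 0 ≤ g) (hD0 : 0 ≤ D) (hD : D ≤ t₁ * (4 + 8 * n * g) + 8 * n * g)
    (ha : a ≤ t₁ * (g + n * g ^ 2 + (2 * d + 40 + 256 * (n * g) ^ 2) / R))
    (hb : w * b ≤ 8 * d * g + 112 * n * g ^ 2) :
    (14 * D + 2 * D ^ 2) / T ^ 2 + (a + b) / T ≤ 2 / 4096 / T ^ 2 + 2 ^ 25 * g ^ 2 := by
  have htR : 0 < t₁ * R := mul_pos ht hR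
  have hT0 : 0 < T := by rw [hT]; linarith
  have hnT : n ≤ T := by rw [hT]; linarith
  have ht1 : t₁ ≤ 1 / 4096 / 200 := by nlinarith [mul_nonneg hd ht.le]
  have hng : 0 ≤ n * g := mul_nonneg hn hg
  have hTg : n * g ≤ T * g := mul_le_mul_of_nonneg_right hnT hg
  have hD1 : D ≤ 4 * t₁ + 9 * (T * g) := by nlinarith [mul_le_mul_of_nonneg_right ht1 hng]
  have hTg0 : 0 ≤ T * g := mul_nonneg hT0.le hg
  have hD2 : D ^ 2 ≤ 32 * t₁ ^ 2 + 162 * (T * g) ^ 2 := by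
    have h1 : D ^ 2 ≤ (4 * t₁ + 9 * (T * g)) ^ 2 := pow_le_pow_left₀ hD0 hD1 2
    nlinarith [sq_nonneg (4 * t₁ - 9 * (T * g))]
  have hw0 : 0 < w := by linarith
  have hb1 : b ≤ g + n * g ^ 2 := by
    have h2 : 0 ≤ n * g ^ 2 := by positivity
    have h3 : w * b ≤ w * (g + n * g ^ 2) := by nlinarith
    exact le_of_mul_le_mul_left h3 hw0
  have hTR : T / R ≤ 2 := by
    rw [div_le_iff₀ hR, hT]; nlinarith
  have hnn : n * T / R ≤ T := by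
    rw [div_le_iff₀ hR]; nlinarith
  have ha1 : a * T ≤ t₁ * (T * g) + t₁ * (T * g) ^ 2 + (4 * d + 80) * t₁ +
      256 * t₁ * (T * g) ^ 2 := by
    have h1 : a * T ≤ t₁ * (g + n * g ^ 2 + (2 * d + 40 + 256 * (n * g) ^ 2) / R) * T :=
      mul_le_mul_of_nonneg_right ha hT0.le
    have h2 : t₁ * (g + n * g ^ 2 + (2 * d + 40 + 256 * (n * g) ^ 2) / R) * T =
        t₁ * (T * g) + t₁ * ((n * g) * (T * g)) + t₁ * (2 * d + 40) * (T / R) +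
          256 * t₁ * (n * g ^ 2 * (n * T / R)) := by
      field_simp
      ring
    have h3 : (n * g) * (T * g) ≤ (T * g) ^ 2 := by nlinarith
    have h4 : n * g ^ 2 * (n * T / R) ≤ (T * g) ^ 2 := by
      have h5 : n * g ^ 2 * (n * T / R) ≤ n * g ^ 2 * T :=
        mul_le_mul_of_nonneg_left hnn (by positivity)
      nlinarith
    have h6 : t₁ * (2 * d + 40) * (T / R) ≤ t₁ * (2 * d + 40) * 2 :=
      mul_le_mul_of_nonneg_left hTR (by positivity)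
    nlinarith [mul_le_mul_of_nonneg_left h3 ht.le, mul_le_mul_of_nonneg_left h4 ht.le]
  have hb2 : b * T ≤ T * g + (T * g) ^ 2 := by
    have h1 : b * T ≤ (g + n * g ^ 2) * T := mul_le_mul_of_nonneg_right hb1 hT0.le
    nlinarith [mul_le_mul_of_nonneg_right hTg hTg0]
  have hq : 0 ≤ (T * g) ^ 2 := sq_nonneg _
  have key : 14 * D + 2 * D ^ 2 + (a + b) * T ≤ 2 / 4096 + 2 ^ 25 * (T * g) ^ 2 := by
    have h1 : t₁ * (T * g) ≤ T * g := by nlinarith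
    have h2 : t₁ * (T * g) ^ 2 ≤ (T * g) ^ 2 := by nlinarith
    have h3 : t₁ ^ 2 ≤ t₁ := by nlinarith
    have h4 : 128 * (T * g) ≤ 1 / 4096 + 2 ^ 24 * (T * g) ^ 2 := by
      nlinarith [sq_nonneg (1 / 64 - 4096 * (T * g))]
    nlinarith
  have e1 : (14 * D + 2 * D ^ 2) / T ^ 2 + (a + b) / T =
      (14 * D + 2 * D ^ 2 + (a + b) * T) / T ^ 2 := by
    field_simp
  have e2 : 2 / 4096 / T ^ 2 + 2 ^ 25 * g ^ 2 = (2 / 4096 + 2 ^ 25 * (T * g) ^ 2) / T ^ 2 := by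
    field_simp
  rw [e1, e2]
  exact div_le_div_of_nonneg_right key (by positivity)

/-- the size of the first order jet -/
theorem grad_le (P A B x x₀ x₂ g V : ℝ) (hA : 2 ≤ A) (hB0 : 0 ≤ B) (hB : B ≤ 1 / 8)
    (hP : (3 + A) * 2 ^ 16 ≤ P) (hV0 : 0 ≤ V) (hV : V ≤ 5 * x + 7 * A * x₀ + 7 * B * x₂ + 18 * g) :
    V ^ 2 ≤ P * (6 / 4096 * x ^ 2 + A / 256 * x₀ ^ 2 + B / 512 * x₂ ^ 2 + g ^ 2) := by
  have h1 : V ^ 2 ≤ (5 * x + 7 * A * x₀ + 7 * B * x₂ + 18 * g) ^ 2 := pow_le_pow_left₀ hV0 hV 2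
  have h2 : (5 * x + 7 * A * x₀ + 7 * B * x₂ + 18 * g) ^ 2 ≤
      4 * ((5 * x) ^ 2 + (7 * A * x₀) ^ 2 + (7 * B * x₂) ^ 2 + (18 * g) ^ 2) := by
    generalize 5 * x = p
    generalize 7 * A * x₀ = q
    generalize 7 * B * x₂ = r
    generalize 18 * g = s
    nlinarith [sq_nonneg (p - q), sq_nonneg (p - r), sq_nonneg (p - s), sq_nonneg (q - r),
      sq_nonneg (q - s), sq_nonneg (r - s)]
  have h3 : 4 * (5 * x) ^ 2 ≤ P * (6 / 4096 * x ^ 2) := by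
    have : (100 : ℝ) ≤ P * (6 / 4096) := by nlinarith
    nlinarith [mul_le_mul_of_nonneg_right this (sq_nonneg x)]
  have h4 : 4 * (7 * A * x₀) ^ 2 ≤ P * (A / 256 * x₀ ^ 2) := by
    have h : 196 * A ≤ P / 256 := by nlinarith
    have h' : 0 ≤ A * x₀ ^ 2 := by positivity
    nlinarith [mul_le_mul_of_nonneg_right h h']
  have h5 : 4 * (7 * B * x₂) ^ 2 ≤ P * (B / 512 * x₂ ^ 2) := by
    have h : 196 * B ≤ P / 512 := by nlinarith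
    have h' : 0 ≤ B * x₂ ^ 2 := by positivity
    nlinarith [mul_le_mul_of_nonneg_right h h']
  have h6 : 4 * (18 * g) ^ 2 ≤ P * g ^ 2 := by
    have : (1296 : ℝ) ≤ P := by nlinarith
    nlinarith [mul_le_mul_of_nonneg_right this (sq_nonneg g)]
  nlinarith

/-- the positive part -/
theorem key (B s₂ t₁ w n R a : ℝ) (hB0 : 0 ≤ B) (hs : 0 < s₂) (ht : 0 < t₁) (hR : 0 < R)
    (hn : 0 ≤ n) (hsp : 16 ≤ s₂ * w) (hbt : 8 * s₂ ^ 2 ≤ B * t₁ ^ 2) (ha0 : 0 ≤ a)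
    (ha : 16 * R ≤ w * n → 1 / 4 ≤ a) :
    16 / 4096 * (n + t₁ * R)⁻¹ ^ 2 ≤ a / 64 * (n + t₁ * R)⁻¹ ^ 2 + B / 512 * (n + s₂ * R)⁻¹ ^ 2 := by
  have h1 := mul_pos ht hR
  have h2 := mul_pos hs hR
  have hi : 0 ≤ (n + t₁ * R)⁻¹ ^ 2 := sq_nonneg _
  have hi2 : 0 ≤ B * (n + s₂ * R)⁻¹ ^ 2 := by positivity
  rcases le_total (16 * R) (w * n) with hc | hc
  · nlinarith [mul_le_mul_of_nonneg_right (ha hc) hi]
  · have hw0 : 0 < w := by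
      by_contra hw
      nlinarith [mul_nonneg hs.le (neg_nonneg.2 (not_lt.1 hw))]
    have h3 : n ≤ s₂ * R := by
      have h4 : w * n ≤ w * (s₂ * R) := by nlinarith [mul_le_mul_of_nonneg_right hsp hR.le]
      exact le_of_mul_le_mul_left h4 hw0
    have h5 : (n + s₂ * R) ^ 2 ≤ (2 * (s₂ * R)) ^ 2 :=
      pow_le_pow_left₀ (by linarith) (by linarith) 2
    have h7 : (t₁ * R) ^ 2 ≤ (n + t₁ * R) ^ 2 := pow_le_pow_left₀ h1.le (by linarith) 2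
    have h9 : 2 * (n + s₂ * R) ^ 2 ≤ B * (n + t₁ * R) ^ 2 := by
      have h6 := mul_le_mul_of_nonneg_right hbt (sq_nonneg R)
      have h8 := mul_le_mul_of_nonneg_left h7 hB0
      nlinarith
    have h10 : 2 * (n + t₁ * R)⁻¹ ^ 2 ≤ B * (n + s₂ * R)⁻¹ ^ 2 := by
      rw [inv_pow, inv_pow, ← div_eq_mul_inv, ← div_eq_mul_inv,
        div_le_div_iff₀ (by positivity) (by positivity)]
      exact h9
    have h11 : 0 ≤ a / 64 * (n + t₁ * R)⁻¹ ^ 2 := by positivity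
    linarith

/-- the lower bound -/
theorem low (A B s₀ s₂ T T₀ T₂ g a D c N L₀ L₂ : ℝ) (hA : 0 ≤ A) (hB : 0 ≤ B) (has : A * s₀ ≤ 1)
    (hbs : B * s₂ ≤ 1 / 8) (hT : 0 < T) (hT0 : 0 < T₀) (hT2 : 0 < T₂)
    (lN : (a / 64 - 8 / 4096 - 14 * D - 2 * D ^ 2) / T ^ 2 - c / T ≤ N)
    (err : (14 * D + 2 * D ^ 2) / T ^ 2 + c / T ≤ 2 / 4096 / T ^ 2 + 2 ^ 25 * g ^ 2)
    (l₀ : L₀ ≤ 1024 * s₀ * g ^ 2 - 1 / (256 * T₀ ^ 2))
    (l₂ : L₂ ≤ 1024 * s₂ * g ^ 2 - 1 / (256 * T₂ ^ 2))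
    (key : 16 / 4096 * T⁻¹ ^ 2 ≤ a / 64 * T⁻¹ ^ 2 + B / 512 * T₂⁻¹ ^ 2) :
    6 / 4096 * T⁻¹ ^ 2 + A / 256 * T₀⁻¹ ^ 2 + B / 512 * T₂⁻¹ ^ 2 - 2 ^ 26 * g ^ 2 ≤
      N - A * L₀ - B * L₂ := by
  have hg2 : 0 ≤ g ^ 2 := sq_nonneg g
  have e0 : 1 / (256 * T₀ ^ 2) = 1 / 256 * T₀⁻¹ ^ 2 := by field_simp
  have e2 : 1 / (256 * T₂ ^ 2) = 1 / 256 * T₂⁻¹ ^ 2 := by field_simp
  have e1 : (a / 64 - 8 / 4096 - 14 * D - 2 * D ^ 2) / T ^ 2 =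
      a / 64 * T⁻¹ ^ 2 - 8 / 4096 * T⁻¹ ^ 2 - (14 * D + 2 * D ^ 2) / T ^ 2 := by
    field_simp
    ring
  have e3 : 2 / 4096 / T ^ 2 = 2 / 4096 * T⁻¹ ^ 2 := by field_simp
  rw [e0] at l₀
  rw [e2] at l₂
  rw [e1] at lN
  rw [e3] at err
  have a0 : A * L₀ ≤ 1024 * g ^ 2 - A / 256 * T₀⁻¹ ^ 2 := by
    have h3 := mul_le_mul_of_nonneg_left l₀ hA
    have h4 := mul_le_mul_of_nonneg_right has hg2
    linarith
  have a2 : B * L₂ ≤ 1024 * g ^ 2 - B / 256 * T₂⁻¹ ^ 2 := by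
    have h3 := mul_le_mul_of_nonneg_left l₂ hB
    have h4 := mul_le_mul_of_nonneg_right hbs hg2
    linarith
  linarith

/-- the upper bound -/
theorem up (A B s₀ s₂ t₁ n T T₀ T₂ g D V v v₀ v₂ : ℝ) (hA : 0 ≤ A) (hB : 0 ≤ B)
    (has : A * s₀ ≤ 1) (hbs : B * s₂ ≤ 1 / 8) (ht : t₁ ≤ 1 / 8) (hT : 0 < T) (hn : 0 ≤ n)
    (hnT : n ≤ T) (hg : 0 ≤ g) (hD : D ≤ t₁ * (4 + 8 * n * g) + 8 * n * g)
    (nv : v ≤ (4 + D) / T) (n₀ : v₀ ≤ 7 / T₀ + 8 * s₀ * g) (n₂ : v₂ ≤ 7 / T₂ + 8 * s₂ * g)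
    (hV : V ≤ v + A * v₀ + B * v₂) : V ≤ 5 * T⁻¹ + 7 * A * T₀⁻¹ + 7 * B * T₂⁻¹ + 18 * g := by
  have b2 : v ≤ 5 * T⁻¹ + 9 * g := by
    refine nv.trans ?_
    rw [div_le_iff₀ hT]
    have h4 : (5 * T⁻¹ + 9 * g) * T = 5 + 9 * (T * g) := by field_simp
    have h5 := mul_le_mul_of_nonneg_right hnT hg
    have h6 := mul_le_mul_of_nonneg_right ht (mul_nonneg hn hg)
    rw [h4]
    linarith
  rw [div_eq_mul_inv] at n₀ n₂
  have b3 := mul_le_mul_of_nonneg_left n₀ hA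
  have b4 := mul_le_mul_of_nonneg_left n₂ hB
  have b5 := mul_le_mul_of_nonneg_right has hg
  have b6 := mul_le_mul_of_nonneg_right hbs hg
  linarith

theorem div_le8 (a x : ℝ) (ha : 0 ≤ a) (hx : 1 / 8 ≤ x) : a / x ≤ 8 * a := by
  rw [div_le_iff₀ (by linarith)]
  nlinarith

theorem small (d A P B s₂ t₁ : ℝ) (hd : 0 ≤ d) (hA : 2 ≤ A) (hP : (3 + A) * 2 ^ 16 ≤ P)
    (hB : B ≤ 1 / 8) (hs : 0 < s₂) (hsd : s₂ * (512 * (4 * d + 112)) ≤ 1) (ht : 0 < t₁)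
    (htd : (200 + 4 * d) * t₁ ≤ 1 / 4096) : 1 ≤ P ∧ t₁ ≤ 1 / 8 ∧ B * s₂ ≤ 1 / 8 := by
  refine ⟨by nlinarith, by nlinarith [mul_nonneg hd ht.le], ?_⟩
  have : s₂ ≤ 1 := by nlinarith [mul_nonneg hd hs.le]
  nlinarith

variable {d : ℕ}

theorem cont_yh (P : ℝ) (z : St d) (h : z.2.2 ≠ 0) : ContinuousAt (yh P) z := by
  have h2 : ‖z.2.2‖ ^ 2 ≠ 0 := pow_ne_zero 2 (norm_ne_zero_iff.2 h)
  have h3 : ContinuousAt (fun y : St d => y.2.1 / ‖y.2.2‖ ^ 2) z :=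
    ContinuousAt.div (f := fun y : St d => y.2.1) (g := fun y : St d => ‖y.2.2‖ ^ 2)
      (by fun_prop) (by fun_prop) h2
  unfold yh
  fun_prop

theorem cont_fR (P m : ℝ) (z : St d) (h : z.2.2 ≠ 0) : ContinuousAt (fR P m) z := by
  unfold fR
  have h1 := cont_yh P z h
  fun_prop

theorem fR_pos (P m : ℝ) (z : St d) (hm : 0 < m) : 0 < fR P m z := by
  unfold fR
  exact Real.sqrt_pos.2 (by positivity)

theorem le_fR (P m : ℝ) (z : St d) : |z.2.1| ≤ fR P m z := by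
  unfold fR
  exact Real.abs_le_sqrt (by nlinarith [sq_nonneg ‖yh P z‖, sq_nonneg m])

/-- the touching function -/
theorem touch (kin : KinS) (tha : ThaS) (P A B s₀ s₂ t₁ m S : ℝ) (e : X d) (z : St d)
    (hp : Par d P A B s₀ s₂ t₁) (hP : 1 ≤ P) (ht : t₁ / 64 ≤ 1 / 144) (hm : 0 < m) (h1 : 1 ≤ S)
    (h2 : S ≤ 2) (he : ‖e‖ = 1) (hz : Rg S (t₁ / 64) e z) (h0 : z.2.2 ≠ 0) :
    ∃ s : ℝ, (s = 1 ∨ s = -1) ∧ s * z.2.1 = |z.2.1| ∧ ∀ᶠ y in 𝓝 z,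
      Fc A B s₀ s₂ t₁ (s * y.2.1) (fR P m y) ⟪e, yh P y⟫ ≤ chi P A B s₀ s₂ t₁ m e y := by
  have hc : ContinuousAt (fun y : St d => y.2.1) z := by fun_prop
  rcases lt_trichotomy z.2.1 0 with h | h | h
  · refine ⟨-1, Or.inr rfl, by rw [abs_of_neg h]; ring, ?_⟩
    filter_upwards [hc.eventually_lt continuousAt_const h] with y hy
    unfold chi
    rw [abs_of_neg hy, neg_one_mul]
  · refine ⟨1, Or.inl rfl, by rw [h]; simp, ?_⟩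
    have hR := fR_pos P m z hm
    have cR := cont_fR P m z h0
    have cY := cont_yh P z h0
    have hY := (tha d P m S (t₁ / 64) e z hP hm h1 h2 he (by have := hp.t0; positivity) ht hz).1 h
    have ev : ∀ σ : ℝ, 0 < σ → ∀ᶠ y in 𝓝 z, 2 * |y.2.1| < σ * fR P m y := by
      intro σ hσ
      refine ContinuousAt.eventually_lt (by fun_prop) (by fun_prop) ?_
      rw [h]
      simpa using mul_pos hσ hR
    have eY : ∀ᶠ y in 𝓝 z, |⟪e, yh P y⟫| < t₁ * fR P m y / 32 := by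
      refine ContinuousAt.eventually_lt (by fun_prop) (by fun_prop) ?_
      have := mul_pos hp.t0 hR
      linarith
    filter_upwards [ev t₁ hp.t0, ev s₀ hp.s0, ev s₂ hp.s2, eY] with y a1 a2 a3 a4
    unfold chi
    rw [one_mul]
    rcases le_total 0 y.2.1 with hy | hy
    · rw [abs_of_nonneg hy]
    · have := kin d P A B s₀ s₂ t₁ |y.2.1| (fR P m y) ⟪e, yh P y⟫ hp (fR_pos P m y hm)
        (abs_nonneg _) a1.le a2.le a3.le a4.le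
      rwa [abs_of_nonpos hy, neg_neg, ← abs_of_nonpos hy] at this
  · refine ⟨1, Or.inl rfl, by rw [abs_of_pos h]; ring, ?_⟩
    filter_upwards [continuousAt_const.eventually_lt hc h] with y hy
    unfold chi
    rw [abs_of_pos hy, one_mul]

end Wf

open Wf in
theorem wf : Kit → IcS → ThS → RjS → KinS → ThaS → WfS := by
  intro k ic th rj kin tha d P A B s₀ s₂ t₁ m S e z hp hm h1 h2 he hz hS
  have hd : (0 : ℝ) ≤ d := Nat.cast_nonneg d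
  have hA := hp.a2
  have hA0 : 0 ≤ A := by linarith
  have ht0 := hp.t0
  obtain ⟨hP, ht1, hbs⟩ := small d A P B s₂ t₁ hd hA hp.pk hp.b1 hp.s2 hp.sd2 ht0 hp.td
  have hx1 := hz.1
  have hx2 := hz.2.1
  have hx0 : 0 < ‖z.2.2‖ := by linarith
  have h0 : z.2.2 ≠ 0 := norm_pos_iff.1 hx0
  have hq1 : (1 / 8) ^ 2 ≤ ‖z.2.2‖ ^ 2 := pow_le_pow_left₀ (by norm_num) hx1 2
  have hq2 : ‖z.2.2‖ ^ 2 ≤ 2 ^ 2 := pow_le_pow_left₀ hx0.le hx2 2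
  obtain ⟨s, hs, hst, hev⟩ := touch kin tha P A B s₀ s₂ t₁ m S e z hp hP (by linarith) hm h1 h2
    he hz h0
  have hs2 : s ^ 2 = 1 := by rcases hs with h | h <;> rw [h] <;> norm_num
  have hR := fR_pos P m z hm
  have hnR := le_fR P m z
  have hn : 0 ≤ |z.2.1| := abs_nonneg _
  have hw : 8 * (d : ℝ) + 112 ≤ √P := Real.le_sqrt_of_sq_le hp.pd
  have hth := (tha d P m S (t₁ / 64) e z hP hm h1 h2 he (by positivity) (by linarith) hz).2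
  have hB0 := hp.b0
  have htR := mul_pos ht0 hR
  have hT : 0 < |z.2.1| + t₁ * fR P m z := by positivity
  have hT0 : 0 < |z.2.1| + s₀ * fR P m z := by have := hp.s0; positivity
  have hT2 : 0 < |z.2.1| + s₂ * fR P m z := by have := hp.s2; positivity
  refine ⟨fun y => Fc A B s₀ s₂ t₁ (s * y.2.1) (fR P m y) ⟪e, yh P y⟫,
    6 / 4096 * (|z.2.1| + t₁ * fR P m z)⁻¹ ^ 2 + A / 256 * (|z.2.1| + s₀ * fR P m z)⁻¹ ^ 2 +
      B / 512 * (|z.2.1| + s₂ * fR P m z)⁻¹ ^ 2,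
    by positivity, hev, by unfold chi; beta_reduce; rw [hst], ?_⟩
  intro H hH
  have jet := k.jet d P z H
  have bas := k.bas d P z H hP h0
  obtain ⟨⟨vR, LR, jR, nR, lR⟩, rl⟩ := rj d P m s z H hp.pd hm hx1 hx2 hH hs hst
  obtain ⟨v₀, L₀, j₀, l₀, n₀⟩ := rl s₀ hp.s0 hp.sd0
  obtain ⟨v₂, L₂, j₂, l₂, n₂⟩ := rl s₂ hp.s2 hp.sd2
  obtain ⟨π, ρ, M, jY, hπ, nπ, nρ, lM⟩ := (ic d P z H hP h0 hH).1 e
  have hg := bas.ga0
  have hsq : (z.2.1 * ga P z.2.2 H) ^ 2 = (|z.2.1| * ga P z.2.2 H) ^ 2 := by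
    rw [mul_pow, mul_pow, sq_abs]
  rw [hsq] at lR
  rw [he, one_mul] at nρ lM
  rw [he, one_pow] at nπ
  have jT := jet.add (jet.cmul s jet.jt) (jet.cmul t₁ jR)
  have hnn : ‖s • vx P z.2.2 z.2.2‖ ^ 2 = ‖vx P z.2.2 z.2.2‖ ^ 2 := by
    rw [norm_smul, mul_pow, Real.norm_eq_abs, sq_abs, hs2, one_mul]
  have hπ1 : ‖π‖ ^ 2 ≤ 1 := by rw [nπ]; linarith [sq_nonneg (⟪e, z.2.2⟫ / ‖z.2.2‖)]
  obtain ⟨v, N, jΘ, lN, nv⟩ := th d P z H _ _ _ _ _ _ _ _ jT jY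
    (by rw [hst]; exact hT)
    (by rw [hnn]; linarith [bas.nt])
    (by rw [hnn]; linarith [(bas.nx z.2.2).2])
    (by rw [inner_smul_right, hπ, mul_zero])
    ((sq_le_one_iff₀ (norm_nonneg π)).1 hπ1)
  beta_reduce at lN nv
  rw [hst] at lN nv
  have hρ : ‖ρ‖ ≤ 8 * |z.2.1| * ga P z.2.2 H := by
    rw [mul_assoc]
    exact nρ.trans (div_le8 _ _ (mul_nonneg hn hg) hx1)
  have hδ : ‖t₁ • vR‖ ≤ t₁ * (4 + 8 * |z.2.1| * ga P z.2.2 H) := by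
    rw [norm_smul, Real.norm_eq_abs, abs_of_pos ht0]
    exact mul_le_mul_of_nonneg_left nR ht0.le
  have hM : √P * |M| ≤ 8 * d * ga P z.2.2 H + 112 * |z.2.1| * ga P z.2.2 H ^ 2 := by
    have h3 := div_le8 (14 * |z.2.1| * ga P z.2.2 H ^ 2) _ (by positivity) hx1
    linarith
  have hL : |s * 0 + t₁ * LR| ≤ t₁ * (ga P z.2.2 H + |z.2.1| * ga P z.2.2 H ^ 2 +
      (2 * d + 40 + 256 * (|z.2.1| * ga P z.2.2 H) ^ 2) / fR P m z) := by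
    rw [mul_zero, zero_add, abs_mul, abs_of_pos ht0]
    exact mul_le_mul_of_nonneg_left lR ht0.le
  have err := main_err d (√P) t₁ _ _ _ _ _ _ _ hd hw ht0 hp.td hn hnR hR rfl hg
    (add_nonneg (norm_nonneg _) (norm_nonneg _)) (add_le_add hδ hρ) hL hM
  refine ⟨_, _, jet.sub (jet.sub jΘ (jet.cmul A j₀)) (jet.cmul B j₂), ?_, ?_⟩
  · refine low A B s₀ s₂ _ _ _ _ _ _ _ N L₀ L₂ hA0 hB0 hp.as hbs hT hT0 hT2 lN err l₀ l₂
      (key B s₂ t₁ (√P) _ _ _ hB0 hp.s2 ht0 hR hn hp.sp hp.bt (sq_nonneg _) fun hc => ?_)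
    rw [nπ]
    linarith [hth hc hS]
  · refine grad_le P A B _ _ _ _ _ hA hB0 hp.b1 hp.pk (norm_nonneg _) ?_
    refine up A B s₀ s₂ t₁ _ _ _ _ _ _ _ _ _ _ hA0 hB0 hp.as hbs ht1 hT hn (by linarith) hg
      (add_le_add hδ hρ) nv n₀ n₂ ?_
    have h3 := norm_sub_le (v - A • v₀) (B • v₂)
    have h4 := norm_sub_le v (A • v₀)
    rw [norm_smul, Real.norm_eq_abs, abs_of_nonneg hB0] at h3
    rw [norm_smul, Real.norm_eq_abs, abs_of_nonneg hA0] at h4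
    linarith

end Pool.Agent.MP_815c6c_an.H
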