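import Pool.Agent.MP_815c6c_an.S.All
import Pool.Agent.MP_815c6c_an.H.Lip
import Pool.Agent.MP_815c6c_an.S.EDq
import Pool.Agent.MP_815c6c_an.S.EJac
import Pool.Agent.MP_815c6c_an.H.Tig
import Pool.Agent.MP_815c6c_an.H.Ns
import Pool.Agent.MP_815c6c_an.H.Win
import Pool.Agent.MP_815c6c_an.H.Rj
import Pool.Agent.MP_815c6c_an.H.Jet
import Pool.Agent.MP_815c6c_an.H.Wf

/-! Assembly: large exponents. -/

set_option autoImplicit false

namespace Pool.Agent.MP_815c6c_an.H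

open Filter

theorem core : CoreS :=
  have w := S.ws S.sob
  have l := S.ll S.sob
  core_of S.sob w (S.dq S.sob w (S.ts S.sob) S.tr S.mon) S.wk S.mor l (S.gap S.sob l) jet bas mp
    top inv ic th rj kin tha wf sz win tig fla step gw ind ns bar osc nat per lip ess mx vs glue

theorem large (d : ℕ) (κ : ℝ) (hκ : 0 < κ) : ∃ p₀ : ℝ, ∀ p : ℝ, p₀ ≤ p → ∀ b : ℝ, κ * p ≤ b →
    S.Out d p (2 * b) := by
  obtain ⟨p₀, h⟩ := eventually_atTop.1 (((core d (κ / 2) (by positivity)).and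
    (eventually_gt_atTop 2)).and (eventually_gt_atTop (2 / κ)))
  refine ⟨p₀, fun p hp b hb => ?_⟩
  obtain ⟨⟨⟨l, o, n⟩, h2⟩, hk⟩ := h p hp
  rw [div_lt_iff₀ hκ] at hk
  exact S.last d p _ h2 (by linarith) l (n _ (by linarith)) o

end Pool.Agent.MP_815c6c_an.H
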